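import Mathlib

/-! Linear algebra of 2-forms on a four dimensional real vector space with a complex structure. -/

namespace Pool.Agent.Y264
open Matrix

section ring
variable {R : Type*} [CommRing R]

/-- The wedge pairing of two 2-forms (antisymmetric matrices) in dimension four. -/
def wd (P Q : Matrix (Fin 4) (Fin 4) R) : R :=
  P 0 1 * Q 2 3 - P 0 2 * Q 1 3 + P 0 3 * Q 1 2 + P 2 3 * Q 0 1 - P 1 3 * Q 0 2 + P 1 2 * Q 0 3

/-- The wedge product of two covectors. -/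
def wg (p q : Fin 4 → R) : Matrix (Fin 4) (Fin 4) R := fun i j => p i * q j - p j * q i

/-- The twisted covector `-p ∘ J`. -/
def st (J : Matrix (Fin 4) (Fin 4) R) (p : Fin 4 → R) : Fin 4 → R :=
  fun j => -(J 0 j * p 0 + J 1 j * p 1 + J 2 j * p 2 + J 3 j * p 3)

/-- The determinant as a polynomial. -/
def det4 (B : Matrix (Fin 4) (Fin 4) R) : R := wd (wg (B 0) (B 1)) (wg (B 2) (B 3))

/-- The antisymmetric matrix with given upper entries. -/
def asm (a b c d e f : R) : Matrix (Fin 4) (Fin 4) R :=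
  !![0, a, b, c; -a, 0, d, e; -b, -d, 0, f; -c, -e, -f, 0]

set_option maxRecDepth 10000 in
theorem wd_conj_asm (B : Matrix (Fin 4) (Fin 4) R) (a b c d e f a' b' c' d' e' f' : R) :
    wd (Bᵀ * asm a b c d e f * B) (Bᵀ * asm a' b' c' d' e' f' * B)
      = det4 B * wd (asm a b c d e f) (asm a' b' c' d' e' f') := by
  simp only [wd, det4, wg, asm, Matrix.mul_apply, Fin.sum_univ_four, Matrix.transpose_apply,
    Matrix.of_apply, Matrix.cons_val', Matrix.cons_val_zero, Matrix.cons_val_one, Matrix.cons_val,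
    Matrix.cons_val_fin_one]
  ring

theorem wd_comm (P Q : Matrix (Fin 4) (Fin 4) R) : wd P Q = wd Q P := by
  simp only [wd]; ring

theorem wd_add_left (P P' Q : Matrix (Fin 4) (Fin 4) R) : wd (P + P') Q = wd P Q + wd P' Q := by
  simp only [wd, Matrix.add_apply]; ring

theorem wd_add_right (P Q Q' : Matrix (Fin 4) (Fin 4) R) : wd P (Q + Q') = wd P Q + wd P Q' := by
  simp only [wd, Matrix.add_apply]; ring

theorem wd_sub_left (P P' Q : Matrix (Fin 4) (Fin 4) R) : wd (P - P') Q = wd P Q - wd P' Q := by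
  simp only [wd, Matrix.sub_apply]; ring

theorem wd_sub_right (P Q Q' : Matrix (Fin 4) (Fin 4) R) : wd P (Q - Q') = wd P Q - wd P Q' := by
  simp only [wd, Matrix.sub_apply]; ring

theorem wd_neg_left (P Q : Matrix (Fin 4) (Fin 4) R) : wd (-P) Q = -wd P Q := by
  simp only [wd, Matrix.neg_apply]; ring

theorem wd_neg_right (P Q : Matrix (Fin 4) (Fin 4) R) : wd P (-Q) = -wd P Q := by
  simp only [wd, Matrix.neg_apply]; ring

theorem wd_smul_left (t : R) (P Q : Matrix (Fin 4) (Fin 4) R) : wd (t • P) Q = t * wd P Q := by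
  simp only [wd, Matrix.smul_apply, smul_eq_mul]; ring

theorem wd_smul_right (t : R) (P Q : Matrix (Fin 4) (Fin 4) R) : wd P (t • Q) = t * wd P Q := by
  simp only [wd, Matrix.smul_apply, smul_eq_mul]; ring

end ring

/-- Antisymmetric. -/
def Asy (P : Matrix (Fin 4) (Fin 4) ℝ) : Prop := ∀ i j, P i j = - P j i

theorem Asy.eq_asm {P : Matrix (Fin 4) (Fin 4) ℝ} (h : Asy P) :
    P = asm (P 0 1) (P 0 2) (P 0 3) (P 1 2) (P 1 3) (P 2 3) := by
  have h00 := h 0 0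
  have h11 := h 1 1
  have h22 := h 2 2
  have h33 := h 3 3
  have e0 : P 0 0 = 0 := by linarith
  have e1 : P 1 1 = 0 := by linarith
  have e2 : P 2 2 = 0 := by linarith
  have e3 : P 3 3 = 0 := by linarith
  ext i j
  fin_cases i <;> fin_cases j <;> simp [asm, e0, e1, e2, e3] <;> exact h _ _

theorem wd_conj (B : Matrix (Fin 4) (Fin 4) ℝ) {P Q : Matrix (Fin 4) (Fin 4) ℝ} (hP : Asy P)
    (hQ : Asy Q) : wd (Bᵀ * P * B) (Bᵀ * Q * B) = det4 B * wd P Q := by
  rw [hP.eq_asm, hQ.eq_asm]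
  exact wd_conj_asm _ _ _ _ _ _ _ _ _ _ _ _ _

theorem Asy.conj {P : Matrix (Fin 4) (Fin 4) ℝ} (h : Asy P) (B : Matrix (Fin 4) (Fin 4) ℝ) :
    Asy (Bᵀ * P * B) := by
  have hP : Pᵀ = -P := by
    ext i j; simp only [Matrix.transpose_apply, Matrix.neg_apply]; exact h j i
  intro i j
  have : (Bᵀ * P * B)ᵀ = -(Bᵀ * P * B) := by
    rw [Matrix.transpose_mul, Matrix.transpose_mul, hP, Matrix.transpose_transpose]
    simp [Matrix.mul_assoc]
  have h2 := congrFun (congrFun this j) i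
  simpa using h2

theorem Asy.add {P Q : Matrix (Fin 4) (Fin 4) ℝ} (h : Asy P) (h' : Asy Q) : Asy (P + Q) := by
  intro i j; have := h i j; have := h' i j; simp only [Matrix.add_apply]; linarith

theorem Asy.sub {P Q : Matrix (Fin 4) (Fin 4) ℝ} (h : Asy P) (h' : Asy Q) : Asy (P - Q) := by
  intro i j; have := h i j; have := h' i j; simp only [Matrix.sub_apply]; linarith

theorem Asy.smul {P : Matrix (Fin 4) (Fin 4) ℝ} (h : Asy P) (t : ℝ) : Asy (t • P) := by
  intro i j; have := h i j; simp only [Matrix.smul_apply, smul_eq_mul]; rw [this]; ring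

theorem asy_wg (p q : Fin 4 → ℝ) : Asy (wg p q) := by
  intro i j; simp only [wg]; ring

/-- The quadratic form `X ↦ P(X, JX)`. -/
def qf (J P : Matrix (Fin 4) (Fin 4) ℝ) (X : Fin 4 → ℝ) : ℝ := X ⬝ᵥ (P *ᵥ (J *ᵥ X))

/-- Invariant 2-forms. -/
def Inv (J P : Matrix (Fin 4) (Fin 4) ℝ) : Prop := Jᵀ * P * J = P

/-- Anti-invariant 2-forms. -/
def AInv (J P : Matrix (Fin 4) (Fin 4) ℝ) : Prop := Jᵀ * P * J = -P

/-- The standard complex structure. -/
def J0 : Matrix (Fin 4) (Fin 4) ℝ := !![0, -1, 0, 0; 1, 0, 0, 0; 0, 0, 0, -1; 0, 0, 1, 0]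

theorem exists_frame (J : Matrix (Fin 4) (Fin 4) ℝ) (hJ : J * J = -1) :
    ∃ B : Matrix (Fin 4) (Fin 4) ℝ, B.det ≠ 0 ∧ J * B = B * J0 := by
  classical
  have hJv : ∀ v : Fin 4 → ℝ, J *ᵥ (J *ᵥ v) = -v := by
    intro v; rw [Matrix.mulVec_mulVec, hJ, Matrix.neg_mulVec, Matrix.one_mulVec]
  set e : Fin 4 → ℝ := Pi.single 0 1 with he
  set W : Submodule ℝ (Fin 4 → ℝ) := Submodule.span ℝ {e, J *ᵥ e} with hW
  have he0 : e ≠ 0 := by
    intro h; have := congrFun h 0; simp [he] at this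
  have hWdim : Module.finrank ℝ W ≤ 2 := by
    have h1 : Module.finrank ℝ (Submodule.span ℝ (({e, J *ᵥ e} : Finset (Fin 4 → ℝ)) : Set (Fin 4 → ℝ)))
        ≤ ({e, J *ᵥ e} : Finset (Fin 4 → ℝ)).card := finrank_span_finset_le_card _
    have h2 : ({e, J *ᵥ e} : Finset (Fin 4 → ℝ)).card ≤ 2 := Finset.card_le_two
    have h3 : (({e, J *ᵥ e} : Finset (Fin 4 → ℝ)) : Set (Fin 4 → ℝ)) = {e, J *ᵥ e} := by simp
    rw [h3] at h1
    exact h1.trans h2
  have hWtop : W ≠ ⊤ := by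
    intro h
    rw [h, finrank_top, Module.finrank_fin_fun] at hWdim
    omega
  obtain ⟨f, hf⟩ : ∃ f : Fin 4 → ℝ, f ∉ W := by
    by_contra hcon
    push Not at hcon
    exact hWtop (Submodule.eq_top_iff'.mpr hcon)
  have hWJ : ∀ w ∈ W, J *ᵥ w ∈ W := by
    intro w hw
    rw [hW, Submodule.mem_span_pair] at hw
    obtain ⟨a, b, rfl⟩ := hw
    rw [Matrix.mulVec_add, Matrix.mulVec_smul, Matrix.mulVec_smul, hJv]
    rw [hW, Submodule.mem_span_pair]
    exact ⟨-b, a, by simp; abel⟩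
  set B : Matrix (Fin 4) (Fin 4) ℝ := fun i j => ![e, J *ᵥ e, f, J *ᵥ f] j i with hB
  have hBv : ∀ y : Fin 4 → ℝ, B *ᵥ y = y 0 • e + y 1 • (J *ᵥ e) + y 2 • f + y 3 • (J *ᵥ f) := by
    intro y
    ext i
    simp [hB, Matrix.mulVec, dotProduct, Fin.sum_univ_four]
    ring
  refine ⟨B, ?_, ?_⟩
  · intro hdet
    obtain ⟨y, hy0, hy⟩ := Matrix.exists_mulVec_eq_zero_iff.mpr hdet
    rw [hBv] at hy
    apply hy0
    by_cases h23 : y 2 = 0 ∧ y 3 = 0
    · rw [h23.1, h23.2] at hy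
      simp only [zero_smul, add_zero] at hy
      have h1 : (y 0) • (y 0 • e + y 1 • (J *ᵥ e)) - (y 1) • (J *ᵥ (y 0 • e + y 1 • (J *ᵥ e))) = 0 := by
        rw [hy, Matrix.mulVec_zero, smul_zero, smul_zero, sub_zero]
      rw [Matrix.mulVec_add, Matrix.mulVec_smul, Matrix.mulVec_smul, hJv] at h1
      have h2 : (y 0 ^ 2 + y 1 ^ 2) • e = 0 := by
        rw [← h1]; module
      rcases smul_eq_zero.mp h2 with h3 | h3
      · have h4 : y 0 = 0 := by nlinarith [sq_nonneg (y 0), sq_nonneg (y 1)]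
        have h5 : y 1 = 0 := by nlinarith [sq_nonneg (y 0), sq_nonneg (y 1)]
        ext i; fin_cases i
        · exact h4
        · exact h5
        · exact h23.1
        · exact h23.2
      · exact absurd h3 he0
    · exfalso
      set w : Fin 4 → ℝ := -(y 0 • e + y 1 • (J *ᵥ e)) with hw
      have hwW : w ∈ W := by
        rw [hw, hW]
        apply Submodule.neg_mem
        rw [Submodule.mem_span_pair]
        exact ⟨y 0, y 1, rfl⟩
      have h1 : y 2 • f + y 3 • (J *ᵥ f) = w := by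
        rw [hw, eq_neg_iff_add_eq_zero, ← hy]; abel
      have h2 : (y 2 ^ 2 + y 3 ^ 2) • f = (y 2) • w - (y 3) • (J *ᵥ w) := by
        rw [← h1, Matrix.mulVec_add, Matrix.mulVec_smul, Matrix.mulVec_smul, hJv]
        module
      have h3 : (y 2 ^ 2 + y 3 ^ 2) • f ∈ W := by
        rw [h2]
        exact Submodule.sub_mem _ (Submodule.smul_mem _ _ hwW) (Submodule.smul_mem _ _ (hWJ w hwW))
      have h4 : y 2 ^ 2 + y 3 ^ 2 ≠ 0 := by
        intro h
        apply h23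
        constructor
        · nlinarith [sq_nonneg (y 2), sq_nonneg (y 3)]
        · nlinarith [sq_nonneg (y 2), sq_nonneg (y 3)]
      exact hf ((Submodule.smul_mem_iff _ h4).mp h3)
  · have key : ∀ y : Fin 4 → ℝ, (J * B) *ᵥ y = (B * J0) *ᵥ y := by
      intro y
      rw [← Matrix.mulVec_mulVec, ← Matrix.mulVec_mulVec, hBv, hBv]
      simp only [Matrix.mulVec_add, Matrix.mulVec_smul, hJv]
      have a0 : (J0 *ᵥ y) 0 = - y 1 := by simp [J0, Matrix.mulVec, dotProduct, Fin.sum_univ_four]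
      have a1 : (J0 *ᵥ y) 1 = y 0 := by simp [J0, Matrix.mulVec, dotProduct, Fin.sum_univ_four]
      have a2 : (J0 *ᵥ y) 2 = - y 3 := by simp [J0, Matrix.mulVec, dotProduct, Fin.sum_univ_four]
      have a3 : (J0 *ᵥ y) 3 = y 2 := by simp [J0, Matrix.mulVec, dotProduct, Fin.sum_univ_four]
      rw [a0, a1, a2, a3]
      module
    ext i j
    have h := congrFun (key (Pi.single j 1)) i
    simpa using h

theorem qf_frame {J B : Matrix (Fin 4) (Fin 4) ℝ} (hB : J * B = B * J0)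
    (P : Matrix (Fin 4) (Fin 4) ℝ) (x : Fin 4 → ℝ) :
    qf J P (B *ᵥ x) = qf J0 (Bᵀ * P * B) x := by
  have h1 : J *ᵥ (B *ᵥ x) = B *ᵥ (J0 *ᵥ x) := by
    rw [Matrix.mulVec_mulVec, hB, ← Matrix.mulVec_mulVec]
  have h2 : ∀ w : Fin 4 → ℝ, (B *ᵥ x) ⬝ᵥ w = x ⬝ᵥ (Bᵀ *ᵥ w) := by
    intro w
    rw [Matrix.dotProduct_mulVec, Matrix.vecMul_transpose]
  unfold qf
  rw [h1, h2]
  simp only [Matrix.mulVec_mulVec, Matrix.mul_assoc]

theorem inv_frame {J B P : Matrix (Fin 4) (Fin 4) ℝ} (hB : J * B = B * J0) (h : Inv J P) :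
    Inv J0 (Bᵀ * P * B) := by
  have hB' : J0ᵀ * Bᵀ = Bᵀ * Jᵀ := by
    rw [← Matrix.transpose_mul, ← hB, Matrix.transpose_mul]
  unfold Inv at *
  calc J0ᵀ * (Bᵀ * P * B) * J0 = (J0ᵀ * Bᵀ) * P * (B * J0) := by simp only [Matrix.mul_assoc]
    _ = (Bᵀ * Jᵀ) * P * (J * B) := by rw [hB', hB]
    _ = Bᵀ * (Jᵀ * P * J) * B := by simp only [Matrix.mul_assoc]
    _ = Bᵀ * P * B := by rw [h]

theorem ainv_frame {J B P : Matrix (Fin 4) (Fin 4) ℝ} (hB : J * B = B * J0) (h : AInv J P) :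
    AInv J0 (Bᵀ * P * B) := by
  have hB' : J0ᵀ * Bᵀ = Bᵀ * Jᵀ := by
    rw [← Matrix.transpose_mul, ← hB, Matrix.transpose_mul]
  unfold AInv at *
  calc J0ᵀ * (Bᵀ * P * B) * J0 = (J0ᵀ * Bᵀ) * P * (B * J0) := by simp only [Matrix.mul_assoc]
    _ = (Bᵀ * Jᵀ) * P * (J * B) := by rw [hB', hB]
    _ = Bᵀ * (Jᵀ * P * J) * B := by simp only [Matrix.mul_assoc]
    _ = -(Bᵀ * P * B) := by rw [h]; simp

theorem inv_J0 {P : Matrix (Fin 4) (Fin 4) ℝ} (ha : Asy P) (h : Inv J0 P) :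
    P 1 3 = P 0 2 ∧ P 1 2 = - P 0 3 := by
  have h1 := congrFun (congrFun h 0) 2
  have h2 := congrFun (congrFun h 0) 3
  have a1 := ha 1 3
  have a2 := ha 1 2
  simp [J0, Matrix.mul_apply, Fin.sum_univ_four, Matrix.transpose_apply] at h1 h2
  constructor <;> linarith

theorem ainv_J0 {P : Matrix (Fin 4) (Fin 4) ℝ} (ha : Asy P) (h : AInv J0 P) :
    P 0 1 = 0 ∧ P 2 3 = 0 ∧ P 1 3 = - P 0 2 ∧ P 1 2 = P 0 3 := by
  have h1 := congrFun (congrFun h 0) 2
  have h2 := congrFun (congrFun h 0) 3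
  have h3 := congrFun (congrFun h 0) 1
  have h4 := congrFun (congrFun h 2) 3
  have a1 := ha 1 3
  have a2 := ha 1 2
  have a3 := ha 0 1
  have a4 := ha 2 3
  simp [J0, Matrix.mul_apply, Fin.sum_univ_four, Matrix.transpose_apply] at h1 h2 h3 h4
  refine ⟨?_, ?_, ?_, ?_⟩ <;> linarith

end Pool.Agent.Y264
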