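import Pool.Agent.Y264.Alg
namespace Pool.Agent.Y264
open Matrix

theorem det4_eq (B : Matrix (Fin 4) (Fin 4) ℝ) : det4 B = B.det := by
  rw [Matrix.det_succ_row_zero]
  simp only [Fin.sum_univ_four, Matrix.det_fin_three, Matrix.submatrix_apply, det4, wd, wg]
  simp [Fin.succAbove]
  ring

theorem wd_inv_ainv {J P N : Matrix (Fin 4) (Fin 4) ℝ} (hJ : J * J = -1) (hP : Asy P)
    (hN : Asy N) (h1 : Inv J P) (h2 : AInv J N) : wd P N = 0 := by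
  obtain ⟨B, hB, hJB⟩ := exists_frame J hJ
  have k1 := wd_conj B hP hN
  have k2 := inv_J0 (hP.conj B) (inv_frame hJB h1)
  have k3 := ainv_J0 (hN.conj B) (ainv_frame hJB h2)
  have k4 : wd (Bᵀ * P * B) (Bᵀ * N * B) = 0 := by
    unfold wd
    rw [k3.1, k3.2.1, k3.2.2.1, k3.2.2.2, k2.1, k2.2]
    ring
  rw [k4, det4_eq] at k1
  rcases mul_eq_zero.mp k1.symm with h | h
  · exact absurd h hB
  · exact h

/-- Nonnegative 2-forms. -/
def Pos (J P : Matrix (Fin 4) (Fin 4) ℝ) : Prop := ∀ X, 0 ≤ qf J P X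

/-- Positive 2-forms. -/
def SPos (J P : Matrix (Fin 4) (Fin 4) ℝ) : Prop := ∀ X, X ≠ 0 → 0 < qf J P X

/-- `σ` is the orientation sign of `J`. -/
structure Ori (σ : ℝ) (J : Matrix (Fin 4) (Fin 4) ℝ) : Prop where
  sq : σ * σ = 1
  pos : ∀ P Q, Asy P → Inv J P → Pos J P → Asy Q → Inv J Q → Pos J Q → 0 ≤ σ * wd P Q
  spos : ∀ P Q, Asy P → Inv J P → SPos J P → Asy Q → Inv J Q → Pos J Q → Q ≠ 0 → 0 < σ * wd P Q
  neg : ∀ N, Asy N → AInv J N → N ≠ 0 → 0 < σ * wd N N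

theorem qf_J0 {P : Matrix (Fin 4) (Fin 4) ℝ} (ha : Asy P) (h : Inv J0 P) (a b c d : ℝ) :
    qf J0 P ![a, b, c, d] = P 0 1 * (a ^ 2 + b ^ 2) + P 2 3 * (c ^ 2 + d ^ 2)
      + 2 * P 0 3 * (a * c + b * d) + 2 * P 0 2 * (b * c - a * d) := by
  obtain ⟨k1, k2⟩ := inv_J0 ha h
  have h00 := ha 0 0
  have h11 := ha 1 1
  have h22 := ha 2 2
  have h33 := ha 3 3
  have e0 : P 0 0 = 0 := by linarith
  have e1 : P 1 1 = 0 := by linarith
  have e2 : P 2 2 = 0 := by linarith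
  have e3 : P 3 3 = 0 := by linarith
  simp [qf, J0, Matrix.mulVec, dotProduct, Fin.sum_univ_four]
  rw [e0, e1, e2, e3, ha 1 0, ha 2 0, ha 3 0, ha 2 1, ha 3 1, ha 3 2, k1, k2]
  ring

theorem pos_J0 {P : Matrix (Fin 4) (Fin 4) ℝ} (ha : Asy P) (h : Inv J0 P) (hp : Pos J0 P) :
    0 ≤ P 0 1 ∧ 0 ≤ P 2 3 ∧ P 0 2 ^ 2 + P 0 3 ^ 2 ≤ P 0 1 * P 2 3 := by
  have h1 := hp ![1, 0, 0, 0]
  have h2 := hp ![0, 0, 1, 0]
  rw [qf_J0 ha h] at h1 h2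
  have p1 : 0 ≤ P 0 1 := by linarith
  have p2 : 0 ≤ P 2 3 := by linarith
  refine ⟨p1, p2, ?_⟩
  rcases p2.eq_or_lt with h0 | h0
  · by_contra hcon
    rw [← h0, mul_zero, not_le] at hcon
    set s : ℝ := P 0 2 ^ 2 + P 0 3 ^ 2 with hs
    have h3 := hp ![1, 0, -(P 0 3) * ((P 0 1 + 1) / s), (P 0 2) * ((P 0 1 + 1) / s)]
    rw [qf_J0 ha h, ← h0] at h3
    have h5 : (P 0 1 + 1) / s * s = P 0 1 + 1 := div_mul_cancel₀ _ hcon.ne'
    have h6 : 0 ≤ P 0 1 - 2 * ((P 0 1 + 1) / s * s) := by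
      rw [hs] at h3 ⊢
      nlinarith
    rw [h5] at h6
    linarith
  · have h3 := hp ![P 2 3, 0, -(P 0 3), P 0 2]
    rw [qf_J0 ha h] at h3
    have h4 : 0 ≤ P 2 3 * (P 0 1 * P 2 3 - (P 0 2 ^ 2 + P 0 3 ^ 2)) := by nlinarith
    have := nonneg_of_mul_nonneg_right h4 h0
    linarith

theorem spos_J0 {P : Matrix (Fin 4) (Fin 4) ℝ} (ha : Asy P) (h : Inv J0 P) (hp : SPos J0 P) :
    0 < P 0 1 ∧ 0 < P 2 3 ∧ P 0 2 ^ 2 + P 0 3 ^ 2 < P 0 1 * P 2 3 := by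
  have n1 : (![1, 0, 0, 0] : Fin 4 → ℝ) ≠ 0 := fun h => by simpa using congrFun h 0
  have n2 : (![0, 0, 1, 0] : Fin 4 → ℝ) ≠ 0 := fun h => by simpa using congrFun h 2
  have h1 := hp ![1, 0, 0, 0] n1
  have h2 := hp ![0, 0, 1, 0] n2
  rw [qf_J0 ha h] at h1 h2
  have p1 : 0 < P 0 1 := by linarith
  have p2 : 0 < P 2 3 := by linarith
  refine ⟨p1, p2, ?_⟩
  have n3 : (![P 2 3, 0, -(P 0 3), P 0 2] : Fin 4 → ℝ) ≠ 0 := fun h => by
    have := congrFun h 0; simp at this; exact p2.ne' this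
  have h3 := hp ![P 2 3, 0, -(P 0 3), P 0 2] n3
  rw [qf_J0 ha h] at h3
  have h4 : 0 < P 2 3 * (P 0 1 * P 2 3 - (P 0 2 ^ 2 + P 0 3 ^ 2)) := by nlinarith
  have := (mul_pos_iff_of_pos_left p2).mp h4
  linarith

theorem qf_smul (J P : Matrix (Fin 4) (Fin 4) ℝ) (t : ℝ) (X : Fin 4 → ℝ) :
    qf J P (t • X) = t ^ 2 * qf J P X := by
  unfold qf
  rw [Matrix.mulVec_smul, Matrix.mulVec_smul, dotProduct_smul, smul_dotProduct]
  simp only [smul_eq_mul]; ring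

theorem qf_add_left (J P Q : Matrix (Fin 4) (Fin 4) ℝ) (X : Fin 4 → ℝ) :
    qf J (P + Q) X = qf J P X + qf J Q X := by
  unfold qf; rw [Matrix.add_mulVec, dotProduct_add]

theorem qf_sub_left (J P Q : Matrix (Fin 4) (Fin 4) ℝ) (X : Fin 4 → ℝ) :
    qf J (P - Q) X = qf J P X - qf J Q X := by
  unfold qf; rw [Matrix.sub_mulVec, dotProduct_sub]

theorem qf_smul_left (J P : Matrix (Fin 4) (Fin 4) ℝ) (t : ℝ) (X : Fin 4 → ℝ) :
    qf J (t • P) X = t * qf J P X := by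
  unfold qf; rw [Matrix.smul_mulVec, dotProduct_smul]; rfl

theorem exists_ori (J : Matrix (Fin 4) (Fin 4) ℝ) (hJ : J * J = -1) : ∃ σ, Ori σ J := by
  obtain ⟨B, hB, hJB⟩ := exists_frame J hJ
  have hinj : ∀ x : Fin 4 → ℝ, x ≠ 0 → B *ᵥ x ≠ 0 := by
    intro x hx h
    exact hB (Matrix.exists_mulVec_eq_zero_iff.mp ⟨x, hx, h⟩)
  have hBi : B * B⁻¹ = 1 := Matrix.mul_nonsing_inv B (isUnit_iff_ne_zero.mpr hB)
  have hzero : ∀ P : Matrix (Fin 4) (Fin 4) ℝ, Bᵀ * P * B = 0 → P = 0 := by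
    intro P hP
    have : (B⁻¹)ᵀ * (Bᵀ * P * B) * B⁻¹ = P := by
      calc (B⁻¹)ᵀ * (Bᵀ * P * B) * B⁻¹ = ((B⁻¹)ᵀ * Bᵀ) * P * (B * B⁻¹) := by
            simp only [Matrix.mul_assoc]
        _ = (B * B⁻¹)ᵀ * P * (B * B⁻¹) := by rw [Matrix.transpose_mul]
        _ = P := by rw [hBi]; simp
    rw [← this, hP]; simp
  -- the sign
  obtain ⟨σ, hσ1, hσ2⟩ : ∃ σ : ℝ, σ * σ = 1 ∧ 0 < σ * det4 B := by
    rw [det4_eq]
    rcases lt_or_gt_of_ne hB with h | h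
    · exact ⟨-1, by norm_num, by linarith⟩
    · exact ⟨1, by norm_num, by linarith⟩
  have key : ∀ P Q, Asy P → Asy Q → wd (Bᵀ * P * B) (Bᵀ * Q * B) = (σ * det4 B) * (σ * wd P Q) := by
    intro P Q hP hQ
    rw [wd_conj B hP hQ]
    calc det4 B * wd P Q = (σ * σ) * (det4 B * wd P Q) := by rw [hσ1, one_mul]
      _ = _ := by ring
  have key0 : ∀ P Q, Asy P → Asy Q → 0 ≤ wd (Bᵀ * P * B) (Bᵀ * Q * B) → 0 ≤ σ * wd P Q := by
    intro P Q hP hQ h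
    rw [key P Q hP hQ] at h
    exact nonneg_of_mul_nonneg_right h hσ2
  have key1 : ∀ P Q, Asy P → Asy Q → 0 < wd (Bᵀ * P * B) (Bᵀ * Q * B) → 0 < σ * wd P Q := by
    intro P Q hP hQ h
    rw [key P Q hP hQ] at h
    exact (mul_pos_iff_of_pos_left hσ2).mp h
  refine ⟨σ, hσ1, ?_, ?_, ?_⟩
  · intro P Q hP hPi hPp hQ hQi hQp
    apply key0 P Q hP hQ
    have a1 := inv_J0 (hP.conj B) (inv_frame hJB hPi)
    have a2 := inv_J0 (hQ.conj B) (inv_frame hJB hQi)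
    have a3 := pos_J0 (hP.conj B) (inv_frame hJB hPi) (fun x => by
      rw [← qf_frame hJB]; exact hPp _)
    have a4 := pos_J0 (hQ.conj B) (inv_frame hJB hQi) (fun x => by
      rw [← qf_frame hJB]; exact hQp _)
    generalize Bᵀ * P * B = U at *
    generalize Bᵀ * Q * B = V at *
    obtain ⟨u1, u2, u3⟩ := a3
    obtain ⟨v1, v2, v3⟩ := a4
    unfold wd
    rw [a1.1, a1.2, a2.1, a2.2]
    have cs : (U 0 2 * V 0 2 + U 0 3 * V 0 3) ^ 2 ≤ (U 0 2 ^ 2 + U 0 3 ^ 2) * (V 0 2 ^ 2 + V 0 3 ^ 2) := by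
      nlinarith [sq_nonneg (U 0 2 * V 0 3 - U 0 3 * V 0 2)]
    have m1 : (U 0 2 ^ 2 + U 0 3 ^ 2) * (V 0 2 ^ 2 + V 0 3 ^ 2) ≤ (U 0 1 * U 2 3) * (V 0 1 * V 2 3) :=
      mul_le_mul u3 v3 (by positivity) (by positivity)
    have m2 : (2 * (U 0 2 * V 0 2 + U 0 3 * V 0 3)) ^ 2 ≤ (U 0 1 * V 2 3 + U 2 3 * V 0 1) ^ 2 := by
      nlinarith [sq_nonneg (U 0 1 * V 2 3 - U 2 3 * V 0 1)]
    have m3 := abs_le_of_sq_le_sq m2 (by positivity)
    have m4 := (abs_le.mp m3).2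
    linarith
  · intro P Q hP hPi hPp hQ hQi hQp hQ0
    apply key1 P Q hP hQ
    have a1 := inv_J0 (hP.conj B) (inv_frame hJB hPi)
    have a2 := inv_J0 (hQ.conj B) (inv_frame hJB hQi)
    have a3 := spos_J0 (hP.conj B) (inv_frame hJB hPi) (fun x hx => by
      rw [← qf_frame hJB]; exact hPp _ (hinj x hx))
    have a4 := pos_J0 (hQ.conj B) (inv_frame hJB hQi) (fun x => by
      rw [← qf_frame hJB]; exact hQp _)
    have hV0 : Bᵀ * Q * B ≠ 0 := fun h => hQ0 (hzero Q h)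
    have hVa := hQ.conj B
    generalize Bᵀ * P * B = U at *
    generalize Bᵀ * Q * B = V at *
    obtain ⟨u1, u2, u3⟩ := a3
    obtain ⟨v1, v2, v3⟩ := a4
    have hV1 : 0 < V 0 1 + V 2 3 := by
      rcases (add_nonneg v1 v2).eq_or_lt with h | h
      · exfalso
        have w1 : V 0 1 = 0 := by linarith
        have w2 : V 2 3 = 0 := by linarith
        rw [w1, w2] at v3
        have w3 : V 0 2 = 0 := by nlinarith [sq_nonneg (V 0 2), sq_nonneg (V 0 3)]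
        have w4 : V 0 3 = 0 := by nlinarith [sq_nonneg (V 0 2), sq_nonneg (V 0 3)]
        apply hV0
        rw [hVa.eq_asm, w1, w2, w3, w4, a2.1, a2.2, w3, w4]
        ext i j
        fin_cases i <;> fin_cases j <;> simp [asm]
      · exact h
    unfold wd
    rw [a1.1, a1.2, a2.1, a2.2]
    have cs : (U 0 2 * V 0 2 + U 0 3 * V 0 3) ^ 2 ≤ (U 0 2 ^ 2 + U 0 3 ^ 2) * (V 0 2 ^ 2 + V 0 3 ^ 2) := by
      nlinarith [sq_nonneg (U 0 2 * V 0 3 - U 0 3 * V 0 2)]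
    have m1 : (U 0 2 ^ 2 + U 0 3 ^ 2) * (V 0 2 ^ 2 + V 0 3 ^ 2) ≤ (U 0 2 ^ 2 + U 0 3 ^ 2) * (V 0 1 * V 2 3) :=
      mul_le_mul_of_nonneg_left v3 (by positivity)
    have m5 : 0 < U 0 1 * V 2 3 + U 2 3 * V 0 1 := by
      rcases v1.eq_or_lt with h | h
      · rw [← h] at hV1 ⊢; simp at hV1 ⊢; positivity
      · positivity
    have m2 : (2 * (U 0 2 * V 0 2 + U 0 3 * V 0 3)) ^ 2 < (U 0 1 * V 2 3 + U 2 3 * V 0 1) ^ 2 := by
      rcases (mul_nonneg v1 v2).eq_or_lt with h | h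
      · rw [← h, mul_zero] at m1
        nlinarith [sq_nonneg (U 0 1 * V 2 3 - U 2 3 * V 0 1), pow_pos m5 2]
      · nlinarith [sq_nonneg (U 0 1 * V 2 3 - U 2 3 * V 0 1), mul_lt_mul_of_pos_right u3 h]
    have m3 := abs_lt_of_sq_lt_sq m2 m5.le
    have m4 := (abs_lt.mp m3).2
    linarith
  · intro N hN hNi hN0
    apply key1 N N hN hN
    have a1 := ainv_J0 (hN.conj B) (ainv_frame hJB hNi)
    have hV0 : Bᵀ * N * B ≠ 0 := fun h => hN0 (hzero N h)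
    have hVa := hN.conj B
    generalize Bᵀ * N * B = V at *
    obtain ⟨v1, v2, v3, v4⟩ := a1
    unfold wd
    rw [v1, v2, v3, v4]
    have : 0 < V 0 2 ^ 2 + V 0 3 ^ 2 := by
      rcases (add_nonneg (sq_nonneg (V 0 2)) (sq_nonneg (V 0 3))).eq_or_lt with h | h
      · exfalso
        have w3 : V 0 2 = 0 := by nlinarith [sq_nonneg (V 0 2), sq_nonneg (V 0 3)]
        have w4 : V 0 3 = 0 := by nlinarith [sq_nonneg (V 0 2), sq_nonneg (V 0 3)]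
        apply hV0
        rw [hVa.eq_asm, v1, v2, v3, v4, w3, w4]
        ext i j
        fin_cases i <;> fin_cases j <;> simp [asm]
      · exact h
    nlinarith

end Pool.Agent.Y264
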