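import Pool.Agent.Y264.Ibp

/-! Cut-off functions and comparison of integrals. -/

namespace Pool.Agent.Y264
open Matrix MeasureTheory Set Filter Topology
open scoped ContDiff Manifold

/-- Compact support inside `S`. -/
structure Sup (S : Set E4) (f : SA) : Prop where
  cs : CS f
  sub : tsupport f.1 ⊆ S

theorem Sup.add {S : Set E4} {f g : SA} (hf : Sup S f) (hg : Sup S g) : Sup S (f + g) :=
  ⟨hf.cs.add hg.cs, (tsupport_add (f := f.1) (g := g.1)).trans (union_subset hf.sub hg.sub)⟩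

theorem Sup.smul {S : Set E4} {f : SA} (hf : Sup S f) (t : ℝ) : Sup S (t • f) := by
  refine ⟨hf.cs.smul t, ?_⟩
  have : (t • f : SA) = cst t * f := smul_SA t f
  rw [this]
  exact (tsupport_mul_subset_right (f := (cst t).1) (g := f.1)).trans hf.sub

theorem Sup.neg {S : Set E4} {f : SA} (hf : Sup S f) : Sup S (-f) := by
  have h := hf.smul (-1)
  simpa using h

theorem Sup.sub' {S : Set E4} {f g : SA} (hf : Sup S f) (hg : Sup S g) : Sup S (f - g) := by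
  rw [sub_eq_add_neg]; exact hf.add hg.neg

theorem Sup.mul_right {S : Set E4} {f : SA} (hf : Sup S f) (g : SA) : Sup S (f * g) :=
  ⟨hf.cs.mul_right g, (tsupport_mul_subset_left (f := f.1) (g := g.1)).trans hf.sub⟩

theorem Sup.mul_left {S : Set E4} {f : SA} (hf : Sup S f) (g : SA) : Sup S (g * f) :=
  ⟨hf.cs.mul_left g, (tsupport_mul_subset_right (f := g.1) (g := f.1)).trans hf.sub⟩

theorem Sup.D {S : Set E4} {f : SA} (hf : Sup S f) (i : Fin 4) : Sup S (D i f) :=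
  ⟨hf.cs.D i, (tsup_D i f).trans hf.sub⟩

theorem Sup.val {S : Set E4} {f : SA} (hf : Sup S f) {x : E4} (hx : x ∉ S) : f.1 x = 0 :=
  val_zero (fun h => hx (hf.sub h))

theorem sup_wd_left {S : Set E4} {P Q : Matrix (Fin 4) (Fin 4) SA} (h : ∀ i j, Sup S (P i j)) :
    Sup S (wd P Q) := by
  unfold wd
  exact (((((h 0 1).mul_right _).sub' ((h 0 2).mul_right _)).add ((h 0 3).mul_right _)).add
    ((h 2 3).mul_right _)).sub' ((h 1 3).mul_right _) |>.add ((h 1 2).mul_right _)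

theorem sup_wg_left {S : Set E4} {p q : Fin 4 → SA} (h : ∀ i, Sup S (p i)) (i j : Fin 4) :
    Sup S (wg p q i j) := ((h i).mul_right _).sub' ((h j).mul_right _)

section
variable {J : Matrix (Fin 4) (Fin 4) SA} {σ : ℝ} {S : Set E4} {ρ : SA}

theorem Sup.Gam_l {Φ : SA} (h : Sup S Φ) (b a : SA) : Sup S (Gam J σ b Φ a) :=
  (sup_wd_left (sup_wg_left (fun i => h.D i))).smul _

theorem Sup.nu_l {Φ : SA} (h : Sup S Φ) (a b : SA) : Sup S (nu J σ Φ a b) :=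
  (sup_wd_left (sup_wg_left (fun i => h.D i))).smul _

theorem Sup.ZZ {Φ : SA} (h : Sup S Φ) (a b : SA) : Sup S (ZZ J σ Φ a b) :=
  (((h.mul_right _).add (h.Gam_l _ _)).add (h.nu_l _ _)).add (h.mul_right _)

theorem Sup.YY {Φ : SA} (h : Sup S Φ) (a : SA) : Sup S (YY J σ ρ Φ a) :=
  ((h.mul_right _).add (h.Gam_l _ _)).add (h.mul_right _)

theorem Sup.g2 {Φ : SA} (h : Sup S Φ) : Sup S (g2 Φ) :=
  ((((h.D 0).mul_right _).add ((h.D 1).mul_right _)).add ((h.D 2).mul_right _)).add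
    ((h.D 3).mul_right _)

end

theorem It_le_on {S : Set E4} {f g : SA} (hf : Sup S f) (hg : Sup S g)
    (h : ∀ x ∈ S, f.1 x ≤ g.1 x) : It f ≤ It g := by
  apply It_mono hf.cs hg.cs
  intro x
  by_cases hx : x ∈ S
  · exact h x hx
  · rw [hf.val hx, hg.val hx]

theorem It_le_add {S : Set E4} {f g z : SA} (hf : Sup S f) (hg : Sup S g) (hz : Sup S z)
    (hz0 : It z = 0) (h : ∀ x ∈ S, f.1 x ≤ g.1 x + z.1 x) : It f ≤ It g := by
  have h1 := It_le_on hf (hg.add hz) h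
  rw [It_add hg.cs hz.cs, hz0, add_zero] at h1
  exact h1

theorem It_nonneg_on {S : Set E4} {f : SA} (hf : Sup S f) (h : ∀ x ∈ S, 0 ≤ f.1 x) : 0 ≤ It f := by
  apply It_nonneg
  intro x
  by_cases hx : x ∈ S
  · exact h x hx
  · rw [hf.val hx]

/-- Cut-off functions. -/
structure Cut (S : Set E4) (ζ : SA) : Prop where
  cs : CS ζ
  sub : tsupport ζ.1 ⊆ interior S
  nn : ∀ x, 0 ≤ ζ.1 x
  le : ∀ x, ζ.1 x ≤ 1

theorem Cut.sup {S : Set E4} {ζ : SA} (h : Cut S ζ) : Sup S ζ := ⟨h.cs, h.sub.trans interior_subset⟩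

theorem exists_cut {S K : Set E4} (hS : IsCompact S) (hK : IsCompact K) (hKS : K ⊆ interior S) :
    ∃ ζ : SA, Cut S ζ ∧ ∀ᶠ x in 𝓝ˢ K, ζ.1 x = 1 := by
  obtain ⟨f, h0, h1, hf⟩ := exists_contMDiffMap_zero_one_nhds_of_isClosed (𝓘(ℝ, E4)) (n := ⊤)
    (s := (interior S)ᶜ) (t := K) isOpen_interior.isClosed_compl hK.isClosed
    (disjoint_compl_left_iff_subset.mpr hKS)
  have hsub : tsupport (f : E4 → ℝ) ⊆ interior S := by
    intro x hx
    by_contra hcon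
    have h2 : ∀ᶠ y in 𝓝 x, f y = 0 := h0.filter_mono (nhds_le_nhdsSet hcon)
    exact (notMem_tsupport_iff_eventuallyEq.mpr h2) hx
  refine ⟨⟨f, ?_⟩, ⟨?_, hsub, fun x => (hf x).1, fun x => (hf x).2⟩, h1⟩
  · exact f.contMDiff.contDiff
  · exact hS.of_isClosed_subset (isClosed_tsupport _) (hsub.trans interior_subset)

theorem Cut.next {S : Set E4} (hS : IsCompact S) {ζ : SA} (h : Cut S ζ) :
    ∃ ζ' : SA, Cut S ζ' ∧ (∀ x ∈ tsupport ζ.1, ζ'.1 x = 1) := by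
  obtain ⟨ζ', h1, h2⟩ := exists_cut hS h.cs.isCompact h.sub
  exact ⟨ζ', h1, fun x hx => h2.self_of_nhdsSet x hx⟩

theorem Cut.bound {S : Set E4} (hS : IsCompact S) (f : SA) : ∃ M, 0 ≤ M ∧ ∀ x ∈ S, |f.1 x| ≤ M := by
  obtain ⟨C, hC⟩ := hS.exists_bound_of_continuousOn (SA.cont f).continuousOn
  exact ⟨|C|, abs_nonneg _, fun x hx => (hC x hx).trans (le_abs_self C)⟩

/-- Nested cut-offs. -/
structure Nest (S : Set E4) (ζ ζ' : SA) (M : ℝ) : Prop where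
  c : Cut S ζ
  c' : Cut S ζ'
  M0 : 0 ≤ M
  one : ∀ x ∈ tsupport ζ.1, ζ'.1 x = 1
  le : ∀ x, ζ.1 x ≤ ζ'.1 x
  leq : ∀ x, ζ.1 x ≤ ζ'.1 x * ζ'.1 x
  grad : ∀ x ∈ S, (g2 ζ).1 x ≤ M * ζ'.1 x
  off : ∀ x, x ∉ tsupport ζ.1 → ζ.1 x = 0 ∧ gr ζ = gr ζ ∧ vv x (gr ζ) = 0

theorem Cut.nest {S : Set E4} (hS : IsCompact S) {ζ : SA} (h : Cut S ζ) :
    ∃ ζ' M, Nest S ζ ζ' M := by
  obtain ⟨ζ', h1, h2⟩ := h.next hS
  obtain ⟨M, hM0, hM⟩ := Cut.bound hS (g2 ζ)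
  have hoff : ∀ x, x ∉ tsupport ζ.1 → ζ.1 x = 0 ∧ gr ζ = gr ζ ∧ vv x (gr ζ) = 0 := by
    intro x hx
    exact ⟨val_zero hx, rfl, by ext i; exact D_val_zero i hx⟩
  refine ⟨ζ', M, h, h1, hM0, h2, ?_, ?_, ?_, hoff⟩
  · intro x
    by_cases hx : x ∈ tsupport ζ.1
    · rw [h2 x hx]; exact h.le x
    · rw [val_zero hx]; exact h1.nn x
  · intro x
    by_cases hx : x ∈ tsupport ζ.1
    · rw [h2 x hx]; simpa using h.le x
    · rw [val_zero hx]; exact mul_self_nonneg _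
  · intro x hxS
    by_cases hx : x ∈ tsupport ζ.1
    · rw [h2 x hx, mul_one]; exact (le_abs_self _).trans (hM x hxS)
    · rw [g2_val, (hoff x hx).2.2]
      simp only [dotProduct_zero]
      exact mul_nonneg hM0 (h1.nn x)

end Pool.Agent.Y264
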