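import Mathlib

/-! Almost complex surfaces, plurisubharmonic functions and their Monge-Ampere measures:
the definitions used in the statement of the domination principle. -/

namespace Pool.Agent.Y264.ACS
open MeasureTheory Set Filter Topology
open scoped Manifold ContDiff

section coordinates
variable {E : Type*} [NormedAddCommGroup E] [InnerProductSpace ℝ E]

/-- The form `d^c f = - df ∘ j` of a function `f` on an open part of the Euclidean space `E`, for a
field `j` of endomorphisms. -/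
noncomputable def dc (j : E → E →L[ℝ] E) (f : E → ℝ) (y : E) : E →L[ℝ] ℝ :=
  -((fderiv ℝ f y).comp (j y))

/-- The exterior derivative `d d^c f` at `y`, evaluated on the vectors `X`, `Y`. -/
noncomputable def ddc (j : E → E →L[ℝ] E) (f : E → ℝ) (y X Y : E) : ℝ :=
  fderiv ℝ (dc j f) y X Y - fderiv ℝ (dc j f) y Y X

/-- The form `2 i ∂∂̄ f`, the part of bidegree (1,1) of `d d^c f`. -/
noncomputable def ddbar (j : E → E →L[ℝ] E) (f : E → ℝ) (y X Y : E) : ℝ :=
  (ddc j f y X Y + ddc j f y (j y X) (j y Y)) / 2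

/-- The Levi form of `f` at `y` on the vector `X`. -/
noncomputable def levi (j : E → E →L[ℝ] E) (f : E → ℝ) (y X : E) : ℝ :=
  ddbar j f y X (j y X)

/-- The Pfaffian of a bilinear form on the four dimensional space `E`, in an orthonormal basis: the
coefficient of the volume form of the basis in half the square of an alternating form. -/
noncomputable def pf (b : OrthonormalBasis (Fin 4) ℝ E) (α : E → E → ℝ) : ℝ :=
  α (b 0) (b 1) * α (b 2) (b 3) - α (b 0) (b 2) * α (b 1) (b 3) + α (b 0) (b 3) * α (b 1) (b 2)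

/-- A positive form of bidegree (1,1) for the endomorphism `j` with `j² = -1`; the sign of its
Pfaffian compares the orientation given by `j` with that of the basis. -/
noncomputable def herm (j : E →L[ℝ] E) (X Y : E) : ℝ := inner ℝ (j X) Y - inner ℝ X (j Y)

/-- The density of `(i ∂∂̄ f)²` with respect to Lebesgue measure, in the orientation of `j`. -/
noncomputable def maDens (b : OrthonormalBasis (Fin 4) ℝ E) (j : E → E →L[ℝ] E) (f : E → ℝ)
    (y : E) : ℝ :=
  1 / 2 * (SignType.sign (pf b (herm (j y))) : ℝ) * pf b (ddbar j f y)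

/-- `f k → u` in `W^{1,2}_loc(V)`, for functions `f k` of class `C¹`: the functions converge to `u`
and their gradients form a Cauchy sequence, both in `L²` of every compact subset of `V`. -/
def SobolevTendsto [FiniteDimensional ℝ E] [MeasurableSpace E] [BorelSpace E]
    (V : Set E) (f : ℕ → E → ℝ) (u : E → ℝ) : Prop :=
  ∀ C ⊆ V, IsCompact C →
    Tendsto (fun k => eLpNorm (fun y => f k y - u y) 2 (volume.restrict C)) atTop (𝓝 0) ∧
    Tendsto (fun kl : ℕ × ℕ => eLpNorm (fun y => fderiv ℝ (f kl.1) y - fderiv ℝ (f kl.2) y) 2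
      (volume.restrict C)) atTop (𝓝 0)

end coordinates

section manifold
variable {E : Type*} [NormedAddCommGroup E] [InnerProductSpace ℝ E]
  {M : Type*} [TopologicalSpace M] [ChartedSpace E M]

/-- The expression, in the chart at `p`, of a field of endomorphisms of the tangent bundle. -/
noncomputable def coordJ (J : ∀ x : M, TangentSpace 𝓘(ℝ, E) x →L[ℝ] TangentSpace 𝓘(ℝ, E) x) (p : M)
    (y : E) : E →L[ℝ] E :=
  (mfderiv 𝓘(ℝ, E) 𝓘(ℝ, E) (chartAt E p) ((chartAt E p).symm y)).comp
    ((J ((chartAt E p).symm y)).comp (mfderiv 𝓘(ℝ, E) 𝓘(ℝ, E) (chartAt E p).symm y))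

variable (E M) in
/-- A smooth almost complex structure: a field of endomorphisms `J` of the tangent bundle, smooth
in every chart, with `J² = -1`. -/
structure AlmostComplex where
  J : ∀ x : M, TangentSpace 𝓘(ℝ, E) x →L[ℝ] TangentSpace 𝓘(ℝ, E) x
  sq : ∀ (x : M) (X : TangentSpace 𝓘(ℝ, E) x), J x (J x X) = -X
  smooth : ∀ p : M, ContDiffOn ℝ ∞ (coordJ J p) (chartAt E p).target

variable (𝒥 : AlmostComplex E M)

/-- Smooth plurisubharmonic functions on the open set `U`: the Levi form is nonnegative. -/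
structure SmoothPsh (U : Set M) (f : M → ℝ) : Prop where
  smooth : ContMDiffOn 𝓘(ℝ, E) 𝓘(ℝ, ℝ) ∞ f U
  levi_nonneg : ∀ p : M, ∀ y ∈ (chartAt E p).target, (chartAt E p).symm y ∈ U → ∀ X : E,
    0 ≤ levi (coordJ 𝒥.J p) (f ∘ (chartAt E p).symm) y X

/-- Smooth strictly plurisubharmonic functions on the open set `U`: the Levi form is positive. -/
structure SmoothStrictlyPsh (U : Set M) (f : M → ℝ) : Prop where
  smooth : ContMDiffOn 𝓘(ℝ, E) 𝓘(ℝ, ℝ) ∞ f U
  levi_pos : ∀ p : M, ∀ y ∈ (chartAt E p).target, (chartAt E p).symm y ∈ U → ∀ X : E, X ≠ 0 →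
    0 < levi (coordJ 𝒥.J p) (f ∘ (chartAt E p).symm) y X

/-- The class of (locally bounded) plurisubharmonic functions: near every point of `Ω` the function
is the pointwise limit of a decreasing sequence of smooth plurisubharmonic functions. -/
def IsPsh (Ω : Set M) (u : M → ℝ) : Prop :=
  ∀ x ∈ Ω, ∃ U : Set M, IsOpen U ∧ x ∈ U ∧ U ⊆ Ω ∧ ∃ f : ℕ → M → ℝ,
    (∀ k, SmoothPsh 𝒥 U (f k)) ∧ (∀ z ∈ U, Antitone fun k => f k z) ∧
    ∀ z ∈ U, Tendsto (fun k => f k z) atTop (𝓝 (u z))

/-- On the open set `U` in the domain of the chart at `p`, the smooth functions `f k` converge to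
`u` in `W^{1,2}_loc` and the measures `(i ∂∂̄ f k)²` converge weakly to `μ`. -/
structure MALimit [FiniteDimensional ℝ E] [MeasurableSpace E] [BorelSpace E] [MeasurableSpace M]
    (b : OrthonormalBasis (Fin 4) ℝ E) (p : M) (U : Set M) (f : ℕ → M → ℝ) (u : M → ℝ)
    (μ : Measure M) : Prop where
  smooth : ∀ k, ContMDiffOn 𝓘(ℝ, E) 𝓘(ℝ, ℝ) ∞ (f k) U
  sobolev : SobolevTendsto (chartAt E p '' U) (fun k => f k ∘ (chartAt E p).symm)
    (u ∘ (chartAt E p).symm)
  weak : ∀ φ : E → ℝ, ContDiff ℝ ∞ φ → HasCompactSupport φ → tsupport φ ⊆ chartAt E p '' U →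
    Tendsto (fun k => ∫ y, φ y * maDens b (coordJ 𝒥.J p) (f k ∘ (chartAt E p).symm) y) atTop
      (𝓝 (∫ z in (chartAt E p).source, φ (chartAt E p z) ∂μ))

/-- `μ` is the Monge-Ampere measure `(i ∂∂̄ u)²` on `Ω`: it is finite on compact sets, and near every
point there are smooth functions `f k → u` in `W^{1,2}_loc` with `(i ∂∂̄ f k)² → μ` weakly. -/
structure IsMongeAmpere [FiniteDimensional ℝ E] [MeasurableSpace E] [BorelSpace E]
    [MeasurableSpace M] (b : OrthonormalBasis (Fin 4) ℝ E) (Ω : Set M) (u : M → ℝ)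
    (μ : Measure M) : Prop where
  finite : ∀ K ⊆ Ω, IsCompact K → μ K < ⊤
  limit : ∀ p ∈ Ω, ∃ U : Set M, IsOpen U ∧ p ∈ U ∧ U ⊆ Ω ∧ U ⊆ (chartAt E p).source ∧
    ∃ f : ℕ → M → ℝ, MALimit 𝒥 b p U f u μ

/-- Strictly pseudoconvex domains: `Ω` is relatively compact and `Ω = {ρ < 0}` for a smooth
strictly plurisubharmonic function `ρ` near the closure of `Ω` whose differential does not vanish
on the boundary. -/
def StrictlyPseudoconvex (Ω : Set M) : Prop :=
  IsCompact (closure Ω) ∧ ∃ (V : Set M) (ρ : M → ℝ), IsOpen V ∧ closure Ω ⊆ V ∧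
    SmoothStrictlyPsh 𝒥 V ρ ∧ Ω = {x | x ∈ V ∧ ρ x < 0} ∧
    ∀ x ∈ frontier Ω, mfderiv 𝓘(ℝ, E) 𝓘(ℝ, ℝ) ρ x ≠ 0

end manifold

end Pool.Agent.Y264.ACS
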