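import Pool.Agent.Y264.Cut

/-! A priori bounds for bounded smooth plurisubharmonic functions. -/

namespace Pool.Agent.Y264
open Matrix MeasureTheory Set Filter Topology
open scoped ContDiff

section
variable (J : Matrix (Fin 4) (Fin 4) SA) (σ : ℝ) (ρ : SA)

theorem Xr_mul (a b : SA) : Xr J σ ρ (a * b) = a * Xr J σ ρ b + b * Xr J σ ρ a := by
  simp only [Xr, dc_mul, tri, Pi.add_apply, Pi.smul_apply, smul_eq_mul, smul_SA]; ring

theorem g2_mul_self (a : SA) : g2 (a * a) = (4 : ℝ) • (a * a * g2 a) := by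
  simp only [g2, D_mul, smul_SA]
  have h4 : cst 4 = 4 := by apply SA.ext'; intro x; rfl
  rw [h4]; ring

end

theorem nn_mul_self {a : SA} {x : E4} (h : 0 ≤ a.1 x) : nn (a * a) x = 2 * a.1 x * nn a x := by
  have h1 : nn (a * a) x ^ 2 = (2 * a.1 x * nn a x) ^ 2 := by
    rw [nn_sq, g2_mul_self, mul_pow, nn_sq]
    simp only [SA.smul_val, SA.mul_val]; ring
  have h2 : 0 ≤ 2 * a.1 x * nn a x := mul_nonneg (by positivity) (nn_nonneg a x)
  exact (pow_left_inj₀ (nn_nonneg _ _) h2 two_ne_zero).mp h1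

variable {J : Matrix (Fin 4) (Fin 4) SA} {σ : ℝ} {S : Set E4} {ρ : SA} (G : Geo J σ S ρ)

/-- The class of smooth plurisubharmonic functions with values in `[0, C0]` on `S`. -/
def Cls (J : Matrix (Fin 4) (Fin 4) SA) (S : Set E4) (C0 : ℝ) (a : SA) : Prop :=
  Psh J S a ∧ ∀ x ∈ S, 0 ≤ a.1 x ∧ a.1 x ≤ C0

include G

theorem mix_rho_nonneg {x : E4} (hx : x ∈ S) {a : SA} (ha : Psh J S a) : 0 ≤ (mix J σ a ρ).1 x := by
  have hp : Psh J S ρ := by
    intro y hy X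
    by_cases h : X = 0
    · subst h; simp [qf]
    · exact (G.sps y hy X h).le
  exact mix_nonneg G hx ha hp

theorem B1 {ζ : SA} (hζ : Cut S ζ) (C0 : ℝ) : ∃ C, 0 ≤ C ∧ ∀ a : SA, Cls J S C0 a →
    It (ζ * g2 a) ≤ C := by
  obtain ⟨ζ', M, hN⟩ := hζ.nest G.cpt
  obtain ⟨c, hc, hlow⟩ := exists_Gam_lower G
  obtain ⟨C1, hC1, hG⟩ := exists_Gam_rho_bound G
  obtain ⟨C2, hC2, hX⟩ := exists_Xr_bound G
  set K := (8 * C0 ^ 2 * C1 ^ 2 + 2 * C0 ^ 2 * C2 ^ 2) / c with hK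
  have hK0 : 0 ≤ K := by positivity
  have hI0 : 0 ≤ It (g2 ζ' + ζ' * ζ') := It_nonneg fun x => by
    rw [SA.add_val, SA.mul_val]
    exact add_nonneg (g2_nonneg _ _) (mul_self_nonneg _)
  refine ⟨K / c * It (g2 ζ' + ζ' * ζ'), by positivity, ?_⟩
  rintro a ⟨ha, ha0⟩
  have hs' := hN.c'.sup
  have key : It (c • (ζ * g2 a)) ≤ It (K • (g2 ζ' + ζ' * ζ')) := by
    apply It_le_add (z := YY J σ ρ (ζ' * ζ') (a * a)) ((hζ.sup.mul_right _).smul _)
      ((hs'.g2.add (hs'.mul_left _)).smul _) (Sup.YY (hs'.mul_left _) _)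
      (It_YY G _ _ (Or.inl ⟨(hs'.mul_left _).cs, (hs'.mul_left _).sub⟩))
    intro x hx
    have hz0 := hN.c'.nn x
    have hle := hN.leq x
    have hA0 := nn_nonneg a x
    have hA := nn_sq a x
    have hZ0 := nn_nonneg ζ' x
    have hZ := nn_sq ζ' x
    have hu := ha0 x hx
    have hm := mix_rho_nonneg G hx ha
    have hg := hlow x hx a
    have hγ := (abs_le.mp (hG x hx ζ' a)).1
    have hXa := (abs_le.mp (hX x hx a)).1
    simp only [SA.smul_val, SA.mul_val, SA.add_val, YY, mix_mul G hx, Gam_mul_l, Gam_mul_r, Xr_mul]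
    rw [← hA] at hg ⊢
    rw [← hZ]
    generalize nn a x = A at *
    generalize nn ζ' x = Z at *
    generalize ζ'.1 x = z at *
    generalize ζ.1 x = w at *
    generalize a.1 x = u at *
    generalize (mix J σ a ρ).1 x = m at *
    generalize (Gam J σ ρ a a).1 x = g at *
    generalize (Gam J σ ρ ζ' a).1 x = γ at *
    generalize (Xr J σ ρ a).1 x = X at *
    obtain ⟨hu0, hu1⟩ := hu
    have hC0 : 0 ≤ C0 := hu0.trans hu1
    have e1 : c * (w * A ^ 2) ≤ c * (z * z * A ^ 2) := by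
      apply mul_le_mul_of_nonneg_left _ hc.le
      exact mul_le_mul_of_nonneg_right hle (by positivity)
    have e2 : z * z * (c * A ^ 2) ≤ z * z * g := mul_le_mul_of_nonneg_left hg (by positivity)
    have e3 : 0 ≤ z * z * (u * m) := by positivity
    have e4 : -(4 * (z * A) * (C0 * C1 * Z)) ≤ 4 * (z * u) * γ := by
      have h1 : 4 * (z * u) * (-(C1 * (Z * A))) ≤ 4 * (z * u) * γ :=
        mul_le_mul_of_nonneg_left hγ (by positivity)
      have h2 : z * u * (C1 * (Z * A)) ≤ z * C0 * (C1 * (Z * A)) :=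
        mul_le_mul_of_nonneg_right (mul_le_mul_of_nonneg_left hu1 hz0) (by positivity)
      nlinarith
    have e5 : -(2 * (z * A) * (C0 * C2 * z)) ≤ z * z * (2 * u * X) := by
      have h1 : z * z * (2 * u) * (-(C2 * A)) ≤ z * z * (2 * u) * X :=
        mul_le_mul_of_nonneg_left hXa (by positivity)
      have h2 : z * z * u * (C2 * A) ≤ z * z * C0 * (C2 * A) :=
        mul_le_mul_of_nonneg_right (mul_le_mul_of_nonneg_left hu1 (by positivity)) (by positivity)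
      nlinarith
    have e6 : 4 * (z * A) * (C0 * C1 * Z) ≤ c / 2 * (z * A) ^ 2 + 8 / c * (C0 * C1 * Z) ^ 2 := by
      have : 0 ≤ c / 2 * (z * A - 4 / c * (C0 * C1 * Z)) ^ 2 := by positivity
      have e : c / 2 * (z * A - 4 / c * (C0 * C1 * Z)) ^ 2 = c / 2 * (z * A) ^ 2
        - 4 * (z * A) * (C0 * C1 * Z) + 8 / c * (C0 * C1 * Z) ^ 2 := by field_simp; ring
      linarith
    have e7 : 2 * (z * A) * (C0 * C2 * z) ≤ c / 2 * (z * A) ^ 2 + 2 / c * (C0 * C2 * z) ^ 2 := by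
      have : 0 ≤ c / 2 * (z * A - 2 / c * (C0 * C2 * z)) ^ 2 := by positivity
      have e : c / 2 * (z * A - 2 / c * (C0 * C2 * z)) ^ 2 = c / 2 * (z * A) ^ 2
        - 2 * (z * A) * (C0 * C2 * z) + 2 / c * (C0 * C2 * z) ^ 2 := by field_simp; ring
      linarith
    have e8 : 8 / c * (C0 * C1 * Z) ^ 2 + 2 / c * (C0 * C2 * z) ^ 2 ≤ K * (Z ^ 2 + z * z) := by
      rw [hK]
      have : (8 * C0 ^ 2 * C1 ^ 2 + 2 * C0 ^ 2 * C2 ^ 2) / c * (Z ^ 2 + z * z)
        - (8 / c * (C0 * C1 * Z) ^ 2 + 2 / c * (C0 * C2 * z) ^ 2)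
        = 8 * C0 ^ 2 * C1 ^ 2 / c * (z * z) + 2 * C0 ^ 2 * C2 ^ 2 / c * Z ^ 2 := by
        field_simp; ring
      have h0 : 0 ≤ 8 * C0 ^ 2 * C1 ^ 2 / c * (z * z) + 2 * C0 ^ 2 * C2 ^ 2 / c * Z ^ 2 := by
        have := mul_self_nonneg z
        positivity
      linarith
    nlinarith
  rw [It_smul, It_smul] at key
  rw [div_mul_eq_mul_div, le_div_iff₀ hc]
  linarith

end Pool.Agent.Y264
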