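import Pool.Agent.Y264.En1

/-! A priori bounds, continued. -/

namespace Pool.Agent.Y264
open Matrix MeasureTheory Set Filter Topology
open scoped ContDiff

theorem Nest.cases {S : Set E4} {ζ ζ' : SA} {M : ℝ} (h : Nest S ζ ζ' M) (x : E4) :
    ζ'.1 x = 1 ∨ (ζ.1 x = 0 ∧ nn ζ x = 0 ∧ vv x (gr ζ) = 0) := by
  by_cases hx : x ∈ tsupport ζ.1
  · exact Or.inl (h.one x hx)
  · right
    obtain ⟨h1, _, h2⟩ := h.off x hx
    refine ⟨h1, ?_, h2⟩
    rw [nn, g2_val, h2]; simp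

theorem r_zZ {z Z y M : ℝ} (hz0 : 0 ≤ z) (hz1 : z ≤ 1) (hzy : z ≤ y) (hg : Z ^ 2 ≤ M * y) :
    z * Z ≤ 1 / 2 * ((1 + M) * y) := by
  nlinarith [sq_nonneg (z - Z), mul_nonneg hz0 (sub_nonneg.mpr hz1)]

theorem r_AB (A B : ℝ) : A * B ≤ 1 / 2 * (A ^ 2 + B ^ 2) := by nlinarith [sq_nonneg (A - B)]

theorem r_sq {z y : ℝ} (hz0 : 0 ≤ z) (hz1 : z ≤ 1) (hzy : z ≤ y) : z * z ≤ y := by
  nlinarith [mul_nonneg hz0 (sub_nonneg.mpr hz1)]

theorem r_Z1 {Z M : ℝ} (h : Z ^ 2 ≤ M * 1) : Z ≤ 1 + M := by nlinarith [sq_nonneg (Z - 1)]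

theorem r_wA {w z A : ℝ} (hw0 : 0 ≤ w) (hwz : w ≤ z) : w * A ≤ 1 / 2 * (w + z * A ^ 2) := by
  nlinarith [mul_nonneg hw0 (sq_nonneg (A - 1)), mul_nonneg (sub_nonneg.mpr hwz) (sq_nonneg A)]

theorem r_4u {u C0 : ℝ} (h0 : 0 ≤ u) (h1 : u ≤ C0) : 4 * u ^ 2 ≤ 4 * C0 ^ 2 := by nlinarith

theorem Gam_zero {J : Matrix (Fin 4) (Fin 4) SA} {σ : ℝ} {x : E4} {ζ : SA} (h : vv x (gr ζ) = 0)
    (b a : SA) : (Gam J σ b ζ a).1 x = 0 := by
  rw [Gam_val, h]
  have h1 : ∀ q : Fin 4 → ℝ, wg (0 : Fin 4 → ℝ) q = 0 := by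
    intro q; ext i j; simp [wg]
  have h2 : ∀ P : Matrix (Fin 4) (Fin 4) ℝ, wd 0 P = 0 := by intro P; simp [wd]
  rw [h1, h2, mul_zero]

theorem nu_zero {J : Matrix (Fin 4) (Fin 4) SA} {σ : ℝ} {x : E4} {ζ : SA} (h : vv x (gr ζ) = 0)
    (a b : SA) : (nu J σ ζ a b).1 x = 0 := by
  rw [nu_val, h]
  have h1 : ∀ q : Fin 4 → ℝ, wg (0 : Fin 4 → ℝ) q = 0 := by
    intro q; ext i j; simp [wg]
  have h2 : ∀ P : Matrix (Fin 4) (Fin 4) ℝ, wd 0 P = 0 := by intro P; simp [wd]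
  rw [h1, h2, mul_zero]

variable {J : Matrix (Fin 4) (Fin 4) SA} {σ : ℝ} {S : Set E4} {ρ : SA} (G : Geo J σ S ρ)

include G

theorem B2 {ζ : SA} (hζ : Cut S ζ) (C0 : ℝ) : ∃ C, 0 ≤ C ∧ ∀ a : SA, Cls J S C0 a →
    It (ζ * mix J σ a ρ) ≤ C := by
  obtain ⟨ζ', M, hN⟩ := hζ.nest G.cpt
  obtain ⟨C1, hC1, hG⟩ := exists_Gam_rho_bound G
  obtain ⟨C2, hC2, hX⟩ := exists_Xr_bound G
  obtain ⟨B, hB0, hB⟩ := B1 G hN.c' C0
  have hs := hζ.sup
  have hs' := hN.c'.sup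
  have hI1 : 0 ≤ It (g2 ζ) := It_nonneg fun x => g2_nonneg _ _
  have hI2 : 0 ≤ It ζ := It_nonneg hζ.nn
  refine ⟨C1 / 2 * (It (g2 ζ) + B) + C2 / 2 * (It ζ + B), by positivity, ?_⟩
  intro a haC
  have hB' := hB a haC
  obtain ⟨ha, ha0⟩ := haC
  have key : It (ζ * mix J σ a ρ) ≤ It ((C1 / 2) • (g2 ζ + ζ' * g2 a) + (C2 / 2) • (ζ + ζ' * g2 a)) := by
    apply It_le_add (z := YY J σ ρ ζ a) (hs.mul_right _)
      (((hs.g2.add (hs'.mul_right _)).smul _).add ((hs.add (hs'.mul_right _)).smul _)) (Sup.YY hs _)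
      (It_YY G _ _ (Or.inl ⟨hs.cs, hs.sub⟩))
    intro x hx
    have hw0 := hζ.nn x
    have hz0 := hN.c'.nn x
    have hwz := hN.le x
    have hA0 := nn_nonneg a x
    have hA := nn_sq a x
    have hZ0 := nn_nonneg ζ x
    have hZ := nn_sq ζ x
    have hγ := (abs_le.mp (hG x hx ζ a)).1
    have hXa := (abs_le.mp (hX x hx a)).1
    have hcase := hN.cases x
    simp only [SA.smul_val, SA.mul_val, SA.add_val, YY]
    rw [← hA, ← hZ]
    generalize nn a x = A at *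
    generalize nn ζ x = Z at *
    generalize ζ'.1 x = z at *
    generalize ζ.1 x = w at *
    generalize (mix J σ a ρ).1 x = m at *
    generalize (Gam J σ ρ ζ a).1 x = γ at *
    generalize (Xr J σ ρ a).1 x = X at *
    have e1 : Z * A ≤ 1 / 2 * (Z ^ 2 + z * A ^ 2) := by
      rcases hcase with h | h
      · rw [h]; linarith [r_AB Z A]
      · rw [h.2.1]; linarith [mul_nonneg hz0 (sq_nonneg A)]
    have e2 : w * A ≤ 1 / 2 * (w + z * A ^ 2) := r_wA hw0 hwz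
    have e3 : C1 * (Z * A) ≤ C1 * (1 / 2 * (Z ^ 2 + z * A ^ 2)) := mul_le_mul_of_nonneg_left e1 hC1
    have e4 : C2 * (w * A) ≤ C2 * (1 / 2 * (w + z * A ^ 2)) := mul_le_mul_of_nonneg_left e2 hC2
    have e5 : w * (-(C2 * A)) ≤ w * X := mul_le_mul_of_nonneg_left hXa hw0
    linarith
  refine key.trans ?_
  rw [It_add ((hs.g2.add (hs'.mul_right _)).smul _).cs ((hs.add (hs'.mul_right _)).smul _).cs,
    It_smul, It_smul, It_add hs.g2.cs (hs'.mul_right _).cs, It_add hs.cs (hs'.mul_right _).cs]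
  gcongr

theorem B4 {ζ : SA} (hζ : Cut S ζ) (C0 : ℝ) : ∃ C, 0 ≤ C ∧ ∀ a b : SA, Cls J S C0 a →
    Cls J S C0 b → It (ζ * Gam J σ b a a) ≤ C := by
  obtain ⟨ζ', M, hN⟩ := hζ.nest G.cpt
  obtain ⟨ζ'', M', hN'⟩ := hN.c'.nest G.cpt
  obtain ⟨C3, hC3, hnu⟩ := exists_nu_bound G
  obtain ⟨C4, hC4, hqq⟩ := exists_qq_bound G
  obtain ⟨C5, hC5, hup⟩ := exists_Gam_upper G
  obtain ⟨Ba, hBa0, hBa⟩ := B1 G hN'.c' C0
  obtain ⟨Bm, hBm0, hBm⟩ := B2 G hN'.c' C0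
  have hM' := hN'.M0
  set K := 4 * C0 ^ 2 * C5 * M' + |C0| * C3 * (1 + M') + |C0| * C4 with hK
  have hK0 : 0 ≤ K := by positivity
  refine ⟨K * (Bm + Ba + Ba), by positivity, ?_⟩
  intro a b haC hbC
  have hBaa := hBa a haC
  have hBab := hBa b hbC
  have hBmb := hBm b hbC
  obtain ⟨ha, ha0⟩ := haC
  obtain ⟨hb, hb0⟩ := hbC
  have hs' := hN.c'.sup
  have hs'' := hN'.c'.sup
  have key : It (ζ * Gam J σ b a a) ≤ It (K • (ζ'' * mix J σ b ρ + ζ'' * g2 a + ζ'' * g2 b)) := by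
    apply It_le_add (z := ZZ J σ (ζ' * ζ') (a * a) b) (hζ.sup.mul_right _)
      ((((hs''.mul_right _).add (hs''.mul_right _)).add (hs''.mul_right _)).smul _)
      (Sup.ZZ (hs'.mul_left _) _ _)
      (It_ZZ G _ _ _ (Or.inl ⟨(hs'.mul_left _).cs, (hs'.mul_left _).sub⟩))
    intro x hx
    have hz0 := hN.c'.nn x
    have hz1 := hN.c'.le x
    have hy0 := hN'.c'.nn x
    have hzy := hN'.le x
    have hle := hN.leq x
    have hgrad := hN'.grad x hx
    have hA0 := nn_nonneg a x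
    have hA := nn_sq a x
    have hB0 := nn_nonneg b x
    have hB := nn_sq b x
    have hZ0 := nn_nonneg ζ' x
    have hZ := nn_sq ζ' x
    have hu := ha0 x hx
    have hmab := mix_nonneg G hx ha hb
    have hg0 := Gam_nonneg G hx hb a
    have hcs := Gam_cs G hx hb ζ' a (2 * a.1 x) (ζ'.1 x)
    have hΓ := hup x hx b hb ζ'
    have hν := (abs_le.mp (hnu x hx ζ' a b)).1
    have hq := (abs_le.mp (hqq x hx (a * a) b)).1
    rw [nn_mul_self hu.1] at hq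
    have hmρ := mix_rho_nonneg G hx hb
    rw [mix_comm J σ ρ b] at hΓ
    simp only [SA.smul_val, SA.mul_val, SA.add_val, ZZ, mix_mul G hx, Gam_mul_l, Gam_mul_r,
      nu_mul_l, nu_mul_r]
    rw [← hA, ← hB]
    rw [← hZ] at hgrad hΓ
    generalize nn a x = A at *
    generalize nn b x = B at *
    generalize nn ζ' x = Z at *
    generalize ζ''.1 x = y at *
    generalize ζ'.1 x = z at *
    generalize ζ.1 x = w at *
    generalize a.1 x = u at *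
    generalize (mix J σ a b).1 x = mab at *
    generalize (mix J σ b ρ).1 x = m at *
    generalize (Gam J σ b a a).1 x = g at *
    generalize (Gam J σ b ζ' a).1 x = γ at *
    generalize (Gam J σ b ζ' ζ').1 x = Γ at *
    generalize (nu J σ ζ' a b).1 x = ν at *
    generalize (qq J σ (a * a) b).1 x = q at *
    obtain ⟨hu0, hu1⟩ := hu
    have hC0 : 0 ≤ C0 := hu0.trans hu1
    rw [abs_of_nonneg hC0] at hK
    have e1 : w * g ≤ z * z * g := mul_le_mul_of_nonneg_right hle hg0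
    have e2 : 0 ≤ z * z * (u * mab) := by positivity
    have e3 : 4 * u ^ 2 * Γ ≤ 4 * C0 ^ 2 * C5 * M' * (y * m) := by
      have h1 : Γ ≤ C5 * (M' * y * m) := hΓ.trans
        (mul_le_mul_of_nonneg_left (mul_le_mul_of_nonneg_right hgrad hmρ) hC5)
      have h2 : 0 ≤ C5 * (M' * y * m) := by positivity
      have h3 : 4 * u ^ 2 ≤ 4 * C0 ^ 2 := r_4u hu0 hu1
      calc 4 * u ^ 2 * Γ ≤ 4 * u ^ 2 * (C5 * (M' * y * m)) := mul_le_mul_of_nonneg_left h1 (by positivity)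
        _ ≤ 4 * C0 ^ 2 * (C5 * (M' * y * m)) := mul_le_mul_of_nonneg_right h3 h2
        _ = _ := by ring
    have hAB : A * B ≤ 1 / 2 * (A ^ 2 + B ^ 2) := r_AB A B
    have hAB0 : 0 ≤ A * B := by positivity
    have hzZ : z * Z ≤ 1 / 2 * ((1 + M') * y) := r_zZ hz0 hz1 hzy hgrad
    have e4 : -(C0 * C3 * (1 + M') * (y * (A ^ 2 + B ^ 2))) ≤ 4 * z * u * ν := by
      have h1 : 4 * z * u * (-(C3 * (Z * A * B))) ≤ 4 * z * u * ν :=
        mul_le_mul_of_nonneg_left hν (by positivity)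
      have h2 : z * Z * (A * B) ≤ 1 / 2 * ((1 + M') * y) * (1 / 2 * (A ^ 2 + B ^ 2)) :=
        mul_le_mul hzZ hAB hAB0 (by positivity)
      have h3 : u * (4 * C3 * (z * Z * (A * B))) ≤ C0 * (4 * C3 * (1 / 2 * ((1 + M') * y) * (1 / 2 * (A ^ 2 + B ^ 2)))) :=
        mul_le_mul hu1 (mul_le_mul_of_nonneg_left h2 (by positivity)) (by positivity) hC0
      linarith
    have e5 : -(C0 * C4 * (y * (A ^ 2 + B ^ 2))) ≤ z * z * q := by
      have h1 : z * z * (-(C4 * (2 * u * A * B))) ≤ z * z * q :=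
        mul_le_mul_of_nonneg_left hq (by positivity)
      have h2 : z * z ≤ y := r_sq hz0 hz1 hzy
      have h3 : z * z * (A * B) ≤ y * (1 / 2 * (A ^ 2 + B ^ 2)) := mul_le_mul h2 hAB hAB0 hy0
      have h4 : u * (2 * C4 * (z * z * (A * B))) ≤ C0 * (2 * C4 * (y * (1 / 2 * (A ^ 2 + B ^ 2)))) :=
        mul_le_mul hu1 (mul_le_mul_of_nonneg_left h3 (by positivity)) (by positivity) hC0
      linarith
    have e6 : K * (y * m + y * A ^ 2 + y * B ^ 2) = 4 * C0 ^ 2 * C5 * M' * (y * m)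
        + C0 * C3 * (1 + M') * (y * (A ^ 2 + B ^ 2)) + C0 * C4 * (y * (A ^ 2 + B ^ 2))
        + (4 * C0 ^ 2 * C5 * M' * (y * (A ^ 2 + B ^ 2)) + (C0 * C3 * (1 + M') + C0 * C4) * (y * m)) := by
      rw [hK]; ring
    have e7 : 0 ≤ 4 * C0 ^ 2 * C5 * M' * (y * (A ^ 2 + B ^ 2)) + (C0 * C3 * (1 + M') + C0 * C4) * (y * m) := by
      positivity
    have e8 : 4 * z * (u * γ) ≥ -(z * z * g) - 4 * u ^ 2 * Γ := by linarith
    linarith
  refine key.trans ?_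
  rw [It_smul, It_add ((hs''.mul_right _).add (hs''.mul_right _)).cs (hs''.mul_right _).cs,
    It_add (hs''.mul_right _).cs (hs''.mul_right _).cs]
  gcongr

theorem B3 {ζ : SA} (hζ : Cut S ζ) (C0 : ℝ) : ∃ C, 0 ≤ C ∧ ∀ a b : SA, Cls J S C0 a →
    Cls J S C0 b → It (ζ * mix J σ a b) ≤ C := by
  obtain ⟨ζ', M, hN⟩ := hζ.nest G.cpt
  obtain ⟨C3, hC3, hnu⟩ := exists_nu_bound G
  obtain ⟨C4, hC4, hqq⟩ := exists_qq_bound G
  obtain ⟨C5, hC5, hup⟩ := exists_Gam_upper G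
  obtain ⟨Ba, hBa0, hBa⟩ := B1 G hN.c' C0
  obtain ⟨Bm, hBm0, hBm⟩ := B2 G hN.c' C0
  obtain ⟨Bg, hBg0, hBg⟩ := B4 G hN.c' C0
  have hM := hN.M0
  set K := C3 * (1 + M) + C4 with hK
  have hK0 : 0 ≤ K := by positivity
  refine ⟨1 / 2 * Bg + C5 * M * Bm + K * (Ba + Ba), by positivity, ?_⟩
  intro a b haC hbC
  have hBaa := hBa a haC
  have hBab := hBa b hbC
  have hBmb := hBm b hbC
  have hBgg := hBg a b haC hbC
  obtain ⟨ha, ha0⟩ := haC
  obtain ⟨hb, hb0⟩ := hbC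
  have hs := hζ.sup
  have hs' := hN.c'.sup
  have key : It (ζ * mix J σ a b) ≤ It ((1 / 2 : ℝ) • (ζ' * Gam J σ b a a)
      + (C5 * M) • (ζ' * mix J σ b ρ) + K • (ζ' * g2 a + ζ' * g2 b)) := by
    apply It_le_add (z := ZZ J σ ζ a b) (hs.mul_right _)
      ((((hs'.mul_right _).smul _).add ((hs'.mul_right _).smul _)).add
        (((hs'.mul_right _).add (hs'.mul_right _)).smul _))
      (Sup.ZZ hs _ _) (It_ZZ G _ _ _ (Or.inl ⟨hs.cs, hs.sub⟩))
    intro x hx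
    have hw0 := hζ.nn x
    have hz0 := hN.c'.nn x
    have hwz := hN.le x
    have hgrad := hN.grad x hx
    have hA0 := nn_nonneg a x
    have hA := nn_sq a x
    have hB0 := nn_nonneg b x
    have hB := nn_sq b x
    have hZ0 := nn_nonneg ζ x
    have hZ := nn_sq ζ x
    have hg0 := Gam_nonneg G hx hb a
    have hcs := Gam_cs G hx hb ζ a 1 1
    have hΓ := hup x hx b hb ζ
    have hν := (abs_le.mp (hnu x hx ζ a b)).1
    have hq := (abs_le.mp (hqq x hx a b)).1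
    have hmρ := mix_rho_nonneg G hx hb
    rw [mix_comm J σ ρ b] at hΓ
    have hcase : ζ'.1 x = 1 ∨ (ζ.1 x = 0 ∧ nn ζ x = 0 ∧ (Gam J σ b ζ a).1 x = 0 ∧
        (nu J σ ζ a b).1 x = 0) := by
      rcases hN.cases x with h | h
      · exact Or.inl h
      · exact Or.inr ⟨h.1, h.2.1, Gam_zero h.2.2 b a, nu_zero h.2.2 a b⟩
    simp only [SA.smul_val, SA.mul_val, SA.add_val, ZZ]
    rw [← hA, ← hB]
    rw [← hZ] at hgrad hΓ
    generalize nn a x = A at *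
    generalize nn b x = B at *
    generalize nn ζ x = Z at *
    generalize ζ'.1 x = z at *
    generalize ζ.1 x = w at *
    generalize (mix J σ a b).1 x = mab at *
    generalize (mix J σ b ρ).1 x = m at *
    generalize (Gam J σ b a a).1 x = g at *
    generalize (Gam J σ b ζ a).1 x = γ at *
    generalize (Gam J σ b ζ ζ).1 x = Γ at *
    generalize (nu J σ ζ a b).1 x = ν at *
    generalize (qq J σ a b).1 x = q at *
    have hAB : A * B ≤ 1 / 2 * (A ^ 2 + B ^ 2) := r_AB A B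
    have hAB0 : 0 ≤ A * B := by positivity
    have hΓ' : Γ ≤ C5 * M * (z * m) := by
      refine hΓ.trans ?_
      calc C5 * (Z ^ 2 * m) ≤ C5 * (M * z * m) :=
            mul_le_mul_of_nonneg_left (mul_le_mul_of_nonneg_right hgrad hmρ) hC5
        _ = _ := by ring
    have h0 : 0 ≤ C5 * M * (z * m) := by positivity
    rcases hcase with h | ⟨h1, h2, h3, h4⟩
    · subst h
      have hZb : Z ≤ 1 + M := r_Z1 hgrad
      have e4 : -(C3 * (1 + M) * (A ^ 2 + B ^ 2)) ≤ ν := by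
        have : Z * (A * B) ≤ (1 + M) * (1 / 2 * (A ^ 2 + B ^ 2)) := mul_le_mul hZb hAB hAB0 (by positivity)
        have h5 : C3 * (Z * (A * B)) ≤ C3 * ((1 + M) * (1 / 2 * (A ^ 2 + B ^ 2))) :=
          mul_le_mul_of_nonneg_left this hC3
        have h6 : 0 ≤ C3 * ((1 + M) * (1 / 2 * (A ^ 2 + B ^ 2))) := by positivity
        linarith
      have e5 : -(C4 * (A ^ 2 + B ^ 2)) ≤ w * q := by
        have h5 : w * (-(C4 * (A * B))) ≤ w * q := mul_le_mul_of_nonneg_left hq hw0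
        have h6 : w * (A * B) ≤ 1 * (1 / 2 * (A ^ 2 + B ^ 2)) := mul_le_mul hwz hAB hAB0 zero_le_one
        have h7 : C4 * (w * (A * B)) ≤ C4 * (1 * (1 / 2 * (A ^ 2 + B ^ 2))) :=
          mul_le_mul_of_nonneg_left h6 hC4
        have h8 : 0 ≤ C4 * (1 / 2 * (A ^ 2 + B ^ 2)) := by positivity
        linarith
      rw [hK]
      linarith
    · rw [h1, h3, h4]
      have : 0 ≤ K * (z * A ^ 2 + z * B ^ 2) := by positivity
      have : 0 ≤ z * g := by positivity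
      linarith
  refine key.trans ?_
  rw [It_add (((hs'.mul_right _).smul _).add ((hs'.mul_right _).smul _)).cs
      (((hs'.mul_right _).add (hs'.mul_right _)).smul _).cs,
    It_add ((hs'.mul_right _).smul _).cs ((hs'.mul_right _).smul _).cs, It_smul, It_smul, It_smul,
    It_add (hs'.mul_right _).cs (hs'.mul_right _).cs]
  gcongr

end Pool.Agent.Y264
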