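import Pool.Agent.Y264.Smooth

/-! The operators attached to a matrix field `J` on `ℝ⁴`. -/

namespace Pool.Agent.Y264
open Matrix MeasureTheory Set Filter Topology
open scoped ContDiff

/-- The gradient. -/
noncomputable def gr (f : SA) : Fin 4 → SA := fun i => D i f

/-- Exterior derivative of a 1-form. -/
noncomputable def dd (α : Fin 4 → SA) : Matrix (Fin 4) (Fin 4) SA :=
  fun i j => D i (α j) - D j (α i)

/-- `α ∧ dβ` for a 1-form and a 2-form. -/
noncomputable def tri (α : Fin 4 → SA) (β : Matrix (Fin 4) (Fin 4) SA) : SA :=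
  α 0 * (D 1 (β 2 3) - D 2 (β 1 3) + D 3 (β 1 2)) - α 1 * (D 0 (β 2 3) - D 2 (β 0 3) + D 3 (β 0 2))
    + α 2 * (D 0 (β 1 3) - D 1 (β 0 3) + D 3 (β 0 1))
    - α 3 * (D 0 (β 1 2) - D 1 (β 0 2) + D 2 (β 0 1))

/-- Components of `Φ α ∧ β`. -/
noncomputable def flux (Φ : SA) (α : Fin 4 → SA) (β : Matrix (Fin 4) (Fin 4) SA) : Fin 4 → SA :=
  ![Φ * (α 1 * β 2 3 - α 2 * β 1 3 + α 3 * β 1 2),
    -(Φ * (α 0 * β 2 3 - α 2 * β 0 3 + α 3 * β 0 2)),
    Φ * (α 0 * β 1 3 - α 1 * β 0 3 + α 3 * β 0 1),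
    -(Φ * (α 0 * β 1 2 - α 1 * β 0 2 + α 2 * β 0 1))]

theorem stokes_pt (Φ : SA) (α : Fin 4 → SA) (β : Matrix (Fin 4) (Fin 4) SA) :
    Φ * wd (dd α) β + wd (wg (gr Φ) α) β - Φ * tri α β
      = D 0 (flux Φ α β 0) + D 1 (flux Φ α β 1) + D 2 (flux Φ α β 2) + D 3 (flux Φ α β 3) := by
  simp only [flux, wd, dd, wg, gr, tri, Matrix.cons_val_zero, Matrix.cons_val_one, Matrix.cons_val,
    D_add, D_mul, D_neg, D_sub]
  ring

theorem It_flux (Φ : SA) (α : Fin 4 → SA) (β : Matrix (Fin 4) (Fin 4) SA)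
    (h : CS Φ ∨ ∀ i, CS (α i)) :
    It (Φ * wd (dd α) β + wd (wg (gr Φ) α) β - Φ * tri α β) = 0 := by
  have hc : ∀ i, CS (flux Φ α β i) := by
    intro i
    rcases h with h | h
    · have h' : ∀ g : SA, CS (Φ * g) := fun g => h.mul_right g
      fin_cases i
      · exact h' _
      · exact (h' _).neg
      · exact h' _
      · exact (h' _).neg
    · have h' : ∀ (j : Fin 4) (g : SA), CS (α j * g) := fun j g => (h j).mul_right g
      have h2 : ∀ f g k : SA, CS f → CS g → CS k → CS (Φ * (f - g + k)) := fun f g k hf hg hk =>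
        ((hf.sub hg).add hk).mul_left _
      fin_cases i
      · exact h2 _ _ _ (h' _ _) (h' _ _) (h' _ _)
      · exact (h2 _ _ _ (h' _ _) (h' _ _) (h' _ _)).neg
      · exact h2 _ _ _ (h' _ _) (h' _ _) (h' _ _)
      · exact (h2 _ _ _ (h' _ _) (h' _ _) (h' _ _)).neg
  have hi : ∀ i j, CS (D j (flux Φ α β i)) := fun i j => (hc i).D j
  rw [stokes_pt, It_add (((hi 0 0).add (hi 1 1)).add (hi 2 2)) (hi 3 3),
    It_add ((hi 0 0).add (hi 1 1)) (hi 2 2), It_add (hi 0 0) (hi 1 1),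
    It_D _ (hc 0), It_D _ (hc 1), It_D _ (hc 2), It_D _ (hc 3)]
  simp

theorem tri_dd (α γ : Fin 4 → SA) : tri α (dd γ) = 0 := by
  simp only [tri, dd, D_sub]
  rw [D_comm 2 1, D_comm 3 1, D_comm 3 2, D_comm 2 0, D_comm 3 0, D_comm 3 2 (γ 0), D_comm 1 0,
    D_comm 3 0 (γ 1), D_comm 3 1 (γ 0), D_comm 1 0 (γ 2), D_comm 2 0 (γ 1), D_comm 2 1 (γ 0)]
  ring

variable (J : Matrix (Fin 4) (Fin 4) SA) (σ : ℝ)

/-- The twisted differential. -/
noncomputable def dc (f : SA) : Fin 4 → SA := st J (gr f)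

/-- The closed form `d d^c f`. -/
noncomputable def om (f : SA) : Matrix (Fin 4) (Fin 4) SA := dd (dc J f)

/-- Twice the invariant part. -/
noncomputable def H2 (f : SA) : Matrix (Fin 4) (Fin 4) SA := om J f + Jᵀ * om J f * J

/-- Twice the anti-invariant part. -/
noncomputable def N2 (f : SA) : Matrix (Fin 4) (Fin 4) SA := om J f - Jᵀ * om J f * J

/-- The mixed Monge-Ampere density. -/
noncomputable def mix (a b : SA) : SA := σ • wd (H2 J a) (H2 J b)

/-- The density of `dφ ∧ d^c a ∧ H_b`. -/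
noncomputable def Gam (b φ a : SA) : SA := (2 * σ) • wd (wg (gr φ) (dc J a)) (H2 J b)

/-- The density of `dφ ∧ d^c a ∧ N_b`. -/
noncomputable def nu (φ a b : SA) : SA := (2 * σ) • wd (wg (gr φ) (dc J a)) (N2 J b)

/-- The density of `N_a ∧ N_b`. -/
noncomputable def qq (a b : SA) : SA := σ • wd (N2 J a) (N2 J b)

/-- The first order term coming from a fixed function. -/
noncomputable def Xr (ρ a : SA) : SA := (-(2 * σ)) • tri (dc J a) (H2 J ρ)

/-- Squared norm of the gradient. -/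
noncomputable def g2 (f : SA) : SA := D 0 f * D 0 f + D 1 f * D 1 f + D 2 f * D 2 f + D 3 f * D 3 f

end Pool.Agent.Y264
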