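import Pool.Agent.Y264.Forms

/-! Algebraic identities for the operators, and their values at a point. -/

namespace Pool.Agent.Y264
open Matrix MeasureTheory Set Filter Topology
open scoped ContDiff

theorem smul_SA (t : ℝ) (f : SA) : t • f = cst t * f := by
  apply SA.ext'; intro x; rfl

section lin
variable (J : Matrix (Fin 4) (Fin 4) SA) (σ : ℝ)

theorem om_add (a b : SA) : om J (a + b) = om J a + om J b := by
  ext1 i j
  simp only [om, dd, dc, st, gr, D_add, D_mul, D_neg, Matrix.add_apply]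
  ring

theorem om_sub (a b : SA) : om J (a - b) = om J a - om J b := by
  ext1 i j
  simp only [om, dd, dc, st, gr, D_add, D_mul, D_neg, D_sub, Matrix.sub_apply]
  ring

theorem om_smul (t : ℝ) (a : SA) : om J (t • a) = t • om J a := by
  ext1 i j
  simp only [om, dd, dc, st, gr, D_add, D_mul, D_neg, D_smul, Matrix.smul_apply]
  simp only [smul_SA]
  ring

theorem om_cst (t : ℝ) : om J (cst t) = 0 := by
  ext1 i j
  simp only [om, dd, dc, st, gr, D_cst, mul_zero, add_zero, neg_zero, D_zero, sub_zero,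
    Matrix.zero_apply]

theorem om_mul (a b : SA) : om J (a * b) = a • om J b + b • om J a + wg (gr a) (dc J b)
    + wg (gr b) (dc J a) := by
  ext1 i j
  simp only [om, dd, dc, st, gr, wg, D_add, D_mul, D_neg, D_sub, Matrix.add_apply,
    Matrix.smul_apply, smul_eq_mul]
  ring

theorem om_cmp (F : ℝ → ℝ) (hF : ContDiff ℝ ∞ F) (a : SA) :
    om J (cmp F hF a) = cmp (deriv F) (contDiff_deriv' hF) a • om J a
      + cmp (deriv (deriv F)) (contDiff_deriv' (contDiff_deriv' hF)) a • wg (gr a) (dc J a) := by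
  ext1 i j
  simp only [om, dd, dc, st, gr, wg, D_cmp, D_add, D_mul, D_neg, D_sub, Matrix.add_apply,
    Matrix.smul_apply, smul_eq_mul]
  ring

theorem H2_add (a b : SA) : H2 J (a + b) = H2 J a + H2 J b := by
  simp only [H2, om_add, Matrix.mul_add, Matrix.add_mul]; abel

theorem H2_sub (a b : SA) : H2 J (a - b) = H2 J a - H2 J b := by
  simp only [H2, om_sub, Matrix.mul_sub, Matrix.sub_mul]; abel

theorem H2_smul (t : ℝ) (a : SA) : H2 J (t • a) = t • H2 J a := by
  simp only [H2, om_smul, Matrix.mul_smul, Matrix.smul_mul, smul_add]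

theorem H2_cst (t : ℝ) : H2 J (cst t) = 0 := by
  simp only [H2, om_cst, Matrix.mul_zero, Matrix.zero_mul, add_zero]

theorem N2_add (a b : SA) : N2 J (a + b) = N2 J a + N2 J b := by
  simp only [N2, om_add, Matrix.mul_add, Matrix.add_mul]; abel

theorem N2_sub (a b : SA) : N2 J (a - b) = N2 J a - N2 J b := by
  simp only [N2, om_sub, Matrix.mul_sub, Matrix.sub_mul]; abel

theorem N2_smul (t : ℝ) (a : SA) : N2 J (t • a) = t • N2 J a := by
  simp only [N2, om_smul, Matrix.mul_smul, Matrix.smul_mul, smul_sub]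

theorem gr_add (a b : SA) : gr (a + b) = gr a + gr b := by
  ext1 i; simp only [gr, D_add, Pi.add_apply]

theorem gr_sub (a b : SA) : gr (a - b) = gr a - gr b := by
  ext1 i; simp only [gr, D_sub, Pi.sub_apply]

theorem gr_smul (t : ℝ) (a : SA) : gr (t • a) = t • gr a := by
  ext1 i; simp only [gr, D_smul, Pi.smul_apply]

end lin

/-- Value of a matrix of functions. -/
def mv (x : E4) (P : Matrix (Fin 4) (Fin 4) SA) : Matrix (Fin 4) (Fin 4) ℝ := fun i j => (P i j).1 x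

/-- Value of a covector field. -/
def vv (x : E4) (p : Fin 4 → SA) : Fin 4 → ℝ := fun i => (p i).1 x

theorem mv_add (x : E4) (P Q : Matrix (Fin 4) (Fin 4) SA) : mv x (P + Q) = mv x P + mv x Q := rfl
theorem mv_sub (x : E4) (P Q : Matrix (Fin 4) (Fin 4) SA) : mv x (P - Q) = mv x P - mv x Q := rfl
theorem mv_smul (x : E4) (t : ℝ) (P : Matrix (Fin 4) (Fin 4) SA) : mv x (t • P) = t • mv x P := rfl
theorem mv_smul' (x : E4) (t : SA) (P : Matrix (Fin 4) (Fin 4) SA) :
    mv x (t • P) = t.1 x • mv x P := rfl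
theorem mv_transpose (x : E4) (P : Matrix (Fin 4) (Fin 4) SA) : mv x Pᵀ = (mv x P)ᵀ := rfl

theorem mv_mul (x : E4) (P Q : Matrix (Fin 4) (Fin 4) SA) : mv x (P * Q) = mv x P * mv x Q := by
  ext i j
  change (ev x) ((P * Q) i j) = _
  rw [Matrix.mul_apply, map_sum, Matrix.mul_apply]
  rfl

theorem wd_val (x : E4) (P Q : Matrix (Fin 4) (Fin 4) SA) : (wd P Q).1 x = wd (mv x P) (mv x Q) := rfl

theorem wg_val (x : E4) (p q : Fin 4 → SA) : mv x (wg p q) = wg (vv x p) (vv x q) := rfl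

theorem st_val (x : E4) (J : Matrix (Fin 4) (Fin 4) SA) (p : Fin 4 → SA) :
    vv x (st J p) = st (mv x J) (vv x p) := rfl

theorem vv_add (x : E4) (p q : Fin 4 → SA) : vv x (p + q) = vv x p + vv x q := rfl
theorem vv_sub (x : E4) (p q : Fin 4 → SA) : vv x (p - q) = vv x p - vv x q := rfl
theorem vv_smul (x : E4) (t : ℝ) (p : Fin 4 → SA) : vv x (t • p) = t • vv x p := rfl

theorem asy_dd (x : E4) (α : Fin 4 → SA) : Asy (mv x (dd α)) := by
  intro i j
  change (D i (α j) - D j (α i) : SA).1 x = - (D j (α i) - D i (α j) : SA).1 x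
  simp only [SA.sub_val]; ring

section pt
variable (J : Matrix (Fin 4) (Fin 4) SA) (σ : ℝ) (x : E4)

theorem H2_val (a : SA) : mv x (H2 J a) = mv x (om J a) + (mv x J)ᵀ * mv x (om J a) * mv x J := by
  rw [H2, mv_add, mv_mul, mv_mul, mv_transpose]

theorem N2_val (a : SA) : mv x (N2 J a) = mv x (om J a) - (mv x J)ᵀ * mv x (om J a) * mv x J := by
  rw [N2, mv_sub, mv_mul, mv_mul, mv_transpose]

theorem om_eq (a : SA) : (2 : ℝ) • mv x (om J a) = mv x (H2 J a) + mv x (N2 J a) := by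
  rw [H2_val, N2_val, two_smul]; abel

theorem asy_om (a : SA) : Asy (mv x (om J a)) := asy_dd x _

theorem asy_H2 (a : SA) : Asy (mv x (H2 J a)) := by
  rw [H2_val]; exact (asy_om J x a).add ((asy_om J x a).conj _)

theorem asy_N2 (a : SA) : Asy (mv x (N2 J a)) := by
  rw [N2_val]; exact (asy_om J x a).sub ((asy_om J x a).conj _)

variable {J x}

theorem conj_conj {j : Matrix (Fin 4) (Fin 4) ℝ} (hj : j * j = -1) (P : Matrix (Fin 4) (Fin 4) ℝ) :
    jᵀ * (jᵀ * P * j) * j = P := by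
  have hjt : jᵀ * jᵀ = -1 := by rw [← Matrix.transpose_mul, hj]; simp
  calc jᵀ * (jᵀ * P * j) * j = (jᵀ * jᵀ) * P * (j * j) := by simp only [Matrix.mul_assoc]
    _ = P := by rw [hj, hjt]; simp

theorem inv_H2 (hj : mv x J * mv x J = -1) (a : SA) : Inv (mv x J) (mv x (H2 J a)) := by
  rw [H2_val]; unfold Inv
  rw [Matrix.mul_add, Matrix.add_mul, conj_conj hj]; abel

theorem ainv_N2 (hj : mv x J * mv x J = -1) (a : SA) : AInv (mv x J) (mv x (N2 J a)) := by
  rw [N2_val]; unfold AInv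
  rw [Matrix.mul_sub, Matrix.sub_mul, conj_conj hj]; abel

end pt

section stpt
variable {j : Matrix (Fin 4) (Fin 4) ℝ}

theorem conj_wg (j : Matrix (Fin 4) (Fin 4) ℝ) (p q : Fin 4 → ℝ) :
    jᵀ * wg p q * j = wg (st j p) (st j q) := by
  ext i k
  simp only [Matrix.mul_apply, Fin.sum_univ_four, Matrix.transpose_apply, wg, st]
  ring

theorem st_st (hj : j * j = -1) (p : Fin 4 → ℝ) : st j (st j p) = -p := by
  ext i
  have h : ∀ k, (j * j) k i = (-1 : Matrix (Fin 4) (Fin 4) ℝ) k i := fun k => by rw [hj]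
  have h0 := h 0
  have h1 := h 1
  have h2 := h 2
  have h3 := h 3
  simp only [Matrix.mul_apply, Fin.sum_univ_four, Matrix.neg_apply] at h0 h1 h2 h3
  have key : st j (st j p) i = (j 0 0 * j 0 i + j 0 1 * j 1 i + j 0 2 * j 2 i + j 0 3 * j 3 i) * p 0
      + (j 1 0 * j 0 i + j 1 1 * j 1 i + j 1 2 * j 2 i + j 1 3 * j 3 i) * p 1
      + (j 2 0 * j 0 i + j 2 1 * j 1 i + j 2 2 * j 2 i + j 2 3 * j 3 i) * p 2
      + (j 3 0 * j 0 i + j 3 1 * j 1 i + j 3 2 * j 2 i + j 3 3 * j 3 i) * p 3 := by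
    simp only [st]; ring
  rw [key, h0, h1, h2, h3]
  fin_cases i <;> simp [Matrix.one_apply]

theorem wg_neg_left (p q : Fin 4 → ℝ) : wg (-p) q = -wg p q := by
  ext i k; simp only [wg, Pi.neg_apply, Matrix.neg_apply]; ring

theorem wg_neg_right (p q : Fin 4 → ℝ) : wg p (-q) = -wg p q := by
  ext i k; simp only [wg, Pi.neg_apply, Matrix.neg_apply]; ring

theorem wg_swap (p q : Fin 4 → ℝ) : wg p q = -wg q p := by
  ext i k; simp only [wg, Matrix.neg_apply]; ring

theorem conj_wg_st (hj : j * j = -1) (p q : Fin 4 → ℝ) :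
    jᵀ * wg p (st j q) * j = wg q (st j p) := by
  rw [conj_wg, st_st hj, wg_neg_right, ← wg_swap]

theorem inv_rank (hj : j * j = -1) (p : Fin 4 → ℝ) : Inv j (wg p (st j p)) := conj_wg_st hj p p

theorem inv_sym (hj : j * j = -1) (p q : Fin 4 → ℝ) : Inv j (wg p (st j q) + wg q (st j p)) := by
  unfold Inv
  rw [Matrix.mul_add, Matrix.add_mul, conj_wg_st hj, conj_wg_st hj, add_comm]

theorem ainv_ant (hj : j * j = -1) (p q : Fin 4 → ℝ) : AInv j (wg p (st j q) - wg q (st j p)) := by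
  unfold AInv
  rw [Matrix.mul_sub, Matrix.sub_mul, conj_wg_st hj, conj_wg_st hj]; abel

theorem dot_st (p X : Fin 4 → ℝ) : st j p ⬝ᵥ X = - (p ⬝ᵥ (j *ᵥ X)) := by
  simp only [dotProduct, Fin.sum_univ_four, st, Matrix.mulVec]; ring

theorem wg_apply_vec (p q X Y : Fin 4 → ℝ) :
    X ⬝ᵥ (wg p q *ᵥ Y) = (p ⬝ᵥ X) * (q ⬝ᵥ Y) - (p ⬝ᵥ Y) * (q ⬝ᵥ X) := by
  simp only [dotProduct, Fin.sum_univ_four, wg, Matrix.mulVec]; ring

theorem qf_rank (hj : j * j = -1) (p X : Fin 4 → ℝ) :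
    qf j (wg p (st j p)) X = (p ⬝ᵥ X) ^ 2 + (p ⬝ᵥ (j *ᵥ X)) ^ 2 := by
  unfold qf
  rw [wg_apply_vec, dot_st, dot_st, Matrix.mulVec_mulVec, hj, Matrix.neg_mulVec, Matrix.one_mulVec]
  simp only [dotProduct_neg]
  ring

theorem pos_rank (hj : j * j = -1) (p : Fin 4 → ℝ) : Pos j (wg p (st j p)) := by
  intro X; rw [qf_rank hj]; positivity

theorem rank_ne_zero (hj : j * j = -1) {p : Fin 4 → ℝ} (hp : p ≠ 0) : wg p (st j p) ≠ 0 := by
  intro h
  have h1 := qf_rank hj p p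
  rw [h] at h1
  have h2 : qf j 0 p = 0 := by simp [qf]
  rw [h2] at h1
  have h3 : p ⬝ᵥ p = 0 := by nlinarith [sq_nonneg (p ⬝ᵥ p), sq_nonneg (p ⬝ᵥ (j *ᵥ p))]
  exact hp (dotProduct_self_eq_zero.mp h3)

theorem wd_ant (p p' q q' : Fin 4 → ℝ) :
    wd (wg p q' - wg q p') (wg p q' - wg q p') = 2 * wd (wg p p') (wg q q') := by
  simp only [wd, wg, Matrix.sub_apply]; ring

end stpt

end Pool.Agent.Y264
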