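import Pool.Agent.Y264.Forms2

/-! Pointwise facts and uniform constants on a compact set. -/

namespace Pool.Agent.Y264
open Matrix MeasureTheory Set Filter Topology
open scoped ContDiff

theorem unif_pos {X V : Type*} [TopologicalSpace X] [NormedAddCommGroup V] [NormedSpace ℝ V]
    [FiniteDimensional ℝ V] {S : Set X} (hS : IsCompact S) (Cn : Set (X × V)) (hC : IsClosed Cn)
    (F : X × V → ℝ) (hF : Continuous F) (hom : ∀ x v (t : ℝ), F (x, t • v) = t ^ 2 * F (x, v))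
    (cone : ∀ x v (t : ℝ), (x, v) ∈ Cn → (x, t • v) ∈ Cn)
    (pos : ∀ x ∈ S, ∀ v, v ≠ 0 → (x, v) ∈ Cn → 0 < F (x, v)) :
    ∃ c > 0, ∀ x ∈ S, ∀ v, (x, v) ∈ Cn → c * ‖v‖ ^ 2 ≤ F (x, v) := by
  have : ProperSpace V := FiniteDimensional.proper ℝ V
  have hK : IsCompact ((S ×ˢ Metric.sphere (0 : V) 1) ∩ Cn) :=
    (hS.prod (isCompact_sphere _ _)).inter_right hC
  have hz : ∀ x, F (x, 0) = 0 := by
    intro x; have := hom x 0 0; simpa using this
  have scale : ∀ c : ℝ, (∀ z ∈ (S ×ˢ Metric.sphere (0 : V) 1) ∩ Cn, c ≤ F z) →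
      ∀ x ∈ S, ∀ v, (x, v) ∈ Cn → c * ‖v‖ ^ 2 ≤ F (x, v) := by
    intro c hc x hx v hv
    by_cases h0 : v = 0
    · subst h0; rw [hz]; simp
    · have hn : 0 < ‖v‖ := norm_pos_iff.mpr h0
      have h1 := hc (x, ‖v‖⁻¹ • v) ⟨⟨hx, by simp [norm_smul, hn.ne']⟩, cone _ _ _ hv⟩
      rw [hom] at h1
      have h2 : (‖v‖⁻¹) ^ 2 * ‖v‖ ^ 2 = 1 := by field_simp
      calc c * ‖v‖ ^ 2 ≤ ((‖v‖⁻¹) ^ 2 * F (x, v)) * ‖v‖ ^ 2 :=
            mul_le_mul_of_nonneg_right h1 (by positivity)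
        _ = ((‖v‖⁻¹) ^ 2 * ‖v‖ ^ 2) * F (x, v) := by ring
        _ = F (x, v) := by rw [h2, one_mul]
  rcases ((S ×ˢ Metric.sphere (0 : V) 1) ∩ Cn).eq_empty_or_nonempty with he | hne
  · refine ⟨1, one_pos, scale 1 ?_⟩
    intro z hz; rw [he] at hz; exact absurd hz (notMem_empty _)
  · obtain ⟨z0, hz0, hmin⟩ := hK.exists_isMinOn hne hF.continuousOn
    refine ⟨F z0, ?_, scale _ (fun z hz => hmin hz)⟩
    obtain ⟨x0, v0⟩ := z0
    refine pos x0 hz0.1.1 v0 ?_ hz0.2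
    intro h; have := hz0.1.2; simp [h] at this

/-- The basic data on a compact set. -/
structure Geo (J : Matrix (Fin 4) (Fin 4) SA) (σ : ℝ) (S : Set E4) (ρ : SA) : Prop where
  cpt : IsCompact S
  sq : ∀ x ∈ S, mv x J * mv x J = -1
  ori : ∀ x ∈ S, Ori σ (mv x J)
  sps : ∀ x ∈ S, SPos (mv x J) (mv x (H2 J ρ))

/-- Smooth plurisubharmonic functions on `S`. -/
def Psh (J : Matrix (Fin 4) (Fin 4) SA) (S : Set E4) (f : SA) : Prop :=
  ∀ x ∈ S, Pos (mv x J) (mv x (H2 J f))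

section vals
variable (J : Matrix (Fin 4) (Fin 4) SA) (σ : ℝ) (x : E4)

theorem mix_val (a b : SA) : (mix J σ a b).1 x = σ * wd (mv x (H2 J a)) (mv x (H2 J b)) := rfl

theorem Gam_val (b φ a : SA) : (Gam J σ b φ a).1 x
    = 2 * σ * wd (wg (vv x (gr φ)) (st (mv x J) (vv x (gr a)))) (mv x (H2 J b)) := rfl

theorem nu_val (φ a b : SA) : (nu J σ φ a b).1 x
    = 2 * σ * wd (wg (vv x (gr φ)) (st (mv x J) (vv x (gr a)))) (mv x (N2 J b)) := rfl

theorem qq_val (a b : SA) : (qq J σ a b).1 x = σ * wd (mv x (N2 J a)) (mv x (N2 J b)) := rfl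

end vals

section bil
variable (J : Matrix (Fin 4) (Fin 4) SA) (σ : ℝ)

theorem mix_comm (a b : SA) : mix J σ a b = mix J σ b a := by
  simp only [mix, wd_comm]

theorem mix_add_left (a a' b : SA) : mix J σ (a + a') b = mix J σ a b + mix J σ a' b := by
  simp only [mix, H2_add, wd_add_left, smul_add]

theorem mix_sub_left (a a' b : SA) : mix J σ (a - a') b = mix J σ a b - mix J σ a' b := by
  simp only [mix, H2_sub, wd_sub_left, smul_sub]

theorem wd_smulR (t : ℝ) (P Q : Matrix (Fin 4) (Fin 4) SA) : wd (t • P) Q = t • wd P Q := by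
  simp only [wd, Matrix.smul_apply, smul_SA]; ring

theorem wd_smulR' (t : ℝ) (P Q : Matrix (Fin 4) (Fin 4) SA) : wd P (t • Q) = t • wd P Q := by
  rw [wd_comm, wd_smulR, wd_comm]

theorem mix_smul_left (t : ℝ) (a b : SA) : mix J σ (t • a) b = t • mix J σ a b := by
  simp only [mix, H2_smul, wd_smulR]; rw [smul_comm]

theorem mix_add_right (a b b' : SA) : mix J σ a (b + b') = mix J σ a b + mix J σ a b' := by
  simp only [mix, H2_add, wd_add_right, smul_add]

theorem mix_sub_right (a b b' : SA) : mix J σ a (b - b') = mix J σ a b - mix J σ a b' := by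
  simp only [mix, H2_sub, wd_sub_right, smul_sub]

theorem mix_smul_right (t : ℝ) (a b : SA) : mix J σ a (t • b) = t • mix J σ a b := by
  rw [mix_comm, mix_smul_left, mix_comm]

theorem mix_cst_left (t : ℝ) (b : SA) : mix J σ (cst t) b = 0 := by
  have : wd (0 : Matrix (Fin 4) (Fin 4) SA) (H2 J b) = 0 := by simp [wd]
  simp only [mix, H2_cst, this, smul_zero]

theorem Gam_add_b (b b' φ a : SA) : Gam J σ (b + b') φ a = Gam J σ b φ a + Gam J σ b' φ a := by
  simp only [Gam, H2_add, wd_add_right, smul_add]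

theorem Gam_smul_b (t : ℝ) (b φ a : SA) : Gam J σ (t • b) φ a = t • Gam J σ b φ a := by
  simp only [Gam, H2_smul, wd_smulR']; rw [smul_comm]

theorem Gam_add_l (b φ φ' a : SA) : Gam J σ b (φ + φ') a = Gam J σ b φ a + Gam J σ b φ' a := by
  simp only [Gam, gr, wg, wd, D_add, ← smul_add]
  congr 1; ring

theorem Gam_sub_l (b φ φ' a : SA) : Gam J σ b (φ - φ') a = Gam J σ b φ a - Gam J σ b φ' a := by
  simp only [Gam, gr, wg, wd, D_sub, ← smul_sub]
  congr 1; ring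

theorem Gam_smul_l (t : ℝ) (b φ a : SA) : Gam J σ b (t • φ) a = t • Gam J σ b φ a := by
  simp only [Gam, gr, wg, wd, D_smul]; simp only [smul_SA]; ring

theorem dc_add (a b : SA) : dc J (a + b) = dc J a + dc J b := by
  ext1 i; simp only [dc, st, gr, D_add, Pi.add_apply]; ring

theorem dc_sub (a b : SA) : dc J (a - b) = dc J a - dc J b := by
  ext1 i; simp only [dc, st, gr, D_sub, Pi.sub_apply]; ring

theorem Gam_add_r (b φ a a' : SA) : Gam J σ b φ (a + a') = Gam J σ b φ a + Gam J σ b φ a' := by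
  simp only [Gam, dc_add, wg, wd, Pi.add_apply, ← smul_add]
  congr 1; ring

theorem Gam_sub_r (b φ a a' : SA) : Gam J σ b φ (a - a') = Gam J σ b φ a - Gam J σ b φ a' := by
  simp only [Gam, dc_sub, wg, wd, Pi.sub_apply, ← smul_sub]
  congr 1; ring

theorem Gam_mul_l (b φ ψ a : SA) : Gam J σ b (φ * ψ) a = φ * Gam J σ b ψ a + ψ * Gam J σ b φ a := by
  simp only [Gam, gr, wg, wd, D_mul, smul_SA]; ring

theorem dc_mul (a b : SA) : dc J (a * b) = a • dc J b + b • dc J a := by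
  ext1 i; simp only [dc, st, gr, D_mul, Pi.add_apply, Pi.smul_apply, smul_eq_mul]; ring

theorem Gam_mul_r (b φ a a' : SA) : Gam J σ b φ (a * a') = a * Gam J σ b φ a' + a' * Gam J σ b φ a := by
  simp only [Gam, dc_mul, wg, wd, Pi.add_apply, Pi.smul_apply, smul_eq_mul, smul_SA]; ring

theorem Gam_cmp_l (F : ℝ → ℝ) (hF : ContDiff ℝ ∞ F) (b φ a : SA) :
    Gam J σ b (cmp F hF φ) a = cmp (deriv F) (contDiff_deriv' hF) φ * Gam J σ b φ a := by
  simp only [Gam, gr, wg, wd, D_cmp, smul_SA]; ring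

theorem nu_add_l (φ φ' a b : SA) : nu J σ (φ + φ') a b = nu J σ φ a b + nu J σ φ' a b := by
  simp only [nu, gr, wg, wd, D_add, ← smul_add]
  congr 1; ring

theorem nu_sub_l (φ φ' a b : SA) : nu J σ (φ - φ') a b = nu J σ φ a b - nu J σ φ' a b := by
  simp only [nu, gr, wg, wd, D_sub, ← smul_sub]
  congr 1; ring

theorem nu_mul_l (φ ψ a b : SA) : nu J σ (φ * ψ) a b = φ * nu J σ ψ a b + ψ * nu J σ φ a b := by
  simp only [nu, gr, wg, wd, D_mul, smul_SA]; ring

theorem nu_mul_r (φ a a' b : SA) : nu J σ φ (a * a') b = a * nu J σ φ a' b + a' * nu J σ φ a b := by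
  simp only [nu, dc_mul, wg, wd, Pi.add_apply, Pi.smul_apply, smul_eq_mul, smul_SA]; ring

theorem nu_add_b (φ a b b' : SA) : nu J σ φ a (b + b') = nu J σ φ a b + nu J σ φ a b' := by
  simp only [nu, N2_add, wd_add_right, smul_add]

theorem nu_cmp_l (F : ℝ → ℝ) (hF : ContDiff ℝ ∞ F) (φ a b : SA) :
    nu J σ (cmp F hF φ) a b = cmp (deriv F) (contDiff_deriv' hF) φ * nu J σ φ a b := by
  simp only [nu, gr, wg, wd, D_cmp, smul_SA]; ring

theorem qq_add_left (a a' b : SA) : qq J σ (a + a') b = qq J σ a b + qq J σ a' b := by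
  simp only [qq, N2_add, wd_add_left, smul_add]

theorem qq_sub_left (a a' b : SA) : qq J σ (a - a') b = qq J σ a b - qq J σ a' b := by
  simp only [qq, N2_sub, wd_sub_left, smul_sub]

end bil

theorem wd_quad (j H : Matrix (Fin 4) (Fin 4) ℝ) (p q : Fin 4 → ℝ) (s t : ℝ) :
    wd (wg (s • p + t • q) (st j (s • p + t • q))) H = s ^ 2 * wd (wg p (st j p)) H
      + s * t * (wd (wg p (st j q)) H + wd (wg q (st j p)) H) + t ^ 2 * wd (wg q (st j q)) H := by
  simp only [wd, wg, st, Pi.add_apply, Pi.smul_apply, smul_eq_mul]; ring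

section onS
variable {J : Matrix (Fin 4) (Fin 4) SA} {σ : ℝ} {S : Set E4} {ρ : SA} (G : Geo J σ S ρ) {x : E4}
  (hx : x ∈ S)
include G hx

theorem Gam_symm (b φ a : SA) : (Gam J σ b φ a).1 x = (Gam J σ b a φ).1 x := by
  rw [Gam_val, Gam_val]
  have h := wd_inv_ainv (G.sq x hx) (asy_H2 J x b)
    ((asy_wg (vv x (gr φ)) (st (mv x J) (vv x (gr a)))).sub
      (asy_wg (vv x (gr a)) (st (mv x J) (vv x (gr φ)))))
    (inv_H2 (G.sq x hx) b) (ainv_ant (G.sq x hx) _ _)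
  rw [wd_sub_right] at h
  rw [wd_comm, wd_comm (wg (vv x (gr a)) (st (mv x J) (vv x (gr φ))))]
  have h' := sub_eq_zero.mp h
  rw [h']

theorem nu_antisymm (φ a b : SA) : (nu J σ φ a b).1 x = -(nu J σ a φ b).1 x := by
  rw [nu_val, nu_val]
  have h := wd_inv_ainv (G.sq x hx) 
    ((asy_wg (vv x (gr φ)) (st (mv x J) (vv x (gr a)))).add
      (asy_wg (vv x (gr a)) (st (mv x J) (vv x (gr φ))))) (asy_N2 J x b)
     (inv_sym (G.sq x hx) _ _) (ainv_N2 (G.sq x hx) b)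
  rw [wd_add_left] at h
  have h' := eq_neg_of_add_eq_zero_left h
  rw [h']; ring

theorem nu_self (a b : SA) : (nu J σ a a b).1 x = 0 := by
  have := nu_antisymm G hx a a b
  linarith

theorem mix_nonneg {a b : SA} (ha : Psh J S a) (hb : Psh J S b) : 0 ≤ (mix J σ a b).1 x :=
  (G.ori x hx).pos _ _ (asy_H2 J x a) (inv_H2 (G.sq x hx) a) (ha x hx) (asy_H2 J x b)
    (inv_H2 (G.sq x hx) b) (hb x hx)

theorem Gam_pos' {b : SA} (hb : Psh J S b) (p : Fin 4 → ℝ) :
    0 ≤ 2 * σ * wd (wg p (st (mv x J) p)) (mv x (H2 J b)) := by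
  have h := (G.ori x hx).pos _ _ (asy_wg p (st (mv x J) p)) (inv_rank (G.sq x hx) p)
    (pos_rank (G.sq x hx) p) (asy_H2 J x b) (inv_H2 (G.sq x hx) b) (hb x hx)
  linarith

theorem Gam_nonneg {b : SA} (hb : Psh J S b) (a : SA) : 0 ≤ (Gam J σ b a a).1 x := by
  rw [Gam_val]; exact Gam_pos' G hx hb _

theorem Gam_cs {b : SA} (hb : Psh J S b) (φ a : SA) (s t : ℝ) :
    0 ≤ s ^ 2 * (Gam J σ b φ φ).1 x + 2 * s * t * (Gam J σ b φ a).1 x
      + t ^ 2 * (Gam J σ b a a).1 x := by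
  have h := Gam_pos' G hx hb (s • vv x (gr φ) + t • vv x (gr a))
  rw [wd_quad] at h
  have hs := Gam_symm G hx b a φ
  rw [Gam_val, Gam_val] at hs
  rw [Gam_val, Gam_val, Gam_val]
  linarith [mul_comm s t, congrArg (fun z => s * t * z) hs]

theorem mv_H2_mul (a b : SA) : mv x (H2 J (a * b)) = a.1 x • mv x (H2 J b) + b.1 x • mv x (H2 J a)
    + (2 : ℝ) • (wg (vv x (gr a)) (st (mv x J) (vv x (gr b)))
      + wg (vv x (gr b)) (st (mv x J) (vv x (gr a)))) := by
  have hi : (mv x J)ᵀ * (wg (vv x (gr a)) (st (mv x J) (vv x (gr b)))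
      + wg (vv x (gr b)) (st (mv x J) (vv x (gr a)))) * (mv x J) = _ :=
    inv_sym (G.sq x hx) (vv x (gr a)) (vv x (gr b))
  rw [H2_val, om_mul, mv_add, mv_add, mv_add, mv_smul', mv_smul', wg_val, wg_val, dc, dc, st_val,
    st_val, H2_val, H2_val]
  generalize mv x (om J a) = A at *
  generalize mv x (om J b) = B at *
  have e : (a.1 x • B + b.1 x • A + wg (vv x (gr a)) (st (mv x J) (vv x (gr b)))
      + wg (vv x (gr b)) (st (mv x J) (vv x (gr a)))) = (a.1 x • B + b.1 x • A) +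
      (wg (vv x (gr a)) (st (mv x J) (vv x (gr b)))
      + wg (vv x (gr b)) (st (mv x J) (vv x (gr a)))) := by abel
  rw [e, Matrix.mul_add, Matrix.add_mul, hi, Matrix.mul_add, Matrix.add_mul, Matrix.mul_smul,
    Matrix.mul_smul, Matrix.smul_mul, Matrix.smul_mul, two_smul, smul_add, smul_add]
  abel

theorem mv_H2_cmp (F : ℝ → ℝ) (hF : ContDiff ℝ ∞ F) (a : SA) :
    mv x (H2 J (cmp F hF a)) = (deriv F (a.1 x)) • mv x (H2 J a)
    + (2 * deriv (deriv F) (a.1 x)) • (wg (vv x (gr a)) (st (mv x J) (vv x (gr a)))) := by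
  have hi : (mv x J)ᵀ * (wg (vv x (gr a)) (st (mv x J) (vv x (gr a)))) * (mv x J) = _ :=
    inv_rank (G.sq x hx) (vv x (gr a))
  rw [H2_val, om_cmp, mv_add, mv_smul', mv_smul', wg_val, dc, st_val, H2_val, cmp_val, cmp_val]
  generalize mv x (om J a) = A at *
  rw [Matrix.mul_add, Matrix.add_mul, Matrix.mul_smul, Matrix.mul_smul, Matrix.smul_mul,
    Matrix.smul_mul, hi]
  module

theorem mix_mul (a a' b : SA) : (mix J σ (a * a') b).1 x = a.1 x * (mix J σ a' b).1 x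
    + a'.1 x * (mix J σ a b).1 x + 2 * (Gam J σ b a a').1 x := by
  have hs := Gam_symm G hx b a a'
  rw [Gam_val, Gam_val] at hs
  rw [mix_val, mv_H2_mul G hx, mix_val, mix_val, Gam_val, wd_add_left, wd_add_left, wd_smul_left,
    wd_smul_left, wd_smul_left, wd_add_left]
  linarith

theorem mix_cmp (F : ℝ → ℝ) (hF : ContDiff ℝ ∞ F) (a b : SA) :
    (mix J σ (cmp F hF a) b).1 x = deriv F (a.1 x) * (mix J σ a b).1 x
      + deriv (deriv F) (a.1 x) * (Gam J σ b a a).1 x := by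
  rw [mix_val, mv_H2_cmp G hx, mix_val, Gam_val, wd_add_left, wd_smul_left, wd_smul_left]
  ring

end onS

end Pool.Agent.Y264
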