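import Pool.Agent.Y264.Geo

/-! Uniform constants on a compact set. -/

namespace Pool.Agent.Y264
open Matrix MeasureTheory Set Filter Topology
open scoped ContDiff

/-- Norm of the gradient. -/
noncomputable def nn (a : SA) (x : E4) : ℝ := Real.sqrt ((g2 a).1 x)

theorem g2_val (a : SA) (x : E4) : (g2 a).1 x = (vv x (gr a)) ⬝ᵥ (vv x (gr a)) := by
  simp only [dotProduct, Fin.sum_univ_four]; rfl

theorem g2_nonneg (a : SA) (x : E4) : 0 ≤ (g2 a).1 x := by
  rw [g2_val]; simp only [dotProduct, Fin.sum_univ_four]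
  linarith [mul_self_nonneg (vv x (gr a) 0), mul_self_nonneg (vv x (gr a) 1),
    mul_self_nonneg (vv x (gr a) 2), mul_self_nonneg (vv x (gr a) 3)]

theorem nn_nonneg (a : SA) (x : E4) : 0 ≤ nn a x := Real.sqrt_nonneg _

theorem nn_sq (a : SA) (x : E4) : nn a x ^ 2 = (g2 a).1 x := Real.sq_sqrt (g2_nonneg a x)

theorem abs_gr_le (a : SA) (x : E4) (i : Fin 4) : |vv x (gr a) i| ≤ nn a x := by
  apply Real.abs_le_sqrt
  rw [g2_val]; simp only [dotProduct, Fin.sum_univ_four]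
  fin_cases i <;> simp only [Fin.zero_eta, Fin.mk_one, Fin.reduceFinMk] <;> nlinarith [sq_nonneg (vv x (gr a) 0), sq_nonneg (vv x (gr a) 1), sq_nonneg (vv x (gr a) 2), sq_nonneg (vv x (gr a) 3)]

theorem bound_entries {S : Set E4} (hS : IsCompact S) (P : Matrix (Fin 4) (Fin 4) SA) :
    ∃ C : ℝ, 0 ≤ C ∧ ∀ x ∈ S, ∀ i j, |mv x P i j| ≤ C := by
  have h : ∀ i j, ∃ C : ℝ, ∀ x ∈ S, ‖(P i j).1 x‖ ≤ C := fun i j =>
    hS.exists_bound_of_continuousOn (SA.cont (P i j)).continuousOn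
  choose C hC using h
  refine ⟨∑ i, ∑ j, |C i j|, by positivity, ?_⟩
  intro x hx i j
  calc |mv x P i j| ≤ C i j := hC i j x hx
    _ ≤ |C i j| := le_abs_self _
    _ ≤ ∑ j, |C i j| := Finset.single_le_sum (f := fun j => |C i j|) (fun _ _ => abs_nonneg _) (Finset.mem_univ j)
    _ ≤ ∑ i, ∑ j, |C i j| := Finset.single_le_sum (f := fun i => ∑ j, |C i j|)
        (fun _ _ => Finset.sum_nonneg fun _ _ => abs_nonneg _) (Finset.mem_univ i)

theorem abs_wd_le {P Q : Matrix (Fin 4) (Fin 4) ℝ} {A B : ℝ} (hP : ∀ i j, |P i j| ≤ A)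
    (hQ : ∀ i j, |Q i j| ≤ B) : |wd P Q| ≤ 6 * (A * B) := by
  have h : ∀ i j k l, |P i j * Q k l| ≤ A * B := by
    intro i j k l
    rw [abs_mul]
    exact mul_le_mul (hP i j) (hQ k l) (abs_nonneg _) ((abs_nonneg _).trans (hP i j))
  have h1 := abs_le.mp (h 0 1 2 3)
  have h2 := abs_le.mp (h 0 2 1 3)
  have h3 := abs_le.mp (h 0 3 1 2)
  have h4 := abs_le.mp (h 2 3 0 1)
  have h5 := abs_le.mp (h 1 3 0 2)
  have h6 := abs_le.mp (h 1 2 0 3)
  unfold wd
  rw [abs_le]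
  constructor <;> linarith

theorem abs_st_le {j : Matrix (Fin 4) (Fin 4) ℝ} {q : Fin 4 → ℝ} {A B : ℝ}
    (hj : ∀ i k, |j i k| ≤ A) (hq : ∀ i, |q i| ≤ B) (i : Fin 4) : |st j q i| ≤ 4 * (A * B) := by
  have h : ∀ k, |j k i * q k| ≤ A * B := by
    intro k
    rw [abs_mul]
    exact mul_le_mul (hj k i) (hq k) (abs_nonneg _) ((abs_nonneg _).trans (hj k i))
  have h1 := abs_le.mp (h 0)
  have h2 := abs_le.mp (h 1)
  have h3 := abs_le.mp (h 2)
  have h4 := abs_le.mp (h 3)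
  unfold st
  rw [abs_le]
  constructor <;> linarith

theorem abs_wg_le {p q : Fin 4 → ℝ} {A B : ℝ} (hp : ∀ i, |p i| ≤ A) (hq : ∀ i, |q i| ≤ B)
    (i j : Fin 4) : |wg p q i j| ≤ 2 * (A * B) := by
  have h : ∀ k l, |p k * q l| ≤ A * B := by
    intro k l
    rw [abs_mul]
    exact mul_le_mul (hp k) (hq l) (abs_nonneg _) ((abs_nonneg _).trans (hp k))
  have h1 := abs_le.mp (h i j)
  have h2 := abs_le.mp (h j i)
  unfold wg
  rw [abs_le]
  constructor <;> linarith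

theorem abs_conj_le {j P : Matrix (Fin 4) (Fin 4) ℝ} {A B : ℝ} (hj : ∀ i k, |j i k| ≤ A)
    (hP : ∀ i k, |P i k| ≤ B) (i k : Fin 4) : |(jᵀ * P * j) i k| ≤ 16 * (A * B * A) := by
  have hA : 0 ≤ A := (abs_nonneg _).trans (hj 0 0)
  have hB : 0 ≤ B := (abs_nonneg _).trans (hP 0 0)
  rw [Matrix.mul_apply]
  calc |∑ l, (jᵀ * P) i l * j l k| ≤ ∑ l : Fin 4, |(jᵀ * P) i l * j l k| := Finset.abs_sum_le_sum_abs _ _
    _ ≤ ∑ _l : Fin 4, (4 * (A * B)) * A := by
        apply Finset.sum_le_sum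
        intro l _
        rw [abs_mul]
        apply mul_le_mul _ (hj l k) (abs_nonneg _) (by positivity)
        rw [Matrix.mul_apply]
        calc |∑ m, jᵀ i m * P m l| ≤ ∑ m : Fin 4, |jᵀ i m * P m l| := Finset.abs_sum_le_sum_abs _ _
          _ ≤ ∑ _m : Fin 4, A * B := by
              apply Finset.sum_le_sum
              intro m _
              rw [abs_mul]
              exact mul_le_mul (hj m i) (hP m l) (abs_nonneg _) hA
          _ = 4 * (A * B) := by simp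
    _ = 16 * (A * B * A) := by simp; ring

variable {J : Matrix (Fin 4) (Fin 4) SA} {σ : ℝ} {S : Set E4} {ρ : SA} (G : Geo J σ S ρ)

include G

theorem abs_sigma (hne : S.Nonempty) : |σ| = 1 := by
  obtain ⟨x, hx⟩ := hne
  have h := (G.ori x hx).sq
  rcases mul_self_eq_one_iff.mp h with h | h <;> simp [h]

theorem abs_sigma' {x : E4} (hx : x ∈ S) : |σ| = 1 := abs_sigma G ⟨x, hx⟩

theorem exists_N2_bound : ∃ C : ℝ, 0 ≤ C ∧ ∀ x ∈ S, ∀ a : SA, ∀ i j,
    |mv x (N2 J a) i j| ≤ C * nn a x := by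
  obtain ⟨A, hA0, hA⟩ := bound_entries G.cpt J
  have hD : ∀ i, ∃ C : ℝ, 0 ≤ C ∧ ∀ x ∈ S, ∀ k l, |(D i (J k l)).1 x| ≤ C := fun i =>
    bound_entries G.cpt (fun k l => D i (J k l))
  choose B hB0 hB using hD
  set C := ∑ i, B i with hC
  have hBC : ∀ i, B i ≤ C := fun i => Finset.single_le_sum (f := B) (fun i _ => hB0 i) (Finset.mem_univ i)
  have hC0 : 0 ≤ C := Finset.sum_nonneg fun i _ => hB0 i
  refine ⟨8 * C + 16 * (A * (8 * C) * A), by positivity, ?_⟩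
  intro x hx a i j
  have hn := nn_nonneg a x
  obtain ⟨Q, hQ⟩ : ∃ Q : Matrix (Fin 4) (Fin 4) ℝ, ∀ i k, Q i k = (D i (D k a)).1 x :=
    ⟨fun i k => (D i (D k a)).1 x, fun _ _ => rfl⟩
  have hQs : Qᵀ = Q := by
    ext i k; rw [Matrix.transpose_apply, hQ, hQ, D_comm]
  obtain ⟨T, hT⟩ : ∃ T : Matrix (Fin 4) (Fin 4) ℝ, ∀ i j, T i j
      = ∑ k, (-((D i (J k j)).1 x) * (D k a).1 x + (D j (J k i)).1 x * (D k a).1 x) :=
    ⟨fun i j => ∑ k, (-((D i (J k j)).1 x) * (D k a).1 x + (D j (J k i)).1 x * (D k a).1 x),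
      fun _ _ => rfl⟩
  have hom : mv x (om J a) = (-(Q * mv x J) + (mv x J)ᵀ * Q) + T := by
    ext i j
    simp only [Matrix.add_apply, Matrix.neg_apply, Matrix.mul_apply, Fin.sum_univ_four,
      Matrix.transpose_apply, hT, hQ]
    rw [D_comm 0 j, D_comm 1 j, D_comm 2 j, D_comm 3 j]
    simp only [mv, om, dd, dc, st, gr, D_neg, D_add, D_mul, SA.sub_val, SA.neg_val, SA.add_val,
      SA.mul_val]
    ring
  have hJJ := G.sq x hx
  have hJt : (mv x J)ᵀ * (mv x J)ᵀ = -1 := by rw [← Matrix.transpose_mul, hJJ]; simp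
  have hM : (mv x J)ᵀ * (-(Q * mv x J) + (mv x J)ᵀ * Q) * mv x J = -(Q * mv x J) + (mv x J)ᵀ * Q := by
    calc (mv x J)ᵀ * (-(Q * mv x J) + (mv x J)ᵀ * Q) * mv x J
        = -((mv x J)ᵀ * Q * (mv x J * mv x J)) + ((mv x J)ᵀ * (mv x J)ᵀ) * Q * mv x J := by
          noncomm_ring
      _ = _ := by rw [hJJ, hJt]; noncomm_ring
  have hN : mv x (N2 J a) = T - (mv x J)ᵀ * T * mv x J := by
    rw [N2_val, hom, Matrix.mul_add, Matrix.add_mul, hM]; abel
  have hTb : ∀ i j, |T i j| ≤ 8 * C * nn a x := by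
    intro i j
    rw [hT]
    calc |∑ k, (-((D i (J k j)).1 x) * (D k a).1 x + (D j (J k i)).1 x * (D k a).1 x)|
        ≤ ∑ k : Fin 4, |(-((D i (J k j)).1 x) * (D k a).1 x + (D j (J k i)).1 x * (D k a).1 x)| :=
          Finset.abs_sum_le_sum_abs _ _
      _ ≤ ∑ _k : Fin 4, (C * nn a x + C * nn a x) := by
          apply Finset.sum_le_sum
          intro k _
          refine (abs_add_le _ _).trans (add_le_add ?_ ?_)
          · rw [abs_mul, abs_neg]
            exact mul_le_mul ((hB i x hx k j).trans (hBC i)) (abs_gr_le a x k) (abs_nonneg _) hC0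
          · rw [abs_mul]
            exact mul_le_mul ((hB j x hx k i).trans (hBC j)) (abs_gr_le a x k) (abs_nonneg _) hC0
      _ = 8 * C * nn a x := by simp; ring
  rw [hN, Matrix.sub_apply]
  refine (abs_sub _ _).trans ?_
  have h2 := abs_conj_le (hA x hx) hTb i j
  have h1 := hTb i j
  calc |T i j| + |((mv x J)ᵀ * T * mv x J) i j| ≤ 8 * C * nn a x + 16 * (A * (8 * C * nn a x) * A) :=
        add_le_add h1 h2
    _ = _ := by ring

end Pool.Agent.Y264
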