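import Pool.Agent.Y264.Geo2

/-! Uniform constants on a compact set, continued. -/

namespace Pool.Agent.Y264
open Matrix MeasureTheory Set Filter Topology
open scoped ContDiff

variable {J : Matrix (Fin 4) (Fin 4) SA} {σ : ℝ} {S : Set E4} {ρ : SA} (G : Geo J σ S ρ)

theorem cont_mv (P : Matrix (Fin 4) (Fin 4) SA) (i j : Fin 4) :
    Continuous fun x : E4 => mv x P i j := SA.cont (P i j)

theorem cont_qf (P : Matrix (Fin 4) (Fin 4) SA) :
    Continuous fun z : E4 × (Fin 4 → ℝ) => qf (mv z.1 J) (mv z.1 P) z.2 := by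
  have h1 : ∀ i j, Continuous fun z : E4 × (Fin 4 → ℝ) => mv z.1 J i j := fun i j =>
    (cont_mv J i j).comp continuous_fst
  have h2 : ∀ i j, Continuous fun z : E4 × (Fin 4 → ℝ) => mv z.1 P i j := fun i j =>
    (cont_mv P i j).comp continuous_fst
  have h3 : ∀ i, Continuous fun z : E4 × (Fin 4 → ℝ) => z.2 i := fun i =>
    (continuous_apply i).comp continuous_snd
  simp only [qf, dotProduct, Matrix.mulVec, Fin.sum_univ_four]
  fun_prop

theorem cont_rank (σ : ℝ) (P : Matrix (Fin 4) (Fin 4) SA) : Continuous fun z : E4 × (Fin 4 → ℝ) =>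
    2 * σ * wd (wg z.2 (st (mv z.1 J) z.2)) (mv z.1 P) := by
  have h1 : ∀ i j, Continuous fun z : E4 × (Fin 4 → ℝ) => mv z.1 J i j := fun i j =>
    (cont_mv J i j).comp continuous_fst
  have h2 : ∀ i j, Continuous fun z : E4 × (Fin 4 → ℝ) => mv z.1 P i j := fun i j =>
    (cont_mv P i j).comp continuous_fst
  have h3 : ∀ i, Continuous fun z : E4 × (Fin 4 → ℝ) => z.2 i := fun i =>
    (continuous_apply i).comp continuous_snd
  simp only [wd, wg, st]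
  fun_prop

theorem dot_le_norm_sq (v : Fin 4 → ℝ) : v ⬝ᵥ v ≤ 4 * ‖v‖ ^ 2 := by
  have h : ∀ i, v i * v i ≤ ‖v‖ ^ 2 := by
    intro i
    have h1 := norm_le_pi_norm v i
    rw [Real.norm_eq_abs] at h1
    calc v i * v i = |v i| * |v i| := (abs_mul_abs_self _).symm
      _ ≤ ‖v‖ * ‖v‖ := mul_le_mul h1 h1 (abs_nonneg _) (norm_nonneg _)
      _ = ‖v‖ ^ 2 := by ring
  simp only [dotProduct, Fin.sum_univ_four]
  linarith [h 0, h 1, h 2, h 3]

theorem dot_self_nonneg (v : Fin 4 → ℝ) : 0 ≤ v ⬝ᵥ v := by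
  simp only [dotProduct, Fin.sum_univ_four]
  linarith [mul_self_nonneg (v 0), mul_self_nonneg (v 1), mul_self_nonneg (v 2), mul_self_nonneg (v 3)]

theorem dot_sq_le (u v : Fin 4 → ℝ) : (u ⬝ᵥ v) ^ 2 ≤ (u ⬝ᵥ u) * (v ⬝ᵥ v) := by
  simp only [dotProduct, Fin.sum_univ_four]
  nlinarith [sq_nonneg (u 0 * v 1 - u 1 * v 0), sq_nonneg (u 0 * v 2 - u 2 * v 0),
    sq_nonneg (u 0 * v 3 - u 3 * v 0), sq_nonneg (u 1 * v 2 - u 2 * v 1),
    sq_nonneg (u 1 * v 3 - u 3 * v 1), sq_nonneg (u 2 * v 3 - u 3 * v 2)]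

theorem mulVec_sq_le {M : Matrix (Fin 4) (Fin 4) ℝ} {A : ℝ} (hM : ∀ i j, |M i j| ≤ A)
    (v : Fin 4 → ℝ) : (M *ᵥ v) ⬝ᵥ (M *ᵥ v) ≤ 16 * A ^ 2 * (v ⬝ᵥ v) := by
  have hA : 0 ≤ A := (abs_nonneg _).trans (hM 0 0)
  have h : ∀ i, (M *ᵥ v) i * (M *ᵥ v) i ≤ 4 * A ^ 2 * (v ⬝ᵥ v) := by
    intro i
    have h1 := dot_sq_le (M i) v
    have h2 : (M i) ⬝ᵥ (M i) ≤ 4 * A ^ 2 := by
      have h3 : ∀ j, M i j * M i j ≤ A ^ 2 := by
        intro j
        calc M i j * M i j = |M i j| * |M i j| := (abs_mul_abs_self _).symm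
          _ ≤ A * A := mul_le_mul (hM i j) (hM i j) (abs_nonneg _) hA
          _ = A ^ 2 := by ring
      simp only [dotProduct, Fin.sum_univ_four]
      linarith [h3 0, h3 1, h3 2, h3 3]
    calc (M *ᵥ v) i * (M *ᵥ v) i = (M i ⬝ᵥ v) ^ 2 := by rw [sq]; rfl
      _ ≤ _ := h1
      _ ≤ _ := mul_le_mul_of_nonneg_right h2 (dot_self_nonneg v)
  rw [dotProduct, Fin.sum_univ_four]
  linarith [h 0, h 1, h 2, h 3]

include G

theorem exists_c_rho : ∃ c > 0, ∀ x ∈ S, ∀ X : Fin 4 → ℝ,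
    c * (X ⬝ᵥ X) ≤ qf (mv x J) (mv x (H2 J ρ)) X := by
  obtain ⟨c, hc, h⟩ := unif_pos G.cpt (univ : Set (E4 × (Fin 4 → ℝ))) isClosed_univ
    (fun z => qf (mv z.1 J) (mv z.1 (H2 J ρ)) z.2) (cont_qf _) (fun x v t => qf_smul _ _ t v)
    (fun _ _ _ _ => mem_univ _) (fun x hx v hv _ => G.sps x hx v hv)
  refine ⟨c / 4, by positivity, ?_⟩
  intro x hx X
  have h1 := h x hx X (mem_univ _)
  have h2 := dot_le_norm_sq X
  calc c / 4 * (X ⬝ᵥ X) ≤ c / 4 * (4 * ‖X‖ ^ 2) := mul_le_mul_of_nonneg_left h2 (by positivity)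
    _ = c * ‖X‖ ^ 2 := by ring
    _ ≤ _ := h1

theorem exists_Gam_lower : ∃ c > 0, ∀ x ∈ S, ∀ a : SA,
    c * (g2 a).1 x ≤ (Gam J σ ρ a a).1 x := by
  obtain ⟨c, hc, h⟩ := unif_pos G.cpt (univ : Set (E4 × (Fin 4 → ℝ))) isClosed_univ
    (fun z => 2 * σ * wd (wg z.2 (st (mv z.1 J) z.2)) (mv z.1 (H2 J ρ))) (cont_rank _ _)
    (fun x v t => by
      simp only [wd, wg, st, Pi.smul_apply, smul_eq_mul]; ring)
    (fun _ _ _ _ => mem_univ _) (fun x hx v hv _ => by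
      have h1 := (G.ori x hx).spos _ _ (asy_H2 J x ρ) (inv_H2 (G.sq x hx) ρ) (G.sps x hx)
        (asy_wg v (st (mv x J) v)) (inv_rank (G.sq x hx) v) (pos_rank (G.sq x hx) v)
        (rank_ne_zero (G.sq x hx) hv)
      rw [wd_comm] at h1
      change 0 < 2 * σ * wd (wg v (st (mv x J) v)) (mv x (H2 J ρ))
      linarith)
  refine ⟨c / 4, by positivity, ?_⟩
  intro x hx a
  have h1 := h x hx (vv x (gr a)) (mem_univ _)
  have h2 := dot_le_norm_sq (vv x (gr a))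
  rw [g2_val, Gam_val]
  calc c / 4 * (vv x (gr a) ⬝ᵥ vv x (gr a)) ≤ c / 4 * (4 * ‖vv x (gr a)‖ ^ 2) :=
        mul_le_mul_of_nonneg_left h2 (by positivity)
    _ = c * ‖vv x (gr a)‖ ^ 2 := by ring
    _ ≤ _ := h1

theorem exists_Gam_upper : ∃ C, 0 ≤ C ∧ ∀ x ∈ S, ∀ b : SA, Psh J S b → ∀ φ : SA,
    (Gam J σ b φ φ).1 x ≤ C * ((g2 φ).1 x * (mix J σ ρ b).1 x) := by
  obtain ⟨c, hc, h⟩ := exists_c_rho G
  obtain ⟨A, hA0, hA⟩ := bound_entries G.cpt J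
  set K := (1 + 16 * A ^ 2) / c with hK
  have hK0 : 0 ≤ K := by positivity
  refine ⟨2 * K, by positivity, ?_⟩
  intro x hx b hb φ
  set p := vv x (gr φ) with hp
  have hpp := dot_self_nonneg p
  have hP : Pos (mv x J) ((K * (p ⬝ᵥ p)) • mv x (H2 J ρ) - wg p (st (mv x J) p)) := by
    intro X
    rw [qf_sub_left, qf_smul_left, qf_rank (G.sq x hx)]
    have h1 := dot_sq_le p X
    have h2 := dot_sq_le p (mv x J *ᵥ X)
    have h3 := mulVec_sq_le (hA x hx) X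
    have h4 := h x hx X
    have h5 : (p ⬝ᵥ p) * ((mv x J *ᵥ X) ⬝ᵥ (mv x J *ᵥ X)) ≤ (p ⬝ᵥ p) * (16 * A ^ 2 * (X ⬝ᵥ X)) :=
      mul_le_mul_of_nonneg_left h3 hpp
    have h6 : (1 + 16 * A ^ 2) * (X ⬝ᵥ X) ≤ K * qf (mv x J) (mv x (H2 J ρ)) X := by
      calc (1 + 16 * A ^ 2) * (X ⬝ᵥ X) = K * (c * (X ⬝ᵥ X)) := by rw [hK]; field_simp
        _ ≤ _ := mul_le_mul_of_nonneg_left h4 hK0
    have h7 : (p ⬝ᵥ p) * ((1 + 16 * A ^ 2) * (X ⬝ᵥ X)) ≤ (p ⬝ᵥ p) * (K * qf (mv x J) (mv x (H2 J ρ)) X) :=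
      mul_le_mul_of_nonneg_left h6 hpp
    nlinarith
  have hi : Inv (mv x J) ((K * (p ⬝ᵥ p)) • mv x (H2 J ρ) - wg p (st (mv x J) p)) := by
    have e1 := inv_H2 (G.sq x hx) ρ
    have e2 := inv_rank (G.sq x hx) p
    unfold Inv at *
    rw [Matrix.mul_sub, Matrix.sub_mul, Matrix.mul_smul, Matrix.smul_mul, e1, e2]
  have h8 := (G.ori x hx).pos _ _ (((asy_H2 J x ρ).smul _).sub (asy_wg p (st (mv x J) p))) hi hP
    (asy_H2 J x b) (inv_H2 (G.sq x hx) b) (hb x hx)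
  rw [wd_sub_left, wd_smul_left] at h8
  rw [Gam_val, mix_val, g2_val, ← hp]
  nlinarith

theorem exists_mix_bound (φ : SA) : ∃ C, 0 ≤ C ∧ ∀ x ∈ S, ∀ b : SA, Psh J S b →
    |(mix J σ φ b).1 x| ≤ C * (mix J σ ρ b).1 x := by
  obtain ⟨c, hc, h⟩ := exists_c_rho G
  obtain ⟨A, hA0, hA⟩ := bound_entries G.cpt J
  obtain ⟨B, hB0, hB⟩ := bound_entries G.cpt (H2 J φ)
  -- `|qf| ≤ K0 |X|²`
  have hq : ∀ x ∈ S, ∀ X : Fin 4 → ℝ, |qf (mv x J) (mv x (H2 J φ)) X| ≤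
      (16 * B * A) * (X ⬝ᵥ X) := by
    intro x hx X
    have h1 := dot_sq_le X (mv x (H2 J φ) *ᵥ (mv x J *ᵥ X))
    have h2 := mulVec_sq_le (hB x hx) (mv x J *ᵥ X)
    have h3 := mulVec_sq_le (hA x hx) X
    have h0 := dot_self_nonneg X
    apply abs_le_of_sq_le_sq _ (by positivity)
    unfold qf
    calc (X ⬝ᵥ (mv x (H2 J φ) *ᵥ (mv x J *ᵥ X))) ^ 2 ≤ _ := h1
      _ ≤ (X ⬝ᵥ X) * (16 * B ^ 2 * (16 * A ^ 2 * (X ⬝ᵥ X))) := by
          apply mul_le_mul_of_nonneg_left _ h0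
          exact h2.trans (mul_le_mul_of_nonneg_left h3 (by positivity))
      _ = ((16 * B * A) * (X ⬝ᵥ X)) ^ 2 := by ring
  set K := (16 * B * A) / c with hK
  have hK0 : 0 ≤ K := by positivity
  refine ⟨K, hK0, ?_⟩
  intro x hx b hb
  have hdom : ∀ X : Fin 4 → ℝ, |qf (mv x J) (mv x (H2 J φ)) X| ≤ K * qf (mv x J) (mv x (H2 J ρ)) X := by
    intro X
    refine (hq x hx X).trans ?_
    calc (16 * B * A) * (X ⬝ᵥ X) = K * (c * (X ⬝ᵥ X)) := by rw [hK]; field_simp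
      _ ≤ _ := mul_le_mul_of_nonneg_left (h x hx X) hK0
  have e1 := inv_H2 (G.sq x hx) ρ
  have e2 := inv_H2 (G.sq x hx) φ
  have hi1 : Inv (mv x J) (K • mv x (H2 J ρ) - mv x (H2 J φ)) := by
    unfold Inv at *
    rw [Matrix.mul_sub, Matrix.sub_mul, Matrix.mul_smul, Matrix.smul_mul, e1, e2]
  have hi2 : Inv (mv x J) (K • mv x (H2 J ρ) + mv x (H2 J φ)) := by
    unfold Inv at *
    rw [Matrix.mul_add, Matrix.add_mul, Matrix.mul_smul, Matrix.smul_mul, e1, e2]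
  have h1 := (G.ori x hx).pos _ _ (((asy_H2 J x ρ).smul K).sub (asy_H2 J x φ)) hi1 (fun X => by
      rw [qf_sub_left, qf_smul_left]; linarith [(abs_le.mp (hdom X)).2]) (asy_H2 J x b)
      (inv_H2 (G.sq x hx) b) (hb x hx)
  have h2 := (G.ori x hx).pos _ _ (((asy_H2 J x ρ).smul K).add (asy_H2 J x φ)) hi2 (fun X => by
      rw [qf_add_left, qf_smul_left]; linarith [(abs_le.mp (hdom X)).1]) (asy_H2 J x b)
      (inv_H2 (G.sq x hx) b) (hb x hx)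
  rw [wd_sub_left, wd_smul_left] at h1
  rw [wd_add_left, wd_smul_left] at h2
  rw [mix_val, mix_val, abs_le]
  constructor <;> nlinarith

omit G in
/-- View a function as a matrix. -/
def toM (v : Fin 4 → Fin 4 → ℝ) : Matrix (Fin 4) (Fin 4) ℝ := v

theorem exists_ainv_lower : ∃ c > 0, ∀ x ∈ S, ∀ N : Matrix (Fin 4) (Fin 4) ℝ, Asy N →
    AInv (mv x J) N → ∀ i j, c * (N i j) ^ 2 ≤ σ * wd N N := by
  let Cn : Set (E4 × (Fin 4 → Fin 4 → ℝ)) := {z | Asy (toM z.2) ∧ AInv (mv z.1 J) (toM z.2)}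
  have h1 : ∀ i j, Continuous fun z : E4 × (Fin 4 → Fin 4 → ℝ) => mv z.1 J i j := fun i j =>
    (cont_mv J i j).comp continuous_fst
  have h2 : ∀ i j, Continuous fun z : E4 × (Fin 4 → Fin 4 → ℝ) => toM z.2 i j := fun i j =>
    (continuous_apply j).comp ((continuous_apply i).comp continuous_snd)
  have hclosed : IsClosed Cn := by
    have e : Cn = (⋂ i, ⋂ j, {z : E4 × (Fin 4 → Fin 4 → ℝ) | toM z.2 i j = - toM z.2 j i}) ∩
        (⋂ i, ⋂ j, {z : E4 × (Fin 4 → Fin 4 → ℝ) |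
          ((mv z.1 J)ᵀ * toM z.2 * mv z.1 J) i j = - toM z.2 i j}) := by
      ext z
      simp only [Cn, Asy, AInv, mem_ofPred_eq, mem_inter_iff, mem_iInter]
      constructor
      · rintro ⟨a, b⟩; exact ⟨a, fun i j => by rw [b]; rfl⟩
      · rintro ⟨a, b⟩; exact ⟨a, by ext i j; exact b i j⟩
    rw [e]
    refine IsClosed.inter (isClosed_iInter fun i => isClosed_iInter fun j => ?_)
      (isClosed_iInter fun i => isClosed_iInter fun j => ?_)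
    · exact isClosed_eq (h2 i j) (h2 j i).neg
    · refine isClosed_eq ?_ (h2 i j).neg
      simp only [Matrix.mul_apply, Fin.sum_univ_four, Matrix.transpose_apply]
      fun_prop
  obtain ⟨c, hc, h⟩ := unif_pos G.cpt Cn hclosed
    (fun z => σ * wd (toM z.2) (toM z.2)) (by
      simp only [wd]; fun_prop) (fun x v t => by
      simp only [wd, toM, Pi.smul_apply, smul_eq_mul]; ring) (by
      rintro x v t ⟨a, b⟩
      refine ⟨Asy.smul a t, ?_⟩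
      have b' : (mv x J)ᵀ * toM v * mv x J = - toM v := b
      change (mv x J)ᵀ * (t • toM v) * mv x J = -(t • toM v)
      rw [Matrix.mul_smul, Matrix.smul_mul, b', smul_neg]) (by
      rintro x hx v hv ⟨a, b⟩
      exact (G.ori x hx).neg (toM v) a b hv)
  refine ⟨c, hc, ?_⟩
  intro x hx N hN hN' i j
  let v : Fin 4 → Fin 4 → ℝ := fun i j => N i j
  refine le_trans ?_ (h x hx v ⟨hN, hN'⟩)
  apply mul_le_mul_of_nonneg_left _ hc.le
  have h3 : ‖v i j‖ ≤ ‖v‖ := (norm_le_pi_norm (v i) j).trans (norm_le_pi_norm v i)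
  change (v i j) ^ 2 ≤ ‖v‖ ^ 2
  calc (v i j) ^ 2 = ‖v i j‖ ^ 2 := by rw [Real.norm_eq_abs, sq_abs]
    _ ≤ _ := by gcongr

theorem nonempty_of_mem {x : E4} (hx : x ∈ S) : |σ| = 1 := abs_sigma' G hx

theorem exists_qq_bound : ∃ C, 0 ≤ C ∧ ∀ x ∈ S, ∀ a b : SA,
    |(qq J σ a b).1 x| ≤ C * (nn a x * nn b x) := by
  obtain ⟨C, hC0, hC⟩ := exists_N2_bound G
  refine ⟨6 * (C * C), by positivity, ?_⟩
  intro x hx a b
  rw [qq_val, abs_mul, abs_sigma' G hx, one_mul]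
  refine (abs_wd_le (hC x hx a) (hC x hx b)).trans (le_of_eq ?_)
  ring

theorem exists_nu_bound : ∃ C, 0 ≤ C ∧ ∀ x ∈ S, ∀ φ a b : SA,
    |(nu J σ φ a b).1 x| ≤ C * (nn φ x * nn a x * nn b x) := by
  obtain ⟨C, hC0, hC⟩ := exists_N2_bound G
  obtain ⟨A, hA0, hA⟩ := bound_entries G.cpt J
  refine ⟨2 * (6 * (2 * (4 * A) * C)), by positivity, ?_⟩
  intro x hx φ a b
  rw [nu_val, abs_mul, abs_mul, abs_sigma' G hx, abs_two, mul_one]
  have h1 : ∀ i j, |wg (vv x (gr φ)) (st (mv x J) (vv x (gr a))) i j| ≤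
      2 * (nn φ x * (4 * (A * nn a x))) :=
    abs_wg_le (abs_gr_le φ x) (abs_st_le (hA x hx) (abs_gr_le a x))
  refine (mul_le_mul_of_nonneg_left (abs_wd_le h1 (hC x hx b)) (by norm_num)).trans (le_of_eq ?_)
  ring

theorem exists_Gam_rho_bound : ∃ C, 0 ≤ C ∧ ∀ x ∈ S, ∀ φ a : SA,
    |(Gam J σ ρ φ a).1 x| ≤ C * (nn φ x * nn a x) := by
  obtain ⟨C, hC0, hC⟩ := bound_entries G.cpt (H2 J ρ)
  obtain ⟨A, hA0, hA⟩ := bound_entries G.cpt J
  refine ⟨2 * (6 * (2 * (4 * A) * C)), by positivity, ?_⟩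
  intro x hx φ a
  rw [Gam_val, abs_mul, abs_mul, abs_sigma' G hx, abs_two, mul_one]
  have h1 : ∀ i j, |wg (vv x (gr φ)) (st (mv x J) (vv x (gr a))) i j| ≤
      2 * (nn φ x * (4 * (A * nn a x))) :=
    abs_wg_le (abs_gr_le φ x) (abs_st_le (hA x hx) (abs_gr_le a x))
  refine (mul_le_mul_of_nonneg_left (abs_wd_le h1 (hC x hx)) (by norm_num)).trans (le_of_eq ?_)
  ring

theorem exists_Xr_bound : ∃ C, 0 ≤ C ∧ ∀ x ∈ S, ∀ a : SA, |(Xr J σ ρ a).1 x| ≤ C * nn a x := by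
  obtain ⟨A, hA0, hA⟩ := bound_entries G.cpt J
  have hD : ∀ i, ∃ C : ℝ, 0 ≤ C ∧ ∀ x ∈ S, ∀ k l, |(D i (H2 J ρ k l)).1 x| ≤ C := fun i =>
    bound_entries G.cpt (fun k l => D i (H2 J ρ k l))
  choose B hB0 hB using hD
  set C := ∑ i, B i with hC
  have hBC : ∀ i, B i ≤ C := fun i => Finset.single_le_sum (f := B) (fun i _ => hB0 i) (Finset.mem_univ i)
  have hC0 : 0 ≤ C := Finset.sum_nonneg fun i _ => hB0 i
  refine ⟨96 * (A * C), by positivity, ?_⟩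
  intro x hx a
  have hn := nn_nonneg a x
  have h1 : ∀ j, |(dc J a j).1 x| ≤ 4 * (A * nn a x) := by
    intro j
    have := abs_st_le (hA x hx) (abs_gr_le a x) j
    rwa [← st_val] at this
  have h2 : ∀ i k l, |(D i (H2 J ρ k l)).1 x| ≤ C := fun i k l => (hB i x hx k l).trans (hBC i)
  have h3 : ∀ j i k l, |(dc J a j).1 x * (D i (H2 J ρ k l)).1 x| ≤ 4 * (A * nn a x) * C := by
    intro j i k l
    rw [abs_mul]
    exact mul_le_mul (h1 j) (h2 i k l) (abs_nonneg _) (by positivity)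
  have key : (Xr J σ ρ a).1 x = -(2 * σ) * (tri (dc J a) (H2 J ρ)).1 x := rfl
  rw [key, abs_mul, abs_neg, abs_mul, abs_two, abs_sigma' G hx, mul_one]
  have h4 : |(tri (dc J a) (H2 J ρ)).1 x| ≤ 12 * (4 * (A * nn a x) * C) := by
    simp only [tri, SA.add_val, SA.sub_val, SA.mul_val]
    have a1 := abs_le.mp (h3 0 1 2 3)
    have a2 := abs_le.mp (h3 0 2 1 3)
    have a3 := abs_le.mp (h3 0 3 1 2)
    have b1 := abs_le.mp (h3 1 0 2 3)
    have b2 := abs_le.mp (h3 1 2 0 3)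
    have b3 := abs_le.mp (h3 1 3 0 2)
    have c1 := abs_le.mp (h3 2 0 1 3)
    have c2 := abs_le.mp (h3 2 1 0 3)
    have c3 := abs_le.mp (h3 2 3 0 1)
    have d1 := abs_le.mp (h3 3 0 1 2)
    have d2 := abs_le.mp (h3 3 1 0 2)
    have d3 := abs_le.mp (h3 3 2 0 1)
    rw [abs_le]
    constructor <;> linarith
  linarith

theorem exists_mix_lower : ∃ c > 0, ∀ x ∈ S, c ≤ (mix J σ ρ ρ).1 x := by
  rcases S.eq_empty_or_nonempty with he | hne
  · exact ⟨1, one_pos, fun x hx => by rw [he] at hx; exact absurd hx (notMem_empty _)⟩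
  · obtain ⟨x0, hx0, hmin⟩ := G.cpt.exists_isMinOn hne (SA.cont (mix J σ ρ ρ)).continuousOn
    refine ⟨(mix J σ ρ ρ).1 x0, ?_, fun x hx => hmin hx⟩
    rw [mix_val]
    have hp : Pos (mv x0 J) (mv x0 (H2 J ρ)) := by
      intro X
      by_cases h : X = 0
      · subst h; simp [qf]
      · exact (G.sps x0 hx0 X h).le
    refine (G.ori x0 hx0).spos _ _ (asy_H2 J x0 ρ) (inv_H2 (G.sq x0 hx0) ρ) (G.sps x0 hx0)
      (asy_H2 J x0 ρ) (inv_H2 (G.sq x0 hx0) ρ) hp ?_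
    intro h
    have h1 := G.sps x0 hx0 (Pi.single 0 1) (by
      intro h; have := congrFun h 0; simp at this)
    rw [h] at h1
    simp [qf] at h1

theorem Gam_sq_eq {x : E4} (hx : x ∈ S) (a φ : SA) : (Gam J σ (a * a) φ φ).1 x =
    2 * a.1 x * (Gam J σ a φ φ).1 x + 8 * (σ * wd (wg (vv x (gr φ)) (st (mv x J) (vv x (gr φ))))
      (wg (vv x (gr a)) (st (mv x J) (vv x (gr a))))) := by
  rw [Gam_val, Gam_val, mv_H2_mul G hx, wd_add_right, wd_add_right, wd_smul_right, wd_smul_right,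
    wd_add_right]
  ring

theorem exists_nu_fine : ∃ C, 0 ≤ C ∧ ∀ x ∈ S, ∀ φ a b : SA, Psh J S a → 0 ≤ a.1 x →
    (nu J σ φ a b).1 x ^ 2 ≤ C * ((Gam J σ (a * a) φ φ).1 x * (g2 b).1 x) := by
  obtain ⟨C, hC0, hC⟩ := exists_N2_bound G
  obtain ⟨c, hc, h⟩ := exists_ainv_lower G
  refine ⟨36 * C ^ 2 * (1 / (4 * c)), by positivity, ?_⟩
  intro x hx φ a b ha ha0
  set p := vv x (gr φ) with hp
  set q := vv x (gr a) with hq
  set K := wg p (st (mv x J) q) - wg q (st (mv x J) p) with hK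
  set R := σ * wd (wg p (st (mv x J) p)) (wg q (st (mv x J) q)) with hR
  have hGam : 8 * R ≤ (Gam J σ (a * a) φ φ).1 x := by
    rw [Gam_sq_eq G hx]
    have := mul_nonneg (mul_nonneg (by norm_num : (0:ℝ) ≤ 2) ha0) (Gam_nonneg G hx ha φ)
    linarith
  have hKK : ∀ i j, c * (K i j) ^ 2 ≤ 2 * R := by
    intro i j
    have h1 := h x hx K ((asy_wg _ _).sub (asy_wg _ _)) (ainv_ant (G.sq x hx) p q) i j
    rw [hK, wd_ant] at h1
    rw [hR, hK]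
    linarith
  have hR0 : 0 ≤ R := by
    have := hKK 0 0
    have h2 : 0 ≤ c * (K 0 0) ^ 2 := by positivity
    linarith
  have hKb : ∀ i j, |K i j| ≤ Real.sqrt (2 * R / c) := by
    intro i j
    apply Real.abs_le_sqrt
    rw [le_div_iff₀ hc]
    linarith [hKK i j]
  have hnu : (nu J σ φ a b).1 x = σ * wd K (mv x (N2 J b)) := by
    have h1 := nu_antisymm G hx φ a b
    rw [nu_val, nu_val] at h1
    rw [nu_val, hK, wd_sub_left]
    linarith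
  have h3 : |(nu J σ φ a b).1 x| ≤ 6 * (Real.sqrt (2 * R / c) * (C * nn b x)) := by
    rw [hnu, abs_mul, abs_sigma' G hx, one_mul]
    exact abs_wd_le hKb (hC x hx b)
  have h4 : (nu J σ φ a b).1 x ^ 2 ≤ (6 * (Real.sqrt (2 * R / c) * (C * nn b x))) ^ 2 := by
    rw [← sq_abs]
    gcongr
  refine h4.trans ?_
  have h5 : (6 * (Real.sqrt (2 * R / c) * (C * nn b x))) ^ 2 = 36 * C ^ 2 * (2 * R / c) * (g2 b).1 x := by
    rw [mul_pow, mul_pow, mul_pow, Real.sq_sqrt (by positivity), nn_sq]; ring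
  rw [h5]
  have h6 : 2 * R / c ≤ 1 / (4 * c) * (Gam J σ (a * a) φ φ).1 x := by
    have : 1 / (4 * c) * (8 * R) ≤ 1 / (4 * c) * (Gam J σ (a * a) φ φ).1 x :=
      mul_le_mul_of_nonneg_left hGam (by positivity)
    calc 2 * R / c = 1 / (4 * c) * (8 * R) := by field_simp; ring
      _ ≤ _ := this
  calc 36 * C ^ 2 * (2 * R / c) * (g2 b).1 x
      ≤ 36 * C ^ 2 * (1 / (4 * c) * (Gam J σ (a * a) φ φ).1 x) * (g2 b).1 x := by
        apply mul_le_mul_of_nonneg_right _ (g2_nonneg b x)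
        exact mul_le_mul_of_nonneg_left h6 (by positivity)
    _ = _ := by ring

end Pool.Agent.Y264
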