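import Pool.Agent.Y264.Geo3

/-! Integration by parts identities. -/

namespace Pool.Agent.Y264
open Matrix MeasureTheory Set Filter Topology
open scoped ContDiff

theorem val_zero {f : SA} {x : E4} (h : x ∉ tsupport f.1) : f.1 x = 0 :=
  image_eq_zero_of_notMem_tsupport h

theorem tsup_D (i : Fin 4) (f : SA) : tsupport (D i f).1 ⊆ tsupport f.1 :=
  tsupport_fderiv_apply_subset (𝕜 := ℝ) (f := f.1) (bv i)

theorem D_val_zero {f : SA} {x : E4} (i : Fin 4) (h : x ∉ tsupport f.1) : (D i f).1 x = 0 :=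
  val_zero (fun h' => h (tsup_D i f h'))

theorem DD_val_zero {f : SA} {x : E4} (i j : Fin 4) (h : x ∉ tsupport f.1) :
    (D i (D j f)).1 x = 0 :=
  D_val_zero i (fun h' => h (tsup_D j f h'))

variable {J : Matrix (Fin 4) (Fin 4) SA} {σ : ℝ} {S : Set E4} {ρ : SA}

theorem dc_val_zero {f : SA} {x : E4} (h : x ∉ tsupport f.1) (j : Fin 4) : (dc J f j).1 x = 0 := by
  simp only [dc, st, gr, SA.neg_val, SA.add_val, SA.mul_val, D_val_zero _ h]
  ring

theorem om_val_zero {f : SA} {x : E4} (h : x ∉ tsupport f.1) (i j : Fin 4) :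
    (om J f i j).1 x = 0 := by
  simp only [om, dd, dc, st, gr, D_neg, D_add, D_mul, SA.sub_val, SA.neg_val, SA.add_val,
    SA.mul_val, D_val_zero _ h, DD_val_zero _ _ h]
  ring

theorem mv_om_zero {f : SA} {x : E4} (h : x ∉ tsupport f.1) : mv x (om J f) = 0 := by
  ext i j; exact om_val_zero h i j

variable (J σ ρ)

/-- The integrand of the first identity. -/
noncomputable def ZZ (Φ a b : SA) : SA :=
  Φ * mix J σ a b + Gam J σ b Φ a + nu J σ Φ a b + Φ * qq J σ a b

/-- The integrand of the second identity. -/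
noncomputable def YY (Φ a : SA) : SA :=
  Φ * mix J σ a ρ + Gam J σ ρ Φ a + Φ * Xr J σ ρ a

variable {J σ ρ} (G : Geo J σ S ρ)
include G

theorem It_ZZ (Φ a b : SA) (h : (CS Φ ∧ tsupport Φ.1 ⊆ S) ∨ (CS a ∧ tsupport a.1 ⊆ S)) :
    It (ZZ J σ Φ a b) = 0 := by
  have e : ZZ J σ Φ a b = (4 * σ) • (Φ * wd (dd (dc J a)) (dd (dc J b))
      + wd (wg (gr Φ) (dc J a)) (dd (dc J b)) - Φ * tri (dc J a) (dd (dc J b))) := by
    rw [tri_dd]
    apply SA.ext'; intro x
    simp only [ZZ, SA.add_val, SA.mul_val, SA.smul_val, SA.sub_val, mix_val, Gam_val, nu_val,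
      qq_val, SA.zero_val, mul_zero, sub_zero]
    rw [wd_val, wd_val, wg_val]
    change _ = 4 * σ * (Φ.1 x * wd (mv x (om J a)) (mv x (om J b)) + wd (wg (vv x (gr Φ))
      (vv x (dc J a))) (mv x (om J b)))
    rw [dc, st_val]
    by_cases hx : x ∈ S
    · have hb : mv x (om J b) = (1 / 2 : ℝ) • (mv x (H2 J b) + mv x (N2 J b)) := by
        rw [← om_eq, smul_smul]; norm_num
      have ha : mv x (om J a) = (1 / 2 : ℝ) • (mv x (H2 J a) + mv x (N2 J a)) := by
        rw [← om_eq, smul_smul]; norm_num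
      have c1 := wd_inv_ainv (G.sq x hx) (asy_H2 J x a) (asy_N2 J x b) (inv_H2 (G.sq x hx) a)
        (ainv_N2 (G.sq x hx) b)
      have c2 := wd_inv_ainv (G.sq x hx) (asy_H2 J x b) (asy_N2 J x a) (inv_H2 (G.sq x hx) b)
        (ainv_N2 (G.sq x hx) a)
      rw [wd_comm] at c2
      rw [ha, hb, wd_smul_left, wd_smul_right, wd_add_left, wd_add_right, wd_add_right, c1, c2,
        wd_smul_right, wd_add_right]
      ring
    · rcases h with h | h
      · have hx' : x ∉ tsupport Φ.1 := fun h' => hx (h.2 h')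
        have h0 : vv x (gr Φ) = 0 := by ext i; exact D_val_zero i hx'
        have h1 : ∀ q : Fin 4 → ℝ, wg (0 : Fin 4 → ℝ) q = 0 := by
          intro q; ext i j; simp [wg]
        have h2 : ∀ P : Matrix (Fin 4) (Fin 4) ℝ, wd 0 P = 0 := by intro P; simp [wd]
        rw [val_zero hx', h0, h1, h2, h2, h2]; ring
      · have hx' : x ∉ tsupport a.1 := fun h' => hx (h.2 h')
        have h0 : mv x (om J a) = 0 := mv_om_zero hx'
        have h1 : st (mv x J) (vv x (gr a)) = 0 := by
          ext i; rw [← st_val]; exact dc_val_zero hx' i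
        have h2 : ∀ q : Fin 4 → ℝ, wg q (0 : Fin 4 → ℝ) = 0 := by
          intro q; ext i j; simp [wg]
        have h3 : ∀ P : Matrix (Fin 4) (Fin 4) ℝ, wd 0 P = 0 := by intro P; simp [wd]
        have h4 : mv x (H2 J a) = 0 := by rw [H2_val, h0]; simp
        have h5 : mv x (N2 J a) = 0 := by rw [N2_val, h0]; simp
        rw [h0, h1, h2, h4, h5]; simp only [h3]; ring
  rw [e, It_smul, It_flux, mul_zero]
  rcases h with h | h
  · exact Or.inl h.1
  · right
    intro i
    have h' : ∀ k, CS (D k a) := fun k => h.1.D k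
    simp only [dc, st, gr]
    exact ((((h' 0).mul_left _).add ((h' 1).mul_left _)).add ((h' 2).mul_left _)).add
      ((h' 3).mul_left _) |>.neg

theorem It_YY (Φ a : SA) (h : (CS Φ ∧ tsupport Φ.1 ⊆ S) ∨ (CS a ∧ tsupport a.1 ⊆ S)) :
    It (YY J σ ρ Φ a) = 0 := by
  have e : YY J σ ρ Φ a = (2 * σ) • (Φ * wd (dd (dc J a)) (H2 J ρ)
      + wd (wg (gr Φ) (dc J a)) (H2 J ρ) - Φ * tri (dc J a) (H2 J ρ)) := by
    apply SA.ext'; intro x
    have hX : (Xr J σ ρ a).1 x = -(2 * σ) * (tri (dc J a) (H2 J ρ)).1 x := rfl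
    simp only [YY, SA.add_val, SA.mul_val, SA.smul_val, SA.sub_val, mix_val, Gam_val, hX]
    rw [wd_val, wd_val, wg_val]
    change _ = 2 * σ * (Φ.1 x * wd (mv x (om J a)) (mv x (H2 J ρ)) + wd (wg (vv x (gr Φ))
      (vv x (dc J a))) (mv x (H2 J ρ)) - Φ.1 x * (tri (dc J a) (H2 J ρ)).1 x)
    have hd : vv x (dc J a) = st (mv x J) (vv x (gr a)) := by rw [dc, st_val]
    rw [hd]
    by_cases hx : x ∈ S
    · have ha : mv x (om J a) = (1 / 2 : ℝ) • (mv x (H2 J a) + mv x (N2 J a)) := by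
        rw [← om_eq, smul_smul]; norm_num
      have c2 := wd_inv_ainv (G.sq x hx) (asy_H2 J x ρ) (asy_N2 J x a) (inv_H2 (G.sq x hx) ρ)
        (ainv_N2 (G.sq x hx) a)
      rw [wd_comm] at c2
      rw [ha, wd_smul_left, wd_add_left, c2]
      ring
    · rcases h with h | h
      · have hx' : x ∉ tsupport Φ.1 := fun h' => hx (h.2 h')
        have h0 : vv x (gr Φ) = 0 := by ext i; exact D_val_zero i hx'
        have h1 : ∀ q : Fin 4 → ℝ, wg (0 : Fin 4 → ℝ) q = 0 := by
          intro q; ext i j; simp [wg]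
        have h2 : ∀ P : Matrix (Fin 4) (Fin 4) ℝ, wd 0 P = 0 := by intro P; simp [wd]
        rw [val_zero hx', h0, h1, h2]; ring
      · have hx' : x ∉ tsupport a.1 := fun h' => hx (h.2 h')
        have h0 : mv x (om J a) = 0 := mv_om_zero hx'
        have h1 : st (mv x J) (vv x (gr a)) = 0 := by
          ext i; rw [← st_val]; exact dc_val_zero hx' i
        have h2 : ∀ q : Fin 4 → ℝ, wg q (0 : Fin 4 → ℝ) = 0 := by
          intro q; ext i j; simp [wg]
        have h3 : ∀ P : Matrix (Fin 4) (Fin 4) ℝ, wd 0 P = 0 := by intro P; simp [wd]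
        have h4 : mv x (H2 J a) = 0 := by rw [H2_val, h0]; simp
        have h6 : (tri (dc J a) (H2 J ρ)).1 x = 0 := by
          simp only [tri, SA.add_val, SA.sub_val, SA.mul_val, dc_val_zero hx']; ring
        rw [h0, h1, h2, h4, h6]; simp only [h3]; ring
  rw [e, It_smul, It_flux, mul_zero]
  rcases h with h | h
  · exact Or.inl h.1
  · right
    intro i
    have h' : ∀ k, CS (D k a) := fun k => h.1.D k
    simp only [dc, st, gr]
    exact ((((h' 0).mul_left _).add ((h' 1).mul_left _)).add ((h' 2).mul_left _)).add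
      ((h' 3).mul_left _) |>.neg

end Pool.Agent.Y264
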