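import Pool.Agent.Y264.Small

/-! First level of convergence: gradients and Laplacians. -/

namespace Pool.Agent.Y264
open Matrix MeasureTheory Set Filter Topology
open scoped ContDiff

/-- A decreasing sequence in the class. -/
structure Seq (J : Matrix (Fin 4) (Fin 4) SA) (S : Set E4) (C0 : ℝ) (a : ℕ → SA) : Prop where
  cls : ∀ l, Cls J S C0 (a l)
  dec : ∀ l j, l ≤ j → ∀ x ∈ S, (a j).1 x ≤ (a l).1 x

theorem g2_sub_le (a b : SA) (x : E4) : (g2 (a - b)).1 x ≤ 2 * (g2 a).1 x + 2 * (g2 b).1 x := by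
  simp only [g2, D_sub, SA.add_val, SA.mul_val, SA.sub_val]
  nlinarith [sq_nonneg ((D 0 a).1 x + (D 0 b).1 x), sq_nonneg ((D 1 a).1 x + (D 1 b).1 x),
    sq_nonneg ((D 2 a).1 x + (D 2 b).1 x), sq_nonneg ((D 3 a).1 x + (D 3 b).1 x)]

theorem g2_add_le (a b : SA) (x : E4) : (g2 (a + b)).1 x ≤ 2 * (g2 a).1 x + 2 * (g2 b).1 x := by
  simp only [g2, D_add, SA.add_val, SA.mul_val]
  nlinarith [sq_nonneg ((D 0 a).1 x - (D 0 b).1 x), sq_nonneg ((D 1 a).1 x - (D 1 b).1 x),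
    sq_nonneg ((D 2 a).1 x - (D 2 b).1 x), sq_nonneg ((D 3 a).1 x - (D 3 b).1 x)]

theorem r_pq {p q t : ℝ} (ht : 0 < t) : p * q ≤ t / 2 * q ^ 2 + 1 / (2 * t) * p ^ 2 := by
  have h : 0 ≤ t / 2 * (q - 1 / t * p) ^ 2 := by positivity
  have e : t / 2 * (q - 1 / t * p) ^ 2 = t / 2 * q ^ 2 - p * q + 1 / (2 * t) * p ^ 2 := by
    field_simp; ring
  linarith

variable {J : Matrix (Fin 4) (Fin 4) SA} {σ : ℝ} {S : Set E4} {ρ : SA} (G : Geo J σ S ρ)
  {C0 : ℝ} {a : ℕ → SA} (A : Seq J S C0 a)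

theorem Psh.add {a b : SA} (ha : Psh J S a) (hb : Psh J S b) : Psh J S (a + b) := by
  intro x hx X
  rw [H2_add, mv_add, qf_add_left]
  exact add_nonneg (ha x hx X) (hb x hx X)

theorem Cls.mono {C0 C1 : ℝ} (h : C0 ≤ C1) {a : SA} (ha : Cls J S C0 a) : Cls J S C1 a :=
  ⟨ha.1, fun x hx => ⟨(ha.2 x hx).1, (ha.2 x hx).2.trans h⟩⟩

theorem Cls.add {C0 C1 : ℝ} {a b : SA} (ha : Cls J S C0 a) (hb : Cls J S C1 b) :
    Cls J S (C0 + C1) (a + b) :=
  ⟨ha.1.add hb.1, fun x hx => ⟨add_nonneg (ha.2 x hx).1 (hb.2 x hx).1,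
    add_le_add (ha.2 x hx).2 (hb.2 x hx).2⟩⟩

include A

theorem L0 {ζ : SA} (hζ : Cut S ζ) : Small (fun l j => It (ζ * (a l - a j))) := by
  have h := small_seq (Q := fun l => -It (ζ * a l)) Small.zero (fun l j hlj => ?_) (B := 0) ?_
  · apply h.mono
    intro l j _
    rw [mul_sub, It_sub (hζ.cs.mul_right _) (hζ.cs.mul_right _)]
    linarith
  · simp only [add_zero, neg_le_neg_iff]
    apply It_le_on (hζ.sup.mul_right _) (hζ.sup.mul_right _)
    intro x hx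
    rw [SA.mul_val, SA.mul_val]
    exact mul_le_mul_of_nonneg_left (A.dec l j hlj x hx) (hζ.nn x)
  · intro l
    have : 0 ≤ It (ζ * a l) := by
      apply It_nonneg_on (hζ.sup.mul_right _)
      intro x hx
      rw [SA.mul_val]
      exact mul_nonneg (hζ.nn x) (((A.cls l).2 x hx).1)
    linarith

theorem Seq.psh_sum (l j : ℕ) : Psh J S (a l + a j) := (A.cls l).1.add (A.cls j).1

theorem Seq.alpha {l j : ℕ} (h : l ≤ j) {x : E4} (hx : x ∈ S) :
    0 ≤ (a l - a j).1 x ∧ (a l - a j).1 x ≤ C0 := by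
  rw [SA.sub_val]
  have h1 := A.dec l j h x hx
  have h2 := (A.cls l).2 x hx
  have h3 := (A.cls j).2 x hx
  constructor <;> linarith

theorem Seq.g2_sum {ζ : SA} (hζ : Cut S ζ) {B : ℝ} (hB : ∀ l, It (ζ * g2 (a l)) ≤ B) (l j : ℕ) :
    It (ζ * g2 (a l + a j)) ≤ 4 * B := by
  have h : It (ζ * g2 (a l + a j)) ≤ It ((2 : ℝ) • (ζ * g2 (a l)) + (2 : ℝ) • (ζ * g2 (a j))) := by
    apply It_le_on (hζ.sup.mul_right _) (((hζ.sup.mul_right _).smul _).add ((hζ.sup.mul_right _).smul _))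
    intro x _
    simp only [SA.mul_val, SA.add_val, SA.smul_val]
    have := mul_le_mul_of_nonneg_left (g2_add_le (a l) (a j) x) (hζ.nn x)
    linarith
  rw [It_add ((hζ.cs.mul_right _).smul _) ((hζ.cs.mul_right _).smul _), It_smul, It_smul] at h
  linarith [hB l, hB j]

theorem Seq.g2_diff {ζ : SA} (hζ : Cut S ζ) {B : ℝ} (hB : ∀ l, It (ζ * g2 (a l)) ≤ B) (l j : ℕ) :
    It (ζ * g2 (a l - a j)) ≤ 4 * B := by
  have h : It (ζ * g2 (a l - a j)) ≤ It ((2 : ℝ) • (ζ * g2 (a l)) + (2 : ℝ) • (ζ * g2 (a j))) := by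
    apply It_le_on (hζ.sup.mul_right _) (((hζ.sup.mul_right _).smul _).add ((hζ.sup.mul_right _).smul _))
    intro x _
    simp only [SA.mul_val, SA.add_val, SA.smul_val]
    have := mul_le_mul_of_nonneg_left (g2_sub_le (a l) (a j) x) (hζ.nn x)
    linarith
  rw [It_add ((hζ.cs.mul_right _).smul _) ((hζ.cs.mul_right _).smul _), It_smul, It_smul] at h
  linarith [hB l, hB j]

omit A in
/-- The pointwise estimate of the error terms. -/
theorem r_err {w z Z M α N Γ X C0 C1 C2 t : ℝ} (ht : 0 < t) (hw0 : 0 ≤ w) (hwz : w ≤ z)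
    (hg : Z ^ 2 ≤ M * z) (hM : 0 ≤ M)
    (hα0 : 0 ≤ α) (hα1 : α ≤ C0) (hC1 : 0 ≤ C1) (hC2 : 0 ≤ C2) (hN : 0 ≤ N)
    (hΓ : |Γ| ≤ C1 * (Z * N)) (hX : |X| ≤ C2 * N) (hcase : z = 1 ∨ Γ = 0) :
    |α * Γ| + |w * α * X| ≤ t * ((C1 + C2) / 2) * (z * N ^ 2)
      + (C1 * C0 * M + C2 * C0) / 2 / t * (z * α) := by
  have hz0 : 0 ≤ z := hw0.trans hwz
  have hC0 : 0 ≤ C0 := hα0.trans hα1
  have hαα : α ^ 2 ≤ C0 * α := by nlinarith
  have e1 : |α * Γ| ≤ C1 * (t / 2 * (z * N ^ 2) + C0 * M / (2 * t) * (z * α)) := by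
    rcases hcase with h | h
    · subst h
      rw [abs_mul, abs_of_nonneg hα0]
      have h1 : (α * Z) * N ≤ t / 2 * N ^ 2 + 1 / (2 * t) * (α * Z) ^ 2 := r_pq ht
      have h2 : (α * Z) ^ 2 ≤ C0 * α * M := by
        have : (α * Z) ^ 2 = α ^ 2 * Z ^ 2 := by ring
        rw [this]
        have hg' : Z ^ 2 ≤ M := by linarith
        calc α ^ 2 * Z ^ 2 ≤ α ^ 2 * M := mul_le_mul_of_nonneg_left hg' (by positivity)
          _ ≤ C0 * α * M := mul_le_mul_of_nonneg_right hαα hM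
      have h3 : 1 / (2 * t) * (α * Z) ^ 2 ≤ 1 / (2 * t) * (C0 * α * M) :=
        mul_le_mul_of_nonneg_left h2 (by positivity)
      calc α * |Γ| ≤ α * (C1 * (Z * N)) := mul_le_mul_of_nonneg_left hΓ hα0
        _ = C1 * ((α * Z) * N) := by ring
        _ ≤ C1 * (t / 2 * N ^ 2 + 1 / (2 * t) * (C0 * α * M)) :=
            mul_le_mul_of_nonneg_left (by linarith) hC1
        _ = _ := by field_simp
    · rw [h, mul_zero, abs_zero]; positivity
  have e2 : |w * α * X| ≤ C2 * (t / 2 * (z * N ^ 2) + C0 / (2 * t) * (z * α)) := by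
    rw [abs_mul, abs_mul, abs_of_nonneg hw0, abs_of_nonneg hα0]
    have h1 : α * N ≤ t / 2 * N ^ 2 + 1 / (2 * t) * α ^ 2 := r_pq ht
    have h3 : 1 / (2 * t) * α ^ 2 ≤ 1 / (2 * t) * (C0 * α) :=
      mul_le_mul_of_nonneg_left hαα (by positivity)
    have h4 : 0 ≤ t / 2 * N ^ 2 + 1 / (2 * t) * (C0 * α) := by positivity
    calc w * α * |X| ≤ w * α * (C2 * N) := mul_le_mul_of_nonneg_left hX (by positivity)
      _ = C2 * (w * (α * N)) := by ring
      _ ≤ C2 * (w * (t / 2 * N ^ 2 + 1 / (2 * t) * (C0 * α))) :=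
          mul_le_mul_of_nonneg_left (mul_le_mul_of_nonneg_left (by linarith) hw0) hC2
      _ ≤ C2 * (z * (t / 2 * N ^ 2 + 1 / (2 * t) * (C0 * α))) :=
          mul_le_mul_of_nonneg_left (mul_le_mul_of_nonneg_right hwz h4) hC2
      _ = _ := by field_simp
  have e3 : C1 * (t / 2 * (z * N ^ 2) + C0 * M / (2 * t) * (z * α))
      + C2 * (t / 2 * (z * N ^ 2) + C0 / (2 * t) * (z * α)) = t * ((C1 + C2) / 2) * (z * N ^ 2)
      + (C1 * C0 * M + C2 * C0) / 2 / t * (z * α) := by field_simp; ring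
  linarith

include G

theorem L1aux {ζ : SA} (hζ : Cut S ζ) :
    Small (fun l j => It (ζ * Gam J σ ρ (a l) (a l)) - It (ζ * Gam J σ ρ (a j) (a j))) ∧
    Small (fun l j => It (ζ * Gam J σ ρ (a j) (a j)) - It (ζ * Gam J σ ρ (a l) (a l))) ∧
    Small (fun l j => It (ζ * ((a l - a j) * mix J σ (a l + a j) ρ))) := by
  obtain ⟨ζ', M, hN⟩ := hζ.nest G.cpt
  obtain ⟨C1, hC1, hG⟩ := exists_Gam_rho_bound G
  obtain ⟨C2, hC2, hX⟩ := exists_Xr_bound G
  obtain ⟨B, hB0, hB⟩ := B1 G hN.c' C0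
  obtain ⟨Bz, hBz0, hBz⟩ := B1 G hζ C0
  have hs := hζ.sup
  have hs' := hN.c'.sup
  have hM := hN.M0
  have hBs := A.g2_sum hN.c' (fun l => hB _ (A.cls l))
  set K1 := (C1 + C2) / 2 with hK1
  set K2 := (C1 * C0 * M + C2 * C0) / 2 with hK2
  let U : ℝ → ℕ → ℕ → SA := fun t l j => (t * K1) • (ζ' * g2 (a l + a j)) + (K2 / t) • (ζ' * (a l - a j))
  have hUs : ∀ t l j, Sup S (U t l j) := fun t l j =>
    ((hs'.mul_right _).smul _).add ((hs'.mul_right _).smul _)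
  have hUI : ∀ t, 0 < t → ∀ l j, It (U t l j) ≤ t * (K1 * (4 * B)) + K2 / t * It (ζ' * (a l - a j)) := by
    intro t ht l j
    rw [It_add ((hs'.cs.mul_right _).smul _) ((hs'.cs.mul_right _).smul _), It_smul, It_smul]
    have : t * K1 * It (ζ' * g2 (a l + a j)) ≤ t * K1 * (4 * B) :=
      mul_le_mul_of_nonneg_left (hBs l j) (by positivity)
    linarith
  -- pointwise facts
  have hpt : ∀ t, 0 < t → ∀ l j, l ≤ j → ∀ x ∈ S,
      (ζ * Gam J σ ρ (a l) (a l)).1 x + (ζ * ((a l - a j) * mix J σ (a l + a j) ρ)).1 x ≤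
      (ζ * Gam J σ ρ (a j) (a j)).1 x + (U t l j).1 x +
        (YY J σ ρ (ζ * (a l - a j)) (a l + a j)).1 x := by
    intro t ht l j hlj x hx
    have hα := A.alpha hlj hx
    have hsym := Gam_symm G hx ρ (a l) (a j)
    have hcase : ζ'.1 x = 1 ∨ (Gam J σ ρ ζ (a l + a j)).1 x = 0 := by
      rcases hN.cases x with h | h
      · exact Or.inl h
      · exact Or.inr (Gam_zero h.2.2 _ _)
    have hg := hN.grad x hx
    rw [← nn_sq] at hg
    have hr := r_err ht (hζ.nn x) (hN.le x) hg hM hα.1 hα.2 hC1 hC2 (nn_nonneg (a l + a j) x)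
      (hG x hx ζ (a l + a j)) (hX x hx (a l + a j)) hcase
    simp only [U, YY, SA.mul_val, SA.add_val, SA.sub_val, SA.smul_val, Gam_mul_l] at hr ⊢
    rw [nn_sq] at hr
    have h1 := neg_abs_le (((a l).1 x - (a j).1 x) * (Gam J σ ρ ζ (a l + a j)).1 x)
    have h2 := neg_abs_le (ζ.1 x * ((a l).1 x - (a j).1 x) * (Xr J σ ρ (a l + a j)).1 x)
    have e1 : (Gam J σ ρ (a l - a j) (a l + a j)).1 x
        = (Gam J σ ρ (a l) (a l)).1 x - (Gam J σ ρ (a j) (a j)).1 x := by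
      rw [Gam_sub_l, Gam_add_r, Gam_add_r]
      simp only [SA.sub_val, SA.add_val]
      linarith
    rw [e1]
    rw [← hK1, ← hK2] at hr
    linarith
  have hYY : ∀ l j, It (YY J σ ρ (ζ * (a l - a j)) (a l + a j)) = 0 := fun l j =>
    It_YY G _ _ (Or.inl ⟨(hs.mul_right _).cs, (hs.mul_right _).sub⟩)
  have hF0 : ∀ l j, l ≤ j → 0 ≤ It (ζ * ((a l - a j) * mix J σ (a l + a j) ρ)) := by
    intro l j hlj
    apply It_nonneg_on (hs.mul_right _)
    intro x hx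
    simp only [SA.mul_val]
    exact mul_nonneg (hζ.nn x) (mul_nonneg (A.alpha hlj hx).1 (mix_rho_nonneg G hx (A.psh_sum l j)))
  have hIneq : ∀ t, 0 < t → ∀ l j, l ≤ j → It (ζ * Gam J σ ρ (a l) (a l))
      + It (ζ * ((a l - a j) * mix J σ (a l + a j) ρ)) ≤ It (ζ * Gam J σ ρ (a j) (a j)) + It (U t l j) := by
    intro t ht l j hlj
    rw [← It_add (hs.cs.mul_right _) (hs.cs.mul_right _), ← It_add (hs.cs.mul_right _) (hUs t l j).cs]
    exact It_le_add ((hs.mul_right _).add (hs.mul_right _)) ((hs.mul_right _).add (hUs t l j))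
      (Sup.YY (hs.mul_right _) _) (hYY l j) (hpt t ht l j hlj)
  have hK1B : 0 ≤ K1 * (4 * B) := by positivity
  have s1 : Small (fun l j => It (ζ * Gam J σ ρ (a l) (a l)) - It (ζ * Gam J σ ρ (a j) (a j))) := by
    apply small_of_t hK1B
    intro t ht
    by_cases hC0 : 0 ≤ C0
    · refine ⟨fun l j => K2 / t * It (ζ' * (a l - a j)), (L0 A hN.c').smul (by positivity), ?_⟩
      intro l j hlj
      have h1 := hIneq t ht l j hlj
      have h2 := hUI t ht l j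
      have h3 := hF0 l j hlj
      linarith
    · -- then `S` is empty
      refine ⟨fun _ _ => 0, Small.zero, ?_⟩
      intro l j hlj
      have hSe : ∀ x ∈ S, False := fun x hx => hC0 (((A.cls 0).2 x hx).1.trans ((A.cls 0).2 x hx).2)
      have h1 : It (ζ * Gam J σ ρ (a l) (a l)) ≤ It (ζ * Gam J σ ρ (a j) (a j)) :=
        It_le_on (hs.mul_right _) (hs.mul_right _) (fun x hx => (hSe x hx).elim)
      have h2 : 0 ≤ t * (K1 * (4 * B)) := by positivity
      linarith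
  have s2 : Small (fun l j => It (ζ * Gam J σ ρ (a j) (a j)) - It (ζ * Gam J σ ρ (a l) (a l))) := by
    refine small_seq (Q := fun l => It (ζ * Gam J σ ρ (a l) (a l))) s1 (fun l j _ => by linarith)
      (B := C1 * Bz) ?_
    intro l
    have h1 : It (ζ * Gam J σ ρ (a l) (a l)) ≤ It (C1 • (ζ * g2 (a l))) := by
      apply It_le_on (hs.mul_right _) ((hs.mul_right _).smul _)
      intro x hx
      simp only [SA.mul_val, SA.smul_val]
      have h2 := (le_abs_self _).trans (hG x hx (a l) (a l))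
      have h3 : nn (a l) x * nn (a l) x = (g2 (a l)).1 x := by rw [← nn_sq]; ring
      rw [h3] at h2
      have := mul_le_mul_of_nonneg_left h2 (hζ.nn x)
      linarith
    rw [It_smul] at h1
    exact h1.trans (mul_le_mul_of_nonneg_left (hBz _ (A.cls l)) hC1)
  refine ⟨s1, s2, ?_⟩
  apply small_of_t hK1B
  intro t ht
  by_cases hC0 : 0 ≤ C0
  · refine ⟨fun l j => (It (ζ * Gam J σ ρ (a j) (a j)) - It (ζ * Gam J σ ρ (a l) (a l)))
      + K2 / t * It (ζ' * (a l - a j)), s2.add ((L0 A hN.c').smul (by positivity)), ?_⟩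
    intro l j hlj
    have h1 := hIneq t ht l j hlj
    have h2 := hUI t ht l j
    linarith
  · refine ⟨fun _ _ => 0, Small.zero, ?_⟩
    intro l j hlj
    have hSe : ∀ x ∈ S, False := fun x hx => hC0 (((A.cls 0).2 x hx).1.trans ((A.cls 0).2 x hx).2)
    have h1 : It (ζ * ((a l - a j) * mix J σ (a l + a j) ρ)) ≤ It ((0 : ℝ) • ζ) :=
      It_le_on (hs.mul_right _) (hs.smul _) (fun x hx => (hSe x hx).elim)
    rw [It_smul, zero_mul] at h1
    have h2 : 0 ≤ t * (K1 * (4 * B)) := by positivity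
    linarith

theorem L1a {ζ : SA} (hζ : Cut S ζ) :
    Small (fun l j => It (ζ * ((a l - a j) * mix J σ (a l + a j) ρ))) := (L1aux G A hζ).2.2

end Pool.Agent.Y264
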