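import Pool.Agent.Y264.Lev1

/-! First level of convergence, continued. -/

namespace Pool.Agent.Y264
open Matrix MeasureTheory Set Filter Topology
open scoped ContDiff

variable {J : Matrix (Fin 4) (Fin 4) SA} {σ : ℝ} {S : Set E4} {ρ : SA} (G : Geo J σ S ρ)
  {C0 : ℝ} {a : ℕ → SA} (A : Seq J S C0 a)

include G A

theorem L1b (hC0 : 0 ≤ C0) {ζ : SA} (hζ : Cut S ζ) : Small (fun l j => It (ζ * g2 (a l - a j))) := by
  obtain ⟨ζ', M, hN⟩ := hζ.nest G.cpt
  obtain ⟨c, hc, hlow⟩ := exists_Gam_lower G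
  obtain ⟨C1, hC1, hG⟩ := exists_Gam_rho_bound G
  obtain ⟨C2, hC2, hX⟩ := exists_Xr_bound G
  obtain ⟨B, hB0, hB⟩ := B1 G hN.c' C0
  have hs := hζ.sup
  have hs' := hN.c'.sup
  have hM := hN.M0
  have hBs := A.g2_diff hN.c' (fun l => hB _ (A.cls l))
  set K1 := (C1 + C2) / 2 with hK1
  set K2 := (C1 * C0 * M + C2 * C0) / 2 with hK2
  let U : ℝ → ℕ → ℕ → SA := fun t l j => (t * K1) • (ζ' * g2 (a l - a j)) + (K2 / t) • (ζ' * (a l - a j))
  have hUs : ∀ t l j, Sup S (U t l j) := fun t l j =>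
    ((hs'.mul_right _).smul _).add ((hs'.mul_right _).smul _)
  have hUI : ∀ t, 0 < t → ∀ l j, It (U t l j) ≤ t * (K1 * (4 * B)) + K2 / t * It (ζ' * (a l - a j)) := by
    intro t ht l j
    rw [It_add ((hs'.cs.mul_right _).smul _) ((hs'.cs.mul_right _).smul _), It_smul, It_smul]
    have : t * K1 * It (ζ' * g2 (a l - a j)) ≤ t * K1 * (4 * B) :=
      mul_le_mul_of_nonneg_left (hBs l j) (by positivity)
    linarith
  have hpt : ∀ t, 0 < t → ∀ l j, l ≤ j → ∀ x ∈ S, (c • (ζ * g2 (a l - a j))).1 x ≤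
      (ζ * ((a l - a j) * mix J σ (a l + a j) ρ)).1 x + (U t l j).1 x +
        (YY J σ ρ (ζ * (a l - a j)) (a l - a j)).1 x := by
    intro t ht l j hlj x hx
    have hα := A.alpha hlj hx
    have hcase : ζ'.1 x = 1 ∨ (Gam J σ ρ ζ (a l - a j)).1 x = 0 := by
      rcases hN.cases x with h | h
      · exact Or.inl h
      · exact Or.inr (Gam_zero h.2.2 _ _)
    have hg := hN.grad x hx
    rw [← nn_sq] at hg
    have hr := r_err ht (hζ.nn x) (hN.le x) hg hM hα.1 hα.2 hC1 hC2 (nn_nonneg (a l - a j) x)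
      (hG x hx ζ (a l - a j)) (hX x hx (a l - a j)) hcase
    have hgl := mul_le_mul_of_nonneg_left (hlow x hx (a l - a j)) (hζ.nn x)
    have m1 := mix_rho_nonneg G hx (A.cls l).1
    have m2 := mix_rho_nonneg G hx (A.cls j).1
    have h1 := neg_abs_le ((a l - a j).1 x * (Gam J σ ρ ζ (a l - a j)).1 x)
    have h2 := neg_abs_le (ζ.1 x * (a l - a j).1 x * (Xr J σ ρ (a l - a j)).1 x)
    simp only [U, YY, SA.mul_val, SA.add_val, SA.smul_val, Gam_mul_l, mix_add_left, mix_sub_left]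
      at hr hgl h1 h2 ⊢
    rw [SA.sub_val (mix J σ (a l) ρ)]
    rw [nn_sq] at hr
    have h3 : 0 ≤ ζ.1 x * (a l - a j).1 x * (mix J σ (a l) ρ).1 x :=
      mul_nonneg (mul_nonneg (hζ.nn x) hα.1) m1
    rw [← hK1, ← hK2] at hr
    linarith
  have hYY : ∀ l j, It (YY J σ ρ (ζ * (a l - a j)) (a l - a j)) = 0 := fun l j =>
    It_YY G _ _ (Or.inl ⟨(hs.mul_right _).cs, (hs.mul_right _).sub⟩)
  have hIneq : ∀ t, 0 < t → ∀ l j, l ≤ j → c * It (ζ * g2 (a l - a j)) ≤
      It (ζ * ((a l - a j) * mix J σ (a l + a j) ρ)) + It (U t l j) := by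
    intro t ht l j hlj
    rw [← It_smul, ← It_add (hs.cs.mul_right _) (hUs t l j).cs]
    exact It_le_add ((hs.mul_right _).smul _) ((hs.mul_right _).add (hUs t l j))
      (Sup.YY (hs.mul_right _) _) (hYY l j) (hpt t ht l j hlj)
  have hK1B : 0 ≤ K1 * (4 * B) := by positivity
  have s : Small (fun l j => c * It (ζ * g2 (a l - a j))) := by
    apply small_of_t hK1B
    intro t ht
    refine ⟨fun l j => It (ζ * ((a l - a j) * mix J σ (a l + a j) ρ)) + K2 / t * It (ζ' * (a l - a j)),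
      (L1a G A hζ).add ((L0 A hN.c').smul (by positivity)), ?_⟩
    intro l j hlj
    have h1 := hIneq t ht l j hlj
    have h2 := hUI t ht l j
    linarith
  have s' := s.smul (c := 1 / c) (by positivity)
  apply s'.mono
  intro l j _
  rw [← mul_assoc, one_div, inv_mul_cancel₀ hc.ne', one_mul]

theorem L1c (hC0 : 0 ≤ C0) {ζ : SA} (hζ : Cut S ζ) :
    Small (fun l j => It (ζ * ((a l - a j) * g2 (a l + a j)))) := by
  obtain ⟨ζ', M, hN⟩ := hζ.nest G.cpt
  obtain ⟨c, hc, hlow⟩ := exists_Gam_lower G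
  obtain ⟨C1, hC1, hG⟩ := exists_Gam_rho_bound G
  obtain ⟨C2, hC2, hX⟩ := exists_Xr_bound G
  obtain ⟨B, hB0, hB⟩ := B1 G hN.c' C0
  have hs := hζ.sup
  have hs' := hN.c'.sup
  have hM := hN.M0
  have hBs := A.g2_sum hN.c' (fun l => hB _ (A.cls l))
  set K1 := (C1 + C2) / 2 with hK1
  set K2 := (C1 * C0 * M + C2 * C0) / 2 with hK2
  let U : ℝ → ℕ → ℕ → SA := fun t l j => (4 * C0 * (t * K1 + C1 * (t / 2))) • (ζ' * g2 (a l + a j))
    + (4 * C0 * (K2 / t)) • (ζ' * (a l - a j)) + (4 * C0 * (C1 * (1 / (2 * t)))) • (ζ' * g2 (a l - a j))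
  have hUs : ∀ t l j, Sup S (U t l j) := fun t l j =>
    (((hs'.mul_right _).smul _).add ((hs'.mul_right _).smul _)).add ((hs'.mul_right _).smul _)
  have hUI : ∀ t, 0 < t → ∀ l j, It (U t l j) ≤ t * (4 * C0 * (K1 + C1 / 2) * (4 * B))
      + (4 * C0 * (K2 / t) * It (ζ' * (a l - a j))
      + 4 * C0 * (C1 * (1 / (2 * t))) * It (ζ' * g2 (a l - a j))) := by
    intro t ht l j
    rw [It_add (((hs'.cs.mul_right _).smul _).add ((hs'.cs.mul_right _).smul _))
      ((hs'.cs.mul_right _).smul _), It_add ((hs'.cs.mul_right _).smul _) ((hs'.cs.mul_right _).smul _),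
      It_smul, It_smul, It_smul]
    have : 4 * C0 * (t * K1 + C1 * (t / 2)) * It (ζ' * g2 (a l + a j)) ≤
        4 * C0 * (t * K1 + C1 * (t / 2)) * (4 * B) :=
      mul_le_mul_of_nonneg_left (hBs l j) (by positivity)
    linarith
  have hpt : ∀ t, 0 < t → ∀ l j, l ≤ j → ∀ x ∈ S,
      ((2 * c) • (ζ * ((a l - a j) * g2 (a l + a j)))).1 x ≤
      (U t l j).1 x +
        (YY J σ ρ (ζ * (a l - a j)) ((a l + a j) * (a l + a j))).1 x := by
    intro t ht l j hlj x hx
    have hα := A.alpha hlj hx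
    have hcase : ζ'.1 x = 1 ∨ (Gam J σ ρ ζ (a l + a j)).1 x = 0 := by
      rcases hN.cases x with h | h
      · exact Or.inl h
      · exact Or.inr (Gam_zero h.2.2 _ _)
    have hg := hN.grad x hx
    rw [← nn_sq] at hg
    have hr := r_err ht (hζ.nn x) (hN.le x) hg hM hα.1 hα.2 hC1 hC2 (nn_nonneg (a l + a j) x)
      (hG x hx ζ (a l + a j)) (hX x hx (a l + a j)) hcase
    have hgl := hlow x hx (a l + a j)
    have hm := mix_rho_nonneg G hx (A.psh_sum l j)
    have h1 := neg_abs_le ((a l - a j).1 x * (Gam J σ ρ ζ (a l + a j)).1 x)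
    have h2 := neg_abs_le (ζ.1 x * (a l - a j).1 x * (Xr J σ ρ (a l + a j)).1 x)
    have hcc : 0 ≤ (a l + a j).1 x ∧ (a l + a j).1 x ≤ 2 * C0 := by
      rw [SA.add_val]
      have h3 := (A.cls l).2 x hx
      have h4 := (A.cls j).2 x hx
      constructor <;> linarith
    have h5 := (abs_le.mp (hG x hx (a l - a j) (a l + a j))).1
    simp only [U, YY, SA.mul_val, SA.smul_val, Gam_mul_l, Gam_mul_r, Xr_mul, mix_mul G hx,
      SA.add_val (_ • _), SA.add_val (_ + _), SA.add_val (ζ * _), SA.add_val (_ * _)]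
    rw [nn_sq] at hr
    rw [← hK1, ← hK2] at hr
    have hw0 := hζ.nn x
    have hwz := hN.le x
    have hP := nn_nonneg (a l - a j) x
    have hN0 := nn_nonneg (a l + a j) x
    have hPs := nn_sq (a l - a j) x
    have hNs := nn_sq (a l + a j) x
    rw [← hPs, ← hNs]
    rw [← hNs] at hr hgl
    generalize nn (a l - a j) x = P at *
    generalize nn (a l + a j) x = N at *
    generalize ζ'.1 x = z at *
    generalize ζ.1 x = w at *
    generalize (a l - a j).1 x = α at *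
    generalize (a l + a j).1 x = s at *
    generalize (mix J σ (a l + a j) ρ).1 x = m at *
    generalize (Gam J σ ρ (a l + a j) (a l + a j)).1 x = g at *
    generalize (Gam J σ ρ (a l - a j) (a l + a j)).1 x = γ at *
    generalize (Gam J σ ρ ζ (a l + a j)).1 x = Γ at *
    generalize (Xr J σ ρ (a l + a j)).1 x = X at *
    obtain ⟨hs0, hs1⟩ := hcc
    obtain ⟨hα0, hα1⟩ := hα
    have hz0 : 0 ≤ z := hw0.trans hwz
    have e1 : w * α * (c * N ^ 2) ≤ w * α * g := mul_le_mul_of_nonneg_left hgl (by positivity)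
    have e2 : 0 ≤ w * α * (s * m) := by positivity
    have e3 : P * N ≤ t / 2 * N ^ 2 + 1 / (2 * t) * P ^ 2 := r_pq ht
    have e4 : w * (P * N) ≤ z * (t / 2 * N ^ 2 + 1 / (2 * t) * P ^ 2) :=
      mul_le_mul hwz e3 (by positivity) hz0
    have e5 : -(2 * (2 * C0) * (C1 * (z * (t / 2 * N ^ 2 + 1 / (2 * t) * P ^ 2)))) ≤ 2 * s * (w * γ) := by
      have k1 : 2 * s * (w * (-(C1 * (P * N)))) ≤ 2 * s * (w * γ) :=
        mul_le_mul_of_nonneg_left (mul_le_mul_of_nonneg_left h5 hw0) (by positivity)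
      have k2 : s * (C1 * (w * (P * N))) ≤ (2 * C0) * (C1 * (z * (t / 2 * N ^ 2 + 1 / (2 * t) * P ^ 2))) :=
        mul_le_mul hs1 (mul_le_mul_of_nonneg_left e4 hC1) (by positivity) (by positivity)
      linarith
    have e6 : -(2 * (2 * C0) * (t * K1 * (z * N ^ 2) + K2 / t * (z * α))) ≤
        2 * s * (α * Γ + w * α * X) := by
      have k0 : -(t * K1 * (z * N ^ 2) + K2 / t * (z * α)) ≤ α * Γ + w * α * X := by linarith
      have k3 : 0 ≤ t * K1 * (z * N ^ 2) + K2 / t * (z * α) := by positivity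
      have k1 : 2 * s * (-(t * K1 * (z * N ^ 2) + K2 / t * (z * α))) ≤ 2 * s * (α * Γ + w * α * X) :=
        mul_le_mul_of_nonneg_left k0 (by positivity)
      have k2 : s * (t * K1 * (z * N ^ 2) + K2 / t * (z * α)) ≤
        (2 * C0) * (t * K1 * (z * N ^ 2) + K2 / t * (z * α)) := mul_le_mul_of_nonneg_right hs1 k3
      linarith
    linarith
  have hYY : ∀ l j, It (YY J σ ρ (ζ * (a l - a j)) ((a l + a j) * (a l + a j))) = 0 := fun l j =>
    It_YY G _ _ (Or.inl ⟨(hs.mul_right _).cs, (hs.mul_right _).sub⟩)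
  have hIneq : ∀ t, 0 < t → ∀ l j, l ≤ j → (2 * c) * It (ζ * ((a l - a j) * g2 (a l + a j))) ≤
      It (U t l j) := by
    intro t ht l j hlj
    rw [← It_smul]
    exact It_le_add ((hs.mul_right _).smul _) (hUs t l j)
      (Sup.YY (hs.mul_right _) _) (hYY l j) (hpt t ht l j hlj)
  have hK1B : 0 ≤ 4 * C0 * (K1 + C1 / 2) * (4 * B) := by positivity
  have s : Small (fun l j => (2 * c) * It (ζ * ((a l - a j) * g2 (a l + a j)))) := by
    apply small_of_t hK1B
    intro t ht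
    refine ⟨_, ((L0 A hN.c').smul (c := 4 * C0 * (K2 / t)) (by positivity)).add
      ((L1b G A hC0 hN.c').smul (c := 4 * C0 * (C1 * (1 / (2 * t)))) (by positivity)), ?_⟩
    intro l j hlj
    exact (hIneq t ht l j hlj).trans (hUI t ht l j)
  have s' := s.smul (c := 1 / (2 * c)) (by positivity)
  apply s'.mono
  intro l j _
  have e : ∀ y : ℝ, 1 / (2 * c) * (2 * c * y) = y := fun y => by field_simp
  rw [e]

end Pool.Agent.Y264
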