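import Pool.Agent.Y264.Lev1b

/-! Second level of convergence: the Monge-Ampere energy. -/

namespace Pool.Agent.Y264
open Matrix MeasureTheory Set Filter Topology
open scoped ContDiff

theorem q1 {α v m mc C0 Cz z : ℝ} (hα0 : 0 ≤ α) (hv0 : 0 ≤ v) (hv1 : v ≤ C0) (hz : 0 ≤ z)
    (hCz : 0 ≤ Cz) (hmc : 0 ≤ mc)
    (hm : |m| ≤ Cz * mc) (hcase : z = 1 ∨ m = 0) : -(α * v * m) ≤ C0 * Cz * (z * (α * mc)) := by
  have hC0 : 0 ≤ C0 := hv0.trans hv1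
  rcases hcase with h | h
  · subst h
    have h1 := (abs_le.mp hm).1
    have h2 : v * (α * (Cz * mc)) ≤ C0 * (α * (Cz * mc)) := mul_le_mul_of_nonneg_right hv1 (by positivity)
    have h3 : α * v * (-(Cz * mc)) ≤ α * v * m := mul_le_mul_of_nonneg_left h1 (by positivity)
    linarith
  · rw [h, mul_zero, neg_zero]; positivity

theorem q2 {α Γ Γz Γb mc C0 C5 M z Z t : ℝ} (ht : 0 < t) (hα0 : 0 ≤ α) (hα1 : α ≤ C0) (hz : 0 ≤ z)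
    (hmc : 0 ≤ mc) (hC5 : 0 ≤ C5) (hM : 0 ≤ M) (hΓb : 0 ≤ Γb) (hΓz0 : Γz ≤ C5 * (Z ^ 2 * mc))
    (hg : Z ^ 2 ≤ M * z)
    (hcs : 0 ≤ 1 ^ 2 * Γz + 2 * 1 * t * Γ + t ^ 2 * Γb) (hcase : z = 1 ∨ Γ = 0) :
    -(2 * α * Γ) ≤ C5 * M / t * (z * (α * mc)) + t * C0 * (z * Γb) := by
  have hC0 : 0 ≤ C0 := hα0.trans hα1
  rcases hcase with h | h
  · subst h
    have h1 : Γz ≤ C5 * (M * 1 * mc) := hΓz0.trans
      (mul_le_mul_of_nonneg_left (mul_le_mul_of_nonneg_right hg hmc) hC5)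
    have h2 : -(2 * Γ) ≤ 1 / t * Γz + t * Γb := by
      have e : 1 / t * (1 ^ 2 * Γz + 2 * 1 * t * Γ + t ^ 2 * Γb) = 1 / t * Γz + 2 * Γ + t * Γb := by
        field_simp
      have h3 : 0 ≤ 1 / t * (1 ^ 2 * Γz + 2 * 1 * t * Γ + t ^ 2 * Γb) := by positivity
      linarith
    have h3 : 1 / t * Γz ≤ 1 / t * (C5 * (M * 1 * mc)) := mul_le_mul_of_nonneg_left h1 (by positivity)
    have h4 : α * (-(2 * Γ)) ≤ α * (1 / t * (C5 * (M * 1 * mc)) + t * Γb) :=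
      mul_le_mul_of_nonneg_left (by linarith) hα0
    have h5 : α * (t * Γb) ≤ C0 * (t * Γb) := mul_le_mul_of_nonneg_right hα1 (by positivity)
    have e : C5 * M / t * (1 * (α * mc)) = α * (1 / t * (C5 * (M * 1 * mc))) := by field_simp
    rw [e]
    linarith
  · rw [h, mul_zero, neg_zero]; positivity

theorem q3 {v ν C0 C3 M z Z P N t : ℝ} (ht : 0 < t) (hv0 : 0 ≤ v) (hv1 : v ≤ C0) (hz : 0 ≤ z)
    (hC3 : 0 ≤ C3) (hM : 0 ≤ M) (hP : 0 ≤ P) (hN : 0 ≤ N)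
    (hν : |ν| ≤ C3 * (Z * P * N)) (hg : Z ^ 2 ≤ M * z) (hcase : z = 1 ∨ ν = 0) :
    2 * v * ν ≤ C0 * C3 * (1 + M) * t * (z * N ^ 2) + C0 * C3 * (1 + M) / t * (z * P ^ 2) := by
  have hC0 : 0 ≤ C0 := hv0.trans hv1
  rcases hcase with h | h
  · subst h
    have hZ1 : Z ≤ 1 + M := r_Z1 hg
    have h1 : P * N ≤ t / 2 * N ^ 2 + 1 / (2 * t) * P ^ 2 := r_pq ht
    have h2 : Z * (P * N) ≤ (1 + M) * (t / 2 * N ^ 2 + 1 / (2 * t) * P ^ 2) :=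
      mul_le_mul hZ1 h1 (by positivity) (by positivity)
    have h3 : ν ≤ C3 * ((1 + M) * (t / 2 * N ^ 2 + 1 / (2 * t) * P ^ 2)) := by
      refine (le_abs_self ν).trans (hν.trans ?_)
      rw [mul_assoc Z P N]
      exact mul_le_mul_of_nonneg_left h2 hC3
    have h4 : 2 * v * ν ≤ 2 * v * (C3 * ((1 + M) * (t / 2 * N ^ 2 + 1 / (2 * t) * P ^ 2))) :=
      mul_le_mul_of_nonneg_left h3 (by positivity)
    have h5 : v * (2 * (C3 * ((1 + M) * (t / 2 * N ^ 2 + 1 / (2 * t) * P ^ 2)))) ≤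
        C0 * (2 * (C3 * ((1 + M) * (t / 2 * N ^ 2 + 1 / (2 * t) * P ^ 2)))) :=
      mul_le_mul_of_nonneg_right hv1 (by positivity)
    have e : C0 * C3 * (1 + M) * t * (1 * N ^ 2) + C0 * C3 * (1 + M) / t * (1 * P ^ 2) =
        C0 * (2 * (C3 * ((1 + M) * (t / 2 * N ^ 2 + 1 / (2 * t) * P ^ 2)))) := by field_simp
    rw [e]; linarith
  · rw [h, mul_zero]; positivity

theorem q4 {α v q C0 C4 M z Z N t : ℝ} (ht : 0 < t) (hα0 : 0 ≤ α) (hα1 : α ≤ C0)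
    (hv0 : 0 ≤ v) (hv1 : v ≤ C0) (hz : 0 ≤ z)
    (hC4 : 0 ≤ C4) (hM : 0 ≤ M) (hN : 0 ≤ N)
    (hq : |q| ≤ C4 * (Z * N)) (hg : Z ^ 2 ≤ M * z) (hcase : z = 1 ∨ q = 0) :
    -(α * v * q) ≤ C0 * C4 * (1 + M) * (t / 2) * (z * N ^ 2)
      + C0 * C4 * (1 + M) * (C0 / (2 * t)) * (z * α) := by
  have hC0 : 0 ≤ C0 := hv0.trans hv1
  rcases hcase with h | h
  · subst h
    have hZ1 : Z ≤ 1 + M := r_Z1 hg
    have h1 : α * N ≤ t / 2 * N ^ 2 + 1 / (2 * t) * α ^ 2 := r_pq ht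
    have hαα : α ^ 2 ≤ C0 * α := by nlinarith
    have h1' : α * N ≤ t / 2 * N ^ 2 + 1 / (2 * t) * (C0 * α) :=
      h1.trans (add_le_add le_rfl (mul_le_mul_of_nonneg_left hαα (by positivity)))
    have h2 : Z * (α * N) ≤ (1 + M) * (t / 2 * N ^ 2 + 1 / (2 * t) * (C0 * α)) :=
      mul_le_mul hZ1 h1' (by positivity) (by positivity)
    have h3 := (abs_le.mp hq).1
    have h4 : α * v * (-(C4 * (Z * N))) ≤ α * v * q := mul_le_mul_of_nonneg_left h3 (by positivity)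
    have h5 : v * (C4 * (Z * (α * N))) ≤ C0 * (C4 * ((1 + M) * (t / 2 * N ^ 2 + 1 / (2 * t) * (C0 * α)))) := by
      calc v * (C4 * (Z * (α * N))) ≤ v * (C4 * ((1 + M) * (t / 2 * N ^ 2 + 1 / (2 * t) * (C0 * α)))) :=
            mul_le_mul_of_nonneg_left (mul_le_mul_of_nonneg_left h2 hC4) hv0
        _ ≤ _ := mul_le_mul_of_nonneg_right hv1 (by positivity)
    have e : C0 * C4 * (1 + M) * (t / 2) * (1 * N ^ 2)
      + C0 * C4 * (1 + M) * (C0 / (2 * t)) * (1 * α) =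
        C0 * (C4 * ((1 + M) * (t / 2 * N ^ 2 + 1 / (2 * t) * (C0 * α)))) := by field_simp
    rw [e]; linarith
  · rw [h, mul_zero, neg_zero]; positivity

theorem q5 {w ν1 ν2 C3 C6 Gs D P Bn Mm Nm s t : ℝ} (ht : 0 < t) (hs : 0 < s) (hw : 0 ≤ w)
    (hC3 : 0 ≤ C3) (hC6 : 0 ≤ C6) (hGs : 0 ≤ Gs) (hD : 0 ≤ D) (hP : 0 ≤ P) (hBn : 0 ≤ Bn)
    (hNm : Nm ≤ Mm) (hMm : 0 ≤ Mm)
    (h1 : ν1 ^ 2 ≤ C6 * (Gs * D)) (h2 : |ν2| ≤ C3 * (P * Bn * Nm)) :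
    -(2 * w * (ν1 + 2 * ν2)) ≤ s * C6 * (w * Gs) + 1 / s * (w * D)
      + 2 * C3 * Mm * t * (w * Bn ^ 2) + 2 * C3 * Mm / t * (w * P ^ 2) := by
  have e1 : -(2 * ν1) ≤ s * C6 * Gs + 1 / s * D := by
    have hpos : 0 ≤ s * C6 * Gs + 1 / s * D := by positivity
    have hsq : (2 * ν1) ^ 2 ≤ (s * C6 * Gs + 1 / s * D) ^ 2 := by
      have k1 : (s * C6 * Gs + 1 / s * D) ^ 2 - 4 * (C6 * (Gs * D)) = (s * C6 * Gs - 1 / s * D) ^ 2 := by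
        field_simp; ring
      have k2 := sq_nonneg (s * C6 * Gs - 1 / s * D)
      nlinarith
    have := abs_le_of_sq_le_sq hsq hpos
    linarith [(abs_le.mp this).1]
  have e2 : -(4 * ν2) ≤ 2 * C3 * Mm * t * Bn ^ 2 + 2 * C3 * Mm / t * P ^ 2 := by
    have k1 : P * Bn ≤ t / 2 * Bn ^ 2 + 1 / (2 * t) * P ^ 2 := r_pq ht
    have k2 : P * Bn * Nm ≤ (t / 2 * Bn ^ 2 + 1 / (2 * t) * P ^ 2) * Mm :=
      (mul_le_mul_of_nonneg_left hNm (by positivity)).trans (mul_le_mul_of_nonneg_right k1 hMm)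
    have k3 := (abs_le.mp h2).1
    have k4 : C3 * (P * Bn * Nm) ≤ C3 * ((t / 2 * Bn ^ 2 + 1 / (2 * t) * P ^ 2) * Mm) :=
      mul_le_mul_of_nonneg_left k2 hC3
    have e : 2 * C3 * Mm * t * Bn ^ 2 + 2 * C3 * Mm / t * P ^ 2
        = 4 * (C3 * ((t / 2 * Bn ^ 2 + 1 / (2 * t) * P ^ 2) * Mm)) := by field_simp; ring
    rw [e]; linarith
  have e3 : w * (-(2 * ν1) + -(4 * ν2)) ≤ w * ((s * C6 * Gs + 1 / s * D)
      + (2 * C3 * Mm * t * Bn ^ 2 + 2 * C3 * Mm / t * P ^ 2)) :=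
    mul_le_mul_of_nonneg_left (add_le_add e1 e2) hw
  linarith

theorem q6 {w z v q C0 C4 P N t : ℝ} (ht : 0 < t) (hw : 0 ≤ w) (hwz : w ≤ z)
    (hv0 : 0 ≤ v) (hv1 : v ≤ C0) (hC4 : 0 ≤ C4) (hP : 0 ≤ P) (hN : 0 ≤ N)
    (hq : |q| ≤ C4 * (P * N)) :
    w * v * q ≤ C0 * C4 * (t / 2) * (z * N ^ 2) + C0 * C4 / (2 * t) * (z * P ^ 2) := by
  have hC0 : 0 ≤ C0 := hv0.trans hv1
  have hz : 0 ≤ z := hw.trans hwz
  have h1 : P * N ≤ t / 2 * N ^ 2 + 1 / (2 * t) * P ^ 2 := r_pq ht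
  have h2 : w * (P * N) ≤ z * (t / 2 * N ^ 2 + 1 / (2 * t) * P ^ 2) := mul_le_mul hwz h1 (by positivity) hz
  have h3 : w * v * q ≤ w * v * (C4 * (P * N)) :=
    mul_le_mul_of_nonneg_left ((le_abs_self q).trans hq) (by positivity)
  have h4 : v * (C4 * (w * (P * N))) ≤ C0 * (C4 * (z * (t / 2 * N ^ 2 + 1 / (2 * t) * P ^ 2))) :=
    mul_le_mul hv1 (mul_le_mul_of_nonneg_left h2 hC4) (by positivity) hC0
  have e : C0 * C4 * (t / 2) * (z * N ^ 2) + C0 * C4 / (2 * t) * (z * P ^ 2) =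
      C0 * (C4 * (z * (t / 2 * N ^ 2 + 1 / (2 * t) * P ^ 2))) := by field_simp
  rw [e]; linarith

theorem q7 {w z α q C0 C4 Bn P N : ℝ} (hw : 0 ≤ w) (hwz : w ≤ z) (hα0 : 0 ≤ α) (hα1 : α ≤ C0)
    (hC4 : 0 ≤ C4) (hBP : 4 * Bn ^ 2 ≤ 2 * N ^ 2 + 2 * P ^ 2)
    (hq : |q| ≤ C4 * (Bn * N)) :
    -(w * α * q) ≤ C4 * (z * (α * N ^ 2)) + C4 * C0 * (z * P ^ 2) := by
  have hC0 : 0 ≤ C0 := hα0.trans hα1
  have hz : 0 ≤ z := hw.trans hwz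
  have h1 := (abs_le.mp hq).1
  have h2 : w * α * (-(C4 * (Bn * N))) ≤ w * α * q := mul_le_mul_of_nonneg_left h1 (by positivity)
  have h3 : Bn * N ≤ N ^ 2 + P ^ 2 := by nlinarith [sq_nonneg (Bn - N), sq_nonneg P]
  have h4 : C4 * (w * (α * (Bn * N))) ≤ C4 * (z * (α * (N ^ 2 + P ^ 2))) := by
    apply mul_le_mul_of_nonneg_left _ hC4
    calc w * (α * (Bn * N)) ≤ w * (α * (N ^ 2 + P ^ 2)) :=
          mul_le_mul_of_nonneg_left (mul_le_mul_of_nonneg_left h3 hα0) hw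
      _ ≤ _ := mul_le_mul_of_nonneg_right hwz (by positivity)
  have h5 : C4 * (z * (α * P ^ 2)) ≤ C4 * (z * (C0 * P ^ 2)) :=
    mul_le_mul_of_nonneg_left (mul_le_mul_of_nonneg_left (mul_le_mul_of_nonneg_right hα1 (sq_nonneg P)) hz) hC4
  linarith

end Pool.Agent.Y264
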