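import Pool.Agent.Y264.Lev2

/-! Second level of convergence, the main estimate. -/

namespace Pool.Agent.Y264
open Matrix MeasureTheory Set Filter Topology
open scoped ContDiff

section
variable (J : Matrix (Fin 4) (Fin 4) SA) (σ : ℝ)

theorem N2_smul' (t : ℝ) (a : SA) : N2 J (t • a) = t • N2 J a := N2_smul J t a

theorem nu_smul_b (t : ℝ) (φ a b : SA) : nu J σ φ a (t • b) = t • nu J σ φ a b := by
  simp only [nu, N2_smul, wd_smulR']; rw [smul_comm]

end

section
variable {J : Matrix (Fin 4) (Fin 4) SA} {σ : ℝ} {S : Set E4} {ρ : SA}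

theorem g2_neg (f : SA) : g2 (-f) = g2 f := by
  simp only [g2, D_neg]; ring

theorem sup_dc {ζ : SA} (h : Sup S ζ) (j : Fin 4) : Sup S (dc J ζ j) := by
  simp only [dc, st, gr]
  exact (((((h.D 0).mul_left _).add ((h.D 1).mul_left _)).add ((h.D 2).mul_left _)).add
    ((h.D 3).mul_left _)).neg

theorem sup_om {ζ : SA} (h : Sup S ζ) (i j : Fin 4) : Sup S (om J ζ i j) := by
  simp only [om, dd]
  exact ((sup_dc h j).D i).sub' ((sup_dc h i).D j)

theorem sup_conj {P : Matrix (Fin 4) (Fin 4) SA} (h : ∀ i j, Sup S (P i j)) (i j : Fin 4) :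
    Sup S ((Jᵀ * P * J) i j) := by
  simp only [Matrix.mul_apply, Fin.sum_univ_four]
  have h1 : ∀ i j, Sup S (Jᵀ i 0 * P 0 j + Jᵀ i 1 * P 1 j + Jᵀ i 2 * P 2 j + Jᵀ i 3 * P 3 j) :=
    fun i j => ((((h 0 j).mul_left _).add ((h 1 j).mul_left _)).add ((h 2 j).mul_left _)).add
      ((h 3 j).mul_left _)
  exact ((((h1 i 0).mul_right _).add ((h1 i 1).mul_right _)).add ((h1 i 2).mul_right _)).add
      ((h1 i 3).mul_right _)

theorem sup_H2 {ζ : SA} (h : Sup S ζ) (i j : Fin 4) : Sup S (H2 J ζ i j) :=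
  (sup_om h i j).add (sup_conj (sup_om h) i j)

theorem sup_N2 {ζ : SA} (h : Sup S ζ) (i j : Fin 4) : Sup S (N2 J ζ i j) :=
  (sup_om h i j).sub' (sup_conj (sup_om h) i j)

theorem sup_wg_right {p q : Fin 4 → SA} (h : ∀ i, Sup S (q i)) (i j : Fin 4) :
    Sup S (wg p q i j) := ((h j).mul_left _).sub' ((h i).mul_left _)

theorem sup_ZZ_r {ζ : SA} (h : Sup S ζ) (Φ b : SA) : Sup S (ZZ J σ Φ ζ b) := by
  have h1 : Sup S (mix J σ ζ b) := (sup_wd_left (sup_H2 h)).smul _
  have h2 : Sup S (Gam J σ b Φ ζ) := (sup_wd_left (sup_wg_right (sup_dc h))).smul _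
  have h3 : Sup S (nu J σ Φ ζ b) := (sup_wd_left (sup_wg_right (sup_dc h))).smul _
  have h4 : Sup S (qq J σ ζ b) := (sup_wd_left (sup_N2 h)).smul _
  exact (((h1.mul_left _).add h2).add h3).add (h4.mul_left _)

theorem off_zero {ζ : SA} {x : E4} (h : x ∉ tsupport ζ.1) (b : SA) :
    (mix J σ ζ b).1 x = 0 ∧ (∀ a, (Gam J σ b ζ a).1 x = 0) ∧ (∀ a, (nu J σ ζ a b).1 x = 0) ∧
      (qq J σ ζ b).1 x = 0 := by
  have h0 : mv x (om J ζ) = 0 := mv_om_zero h
  have h3 : ∀ P : Matrix (Fin 4) (Fin 4) ℝ, wd 0 P = 0 := by intro P; simp [wd]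
  have h4 : mv x (H2 J ζ) = 0 := by rw [H2_val, h0]; simp
  have h5 : mv x (N2 J ζ) = 0 := by rw [N2_val, h0]; simp
  have hg : vv x (gr ζ) = 0 := by ext i; exact D_val_zero i h
  refine ⟨?_, fun a => Gam_zero hg b a, fun a => nu_zero hg a b, ?_⟩
  · rw [mix_val, h4, h3, mul_zero]
  · rw [qq_val, h5, h3, mul_zero]

end

variable {J : Matrix (Fin 4) (Fin 4) SA} {σ : ℝ} {S : Set E4} {ρ : SA} (G : Geo J σ S ρ)
include G

theorem Psh.sq {a : SA} (ha : Psh J S a) (h0 : ∀ x ∈ S, 0 ≤ a.1 x) : Psh J S (a * a) := by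
  intro x hx X
  rw [mv_H2_mul G hx, qf_add_left, qf_add_left, qf_smul_left, qf_smul_left, qf_add_left,
    qf_rank (G.sq x hx)]
  have h1 := mul_nonneg (h0 x hx) (ha x hx X)
  positivity

theorem Cls.sq {C0 : ℝ} {a : SA} (ha : Cls J S C0 a) : Cls J S (C0 * C0) (a * a) := by
  refine ⟨Psh.sq G ha.1 (fun x hx => (ha.2 x hx).1), fun x hx => ?_⟩
  have h := ha.2 x hx
  rw [SA.mul_val]
  exact ⟨mul_nonneg h.1 h.1, mul_le_mul h.2 h.2 h.1 (h.1.trans h.2)⟩

theorem Gam_diff_le {x : E4} (hx : x ∈ S) {b : SA} (hb : Psh J S b) (u v : SA) :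
    (Gam J σ b (u - v) (u - v)).1 x ≤ 2 * (Gam J σ b u u).1 x + 2 * (Gam J σ b v v).1 x := by
  have h := Gam_nonneg G hx hb (u + v)
  rw [Gam_add_l, Gam_add_r, Gam_add_r] at h
  rw [Gam_sub_l, Gam_sub_r, Gam_sub_r]
  simp only [SA.add_val, SA.sub_val] at h ⊢
  linarith

variable {C0 : ℝ} {a : ℕ → SA} (A : Seq J S C0 a)
include A

theorem lev2_key (hC0 : 0 ≤ C0) {ζ : SA} (hζ : Cut S ζ) : ∃ Bs, 0 ≤ Bs ∧ ∃ B', 0 ≤ B' ∧
    ∀ m : ℕ, ∀ s > 0, ∀ t > 0, ∃ H : ℕ → ℕ → ℝ, Small H ∧ ∀ l j, l ≤ j →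
      It (ζ * ((a l - a j) * mix J σ (a j) (a j))) + It (ζ * (a j * mix J σ (a j) (a j))) ≤
      It (ζ * (a l * mix J σ (a l) (a l))) + s * Bs
        + 1 / s * It (ζ * g2 (a l + a j - (2 : ℝ) • a m)) + t * (B' * (1 + |sSup ((fun x => nn (a m) x) '' S)|)) + H l j := by
  obtain ⟨ζ', M, hN⟩ := hζ.nest G.cpt
  obtain ⟨C3, hC3, hnu⟩ := exists_nu_bound G
  obtain ⟨C4, hC4, hqq⟩ := exists_qq_bound G
  obtain ⟨C5, hC5, hup⟩ := exists_Gam_upper G
  obtain ⟨C6, hC6, hfine⟩ := exists_nu_fine G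
  obtain ⟨Cz, hCz, hmz⟩ := exists_mix_bound G ζ
  obtain ⟨B, hB0, hB⟩ := B1 G hN.c' C0
  obtain ⟨Bz, hBz0, hBz⟩ := B1 G hζ C0
  obtain ⟨Bg, hBg0, hBg⟩ := B4 G hN.c' (C0 + C0)
  obtain ⟨Bq, hBq0, hBq⟩ := B4 G hζ (C0 + C0 * C0)
  have hs := hζ.sup
  have hs' := hN.c'.sup
  have hM := hN.M0
  have hBs := A.g2_sum hN.c' (fun l => hB _ (A.cls l))
  refine ⟨C6 * (4 * Bq), by positivity,
    (C0 * Bg + (C0 * C3 * (1 + M) + C0 * C4 * (1 + M) / 2 + C0 * C4 / 2) * (4 * B)) + 2 * C3 * Bz,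
    by positivity, ?_⟩
  intro m s hs0 t ht
  set Mm := |sSup ((fun x => nn (a m) x) '' S)| with hMm
  have hMm0 : 0 ≤ Mm := abs_nonneg _
  have hNm : ∀ x ∈ S, nn (a m) x ≤ Mm := by
    intro x hx
    refine le_trans ?_ (le_abs_self _)
    apply le_csSup
    · have hc : Continuous (fun x => nn (a m) x) := Real.continuous_sqrt.comp (SA.cont (g2 (a m)))
      exact (G.cpt.image hc).bddAbove
    · exact ⟨x, hx, rfl⟩
  -- the majorant
  let T1 := C0 * C3 * (1 + M) * t + C0 * C4 * (1 + M) * (t / 2) + C0 * C4 * (t / 2)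
  let T2 := C0 * C3 * (1 + M) / t + C0 * C4 / (2 * t) + C4 * C0
  let T3 := C0 * C4 * (1 + M) * (C0 / (2 * t))
  have hT1 : 0 ≤ T1 := by simp only [T1]; positivity
  have hT2 : 0 ≤ T2 := by simp only [T2]; positivity
  have hT3 : 0 ≤ T3 := by simp only [T3]; positivity
  let V1 : ℕ → ℕ → SA := fun l j => (C0 * Cz + C5 * M / t) • (ζ' * ((a l - a j) * mix J σ (a l + a j) ρ))
  let V2 : ℕ → ℕ → SA := fun l j => (t * C0) • (ζ' * Gam J σ (a l + a j) (a j) (a j))
  let V3 : ℕ → ℕ → SA := fun l j => T1 • (ζ' * g2 (a l + a j))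
  let V4 : ℕ → ℕ → SA := fun l j => T2 • (ζ' * g2 (a l - a j))
  let V5 : ℕ → ℕ → SA := fun l j => T3 • (ζ' * (a l - a j))
  let V6 : ℕ → ℕ → SA := fun l j => (s * C6) • (ζ * Gam J σ (a j * a j) (a l - a j) (a l - a j))
  let V7 : ℕ → ℕ → SA := fun l j => (1 / s) • (ζ * g2 (a l + a j - (2 : ℝ) • a m))
  let V8 : ℕ → ℕ → SA := fun l j => (2 * C3 * Mm * t) • (ζ * g2 (a j))
  let V9 : ℕ → ℕ → SA := fun l j => C4 • (ζ' * ((a l - a j) * g2 (a l + a j)))
  let V10 : ℕ → ℕ → SA := fun l j => (2 * C3 * Mm / t) • (ζ * g2 (a l - a j))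
  have v1 : ∀ l j, Sup S (V1 l j) := fun l j => (hs'.mul_right _).smul _
  have v2 : ∀ l j, Sup S (V2 l j) := fun l j => (hs'.mul_right _).smul _
  have v3 : ∀ l j, Sup S (V3 l j) := fun l j => (hs'.mul_right _).smul _
  have v4 : ∀ l j, Sup S (V4 l j) := fun l j => (hs'.mul_right _).smul _
  have v5 : ∀ l j, Sup S (V5 l j) := fun l j => (hs'.mul_right _).smul _
  have v6 : ∀ l j, Sup S (V6 l j) := fun l j => (hs.mul_right _).smul _
  have v7 : ∀ l j, Sup S (V7 l j) := fun l j => (hs.mul_right _).smul _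
  have v8 : ∀ l j, Sup S (V8 l j) := fun l j => (hs.mul_right _).smul _
  have v9 : ∀ l j, Sup S (V9 l j) := fun l j => (hs'.mul_right _).smul _
  have v10 : ∀ l j, Sup S (V10 l j) := fun l j => (hs.mul_right _).smul _
  let U : ℕ → ℕ → SA := fun l j => V1 l j + V2 l j + V3 l j + V4 l j + V5 l j + V6 l j + V7 l j
    + V8 l j + V9 l j + V10 l j
  have w2 : ∀ l j, Sup S (V1 l j + V2 l j) := fun l j => (v1 l j).add (v2 l j)
  have w3 : ∀ l j, Sup S (V1 l j + V2 l j + V3 l j) := fun l j => (w2 l j).add (v3 l j)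
  have w4 : ∀ l j, Sup S (V1 l j + V2 l j + V3 l j + V4 l j) := fun l j => (w3 l j).add (v4 l j)
  have w5 : ∀ l j, Sup S (V1 l j + V2 l j + V3 l j + V4 l j + V5 l j) :=
    fun l j => (w4 l j).add (v5 l j)
  have w6 : ∀ l j, Sup S (V1 l j + V2 l j + V3 l j + V4 l j + V5 l j + V6 l j) :=
    fun l j => (w5 l j).add (v6 l j)
  have w7 : ∀ l j, Sup S (V1 l j + V2 l j + V3 l j + V4 l j + V5 l j + V6 l j + V7 l j) :=
    fun l j => (w6 l j).add (v7 l j)
  have w8 : ∀ l j, Sup S (V1 l j + V2 l j + V3 l j + V4 l j + V5 l j + V6 l j + V7 l j + V8 l j) :=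
    fun l j => (w7 l j).add (v8 l j)
  have w9 : ∀ l j, Sup S (V1 l j + V2 l j + V3 l j + V4 l j + V5 l j + V6 l j + V7 l j + V8 l j
      + V9 l j) := fun l j => (w8 l j).add (v9 l j)
  have w10 : ∀ l j, Sup S (U l j) := fun l j => (w9 l j).add (v10 l j)
  have hUI : ∀ l j, It (U l j) = It (V1 l j) + It (V2 l j) + It (V3 l j) + It (V4 l j)
      + It (V5 l j) + It (V6 l j) + It (V7 l j) + It (V8 l j) + It (V9 l j) + It (V10 l j) := by
    intro l j
    simp only [U]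
    rw [It_add (w9 l j).cs (v10 l j).cs, It_add (w8 l j).cs (v9 l j).cs,
      It_add (w7 l j).cs (v8 l j).cs, It_add (w6 l j).cs (v7 l j).cs,
      It_add (w5 l j).cs (v6 l j).cs, It_add (w4 l j).cs (v5 l j).cs,
      It_add (w3 l j).cs (v4 l j).cs, It_add (w2 l j).cs (v3 l j).cs, It_add (v1 l j).cs (v2 l j).cs]
  -- pointwise
  have hpt : ∀ l j, l ≤ j → ∀ x ∈ S,
      (ζ * ((a l - a j) * mix J σ (a j) (a j)) + ζ * (a j * mix J σ (a j) (a j))).1 x ≤
      (ζ * (a l * mix J σ (a l) (a l)) + U l j).1 x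
        + (ZZ J σ (ζ * (a l - a j)) (a j) (a l + a j) + ZZ J σ ((a l - a j) * a j) ζ (a l + a j)
          - ZZ J σ (ζ * a j) (a l - a j) (a l + a j)).1 x := by
    intro l j hlj x hx
    have hα := A.alpha hlj hx
    have hv := (A.cls j).2 x hx
    have hw0 := hζ.nn x
    have hwz := hN.le x
    have hz0 : 0 ≤ ζ'.1 x := hw0.trans hwz
    have hg := hN.grad x hx
    rw [← nn_sq] at hg
    have hcpsh := A.psh_sum l j
    have hmc := mix_rho_nonneg G hx hcpsh
    have hcase : ζ'.1 x = 1 ∨ x ∉ tsupport ζ.1 := by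
      by_cases h : x ∈ tsupport ζ.1
      · exact Or.inl (hN.one x h)
      · exact Or.inr h
    have c1 : ζ'.1 x = 1 ∨ (mix J σ ζ (a l + a j)).1 x = 0 :=
      hcase.imp id (fun h => (off_zero h _).1)
    have c2 : ζ'.1 x = 1 ∨ (Gam J σ (a l + a j) ζ (a j)).1 x = 0 :=
      hcase.imp id (fun h => (off_zero h _).2.1 _)
    have c3 : ζ'.1 x = 1 ∨ (nu J σ ζ (a l - a j) (a l + a j)).1 x = 0 :=
      hcase.imp id (fun h => (off_zero h _).2.2.1 _)
    have c4 : ζ'.1 x = 1 ∨ (qq J σ ζ (a l + a j)).1 x = 0 :=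
      hcase.imp id (fun h => (off_zero h _).2.2.2)
    have hmζ := hmz x hx (a l + a j) hcpsh
    rw [mix_comm J σ ρ] at hmζ
    have hΓz := hup x hx (a l + a j) hcpsh ζ
    rw [mix_comm J σ ρ, ← nn_sq] at hΓz
    have hsqpsh : Psh J S (a j * a j) := Psh.sq G (A.cls j).1 (fun x hx => ((A.cls j).2 x hx).1)
    have k1 := q1 hα.1 hv.1 hv.2 hz0 hCz hmc hmζ c1
    have k2 := q2 ht hα.1 hα.2 hz0 hmc hC5 hM (Gam_nonneg G hx hcpsh (a j)) hΓz hg
      (Gam_cs G hx hcpsh ζ (a j) 1 t) c2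
    have k3 := q3 ht hv.1 hv.2 hz0 hC3 hM (nn_nonneg (a l - a j) x) (nn_nonneg (a l + a j) x)
      (hnu x hx ζ (a l - a j) (a l + a j)) hg c3
    have k4 := q4 ht hα.1 hα.2 hv.1 hv.2 hz0 hC4 hM (nn_nonneg (a l + a j) x)
      (hqq x hx ζ (a l + a j)) hg c4
    have k5 := q5 ht hs0 hw0 hC3 hC6 (Gam_nonneg G hx hsqpsh (a l - a j))
      (g2_nonneg (a l + a j - (2 : ℝ) • a m) x) (nn_nonneg (a l - a j) x) (nn_nonneg (a j) x)
      (hNm x hx) hMm0
      (hfine x hx (a l - a j) (a j) (a l + a j - (2 : ℝ) • a m) (A.cls j).1 hv.1)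
      (hnu x hx (a l - a j) (a j) (a m))
    have k6 := q6 ht hw0 hwz hv.1 hv.2 hC4 (nn_nonneg (a l - a j) x) (nn_nonneg (a l + a j) x)
      (hqq x hx (a l - a j) (a l + a j))
    have hBP : 4 * nn (a j) x ^ 2 ≤ 2 * nn (a l + a j) x ^ 2 + 2 * nn (a l - a j) x ^ 2 := by
      have e : a l + a j - (a l - a j) = (2 : ℝ) • a j := by rw [two_smul]; abel
      have h1 := g2_sub_le (a l + a j) (a l - a j) x
      rw [e] at h1
      have e2 : (g2 ((2 : ℝ) • a j)).1 x = 4 * (g2 (a j)).1 x := by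
        simp only [g2, D_smul, SA.add_val, SA.mul_val, SA.smul_val]; ring
      rw [e2] at h1
      rw [nn_sq, nn_sq, nn_sq]
      exact h1
    have k7 := q7 hw0 hwz hα.1 hα.2 hC4 hBP (hqq x hx (a j) (a l + a j))
    -- symmetries
    have y1 := Gam_symm G hx (a l + a j) (a j) (a l - a j)
    have y2 := Gam_symm G hx (a l + a j) (a j) ζ
    have y3 := Gam_symm G hx (a l + a j) (a l - a j) ζ
    have y4 := nu_antisymm G hx (a j) (a l - a j) (a l + a j)
    have y5 := nu_antisymm G hx (a j) ζ (a l + a j)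
    have y6 := nu_antisymm G hx (a l - a j) ζ (a l + a j)
    -- the splitting of the cubic term
    have y7 : (nu J σ (a l - a j) (a j) (a l + a j)).1 x =
        (nu J σ (a l - a j) (a j) (a l + a j - (2 : ℝ) • a m)).1 x
          + 2 * (nu J σ (a l - a j) (a j) (a m)).1 x := by
      have e : a l + a j = (a l + a j - (2 : ℝ) • a m) + (2 : ℝ) • a m := by abel
      conv_lhs => rw [e, nu_add_b, nu_smul_b]
      rfl
    rw [← y7] at k5
    -- expansions of mix
    have y8 : (mix J σ (a l - a j) (a l + a j)).1 x =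
        (mix J σ (a l) (a l)).1 x - (mix J σ (a j) (a j)).1 x := by
      rw [mix_sub_left, mix_add_right, mix_add_right, mix_comm J σ (a j) (a l)]
      simp only [SA.sub_val, SA.add_val]; ring
    have y9 : (mix J σ (a j) (a l + a j)).1 x =
        (mix J σ (a l) (a j)).1 x + (mix J σ (a j) (a j)).1 x := by
      rw [mix_add_right, mix_comm J σ (a j) (a l)]; rfl
    have y10 := mix_nonneg G hx (A.cls l).1 (A.cls l).1
    have y11 := mix_nonneg G hx (A.cls l).1 (A.cls j).1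
    have y12 : 0 ≤ ζ.1 x * (a l - a j).1 x * (mix J σ (a l) (a l)).1 x :=
      mul_nonneg (mul_nonneg hw0 hα.1) y10
    have y13 : 0 ≤ ζ.1 x * (a l - a j).1 x * (mix J σ (a l) (a j)).1 x :=
      mul_nonneg (mul_nonneg hw0 hα.1) y11
    have hal : (a l - a j).1 x = (a l).1 x - (a j).1 x := rfl
    simp only [U, V1, V2, V3, V4, V5, V6, V7, V8, V9, V10, T1, T2, T3, ZZ,
      SA.add_val (_ • _), SA.add_val (_ + _), SA.add_val (ζ * _), SA.add_val (_ * _),
      SA.sub_val (_ + _),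
      SA.smul_val, SA.mul_val, Gam_mul_l, nu_mul_l]
    rw [y8, y9, y1, y2, y3, y4, y5, y6]
    rw [nn_sq, nn_sq] at k3
    rw [nn_sq] at k4
    rw [nn_sq, nn_sq] at k5
    rw [nn_sq, nn_sq] at k6
    rw [nn_sq, nn_sq] at k7
    generalize (a l).1 x = al at *
    generalize (a j).1 x = v at *
    generalize (a l - a j).1 x = α at *
    subst hal
    generalize ζ.1 x = w at *
    generalize ζ'.1 x = z at *
    generalize (mix J σ (a l) (a l)).1 x = mll at *
    generalize (mix J σ (a j) (a j)).1 x = mjj at *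
    generalize (mix J σ (a l) (a j)).1 x = mlj at *
    generalize (mix J σ (a l + a j) ρ).1 x = mc at *
    generalize (mix J σ ζ (a l + a j)).1 x = mz at *
    generalize (Gam J σ (a l + a j) ζ (a j)).1 x = G1 at *
    generalize (Gam J σ (a l + a j) ζ (a l - a j)).1 x = G2 at *
    generalize (Gam J σ (a l + a j) (a l - a j) (a j)).1 x = G3 at *
    generalize (Gam J σ (a l + a j) (a j) (a j)).1 x = G4 at *
    generalize (Gam J σ (a j * a j) (a l - a j) (a l - a j)).1 x = G5 at *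
    generalize (nu J σ ζ (a j) (a l + a j)).1 x = n1 at *
    generalize (nu J σ ζ (a l - a j) (a l + a j)).1 x = n2 at *
    generalize (nu J σ (a l - a j) (a j) (a l + a j)).1 x = n3 at *
    generalize (qq J σ ζ (a l + a j)).1 x = r1 at *
    generalize (qq J σ (a l - a j) (a l + a j)).1 x = r2 at *
    generalize (qq J σ (a j) (a l + a j)).1 x = r3 at *
    generalize (g2 (a l + a j)).1 x = g1 at *
    generalize (g2 (a l - a j)).1 x = g3 at *
    generalize (g2 (a j)).1 x = g4 at *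
    generalize (g2 (a l + a j - (2 : ℝ) • a m)).1 x = g5 at *
    clear * - k1 k2 k3 k4 k5 k6 k7 y12 y13
    linarith
  have hZ0 : ∀ l j, It (ZZ J σ (ζ * (a l - a j)) (a j) (a l + a j) + ZZ J σ ((a l - a j) * a j) ζ (a l + a j)
          - ZZ J σ (ζ * a j) (a l - a j) (a l + a j)) = 0 := by
    intro l j
    rw [It_sub ((Sup.ZZ (hs.mul_right _) _ _).add (sup_ZZ_r hs _ _)).cs (Sup.ZZ (hs.mul_right _) _ _).cs,
      It_add (Sup.ZZ (hs.mul_right _) _ _).cs (sup_ZZ_r hs _ _).cs,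
      It_ZZ G _ _ _ (Or.inl ⟨(hs.mul_right _).cs, (hs.mul_right _).sub⟩),
      It_ZZ G _ _ _ (Or.inr ⟨hs.cs, hs.sub⟩),
      It_ZZ G _ _ _ (Or.inl ⟨(hs.mul_right _).cs, (hs.mul_right _).sub⟩)]
    simp
  have hineq : ∀ l j, l ≤ j → It (ζ * ((a l - a j) * mix J σ (a j) (a j))) +
      It (ζ * (a j * mix J σ (a j) (a j))) ≤ It (ζ * (a l * mix J σ (a l) (a l))) + It (U l j) := by
    intro l j hlj
    rw [← It_add (hs.cs.mul_right _) (hs.cs.mul_right _), ← It_add (hs.cs.mul_right _) (w10 l j).cs]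
    exact It_le_add ((hs.mul_right _).add (hs.mul_right _)) ((hs.mul_right _).add (w10 l j))
      (((Sup.ZZ (hs.mul_right _) _ _).add (sup_ZZ_r hs _ _)).sub' (Sup.ZZ (hs.mul_right _) _ _))
      (hZ0 l j) (hpt l j hlj)
  have hcls : ∀ l, Cls J S (C0 + C0) (a l) := fun l => (A.cls l).mono (by linarith)
  have hcls' : ∀ l, Cls J S (C0 + C0 * C0) (a l) := fun l =>
    (A.cls l).mono (by nlinarith)
  have hclsq : ∀ l, Cls J S (C0 + C0 * C0) (a l * a l) := fun l =>
    (Cls.sq G (A.cls l)).mono (by linarith)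
  refine ⟨fun l j => (C0 * Cz + C5 * M / t) * It (ζ' * ((a l - a j) * mix J σ (a l + a j) ρ))
    + (T2 * It (ζ' * g2 (a l - a j)) + (T3 * It (ζ' * (a l - a j))
    + (C4 * It (ζ' * ((a l - a j) * g2 (a l + a j)))
    + (2 * C3 * Mm / t) * It (ζ * g2 (a l - a j))))), ?_, ?_⟩
  · exact ((L1a G A hN.c').smul (by positivity)).add (((L1b G A hC0 hN.c').smul hT2).add
      (((L0 A hN.c').smul hT3).add (((L1c G A hC0 hN.c').smul hC4).add
      ((L1b G A hC0 hζ).smul (by positivity)))))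
  · intro l j hlj
    have h0 := hineq l j hlj
    rw [hUI] at h0
    have i1 : It (V1 l j) = (C0 * Cz + C5 * M / t) * It (ζ' * ((a l - a j) * mix J σ (a l + a j) ρ)) :=
      It_smul _ _
    have i2 : It (V2 l j) ≤ t * C0 * Bg := by
      have e : It (V2 l j) = (t * C0) * It (ζ' * Gam J σ (a l + a j) (a j) (a j)) := It_smul _ _
      rw [e]
      exact mul_le_mul_of_nonneg_left (hBg _ _ (hcls j) ((A.cls l).add (A.cls j))) (by positivity)
    have i3 : It (V3 l j) ≤ T1 * (4 * B) := by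
      have e : It (V3 l j) = T1 * It (ζ' * g2 (a l + a j)) := It_smul _ _
      rw [e]
      exact mul_le_mul_of_nonneg_left (hBs l j) hT1
    have i4 : It (V4 l j) = T2 * It (ζ' * g2 (a l - a j)) := It_smul _ _
    have i5 : It (V5 l j) = T3 * It (ζ' * (a l - a j)) := It_smul _ _
    have i6 : It (V6 l j) ≤ s * C6 * (4 * Bq) := by
      have e : It (V6 l j) = (s * C6) * It (ζ * Gam J σ (a j * a j) (a l - a j) (a l - a j)) :=
        It_smul _ _
      rw [e]
      apply mul_le_mul_of_nonneg_left _ (by positivity)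
      have h1 : It (ζ * Gam J σ (a j * a j) (a l - a j) (a l - a j)) ≤
          It ((2 : ℝ) • (ζ * Gam J σ (a j * a j) (a l) (a l))
            + (2 : ℝ) • (ζ * Gam J σ (a j * a j) (a j) (a j))) := by
        apply It_le_on (hs.mul_right _) (((hs.mul_right _).smul _).add ((hs.mul_right _).smul _))
        intro x hx
        simp only [SA.mul_val, SA.add_val, SA.smul_val]
        have := mul_le_mul_of_nonneg_left (Gam_diff_le G hx (hclsq j).1 (a l) (a j)) (hζ.nn x)
        linarith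
      rw [It_add ((hs.cs.mul_right _).smul _) ((hs.cs.mul_right _).smul _), It_smul, It_smul] at h1
      have h2 := hBq _ _ (hcls' l) (hclsq j)
      have h3 := hBq _ _ (hcls' j) (hclsq j)
      linarith
    have i7 : It (V7 l j) = 1 / s * It (ζ * g2 (a l + a j - (2 : ℝ) • a m)) := It_smul _ _
    have i8 : It (V8 l j) ≤ 2 * C3 * Mm * t * Bz := by
      have e : It (V8 l j) = (2 * C3 * Mm * t) * It (ζ * g2 (a j)) := It_smul _ _
      rw [e]
      exact mul_le_mul_of_nonneg_left (hBz _ (A.cls j)) (by positivity)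
    have i9 : It (V9 l j) = C4 * It (ζ' * ((a l - a j) * g2 (a l + a j))) := It_smul _ _
    have i10 : It (V10 l j) = (2 * C3 * Mm / t) * It (ζ * g2 (a l - a j)) := It_smul _ _
    have e1 : t * C0 * Bg + T1 * (4 * B) + 2 * C3 * Mm * t * Bz ≤
        t * (((C0 * Bg + (C0 * C3 * (1 + M) + C0 * C4 * (1 + M) / 2 + C0 * C4 / 2) * (4 * B))
          + 2 * C3 * Bz) * (1 + Mm)) := by
      have p1 : 0 ≤ t * (C0 * Bg + (C0 * C3 * (1 + M) + C0 * C4 * (1 + M) / 2 + C0 * C4 / 2) * (4 * B)) * Mm := by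
        positivity
      have p2 : 0 ≤ t * (2 * C3 * Bz) := by positivity
      simp only [T1]
      linarith
    linarith

theorem L2 (hC0 : 0 ≤ C0) {ζ : SA} (hζ : Cut S ζ) :
    Small (fun l j => It (ζ * ((a l - a j) * mix J σ (a j) (a j)))) := by
  obtain ⟨Bs, hBs0, B', hB'0, hkey⟩ := lev2_key G A hC0 hζ
  have hs := hζ.sup
  set F : ℕ → ℕ → ℝ := fun l j => It (ζ * ((a l - a j) * mix J σ (a j) (a j))) with hF
  set E : ℕ → ℝ := fun l => It (ζ * (a l * mix J σ (a l) (a l))) with hE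
  have hF0 : ∀ l j, l ≤ j → 0 ≤ F l j := by
    intro l j hlj
    apply It_nonneg_on (hs.mul_right _)
    intro x hx
    simp only [SA.mul_val]
    exact mul_nonneg (hζ.nn x) (mul_nonneg (A.alpha hlj hx).1 (mix_nonneg G hx (A.cls j).1 (A.cls j).1))
  have hE0 : ∀ l, 0 ≤ E l := by
    intro l
    apply It_nonneg_on (hs.mul_right _)
    intro x hx
    simp only [SA.mul_val]
    exact mul_nonneg (hζ.nn x) (mul_nonneg ((A.cls l).2 x hx).1
      (mix_nonneg G hx (A.cls l).1 (A.cls l).1))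
  have s1 : Small (fun l j => F l j + E j - E l) := by
    apply small_of_delta
    intro δ hδ
    set s := δ / (4 * (Bs + 1)) with hsdef
    have hs0 : 0 < s := by positivity
    obtain ⟨m, hm⟩ := L1b G A hC0 hζ (s * δ / 16) (by positivity)
    set X := B' * (1 + |sSup ((fun x => nn (a m) x) '' S)|) with hX
    have hX0 : 0 ≤ X := by positivity
    obtain ⟨H, hH, hineq⟩ := hkey m s hs0 (δ / (4 * (X + 1))) (by positivity)
    refine ⟨m, H, hH, ?_⟩
    intro l j hml hlj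
    have h1 := hineq l j hlj
    have h2 : s * Bs ≤ δ / 4 := by
      rw [hsdef, div_mul_eq_mul_div, div_le_div_iff₀ (by positivity) (by norm_num)]
      nlinarith
    have h3 : δ / (4 * (X + 1)) * X ≤ δ / 4 := by
      rw [div_mul_eq_mul_div, div_le_div_iff₀ (by positivity) (by norm_num)]
      nlinarith
    have h4 : It (ζ * g2 (a l + a j - (2 : ℝ) • a m)) ≤ s * δ / 4 := by
      have h5 : It (ζ * g2 (a l + a j - (2 : ℝ) • a m)) ≤
          It ((2 : ℝ) • (ζ * g2 (a m - a l)) + (2 : ℝ) • (ζ * g2 (a m - a j))) := by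
        apply It_le_on (hs.mul_right _) (((hs.mul_right _).smul _).add ((hs.mul_right _).smul _))
        intro x hx
        simp only [SA.mul_val, SA.add_val, SA.smul_val]
        have e : g2 (a l + a j - (2 : ℝ) • a m) = g2 ((a m - a l) + (a m - a j)) := by
          have e1 : a l + a j - (2 : ℝ) • a m = -((a m - a l) + (a m - a j)) := by
            rw [two_smul]; abel
          rw [e1, g2_neg]
        rw [e]
        have := mul_le_mul_of_nonneg_left (g2_add_le (a m - a l) (a m - a j) x) (hζ.nn x)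
        linarith
      rw [It_add ((hs.cs.mul_right _).smul _) ((hs.cs.mul_right _).smul _), It_smul, It_smul] at h5
      have h6 := hm m le_rfl l hml
      have h7 := hm m le_rfl j (hml.trans hlj)
      linarith
    have h5 : 1 / s * It (ζ * g2 (a l + a j - (2 : ℝ) • a m)) ≤ δ / 4 := by
      calc 1 / s * It (ζ * g2 (a l + a j - (2 : ℝ) • a m)) ≤ 1 / s * (s * δ / 4) :=
            mul_le_mul_of_nonneg_left h4 (by positivity)
        _ = δ / 4 := by field_simp
    simp only [hF, hE]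
    linarith
  have s2 : Small (fun l j => E l - E j) := by
    have h := small_seq (Q := fun l => -E l) (s1.mono (F := fun l j => E j - E l) (fun l j hlj => by
      have := hF0 l j hlj; linarith)) (fun l j _ => by linarith) (B := 0)
      (fun l => by have := hE0 l; linarith)
    exact h.mono (fun l j _ => by linarith)
  exact (s1.add s2).mono (fun l j _ => by linarith)

end Pool.Agent.Y264
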