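import Pool.Agent.Y264.Main4

/-! Tools for the localisation. -/

namespace Pool.Agent.Y264
open Matrix MeasureTheory Set Filter Topology
open scoped ContDiff

theorem dini {T : Set E4} (hT : IsCompact T) {f : ℕ → E4 → ℝ} (hf : ∀ i, Continuous (f i))
    (hd : ∀ l j, l ≤ j → ∀ x ∈ T, f j x ≤ f l x) {F : E4 → ℝ}
    (hF : ∀ x ∈ T, Tendsto (fun i => f i x) atTop (𝓝 (F x))) {s : ℝ} (hs : ∀ x ∈ T, F x < s) :
    ∃ I, ∀ i ≥ I, ∀ x ∈ T, f i x < s := by
  have hc := hT.elim_directed_cover (fun i => ⋃ l ∈ Finset.range (i + 1), {x | f l x < s})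
    (fun i => isOpen_biUnion fun l _ => isOpen_lt (hf l) continuous_const) ?_ ?_
  · obtain ⟨I, hI⟩ := hc
    refine ⟨I, fun i hi x hx => ?_⟩
    have h1 := hI hx
    simp only [mem_iUnion] at h1
    obtain ⟨l, hl, h2⟩ := h1
    rw [Finset.mem_range] at hl
    exact (hd l i (by omega) x hx).trans_lt h2
  · intro x hx
    have h1 : ∀ᶠ i in atTop, f i x < s := (hF x hx).eventually_lt_const (hs x hx)
    obtain ⟨i, hi⟩ := h1.exists
    rw [mem_iUnion]
    refine ⟨i, ?_⟩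
    rw [mem_iUnion₂]
    exact ⟨i, Finset.self_mem_range_succ i, hi⟩
  · intro i j
    refine ⟨max i j, ?_, ?_⟩
    · apply biUnion_subset_biUnion_left
      intro l hl
      have := Finset.mem_range.mp hl
      exact Finset.mem_range.mpr (by omega)
    · apply biUnion_subset_biUnion_left
      intro l hl
      have := Finset.mem_range.mp hl
      exact Finset.mem_range.mpr (by omega)

theorem exists_reindex (I : ℕ → ℕ) : ∃ φ : ℕ → ℕ, Monotone φ ∧ (∀ j, I j ≤ φ j) ∧ ∀ j, j ≤ φ j := by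
  refine ⟨fun j => (Finset.range (j + 1)).sup I + j, ?_, ?_, ?_⟩
  · intro i j hij
    apply add_le_add _ hij
    exact Finset.sup_mono (Finset.range_mono (by omega))
  · intro j
    exact (Finset.le_sup (f := I) (Finset.self_mem_range_succ j)).trans (Nat.le_add_right _ _)
  · intro j; exact Nat.le_add_left _ _

variable {J : Matrix (Fin 4) (Fin 4) SA} {σ : ℝ} {S : Set E4} {ρ : SA}

theorem Geo.sub (G : Geo J σ S ρ) {S' : Set E4} (hc : IsCompact S') (h : S' ⊆ S) : Geo J σ S' ρ :=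
  ⟨hc, fun x hx => G.sq x (h hx), fun x hx => G.ori x (h hx), fun x hx => G.sps x (h hx)⟩

variable (G : Geo J σ S ρ)
include G

theorem exists_dom (φ : SA) {t : ℝ} (ht : 0 < t) : ∃ d : ℝ, 0 < d ∧ ∀ δ : ℝ, 0 ≤ δ → δ ≤ d →
    Psh J S (t • ρ + δ • φ) := by
  obtain ⟨c, hc, h⟩ := exists_c_rho G
  obtain ⟨A, hA0, hA⟩ := bound_entries G.cpt J
  obtain ⟨B, hB0, hB⟩ := bound_entries G.cpt (H2 J φ)
  have hq : ∀ x ∈ S, ∀ X : Fin 4 → ℝ, |qf (mv x J) (mv x (H2 J φ)) X| ≤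
      (16 * B * A) * (X ⬝ᵥ X) := by
    intro x hx X
    have h1 := dot_sq_le X (mv x (H2 J φ) *ᵥ (mv x J *ᵥ X))
    have h2 := mulVec_sq_le (hB x hx) (mv x J *ᵥ X)
    have h3 := mulVec_sq_le (hA x hx) X
    have h0 := dot_self_nonneg X
    apply abs_le_of_sq_le_sq _ (by positivity)
    unfold qf
    calc (X ⬝ᵥ (mv x (H2 J φ) *ᵥ (mv x J *ᵥ X))) ^ 2 ≤ _ := h1
      _ ≤ (X ⬝ᵥ X) * (16 * B ^ 2 * (16 * A ^ 2 * (X ⬝ᵥ X))) := by
          apply mul_le_mul_of_nonneg_left _ h0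
          exact h2.trans (mul_le_mul_of_nonneg_left h3 (by positivity))
      _ = ((16 * B * A) * (X ⬝ᵥ X)) ^ 2 := by ring
  refine ⟨t * c / (16 * B * A + 1), by positivity, ?_⟩
  intro δ hδ0 hδ x hx X
  rw [H2_add, H2_smul, H2_smul, mv_add, mv_smul, mv_smul, qf_add_left, qf_smul_left, qf_smul_left]
  have h1 := h x hx X
  have h2 := (abs_le.mp (hq x hx X)).1
  have h0 := dot_self_nonneg X
  rw [le_div_iff₀ (by positivity)] at hδ
  have h3 := mul_le_mul_of_nonneg_left h1 ht.le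
  have h4 := mul_le_mul_of_nonneg_left h2 hδ0
  have h5 : δ * (16 * B * A) * (X ⬝ᵥ X) ≤ t * c * (X ⬝ᵥ X) := by
    apply mul_le_mul_of_nonneg_right _ h0
    nlinarith
  nlinarith

end Pool.Agent.Y264
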