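import Pool.Agent.Y264.Sub

/-! The local theorem: strict decrease near each point. -/

namespace Pool.Agent.Y264
open Matrix MeasureTheory Set Filter Topology
open scoped ContDiff

variable {J : Matrix (Fin 4) (Fin 4) SA} {σ : ℝ} {ρ : SA}

/-- The comparison of Monge-Ampere masses in the limit. -/
def MAle (J : Matrix (Fin 4) (Fin 4) SA) (σ : ℝ) (S : Set E4) (u v : ℕ → SA) : Prop :=
  ∀ Φ : SA, (∀ x, 0 ≤ Φ.1 x) → CS Φ → tsupport Φ.1 ⊆ interior S → ∃ A B : ℝ, B ≤ A ∧
    Tendsto (fun k => It (Φ * mix J σ (u k) (u k))) atTop (𝓝 A) ∧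
    Tendsto (fun k => It (Φ * mix J σ (v k) (v k))) atTop (𝓝 B)

theorem Seq.comp {S : Set E4} {C0 : ℝ} {a : ℕ → SA} (h : Seq J S C0 a) {φ : ℕ → ℕ} (hφ : Monotone φ) :
    Seq J S C0 (fun k => a (φ k)) :=
  ⟨fun l => h.cls _, fun l j hlj x hx => h.dec _ _ (hφ hlj) x hx⟩

theorem Seq.lim {S : Set E4} {C0 : ℝ} {a : ℕ → SA} (h : Seq J S C0 a) {U : E4 → ℝ}
    (hU : ∀ x ∈ S, Tendsto (fun k => (a k).1 x) atTop (𝓝 (U x))) {x : E4} (hx : x ∈ S) :
    0 ≤ U x ∧ U x ≤ C0 :=
  ⟨ge_of_tendsto (hU x hx) (Eventually.of_forall fun k => ((h.cls k).2 x hx).1),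
    le_of_tendsto (hU x hx) (Eventually.of_forall fun k => ((h.cls k).2 x hx).2)⟩

theorem Seq.lim_le {S : Set E4} {C0 : ℝ} {a : ℕ → SA} (h : Seq J S C0 a) {U : E4 → ℝ}
    (hU : ∀ x ∈ S, Tendsto (fun k => (a k).1 x) atTop (𝓝 (U x))) {x : E4} (hx : x ∈ S) (k : ℕ) :
    U x ≤ (a k).1 x :=
  le_of_tendsto (hU x hx) (eventually_atTop.mpr ⟨k, fun l hl => h.dec k l hl x hx⟩)

theorem local_thm {z0 : E4} {R : ℝ} (hR : 0 < R) (G : Geo J σ (Metric.closedBall z0 R) ρ)
    {C0 : ℝ} {u v : ℕ → SA} {U V : E4 → ℝ} (hC0 : 0 ≤ C0)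
    (hu : Seq J (Metric.closedBall z0 R) C0 u) (hv : Seq J (Metric.closedBall z0 R) C0 v)
    (hU : ∀ x ∈ Metric.closedBall z0 R, Tendsto (fun k => (u k).1 x) atTop (𝓝 (U x)))
    (hV : ∀ x ∈ Metric.closedBall z0 R, Tendsto (fun k => (v k).1 x) atTop (𝓝 (V x)))
    (hMA : MAle J σ (Metric.closedBall z0 R) u v)
    {ε : ℝ} (hε : 0 < ε) (hε1 : 2 * ε * (2 * C0 + 1) ≤ 1) {M : ℝ}
    (hM : ∀ x ∈ Metric.closedBall z0 R, U x + ε * (ρ.1 x + (U x + V x + 1) * (U x + V x + 1)) - V x ≤ M) :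
    ∃ δ, 0 < δ ∧ ∀ x ∈ Metric.closedBall z0 (R / 2),
      U x + ε * (ρ.1 x + (U x + V x + 1) * (U x + V x + 1)) - V x ≤ M - δ := by
  set S := Metric.closedBall z0 R with hS
  -- the bump
  have hK1 : Metric.closedBall z0 (R / 2) ⊆ interior (Metric.closedBall z0 (3 * R / 4)) := by
    refine Subset.trans ?_ Metric.ball_subset_interior_closedBall
    exact Metric.closedBall_subset_ball (by linarith)
  obtain ⟨κ, hκc, hκ1⟩ := exists_cut (isCompact_closedBall z0 (3 * R / 4)) (isCompact_closedBall z0 (R / 2)) hK1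
  have hK2 : Metric.closedBall z0 (3 * R / 4) ⊆ interior S := by
    refine Subset.trans ?_ Metric.ball_subset_interior_closedBall
    exact Metric.closedBall_subset_ball (by linarith)
  obtain ⟨ζ, hζ, hζ1⟩ := exists_cut (isCompact_closedBall z0 R) (isCompact_closedBall z0 (3 * R / 4)) hK2
  obtain ⟨δ, hδ, hdom⟩ := exists_dom G κ (t := ε / 2) (by positivity)
  have hκpsh := hdom δ hδ.le le_rfl
  obtain ⟨r0, hr0, hae⟩ := ae_le G κ (C0 := C0) hε hδ.le hC0 hκpsh
  -- values of the bump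
  have hκball : ∀ x ∈ Metric.closedBall z0 (R / 2), κ.1 x = 1 := fun x hx => hκ1.self_of_nhdsSet x hx
  have hκout : ∀ x, 3 * R / 4 ≤ dist x z0 → κ.1 x = 0 := by
    intro x hx
    apply val_zero
    intro h
    have h1 := hκc.sub h
    rw [interior_closedBall _ (by positivity)] at h1
    exact absurd (Metric.mem_ball.mp h1) (not_lt.mpr hx)
  -- the shell
  set T : Set E4 := S ∩ {x | 3 * R / 4 ≤ dist x z0} with hT
  have hTc : IsCompact T := (isCompact_closedBall z0 R).inter_right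
    (isClosed_le continuous_const (continuous_id.dist continuous_const))
  have hgr : ∀ x, vv x (gr ζ) ≠ 0 → 3 * R / 4 ≤ dist x z0 := by
    intro x hx
    by_contra hcon
    push Not at hcon
    apply hx
    have h1 : x ∈ Metric.closedBall z0 (3 * R / 4) := Metric.mem_closedBall.mpr hcon.le
    have h2 : ∀ᶠ y in 𝓝 x, ζ.1 y = 1 := hζ1.filter_mono (nhds_le_nhdsSet h1)
    have h3 : ζ.1 =ᶠ[𝓝 x] fun _ => (1 : ℝ) := h2
    ext i
    change fderiv ℝ ζ.1 x (bv i) = 0
    rw [h3.fderiv_eq]; simp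
  -- perturbed function
  have hwf : ∀ (s : ℝ) (x : E4), wf ρ.1 κ.1 ε δ s U V x
      = U x + ε * (ρ.1 x + (U x + V x + 1) * (U x + V x + 1)) - V x + δ * κ.1 x - s := by
    intro s x; simp only [wf]; ring
  -- main claim
  have claim : ∀ x ∈ S, wf ρ.1 κ.1 ε δ 0 U V x ≤ M := by
    by_contra hcon
    push Not at hcon
    obtain ⟨x0, hx0, hx0M⟩ := hcon
    -- supremum
    have hbdd : ∀ x ∈ S, wf ρ.1 κ.1 ε δ 0 U V x ≤ M + δ := by
      intro x hx
      rw [hwf, sub_zero]
      have h1 := hM x hx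
      have h2 : δ * κ.1 x ≤ δ * 1 := mul_le_mul_of_nonneg_left (hκc.le x) hδ.le
      linarith
    set M' := sSup (wf ρ.1 κ.1 ε δ 0 U V '' S) with hM'
    have hBA : BddAbove (wf ρ.1 κ.1 ε δ 0 U V '' S) := ⟨M + δ, by
      rintro _ ⟨x, hx, rfl⟩; exact hbdd x hx⟩
    have hle : ∀ x ∈ S, wf ρ.1 κ.1 ε δ 0 U V x ≤ M' := fun x hx => le_csSup hBA ⟨x, hx, rfl⟩
    have hMM' : M < M' := hx0M.trans_le (hle x0 hx0)
    obtain ⟨s, hs1, hs2, hs3⟩ : ∃ s, M < s ∧ s < M' ∧ M' < s + r0 := by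
      refine ⟨max ((M + M') / 2) (M' - r0 / 2), ?_, ?_, ?_⟩
      · exact lt_of_lt_of_le (by linarith) (le_max_left _ _)
      · exact max_lt (by linarith) (by linarith)
      · have := le_max_right ((M + M') / 2) (M' - r0 / 2)
        linarith
    -- reindexing
    have hWcont : ∀ i j, Continuous fun x => (WW ρ κ ε δ 0 (u i) (v j)).1 x := fun i j => SA.cont _
    have hWdec : ∀ j l i, l ≤ i → ∀ x ∈ S, (WW ρ κ ε δ 0 (u i) (v j)).1 x ≤ (WW ρ κ ε δ 0 (u l) (v j)).1 x := by
      intro j l i hli x hx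
      have h1 := hu.dec l i hli x hx
      have h2 := (hu.cls i).2 x hx
      have h3 := (hv.cls j).2 x hx
      rw [WW_val, WW_val]
      simp only [wf]
      have h4 : ((u i).1 x + (v j).1 x + 1) * ((u i).1 x + (v j).1 x + 1) ≤
          ((u l).1 x + (v j).1 x + 1) * ((u l).1 x + (v j).1 x + 1) := by
        apply mul_self_le_mul_self <;> linarith
      have h5 := mul_le_mul_of_nonneg_left h4 hε.le
      linarith
    have hWlim : ∀ j, ∀ x ∈ S, Tendsto (fun i => (WW ρ κ ε δ 0 (u i) (v j)).1 x) atTop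
        (𝓝 (wf ρ.1 κ.1 ε δ 0 U (v j).1 x)) := fun j x hx =>
      wf_cont (hU x hx) (tendsto_const_nhds (x := (v j).1 x)) ε δ 0 (ρ.1 x) (κ.1 x)
    have hWle : ∀ j, ∀ x ∈ S, wf ρ.1 κ.1 ε δ 0 U (v j).1 x ≤ wf ρ.1 κ.1 ε δ 0 U V x := by
      intro j x hx
      have h1 := hv.lim_le hV hx j
      have h2 := (hv.cls j).2 x hx
      have h3 := hv.lim hV hx
      have h4 := hu.lim hU hx
      simp only [wf]
      have h5 : ((v j).1 x - V x) * (2 * ε * (2 * C0 + 1)) ≤ ((v j).1 x - V x) * 1 :=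
        mul_le_mul_of_nonneg_left hε1 (by linarith)
      have h6 : (U x + (v j).1 x + 1) * (U x + (v j).1 x + 1) - (U x + V x + 1) * (U x + V x + 1) ≤
          ((v j).1 x - V x) * (2 * (2 * C0 + 1)) := by
        have : (U x + (v j).1 x + 1) * (U x + (v j).1 x + 1) - (U x + V x + 1) * (U x + V x + 1) =
            ((v j).1 x - V x) * (2 * U x + (v j).1 x + V x + 2) := by ring
        rw [this]
        apply mul_le_mul_of_nonneg_left _ (by linarith)
        linarith
      have h7 := mul_le_mul_of_nonneg_left h6 hε.le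
      linarith
    have hI : ∀ j, ∃ I, ∀ i ≥ I, (∀ x ∈ T, (WW ρ κ ε δ 0 (u i) (v j)).1 x < s) ∧
        ∀ x ∈ S, (WW ρ κ ε δ 0 (u i) (v j)).1 x < s + r0 := by
      intro j
      obtain ⟨I1, hI1⟩ := dini hTc (hWcont · j) (fun l i hli x hx => hWdec j l i hli x hx.1)
        (fun x hx => hWlim j x hx.1) (s := s) (by
          intro x hx
          have h1 := hWle j x hx.1
          have h2 := hM x hx.1
          rw [hwf 0 x, hκout x hx.2] at h1
          linarith)
      obtain ⟨I2, hI2⟩ := dini (isCompact_closedBall z0 R) (hWcont · j) (hWdec j)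
        (hWlim j) (s := s + r0) (by
          intro x hx
          have h1 := hWle j x hx
          have h2 := hle x hx
          linarith)
      exact ⟨max I1 I2, fun i hi => ⟨hI1 i ((le_max_left _ _).trans hi), hI2 i ((le_max_right _ _).trans hi)⟩⟩
    choose I hI using hI
    obtain ⟨φ, hφm, hφI, hφj⟩ := exists_reindex I
    have hφt : Tendsto φ atTop atTop := tendsto_atTop_mono hφj tendsto_id
    have hu' : Seq J S C0 (fun k => u (φ k)) := hu.comp hφm
    have hU' : ∀ x ∈ S, Tendsto (fun k => (u (φ k)).1 x) atTop (𝓝 (U x)) := fun x hx =>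
      (hU x hx).comp hφt
    have hMA' : ∀ Φ : SA, (∀ x, 0 ≤ Φ.1 x) → CS Φ → tsupport Φ.1 ⊆ interior S → ∀ η > 0, ∃ N, ∀ k ≥ N,
        -η ≤ It (Φ * (mix J σ (u (φ k)) (u (φ k)) - mix J σ (v k) (v k))) := by
      intro Φ h0 hc hsub η hη
      obtain ⟨A, B, hBA, hA, hB⟩ := hMA Φ h0 hc hsub
      have h1 : Tendsto (fun k => It (Φ * mix J σ (u (φ k)) (u (φ k))) - It (Φ * mix J σ (v k) (v k)))
          atTop (𝓝 (A - B)) := (hA.comp hφt).sub hB
      have h2 := h1.eventually_const_lt (show -η < A - B by linarith)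
      obtain ⟨N, hN⟩ := eventually_atTop.mp h2
      refine ⟨N, fun k hk => ?_⟩
      rw [mul_sub, It_sub (hc.mul_right _) (hc.mul_right _)]
      exact (hN k hk).le
    have hWs : ∀ i j x, (WW ρ κ ε δ s (u i) (v j)).1 x = (WW ρ κ ε δ 0 (u i) (v j)).1 x - s := by
      intro i j x; rw [WW_val, WW_val]; simp only [wf]; ring
    have hAE := hae (fun k => u (φ k)) v U V ζ s r0 hr0.le le_rfl hu' hv hζ hMA'
      (by
        intro k x hx hg
        rw [hWs]
        have := (hI k (φ k) (hφI k)).1 x ⟨hx, hgr x hg⟩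
        linarith)
      (by
        intro k x hx
        have hxS : x ∈ S := by
          by_contra h
          exact hx (hζ.sup.val h)
        rw [hWs]
        have := (hI k (φ k) (hφI k)).2 x hxS
        linarith) hU' hV
    -- upgrade to everywhere
    have hall : ∀ x ∈ {x | ζ.1 x ≠ 0}, U x + (ε * (ρ.1 x + (U x + V x + 1) * (U x + V x + 1)) + δ * κ.1 x)
        ≤ V x + s := by
      have hop : IsOpen {x | ζ.1 x ≠ 0} := isOpen_ne_fun (SA.cont ζ) continuous_const
      have hsub : {x | ζ.1 x ≠ 0} ⊆ S := by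
        intro x hx
        by_contra h
        exact hx (hζ.sup.val h)
      apply ae_to_all G (a := fun k => u (φ k) + PP ρ κ ε δ (u (φ k)) (v k))
        (b := fun k => v k + cst s) _ _ _ _ _ hop hsub
      · filter_upwards [hAE] with x hx hx'
        have := hx hx'
        simp only [wf] at this
        linarith
      · intro k x hx
        obtain ⟨c0, hc0, hmU⟩ := mix_U_bound G (C0 := C0) κ hε hκpsh
        exact (hmU (u (φ k)) (v k) (hu'.cls k) (hv.cls k) x hx).1 x hx
      · intro l j hlj x hx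
        have h1 := hu'.dec l j hlj x hx
        have h2 := hv.dec l j hlj x hx
        have h3 := (hu'.cls j).2 x hx
        have h4 := (hv.cls j).2 x hx
        simp only [SA.add_val, PP, gg, SA.smul_val, SA.mul_val, cst_val]
        have h5 : ((u (φ j)).1 x + (v j).1 x + 1) * ((u (φ j)).1 x + (v j).1 x + 1) ≤
          ((u (φ l)).1 x + (v l).1 x + 1) * ((u (φ l)).1 x + (v l).1 x + 1) := by
          apply mul_self_le_mul_self <;> linarith
        have h6 := mul_le_mul_of_nonneg_left h5 hε.le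
        linarith
      · intro l j hlj x hx
        exact add_le_add (hv.dec l j hlj x hx) le_rfl
      · intro x hx
        have h1 := hU' x hx
        have h2 := hV x hx
        have h3 : Tendsto (fun k => (u (φ k)).1 x + (v k).1 x + 1) atTop (𝓝 (U x + V x + 1)) :=
          (h1.add h2).add_const 1
        exact h1.add ((((h3.mul h3).const_add (ρ.1 x)).const_mul ε).add_const (δ * κ.1 x))
      · intro x hx
        exact (hV x hx).add_const s
    -- contradiction
    have hfin : ∀ x ∈ S, wf ρ.1 κ.1 ε δ 0 U V x ≤ s := by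
      intro x hx
      rcases le_or_gt (3 * R / 4) (dist x z0) with h | h
      · rw [hwf, hκout x h]
        have := hM x hx
        linarith
      · have h1 : x ∈ Metric.closedBall z0 (3 * R / 4) := Metric.mem_closedBall.mpr h.le
        have h2 : ζ.1 x = 1 := hζ1.self_of_nhdsSet x h1
        have h3 := hall x (by change ζ.1 x ≠ 0; rw [h2]; exact one_ne_zero)
        rw [hwf]; linarith
    have : M' ≤ s := by
      apply csSup_le (Set.Nonempty.image _ ⟨x0, hx0⟩)
      rintro _ ⟨x, hx, rfl⟩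
      exact hfin x hx
    linarith
  refine ⟨δ, hδ, ?_⟩
  intro x hx
  have hxS : x ∈ S := Metric.closedBall_subset_closedBall (by linarith) hx
  have h1 := claim x hxS
  rw [hwf, hκball x hx] at h1
  linarith

end Pool.Agent.Y264
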