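import Pool.Agent.Y264.Lev2b

/-! The main inequality. -/

namespace Pool.Agent.Y264
open Matrix MeasureTheory Set Filter Topology
open scoped ContDiff

theorem e_smooth : ContDiff ℝ ∞ expNegInvGlue := expNegInvGlue.contDiff

/-- First derivative of the glueing function. -/
noncomputable def e1 : ℝ → ℝ := deriv expNegInvGlue

theorem e1_smooth : ContDiff ℝ ∞ e1 := contDiff_deriv' e_smooth

theorem e1_eq (t : ℝ) : e1 t = t⁻¹ ^ 2 * expNegInvGlue t := by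
  have h := expNegInvGlue.hasDerivAt_polynomial_eval_inv_mul (1 : Polynomial ℝ) t
  have h2 : (fun x : ℝ => Polynomial.eval x⁻¹ (1 : Polynomial ℝ) * expNegInvGlue x) = expNegInvGlue := by
    ext x; simp
  rw [h2] at h
  rw [e1, h.deriv]
  simp

theorem e2_eq (t : ℝ) : deriv e1 t = (t⁻¹ ^ 4 - 2 * t⁻¹ ^ 3) * expNegInvGlue t := by
  have h := expNegInvGlue.hasDerivAt_polynomial_eval_inv_mul (Polynomial.X ^ 2 : Polynomial ℝ) t
  have h2 : (fun x : ℝ => Polynomial.eval x⁻¹ (Polynomial.X ^ 2 : Polynomial ℝ) * expNegInvGlue x) = e1 := by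
    ext x; rw [e1_eq]; simp
  rw [h2] at h
  rw [h.deriv]
  congr 1
  simp only [Polynomial.derivative_X_pow, Polynomial.eval_mul, Polynomial.eval_sub,
    Polynomial.eval_pow, Polynomial.eval_X, Polynomial.eval_C]
  simp
  ring

theorem e1_nonneg (t : ℝ) : 0 ≤ e1 t := by
  rw [e1_eq]; exact mul_nonneg (by positivity) (expNegInvGlue.nonneg t)

theorem e0_nonpos {t : ℝ} (h : t ≤ 0) : expNegInvGlue t = 0 := expNegInvGlue.zero_of_nonpos h

theorem e1_nonpos {t : ℝ} (h : t ≤ 0) : e1 t = 0 := by rw [e1_eq, e0_nonpos h, mul_zero]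

theorem e2_nonneg {t : ℝ} (h : t ≤ 1 / 2) : 0 ≤ deriv e1 t := by
  rw [e2_eq]
  rcases le_or_gt t 0 with h0 | h0
  · rw [e0_nonpos h0, mul_zero]
  · apply mul_nonneg _ (expNegInvGlue.nonneg t)
    have h1 : 2 ≤ t⁻¹ := by
      rw [le_inv_comm₀ (by norm_num) h0]; linarith
    have h2 : t⁻¹ ^ 4 - 2 * t⁻¹ ^ 3 = t⁻¹ ^ 3 * (t⁻¹ - 2) := by ring
    rw [h2]
    exact mul_nonneg (by positivity) (by linarith)

theorem e1_pos {t : ℝ} (h : 0 < t) : 0 < e1 t := by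
  rw [e1_eq]; exact mul_pos (by positivity) (expNegInvGlue.pos_of_pos h)

theorem e0_le {t r : ℝ} (hr : t ≤ r) (hr0 : 0 ≤ r) (hr1 : r ≤ 1) : expNegInvGlue t ≤ r * e1 t := by
  rw [e1_eq]
  rcases le_or_gt t 0 with h0 | h0
  · rw [e0_nonpos h0, mul_zero, mul_zero]
  · have h2 : 1 ≤ r * t⁻¹ ^ 2 := by
      have h3 : t * t ≤ r * 1 := mul_le_mul hr (hr.trans hr1) h0.le hr0
      have h4 : t⁻¹ ^ 2 * (t * t) = 1 := by field_simp
      calc (1:ℝ) = t⁻¹ ^ 2 * (t * t) := h4.symm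
        _ ≤ t⁻¹ ^ 2 * (r * 1) := mul_le_mul_of_nonneg_left h3 (by positivity)
        _ = _ := by ring
    calc expNegInvGlue t = 1 * expNegInvGlue t := (one_mul _).symm
      _ ≤ (r * t⁻¹ ^ 2) * expNegInvGlue t := mul_le_mul_of_nonneg_right h2 (expNegInvGlue.nonneg t)
      _ = _ := by ring

variable {J : Matrix (Fin 4) (Fin 4) SA} {σ : ℝ} {S : Set E4} {ρ : SA} (G : Geo J σ S ρ)

theorem Psh.smul {a : SA} (ha : Psh J S a) {t : ℝ} (ht : 0 ≤ t) : Psh J S (t • a) := by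
  intro x hx X
  rw [H2_smul, mv_smul, qf_smul_left]
  exact mul_nonneg ht (ha x hx X)

theorem Psh.cst_add {a : SA} (ha : Psh J S a) (t : ℝ) : Psh J S (a + cst t) := by
  intro x hx X
  rw [H2_add, H2_cst, add_zero]
  exact ha x hx X

theorem psh_rho (G : Geo J σ S ρ) : Psh J S ρ := by
  intro y hy X
  by_cases h : X = 0
  · subst h; simp [qf]
  · exact (G.sps y hy X h).le

/-- `g = u + v + 1`. -/
noncomputable def gg (u v : SA) : SA := u + v + cst 1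

/-- The perturbation. -/
noncomputable def PP (ρ κ : SA) (ε δ : ℝ) (u v : SA) : SA := ε • (ρ + gg u v * gg u v) + δ • κ

/-- The difference function. -/
noncomputable def WW (ρ κ : SA) (ε δ s : ℝ) (u v : SA) : SA := u + PP ρ κ ε δ u v - v - cst s

include G

theorem g2_f_bound (κ : SA) {ε δ C0 : ℝ} (hε : 0 ≤ ε) (hδ : 0 ≤ δ) : ∃ K, 0 < K ∧ ∀ u v : SA,
    Cls J S C0 u → Cls J S C0 v → ∀ x ∈ S,
    (g2 (u + PP ρ κ ε δ u v + v)).1 x ≤ K * (1 + (g2 (gg u v)).1 x) := by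
  obtain ⟨M1, hM10, hM1⟩ := Cut.bound G.cpt (g2 (ε • ρ + δ • κ))
  refine ⟨4 * M1 + 2 + 16 * ε ^ 2 * (2 * |C0| + 1) ^ 2 + 1, by positivity, ?_⟩
  intro u v hu hv x hx
  have hu0 := hu.2 x hx
  have hv0 := hv.2 x hx
  have hC0 : 0 ≤ C0 := hu0.1.trans hu0.2
  rw [abs_of_nonneg hC0]
  have e : u + PP ρ κ ε δ u v + v = (u + v) + ((ε • ρ + δ • κ) + ε • (gg u v * gg u v)) := by
    rw [PP, smul_add]; abel
  rw [e]
  have h1 := g2_add_le (u + v) ((ε • ρ + δ • κ) + ε • (gg u v * gg u v)) x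
  have h2 := g2_add_le (ε • ρ + δ • κ) (ε • (gg u v * gg u v)) x
  have h3 : (g2 (u + v)).1 x = (g2 (gg u v)).1 x := by
    simp only [g2, gg, D_add, D_cst, add_zero]
  have h4 : (g2 (ε • (gg u v * gg u v))).1 x = ε ^ 2 * (4 * (gg u v).1 x ^ 2 * (g2 (gg u v)).1 x) := by
    have e1 : g2 (ε • (gg u v * gg u v)) = (ε ^ 2) • g2 (gg u v * gg u v) := by
      simp only [g2, D_smul]
      simp only [smul_SA]
      have e2 : cst (ε ^ 2) = cst ε * cst ε := by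
        apply SA.ext'; intro x; simp only [cst_val, SA.mul_val]; ring
      rw [e2]; ring
    rw [e1, g2_mul_self]
    simp only [SA.smul_val, SA.mul_val]; ring
  have h5 := (le_abs_self _).trans (hM1 x hx)
  have h6 : 0 ≤ (gg u v).1 x ∧ (gg u v).1 x ≤ 2 * C0 + 1 := by
    simp only [gg, SA.add_val, cst_val]
    constructor <;> linarith
  have h7 : (gg u v).1 x ^ 2 ≤ (2 * C0 + 1) ^ 2 := by
    apply pow_le_pow_left₀ h6.1 h6.2
  have h8 := g2_nonneg (gg u v) x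
  rw [h3] at h1
  rw [h4] at h2
  have h9 : ε ^ 2 * (4 * (gg u v).1 x ^ 2 * (g2 (gg u v)).1 x) ≤
      ε ^ 2 * (4 * (2 * C0 + 1) ^ 2 * (g2 (gg u v)).1 x) := by
    apply mul_le_mul_of_nonneg_left _ (by positivity)
    exact mul_le_mul_of_nonneg_right (by linarith) h8
  generalize (g2 (gg u v)).1 x = y at *
  have h10 : 0 ≤ M1 * y := by positivity
  have h11 : 0 ≤ ε ^ 2 * (2 * C0 + 1) ^ 2 * y := by positivity
  have h12 : 0 ≤ ε ^ 2 * (2 * C0 + 1) ^ 2 := by positivity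
  nlinarith

theorem mix_U_bound (κ : SA) {ε δ C0 : ℝ} (hε : 0 < ε) 
    (hκ : Psh J S ((ε / 2) • ρ + δ • κ)) : ∃ c0, 0 < c0 ∧ ∀ u v : SA,
    Cls J S C0 u → Cls J S C0 v → ∀ x ∈ S,
    Psh J S (u + PP ρ κ ε δ u v) ∧ 
    (mix J σ u u).1 x + c0 * (1 + (mix J σ (gg u v) ρ).1 x + (g2 (gg u v)).1 x) ≤
      (mix J σ (u + PP ρ κ ε δ u v) (u + PP ρ κ ε δ u v)).1 x := by
  obtain ⟨c, hc, hlow⟩ := exists_Gam_lower G
  obtain ⟨cm, hcm, hmlow⟩ := exists_mix_lower G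
  refine ⟨ε ^ 2 * min (cm / 4) (min 2 (2 * c)), by positivity, ?_⟩
  intro u v hu hv x hx
  have hρ := psh_rho G
  have hgpsh : Psh J S (gg u v) := (hu.1.add hv.1).cst_add 1
  have hg1 : ∀ y ∈ S, 1 ≤ (gg u v).1 y := by
    intro y hy
    simp only [gg, SA.add_val, cst_val]
    linarith [(hu.2 y hy).1, (hv.2 y hy).1]
  have hg0 : ∀ y ∈ S, 0 ≤ (gg u v).1 y := fun y hy => zero_le_one.trans (hg1 y hy)
  have hgg : Psh J S (gg u v * gg u v) := Psh.sq G hgpsh hg0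
  have hP2 : Psh J S ((ε / 2) • ρ + ε • (gg u v * gg u v)) :=
    (hρ.smul (by positivity)).add (hgg.smul hε.le)
  have hPe : PP ρ κ ε δ u v = ((ε / 2) • ρ + δ • κ) + ((ε / 2) • ρ + ε • (gg u v * gg u v)) := by
    have : ε • ρ = (ε / 2) • ρ + (ε / 2) • ρ := by rw [← add_smul]; congr 1; ring
    rw [PP, smul_add, this]; abel
  have hPpsh : Psh J S (PP ρ κ ε δ u v) := by rw [hPe]; exact hκ.add hP2
  refine ⟨hu.1.add hPpsh, ?_⟩
  have e1 : (mix J σ (u + PP ρ κ ε δ u v) (u + PP ρ κ ε δ u v)).1 x =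
      (mix J σ u u).1 x + 2 * (mix J σ u (PP ρ κ ε δ u v)).1 x
        + (mix J σ (PP ρ κ ε δ u v) (PP ρ κ ε δ u v)).1 x := by
    rw [mix_add_left, mix_add_right, mix_add_right, mix_comm J σ (PP ρ κ ε δ u v) u]
    simp only [SA.add_val]; ring
  have m1 := mix_nonneg G hx hu.1 hPpsh
  have e2 : (mix J σ (PP ρ κ ε δ u v) (PP ρ κ ε δ u v)).1 x =
      (mix J σ ((ε / 2) • ρ + δ • κ) ((ε / 2) • ρ + δ • κ)).1 x
      + 2 * (mix J σ ((ε / 2) • ρ + δ • κ) ((ε / 2) • ρ + ε • (gg u v * gg u v))).1 x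
      + (mix J σ ((ε / 2) • ρ + ε • (gg u v * gg u v)) ((ε / 2) • ρ + ε • (gg u v * gg u v))).1 x := by
    rw [hPe]
    generalize (ε / 2) • ρ + δ • κ = A
    generalize (ε / 2) • ρ + ε • (gg u v * gg u v) = B
    rw [mix_add_left, mix_add_right, mix_add_right, mix_comm J σ B A]
    simp only [SA.add_val]; ring
  have m2 := mix_nonneg G hx hκ hκ
  have m3 := mix_nonneg G hx hκ hP2
  have e3 : (mix J σ ((ε / 2) • ρ + ε • (gg u v * gg u v)) ((ε / 2) • ρ + ε • (gg u v * gg u v))).1 x =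
      (ε / 2) ^ 2 * (mix J σ ρ ρ).1 x + ε ^ 2 * (mix J σ (gg u v * gg u v) ρ).1 x
        + ε ^ 2 * (mix J σ (gg u v * gg u v) (gg u v * gg u v)).1 x := by
    generalize gg u v * gg u v = B
    simp only [mix_add_left, mix_add_right, mix_smul_left, mix_smul_right, mix_comm J σ ρ B,
      SA.add_val, SA.smul_val]
    ring
  have m4 := mix_nonneg G hx hgg hgg
  have m5 := hmlow x hx
  have m6 : 2 * (mix J σ (gg u v) ρ).1 x + 2 * c * (g2 (gg u v)).1 x ≤ (mix J σ (gg u v * gg u v) ρ).1 x := by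
    rw [mix_mul G hx]
    have k1 := hlow x hx (gg u v)
    have k2 := mix_rho_nonneg G hx hgpsh
    have k3 : 1 * (mix J σ (gg u v) ρ).1 x ≤ (gg u v).1 x * (mix J σ (gg u v) ρ).1 x :=
      mul_le_mul_of_nonneg_right (hg1 x hx) k2
    linarith
  have m7 := mix_rho_nonneg G hx hgpsh
  have m8 := g2_nonneg (gg u v) x
  rw [e1, e2, e3]
  generalize (mix J σ (gg u v) ρ).1 x = p at *
  generalize (g2 (gg u v)).1 x = y at *
  have n1 : min (cm / 4) (min 2 (2 * c)) * 1 ≤ cm / 4 * 1 := mul_le_mul_of_nonneg_right (min_le_left _ _) zero_le_one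
  have n2 : min (cm / 4) (min 2 (2 * c)) * p ≤ 2 * p :=
    mul_le_mul_of_nonneg_right ((min_le_right _ _).trans (min_le_left _ _)) m7
  have n3 : min (cm / 4) (min 2 (2 * c)) * y ≤ 2 * c * y :=
    mul_le_mul_of_nonneg_right ((min_le_right _ _).trans (min_le_right _ _)) m8
  have n4 : ε ^ 2 * min (cm / 4) (min 2 (2 * c)) * (1 + p + y) ≤ ε ^ 2 * (cm / 4 + 2 * p + 2 * c * y) := by
    rw [mul_assoc]
    exact mul_le_mul_of_nonneg_left (by linarith) (by positivity)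
  have n5 : ε ^ 2 * (2 * p + 2 * c * y) ≤ ε ^ 2 * (mix J σ (gg u v * gg u v) ρ).1 x :=
    mul_le_mul_of_nonneg_left m6 (by positivity)
  have n6 : (ε / 2) ^ 2 * cm ≤ (ε / 2) ^ 2 * (mix J σ ρ ρ).1 x := mul_le_mul_of_nonneg_left m5 (by positivity)
  have n7 : 0 ≤ ε ^ 2 * (mix J σ (gg u v * gg u v) (gg u v * gg u v)).1 x := by positivity
  have n8 : (ε / 2) ^ 2 * cm = ε ^ 2 * (cm / 4) := by ring
  linarith

end Pool.Agent.Y264
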