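import Pool.Agent.Y264.Main1

/-! The main inequality, continued. -/

namespace Pool.Agent.Y264
open Matrix MeasureTheory Set Filter Topology
open scoped ContDiff

theorem m_key {H k muu mvv mUU m mv mU y W f Q X Γ c0 C4 K c C2 r η : ℝ}
    (hH : 0 ≤ H) (hk0 : 0 ≤ k) (hk : k ≤ r * H) (hm : 0 ≤ m) (hy : 0 ≤ y) (hW : 0 ≤ W)
    (hc0 : 0 < c0) (hC4 : 0 < C4) (hK : 0 < K) (hc : 0 < c) (hC2 : 0 ≤ C2) (hr : 0 ≤ r)
    (hη : 0 < η) (hηe : C4 * (η / 2) * K ≤ c0 / 4)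
    (hr1 : r * C2 ≤ c) (hr2 : 2 * (C4 / (2 * η)) * r ≤ c0 / 4 * c)
    (hr3 : (C4 / (2 * η)) * C2 * r ≤ c0 / 4 * c)
    (h1 : muu + c0 * (1 + m + y) ≤ mUU) (h2 : f ^ 2 ≤ K * (1 + y))
    (hQ : |Q| ≤ C4 * (W * f)) (hX : |X| ≤ C2 * W) (hΓ : c * W ^ 2 ≤ Γ) (hmv : mv ≤ m)
    (hmU : 0 ≤ mU) :
    c0 / 2 * H ≤ -(H * (muu - mvv)) + ((H * (mUU - mvv) + H * Q)
      + 2 * (C4 / (2 * η)) / c * (k * (mU - mv) + H * Γ + k * X)) := by
  set C5 := C4 / (2 * η) with hC5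
  have hC50 : 0 < C5 := by positivity
  have a1 : C4 * (W * f) ≤ c0 / 4 * (1 + y) + C5 * W ^ 2 := by
    have e := r_pq (p := W) (q := f) hη
    have e1 := mul_le_mul_of_nonneg_left e hC4.le
    have e2 : C4 * (η / 2 * f ^ 2 + 1 / (2 * η) * W ^ 2) = C4 * (η / 2) * f ^ 2 + C5 * W ^ 2 := by
      rw [hC5]; field_simp
    have e3 : C4 * (η / 2) * f ^ 2 ≤ C4 * (η / 2) * (K * (1 + y)) :=
      mul_le_mul_of_nonneg_left h2 (by positivity)
    have e4 : C4 * (η / 2) * (K * (1 + y)) = C4 * (η / 2) * K * (1 + y) := by ring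
    have e5 : C4 * (η / 2) * K * (1 + y) ≤ c0 / 4 * (1 + y) :=
      mul_le_mul_of_nonneg_right hηe (by linarith)
    linarith
  have a2 : -(c0 / 4 * (1 + y) + C5 * W ^ 2) ≤ Q := by
    have := neg_abs_le Q
    linarith
  have a3 : H * (muu - mvv) + H * (c0 * (1 + m + y)) - H * (c0 / 4 * (1 + y)) - H * (C5 * W ^ 2)
      ≤ H * (mUU - mvv) + H * Q := by
    have e1 := mul_le_mul_of_nonneg_left h1 hH
    have e2 := mul_le_mul_of_nonneg_left a2 hH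
    linarith
  have b1 : -(C2 * (1 / 2 * (1 + W ^ 2))) ≤ X := by
    have e1 := neg_abs_le X
    have e2 : W ≤ 1 / 2 * (1 + W ^ 2) := by nlinarith [sq_nonneg (W - 1)]
    have e3 := mul_le_mul_of_nonneg_left e2 hC2
    linarith
  have b2 : -(r * H * m) + H * (c / 2 * W ^ 2) - H * (r * C2 / 2) ≤ k * (mU - mv) + H * Γ + k * X := by
    have e1 := mul_le_mul_of_nonneg_left b1 hk0
    have e2 : k * (C2 * (1 / 2 * (1 + W ^ 2))) ≤ (r * H) * (C2 * (1 / 2 * (1 + W ^ 2))) :=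
      mul_le_mul_of_nonneg_right hk (by positivity)
    have e3 : (r * H) * (C2 * (1 / 2 * (1 + W ^ 2))) = H * (r * C2 / 2) + H * ((r * C2) / 2 * W ^ 2) := by ring
    have e4 : H * ((r * C2) / 2 * W ^ 2) ≤ H * (c / 2 * W ^ 2) := by
      apply mul_le_mul_of_nonneg_left _ hH
      apply mul_le_mul_of_nonneg_right (by linarith) (by positivity)
    have e5 := mul_le_mul_of_nonneg_left hΓ hH
    have e6 : 0 ≤ k * mU := mul_nonneg hk0 hmU
    have e7 : k * mv ≤ k * m := mul_le_mul_of_nonneg_left hmv hk0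
    have e8 : k * m ≤ r * H * m := mul_le_mul_of_nonneg_right hk hm
    have e9 : H * (c * W ^ 2) = H * (c / 2 * W ^ 2) + H * (c / 2 * W ^ 2) := by ring
    linarith
  have b3 : -(H * (c0 / 4 * m)) + H * (C5 * W ^ 2) - H * (c0 / 4)
      ≤ 2 * C5 / c * (k * (mU - mv) + H * Γ + k * X) := by
    have e1 := mul_le_mul_of_nonneg_left b2 (show 0 ≤ 2 * C5 / c by positivity)
    have e2 : 2 * C5 / c * (-(r * H * m) + H * (c / 2 * W ^ 2) - H * (r * C2 / 2)) =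
        -((2 * C5 * r) / c * (H * m)) + H * (C5 * W ^ 2) - (C5 * C2 * r) / c * H := by
      field_simp
    have e3 : (2 * C5 * r) / c ≤ c0 / 4 := by rw [div_le_iff₀ hc]; exact hr2
    have e4 : (C5 * C2 * r) / c ≤ c0 / 4 := by rw [div_le_iff₀ hc]; exact hr3
    have e5 : (2 * C5 * r) / c * (H * m) ≤ c0 / 4 * (H * m) :=
      mul_le_mul_of_nonneg_right e3 (by positivity)
    have e6 : (C5 * C2 * r) / c * H ≤ c0 / 4 * H := mul_le_mul_of_nonneg_right e4 hH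
    linarith
  have b4 : 0 ≤ H * (c0 * m) := by positivity
  have b5 : 0 ≤ H * (c0 * y) := by positivity
  linarith

theorem w_sub {J : Matrix (Fin 4) (Fin 4) SA} {σ : ℝ} (U v : SA) (s : ℝ) (x : E4) :
    (mix J σ (U - v - cst s) (U + v)).1 x = (mix J σ U U).1 x - (mix J σ v v).1 x := by
  simp only [mix_add_right, mix_sub_left, mix_cst_left, SA.add_val, SA.sub_val, SA.zero_val,
    mix_comm J σ v U]
  ring

theorem w_sub' {J : Matrix (Fin 4) (Fin 4) SA} {σ : ℝ} (U v ρ : SA) (s : ℝ) (x : E4) :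
    (mix J σ (U - v - cst s) ρ).1 x = (mix J σ U ρ).1 x - (mix J σ v ρ).1 x := by
  simp only [mix_sub_left, mix_cst_left, SA.sub_val, SA.zero_val]
  ring

theorem g_mix {J : Matrix (Fin 4) (Fin 4) SA} {σ : ℝ} (u v ρ : SA) (x : E4) :
    (mix J σ (gg u v) ρ).1 x = (mix J σ u ρ).1 x + (mix J σ v ρ).1 x := by
  simp only [gg, mix_add_left, mix_cst_left, SA.add_val, SA.zero_val]
  ring

variable {J : Matrix (Fin 4) (Fin 4) SA} {σ : ℝ} {S : Set E4} {ρ : SA} (G : Geo J σ S ρ)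
include G

theorem main_ineq (κ : SA) {ε δ C0 : ℝ} (hε : 0 < ε) (hδ : 0 ≤ δ)
    (hκ : Psh J S ((ε / 2) • ρ + δ • κ)) : ∃ c1, 0 < c1 ∧ ∃ r0, 0 < r0 ∧ ∀ (u v ζ : SA) (s r : ℝ),
    0 ≤ r → r ≤ r0 → Cls J S C0 u → Cls J S C0 v → Cut S ζ →
    (∀ x ∈ S, vv x (gr ζ) ≠ 0 → (WW ρ κ ε δ s u v).1 x ≤ 0) →
    (∀ x, ζ.1 x ≠ 0 → (WW ρ κ ε δ s u v).1 x ≤ r) →
    c1 * It (ζ * cmp e1 e1_smooth (WW ρ κ ε δ s u v)) ≤
      -It (ζ * (cmp e1 e1_smooth (WW ρ κ ε δ s u v) * (mix J σ u u - mix J σ v v))) := by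
  obtain ⟨c0, hc0, hU⟩ := mix_U_bound G (C0 := C0) κ hε hκ
  obtain ⟨K, hK, hf⟩ := g2_f_bound G (C0 := C0) κ hε.le hδ
  obtain ⟨c, hc, hlow⟩ := exists_Gam_lower G
  obtain ⟨C2, hC2, hX⟩ := exists_Xr_bound G
  obtain ⟨C4', hC4', hQ⟩ := exists_qq_bound G
  set C4 := C4' + 1 with hC4e
  have hC4 : 0 < C4 := by linarith
  set η := c0 / (2 * C4 * K) with hη
  have hη0 : 0 < η := by positivity
  set C5 := C4 / (2 * η) with hC5
  have hC5' : 0 < C5 := by positivity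
  refine ⟨c0 / 2, by positivity, min (1 / 2) (min (c / (C2 + 1)) (min (c0 / 4 * c / (2 * C5))
    (c0 / 4 * c / (C5 * (C2 + 1))))), by positivity, ?_⟩
  intro u v ζ s r hr hr0 hu hv hζ hi hii
  have hrr1 : r ≤ 1 / 2 := hr0.trans (min_le_left _ _)
  have hrr2 : r ≤ c / (C2 + 1) := hr0.trans ((min_le_right _ _).trans (min_le_left _ _))
  have hrr3 : r ≤ c0 / 4 * c / (2 * C5) :=
    hr0.trans ((min_le_right _ _).trans ((min_le_right _ _).trans (min_le_left _ _)))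
  have hrr4 : r ≤ c0 / 4 * c / (C5 * (C2 + 1)) :=
    hr0.trans ((min_le_right _ _).trans ((min_le_right _ _).trans (min_le_right _ _)))
  rw [le_div_iff₀ (by positivity)] at hrr2 hrr3 hrr4
  set U := u + PP ρ κ ε δ u v with hUe
  have hWe : WW ρ κ ε δ s u v = U - v - cst s := rfl
  set W := WW ρ κ ε δ s u v with hW
  set h1 := cmp e1 e1_smooth W with hh1
  set h0 := cmp expNegInvGlue e_smooth W with hh0
  have hs := hζ.sup
  have hz1 : Sup S (ZZ J σ (ζ * h1) W (U + v)) := (hs.mul_right _).ZZ _ _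
  have hz2 : Sup S (YY J σ ρ (ζ * h0) W) := (hs.mul_right _).YY _
  have iz1 : It (ZZ J σ (ζ * h1) W (U + v)) = 0 :=
    It_ZZ G _ _ _ (Or.inl ⟨(hs.mul_right _).cs, (hs.mul_right _).sub⟩)
  have iz2 : It (YY J σ ρ (ζ * h0) W) = 0 :=
    It_YY G _ _ (Or.inl ⟨(hs.mul_right _).cs, (hs.mul_right _).sub⟩)
  rw [← It_smul, ← It_neg]
  apply It_le_add (z := ZZ J σ (ζ * h1) W (U + v) + (2 * C5 / c) • YY J σ ρ (ζ * h0) W)
    ((hs.mul_right _).smul _) (hs.mul_right _).neg (hz1.add (hz2.smul _))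
  · rw [It_add hz1.cs (hz2.smul _).cs, It_smul, iz1, iz2]; simp
  intro x hx
  have hUb := hU u v hu hv x hx
  have hfb := hf u v hu hv x hx
  have hfpsh : Psh J S (U + v) := hUb.1.add hv.1
  have hzn := hζ.nn x
  have k1 : h1.1 x = e1 (W.1 x) := rfl
  have k0 : h0.1 x = expNegInvGlue (W.1 x) := rfl
  have kz : vv x (gr ζ) ≠ 0 → h1.1 x = 0 ∧ h0.1 x = 0 := by
    intro h
    have := hi x hx h
    exact ⟨e1_nonpos this, e0_nonpos this⟩
  have hΓ1 : (Gam J σ (U + v) h1 W).1 x = deriv e1 (W.1 x) * (Gam J σ (U + v) W W).1 x := by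
    rw [hh1, Gam_cmp_l]; rfl
  have hΓ0 : (Gam J σ ρ h0 W).1 x = e1 (W.1 x) * (Gam J σ ρ W W).1 x := by
    rw [hh0, Gam_cmp_l]; rfl
  have hν1 : (nu J σ h1 W (U + v)).1 x = 0 := by
    rw [hh1, nu_cmp_l, SA.mul_val, nu_self G hx, mul_zero]
  have gz1 : h1.1 x * (Gam J σ (U + v) ζ W).1 x = 0 := by
    by_cases h : vv x (gr ζ) = 0
    · rw [Gam_zero h, mul_zero]
    · rw [(kz h).1, zero_mul]
  have gz2 : h1.1 x * (nu J σ ζ W (U + v)).1 x = 0 := by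
    by_cases h : vv x (gr ζ) = 0
    · rw [nu_zero h, mul_zero]
    · rw [(kz h).1, zero_mul]
  have gz3 : h0.1 x * (Gam J σ ρ ζ W).1 x = 0 := by
    by_cases h : vv x (gr ζ) = 0
    · rw [Gam_zero h, mul_zero]
    · rw [(kz h).2, zero_mul]
  have hH : 0 ≤ ζ.1 x * e1 (W.1 x) := mul_nonneg hzn (e1_nonneg _)
  have hk0 : 0 ≤ ζ.1 x * expNegInvGlue (W.1 x) := mul_nonneg hzn (expNegInvGlue.nonneg _)
  have hk : ζ.1 x * expNegInvGlue (W.1 x) ≤ r * (ζ.1 x * e1 (W.1 x)) := by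
    by_cases hz : ζ.1 x = 0
    · rw [hz]; simp
    · have := e0_le (hii x hz) hr (by linarith)
      calc ζ.1 x * expNegInvGlue (W.1 x) ≤ ζ.1 x * (r * e1 (W.1 x)) :=
            mul_le_mul_of_nonneg_left this hzn
        _ = _ := by ring
  have he2 : 0 ≤ ζ.1 x * (deriv e1 (W.1 x) * (Gam J σ (U + v) W W).1 x) := by
    by_cases hz : ζ.1 x = 0
    · rw [hz]; simp
    · exact mul_nonneg hzn (mul_nonneg (e2_nonneg ((hii x hz).trans hrr1)) (Gam_nonneg G hx hfpsh W))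
  have hmv : (mix J σ v ρ).1 x ≤ (mix J σ (gg u v) ρ).1 x := by
    rw [g_mix]
    have := mix_rho_nonneg G hx hu.1
    linarith
  have hQx : |(qq J σ W (U + v)).1 x| ≤ C4 * (nn W x * nn (U + v) x) := by
    have e := hQ x hx W (U + v)
    have e' : C4' * (nn W x * nn (U + v) x) ≤ C4 * (nn W x * nn (U + v) x) :=
      mul_le_mul_of_nonneg_right (by rw [hC4e]; linarith) (mul_nonneg (nn_nonneg _ _) (nn_nonneg _ _))
    linarith
  have hΓc : c * nn W x ^ 2 ≤ (Gam J σ ρ W W).1 x := by rw [nn_sq]; exact hlow x hx W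
  have hfn : nn (U + v) x ^ 2 ≤ K * (1 + (g2 (gg u v)).1 x) := by rw [nn_sq]; exact hfb
  have gpsh : Psh J S (gg u v) := (hu.1.add hv.1).cst_add 1
  have key := m_key (mvv := (mix J σ v v).1 x) hH hk0 hk (mix_rho_nonneg G hx gpsh)
    (g2_nonneg (gg u v) x) (nn_nonneg W x) hc0 hC4 hK hc hC2 hr hη0
    (by rw [hη]; apply le_of_eq; field_simp; norm_num)
    (by nlinarith) (by rw [← hC5]; linarith) (by rw [← hC5]; nlinarith)
    hUb.2 hfn hQx (hX x hx W) hΓc hmv (mix_rho_nonneg G hx hUb.1)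
  rw [← hC5, ← hUe] at key
  rw [k1] at gz1 gz2
  rw [k0] at gz3
  have w1 : (mix J σ W (U + v)).1 x = (mix J σ U U).1 x - (mix J σ v v).1 x := w_sub U v s x
  have w2 : (mix J σ W ρ).1 x = (mix J σ U ρ).1 x - (mix J σ v ρ).1 x := w_sub' U v ρ s x
  simp only [ZZ, YY, SA.add_val, SA.mul_val, SA.smul_val, SA.neg_val, SA.sub_val, Gam_mul_l,
    nu_mul_l, hΓ1, hΓ0, hν1, gz1, gz2, gz3, w1, w2, k1, k0]
  have q0 : (mix J σ u u - mix J σ v v).1 x = (mix J σ u u).1 x - (mix J σ v v).1 x := rfl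
  linarith [key, he2]

end Pool.Agent.Y264
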