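import Pool.Agent.Y264.Main2

/-! Convergence to zero of the truncated functional along the sequence. -/

namespace Pool.Agent.Y264
open Matrix MeasureTheory Set Filter Topology
open scoped ContDiff

/-- The pointwise formula for the difference function. -/
noncomputable def wf (ρ κ : E4 → ℝ) (ε δ s : ℝ) (u v : E4 → ℝ) (x : E4) : ℝ :=
  u x + (ε * (ρ x + (u x + v x + 1) * (u x + v x + 1)) + δ * κ x) - v x - s

theorem WW_val (ρ κ : SA) (ε δ s : ℝ) (u v : SA) (x : E4) :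
    (WW ρ κ ε δ s u v).1 x = wf ρ.1 κ.1 ε δ s u.1 v.1 x := rfl

theorem WW_lip {ρ κ : SA} {ε δ s C0 : ℝ} (hε : 0 ≤ ε) {u v u' v' : SA} {x : E4}
    (hu : 0 ≤ u.1 x ∧ u.1 x ≤ C0) (hv : 0 ≤ v.1 x ∧ v.1 x ≤ C0)
    (hu' : 0 ≤ u'.1 x ∧ u'.1 x ≤ C0) (hv' : 0 ≤ v'.1 x ∧ v'.1 x ≤ C0)
    (h1 : u'.1 x ≤ u.1 x) (h2 : v'.1 x ≤ v.1 x) :
    |(WW ρ κ ε δ s u' v').1 x - (WW ρ κ ε δ s u v).1 x| ≤
      (1 + 2 * ε * (2 * C0 + 1)) * ((u + v - (u' + v')).1 x) := by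
  rw [WW_val, WW_val]
  simp only [wf, SA.sub_val, SA.add_val]
  generalize u.1 x = a at *
  generalize v.1 x = b at *
  generalize u'.1 x = a' at *
  generalize v'.1 x = b' at *
  have e : a' + (ε * (ρ.1 x + (a' + b' + 1) * (a' + b' + 1)) + δ * κ.1 x) - b' - s
      - (a + (ε * (ρ.1 x + (a + b + 1) * (a + b + 1)) + δ * κ.1 x) - b - s)
      = ((b - b') - (a - a')) - ε * ((a + b - (a' + b')) * (a + b + a' + b' + 2)) := by ring
  rw [e]
  have h3 : 0 ≤ (a + b - (a' + b')) * (a + b + a' + b' + 2) := by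
    apply mul_nonneg <;> linarith
  have h4 : (a + b - (a' + b')) * (a + b + a' + b' + 2) ≤ (a + b - (a' + b')) * (2 * (2 * C0 + 1)) := by
    apply mul_le_mul_of_nonneg_left <;> linarith
  have h5 : 0 ≤ ε * ((a + b - (a' + b')) * (a + b + a' + b' + 2)) := mul_nonneg hε h3
  have h6 := mul_le_mul_of_nonneg_left h4 hε
  rw [abs_le]
  constructor <;> nlinarith

theorem WW_bound {S : Set E4} (hS : IsCompact S) (ρ κ : SA) (ε δ s C0 : ℝ) : ∃ B, 0 ≤ B ∧
    ∀ u v : SA, ∀ x ∈ S, 0 ≤ u.1 x ∧ u.1 x ≤ C0 → 0 ≤ v.1 x ∧ v.1 x ≤ C0 →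
      |(WW ρ κ ε δ s u v).1 x| ≤ B := by
  obtain ⟨M, hM0, hM⟩ := Cut.bound hS (ε • ρ + δ • κ)
  refine ⟨M + |ε| * (2 * |C0| + 1) ^ 2 + |C0| + |C0| + |s|, by positivity, ?_⟩
  intro u v x hx hu hv
  have h1 := hM x hx
  have e : (WW ρ κ ε δ s u v).1 x = (ε • ρ + δ • κ).1 x + ε * (u.1 x + v.1 x + 1) ^ 2 + u.1 x - v.1 x - s := by
    rw [WW_val]
    simp only [wf, SA.add_val, SA.smul_val]; ring
  rw [e]
  have hC : 0 ≤ C0 := hu.1.trans hu.2
  rw [abs_of_nonneg hC]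
  have h2 : |ε * (u.1 x + v.1 x + 1) ^ 2| ≤ |ε| * (2 * C0 + 1) ^ 2 := by
    rw [abs_mul]
    apply mul_le_mul_of_nonneg_left _ (abs_nonneg _)
    rw [abs_of_nonneg (by positivity)]
    apply pow_le_pow_left₀ <;> linarith
  have h3 := abs_le.mp h2
  have h4 := abs_le.mp h1
  have h5 := abs_le.mp (le_refl |s|)
  rw [abs_le]
  constructor <;> linarith

theorem e1_lip (B : ℝ) : ∃ L, 0 ≤ L ∧ ∀ a b : ℝ, |a| ≤ B → |b| ≤ B → |e1 a - e1 b| ≤ L * |a - b| := by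
  obtain ⟨L, hL⟩ := (isCompact_Icc (a := -B) (b := B)).exists_bound_of_continuousOn
    (contDiff_deriv' e1_smooth).continuous.continuousOn
  refine ⟨|L|, abs_nonneg _, ?_⟩
  intro a b ha hb
  have h := Convex.norm_image_sub_le_of_norm_deriv_le (f := e1) (s := Icc (-B) B) (C := |L|)
    (x := b) (y := a) (fun x _ => (e1_smooth.differentiable (by simp)) x)
    (fun x hx => (hL x hx).trans (le_abs_self L)) (convex_Icc _ _) (abs_le.mp hb) (abs_le.mp ha)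
  exact h

variable {J : Matrix (Fin 4) (Fin 4) SA} {σ : ℝ} {S : Set E4} {ρ : SA} (G : Geo J σ S ρ)
include G

theorem conv_zero (κ : SA) {ε δ C0 : ℝ} (hε : 0 < ε) (hδ : 0 ≤ δ) (hC0 : 0 ≤ C0)
    (hκ : Psh J S ((ε / 2) • ρ + δ • κ)) : ∃ r0, 0 < r0 ∧ ∀ (u v : ℕ → SA) (ζ : SA) (s r : ℝ),
    0 ≤ r → r ≤ r0 → Seq J S C0 u → Seq J S C0 v → Cut S ζ →
    (∀ Φ : SA, (∀ x, 0 ≤ Φ.1 x) → CS Φ → tsupport Φ.1 ⊆ interior S → ∀ η > 0, ∃ N, ∀ k ≥ N,
      -η ≤ It (Φ * (mix J σ (u k) (u k) - mix J σ (v k) (v k)))) →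
    (∀ k, ∀ x ∈ S, vv x (gr ζ) ≠ 0 → (WW ρ κ ε δ s (u k) (v k)).1 x ≤ 0) →
    (∀ k, ∀ x, ζ.1 x ≠ 0 → (WW ρ κ ε δ s (u k) (v k)).1 x ≤ r) →
    Tendsto (fun k => It (ζ * cmp e1 e1_smooth (WW ρ κ ε δ s (u k) (v k)))) atTop (𝓝 0) := by
  obtain ⟨c1, hc1, r0, hr0, hmain⟩ := main_ineq G κ (C0 := C0) hε hδ hκ
  refine ⟨r0, hr0, ?_⟩
  intro u v ζ s r hr hrr hu hv hζ hMA hi hii
  obtain ⟨B, hB0, hB⟩ := WW_bound G.cpt ρ κ ε δ s C0
  obtain ⟨L, hL0, hL⟩ := e1_lip B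
  set K := 1 + 2 * ε * (2 * C0 + 1) with hK
  have hK0 : 0 ≤ K := by positivity
  have hs := hζ.sup
  have hc : Seq J S (C0 + C0) (fun k => u k + v k) := ⟨fun k => (hu.cls k).add (hv.cls k), by
    intro l j hlj x hx
    exact add_le_add (hu.dec l j hlj x hx) (hv.dec l j hlj x hx)⟩
  have hsmall := L2 G hc (by linarith) hζ
  -- nonnegativity
  have hnn : ∀ k, 0 ≤ It (ζ * cmp e1 e1_smooth (WW ρ κ ε δ s (u k) (v k))) := fun k =>
    It_nonneg fun x => mul_nonneg (hζ.nn x) (e1_nonneg _)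
  rw [Metric.tendsto_atTop]
  intro η hη
  -- choose l
  obtain ⟨l, hl⟩ := hsmall (c1 * η / 4 / (L * K + 1)) (by positivity)
  have hΦcs : Sup S (ζ * cmp e1 e1_smooth (WW ρ κ ε δ s (u l) (v l))) := hs.mul_right _
  have hΦin : tsupport (ζ * cmp e1 e1_smooth (WW ρ κ ε δ s (u l) (v l))).1 ⊆ interior S := by
    refine (closure_mono ?_).trans hζ.sub
    intro x hx hx0
    exact hx (by change ζ.1 x * _ = 0; rw [hx0, zero_mul])
  obtain ⟨N, hN⟩ := hMA (ζ * cmp e1 e1_smooth (WW ρ κ ε δ s (u l) (v l)))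
    (fun x => mul_nonneg (hζ.nn x) (e1_nonneg _)) hΦcs.cs hΦin (c1 * η / 4) (by positivity)
  refine ⟨max N l, fun k hk => ?_⟩
  have hkN : N ≤ k := (le_max_left _ _).trans hk
  have hkl : l ≤ k := (le_max_right _ _).trans hk
  have h1 := hmain (u k) (v k) ζ s r hr hrr (hu.cls k) (hv.cls k) hζ (hi k) (hii k)
  have h2 := hN k hkN
  have h3 := hl l le_rfl k hkl
  -- comparison
  have h4 : -It (ζ * (cmp e1 e1_smooth (WW ρ κ ε δ s (u k) (v k)) *
      (mix J σ (u k) (u k) - mix J σ (v k) (v k)))) ≤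
      -It ((ζ * cmp e1 e1_smooth (WW ρ κ ε δ s (u l) (v l))) *
        (mix J σ (u k) (u k) - mix J σ (v k) (v k)))
      + (L * K) * It (ζ * ((u l + v l - (u k + v k)) * mix J σ (u k + v k) (u k + v k))) := by
    rw [← It_smul, ← It_neg, ← It_neg, ← It_add (hΦcs.mul_right _).neg.cs ((hs.mul_right _).smul _).cs]
    apply It_le_on (hs.mul_right _).neg ((hΦcs.mul_right _).neg.add ((hs.mul_right _).smul _))
    intro x hx
    have u1 := (hu.cls k).2 x hx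
    have v1 := (hv.cls k).2 x hx
    have u2 := (hu.cls l).2 x hx
    have v2 := (hv.cls l).2 x hx
    have g1 := WW_lip (ρ := ρ) (κ := κ) (δ := δ) (s := s) hε.le u2 v2 u1 v1 (hu.dec l k hkl x hx) (hv.dec l k hkl x hx)
    have g2 := hL _ _ (hB (u k) (v k) x hx u1 v1) (hB (u l) (v l) x hx u2 v2)
    have g3 : |e1 ((WW ρ κ ε δ s (u k) (v k)).1 x) - e1 ((WW ρ κ ε δ s (u l) (v l)).1 x)| ≤
        L * (K * (u l + v l - (u k + v k)).1 x) := g2.trans (mul_le_mul_of_nonneg_left g1 hL0)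
    have m1 := mix_nonneg G hx (hu.cls k).1 (hu.cls k).1
    have m2 := mix_nonneg G hx (hv.cls k).1 (hv.cls k).1
    have m3 := mix_nonneg G hx (hu.cls k).1 (hv.cls k).1
    have e0 : (mix J σ (u k + v k) (u k + v k)).1 x = (mix J σ (u k) (u k)).1 x
        + 2 * (mix J σ (u k) (v k)).1 x + (mix J σ (v k) (v k)).1 x := by
      rw [mix_add_left, mix_add_right, mix_add_right, mix_comm J σ (v k) (u k)]
      simp only [SA.add_val]; ring
    simp only [SA.neg_val, SA.mul_val, SA.add_val, SA.smul_val, cmp_val]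
    rw [e0, SA.sub_val (mix J σ (u k) (u k))]
    generalize (u l + v l - (u k + v k)).1 x = cc at *
    generalize e1 ((WW ρ κ ε δ s (u k) (v k)).1 x) = p at *
    generalize e1 ((WW ρ κ ε δ s (u l) (v l)).1 x) = q at *
    generalize (mix J σ (u k) (u k)).1 x = a at *
    generalize (mix J σ (v k) (v k)).1 x = b at *
    generalize (mix J σ (u k) (v k)).1 x = m at *
    have hz := hζ.nn x
    generalize ζ.1 x = z at *
    have g4 : -(p - q) * (a - b) ≤ |p - q| * (a + 2 * m + b) := by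
      have : |-(p - q) * (a - b)| ≤ |p - q| * (a + 2 * m + b) := by
        rw [abs_mul, abs_neg]
        apply mul_le_mul_of_nonneg_left _ (abs_nonneg _)
        rw [abs_le]; constructor <;> linarith
      exact (le_abs_self _).trans this
    have g5 : |p - q| * (a + 2 * m + b) ≤ L * (K * cc) * (a + 2 * m + b) :=
      mul_le_mul_of_nonneg_right g3 (by linarith)
    have g6 := mul_le_mul_of_nonneg_left (g4.trans g5) hz
    linarith
  have h5 : (L * K) * It (ζ * ((u l + v l - (u k + v k)) * mix J σ (u k + v k) (u k + v k))) ≤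
      c1 * η / 4 := by
    have h6 : (L * K) * It (ζ * ((u l + v l - (u k + v k)) * mix J σ (u k + v k) (u k + v k))) ≤
        (L * K) * (c1 * η / 4 / (L * K + 1)) := mul_le_mul_of_nonneg_left h3 (by positivity)
    have h7 : (L * K) * (c1 * η / 4 / (L * K + 1)) ≤ c1 * η / 4 := by
      rw [mul_div_assoc', div_le_iff₀ (by positivity)]
      nlinarith [mul_pos hc1 hη]
    linarith
  rw [Real.dist_eq, sub_zero, abs_of_nonneg (hnn k)]
  have h8 : c1 * It (ζ * cmp e1 e1_smooth (WW ρ κ ε δ s (u k) (v k))) ≤ c1 * (η / 2) := by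
    linarith
  have h9 := le_of_mul_le_mul_left h8 hc1
  linarith

end Pool.Agent.Y264
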