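import Pool.Agent.Y264.Main3

/-! The limit function satisfies the bound almost everywhere. -/

namespace Pool.Agent.Y264
open Matrix MeasureTheory Set Filter Topology
open scoped ContDiff

theorem wf_cont {a b : ℕ → ℝ} {A B : ℝ} (ha : Tendsto a atTop (𝓝 A)) (hb : Tendsto b atTop (𝓝 B))
    (ε δ s r q : ℝ) : Tendsto (fun k => a k + (ε * (r + (a k + b k + 1) * (a k + b k + 1)) + δ * q) - b k - s)
      atTop (𝓝 (A + (ε * (r + (A + B + 1) * (A + B + 1)) + δ * q) - B - s)) := by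
  have h1 : Tendsto (fun k => a k + b k + 1) atTop (𝓝 (A + B + 1)) := (ha.add hb).add_const 1
  exact ((ha.add ((((h1.mul h1).const_add r).const_mul ε).add_const (δ * q))).sub hb).sub_const s

variable {J : Matrix (Fin 4) (Fin 4) SA} {σ : ℝ} {S : Set E4} {ρ : SA} (G : Geo J σ S ρ)
include G

theorem ae_le (κ : SA) {ε δ C0 : ℝ} (hε : 0 < ε) (hδ : 0 ≤ δ) (hC0 : 0 ≤ C0)
    (hκ : Psh J S ((ε / 2) • ρ + δ • κ)) : ∃ r0, 0 < r0 ∧ ∀ (u v : ℕ → SA) (U V : E4 → ℝ)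
    (ζ : SA) (s r : ℝ),
    0 ≤ r → r ≤ r0 → Seq J S C0 u → Seq J S C0 v → Cut S ζ →
    (∀ Φ : SA, (∀ x, 0 ≤ Φ.1 x) → CS Φ → tsupport Φ.1 ⊆ interior S → ∀ η > 0, ∃ N, ∀ k ≥ N,
      -η ≤ It (Φ * (mix J σ (u k) (u k) - mix J σ (v k) (v k)))) →
    (∀ k, ∀ x ∈ S, vv x (gr ζ) ≠ 0 → (WW ρ κ ε δ s (u k) (v k)).1 x ≤ 0) →
    (∀ k, ∀ x, ζ.1 x ≠ 0 → (WW ρ κ ε δ s (u k) (v k)).1 x ≤ r) →
    (∀ x ∈ S, Tendsto (fun k => (u k).1 x) atTop (𝓝 (U x))) →
    (∀ x ∈ S, Tendsto (fun k => (v k).1 x) atTop (𝓝 (V x))) →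
    ∀ᵐ x : E4, ζ.1 x ≠ 0 → wf ρ.1 κ.1 ε δ s U V x ≤ 0 := by
  obtain ⟨r0, hr0, hmain⟩ := conv_zero G κ (C0 := C0) hε hδ hC0 hκ
  refine ⟨r0, hr0, ?_⟩
  intro u v U V ζ s r hr hrr hu hv hζ hMA hi hii hU hV
  have h0 := hmain u v ζ s r hr hrr hu hv hζ hMA hi hii
  obtain ⟨B, hB0, hB⟩ := WW_bound G.cpt ρ κ ε δ s C0
  obtain ⟨L, hL0, hL⟩ := e1_lip B
  have hs := hζ.sup
  set F : E4 → ℝ := fun x => ζ.1 x * e1 (wf ρ.1 κ.1 ε δ s U V x) with hF
  have hlim : ∀ x, Tendsto (fun k => ζ.1 x * e1 ((WW ρ κ ε δ s (u k) (v k)).1 x)) atTop (𝓝 (F x)) := by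
    intro x
    by_cases hx : x ∈ S
    · apply Tendsto.const_mul
      have h1 : Tendsto (fun k => (WW ρ κ ε δ s (u k) (v k)).1 x) atTop (𝓝 (wf ρ.1 κ.1 ε δ s U V x)) :=
        wf_cont (hU x hx) (hV x hx) ε δ s (ρ.1 x) (κ.1 x)
      exact (e1_smooth.continuous.tendsto _).comp h1
    · have : ζ.1 x = 0 := hs.val hx
      simp only [hF, this, zero_mul]
      exact tendsto_const_nhds
  have hbd : ∀ k x, ‖ζ.1 x * e1 ((WW ρ κ ε δ s (u k) (v k)).1 x)‖ ≤ L * B * ζ.1 x := by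
    intro k x
    by_cases hx : x ∈ S
    · rw [norm_mul, Real.norm_eq_abs, Real.norm_eq_abs, abs_of_nonneg (hζ.nn x), mul_comm]
      apply mul_le_mul_of_nonneg_right _ (hζ.nn x)
      have hw := hB (u k) (v k) x hx ((hu.cls k).2 x hx) ((hv.cls k).2 x hx)
      have h1 := hL _ 0 hw (by simpa using hB0)
      rw [e1_nonpos le_rfl, sub_zero, sub_zero] at h1
      exact h1.trans (mul_le_mul_of_nonneg_left hw hL0)
    · rw [hs.val hx]; simp
  have hmeas : ∀ k, AEStronglyMeasurable (fun x => ζ.1 x * e1 ((WW ρ κ ε δ s (u k) (v k)).1 x))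
      (volume : Measure E4) := fun k =>
    (SA.cont (ζ * cmp e1 e1_smooth (WW ρ κ ε δ s (u k) (v k)))).aestronglyMeasurable
  have hbint : Integrable (fun x => L * B * ζ.1 x) (volume : Measure E4) :=
    hζ.cs.integrable.const_mul _
  have hT := tendsto_integral_of_dominated_convergence (fun x => L * B * ζ.1 x) hmeas hbint
    (fun k => Eventually.of_forall (hbd k)) (Eventually.of_forall hlim)
  have hI : ∫ x, F x = 0 := tendsto_nhds_unique hT h0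
  have hFm : AEStronglyMeasurable F (volume : Measure E4) :=
    aestronglyMeasurable_of_tendsto_ae atTop hmeas (Eventually.of_forall hlim)
  have hFb : ∀ x, ‖F x‖ ≤ L * B * ζ.1 x := fun x =>
    le_of_tendsto (hlim x).norm (Eventually.of_forall fun k => hbd k x)
  have hFi : Integrable F := hbint.mono' hFm (Eventually.of_forall hFb)
  have hF0 : 0 ≤ F := fun x => mul_nonneg (hζ.nn x) (e1_nonneg _)
  have hz := (integral_eq_zero_iff_of_nonneg hF0 hFi).mp hI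
  filter_upwards [hz] with x hx hζx
  by_contra hcon
  push Not at hcon
  have h1 : F x = 0 := hx
  simp only [hF] at h1
  rcases mul_eq_zero.mp h1 with h2 | h2
  · exact hζx h2
  · exact (e1_pos hcon).ne' h2

end Pool.Agent.Y264
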