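import Pool.Agent.Y264.Sob2
import Pool.Agent.Y264.Defs

/-! Comparison of the coordinate expressions with the smooth algebra. -/

namespace Pool.Agent.Y264
open Matrix MeasureTheory Set Filter Topology
open scoped ContDiff

/-- The matrix field and the endomorphism field agree near a point. -/
def JEq (J : Matrix (Fin 4) (Fin 4) SA) (j : E4 → E4 →L[ℝ] E4) (y : E4) : Prop :=
  ∀ᶠ z in 𝓝 y, ∀ i k, (J i k).1 z = (j z (bv k)) i

theorem E4_sum (X : E4) : X = X 0 • bv 0 + X 1 • bv 1 + X 2 • bv 2 + X 3 • bv 3 := by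
  have h01 : ((0:Fin 4) = 1) = False := by simp
  have h02 : ((0:Fin 4) = 2) = False := by simp
  have h03 : ((0:Fin 4) = 3) = False := by simp
  have h10 : ((1:Fin 4) = 0) = False := by simp
  have h12 : ((1:Fin 4) = 2) = False := by decide
  have h13 : ((1:Fin 4) = 3) = False := by decide
  have h20 : ((2:Fin 4) = 0) = False := by decide
  have h21 : ((2:Fin 4) = 1) = False := by decide
  have h23 : ((2:Fin 4) = 3) = False := by decide
  have h30 : ((3:Fin 4) = 0) = False := by decide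
  have h31 : ((3:Fin 4) = 1) = False := by decide
  have h32 : ((3:Fin 4) = 2) = False := by decide
  ext i
  fin_cases i <;> simp [bv, h01, h02, h03, h10, h12, h13, h20, h21, h23, h30, h31, h32]

theorem bv_apply (i k : Fin 4) : (bv k : E4) i = if i = k then 1 else 0 := by
  simp [bv]

theorem clm_expand (L : E4 →L[ℝ] ℝ) (X : E4) :
    L X = L (bv 0) * X 0 + L (bv 1) * X 1 + L (bv 2) * X 2 + L (bv 3) * X 3 := by
  conv_lhs => rw [E4_sum X]
  simp only [map_add, map_smul, smul_eq_mul]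
  ring

theorem clm_expand' (L : E4 →L[ℝ] E4) (X : E4) (i : Fin 4) :
    (L X) i = (L (bv 0)) i * X 0 + (L (bv 1)) i * X 1 + (L (bv 2)) i * X 2 + (L (bv 3)) i * X 3 := by
  conv_lhs => rw [E4_sum X]
  simp only [map_add, map_smul, PiLp.add_apply, PiLp.smul_apply, smul_eq_mul]
  ring

section
variable {J : Matrix (Fin 4) (Fin 4) SA} {j : E4 → E4 →L[ℝ] E4} {F : SA} {f : E4 → ℝ} {y : E4}

theorem dc_eq (hJ : JEq J j y) (hF : f =ᶠ[𝓝 y] F.1) (k : Fin 4) :
    (fun z => ACS.dc j f z (bv k)) =ᶠ[𝓝 y] (dc J F k).1 := by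
  have h1 : ∀ᶠ z in 𝓝 y, f =ᶠ[𝓝 z] F.1 := hF.eventually_nhds
  filter_upwards [hJ, h1] with z hz hz1
  have h2 : fderiv ℝ f z = fderiv ℝ F.1 z := hz1.fderiv_eq
  change -(fderiv ℝ f z (j z (bv k))) = _
  rw [h2, clm_expand]
  change _ = -((J 0 k).1 z * (D 0 F).1 z + (J 1 k).1 z * (D 1 F).1 z + (J 2 k).1 z * (D 2 F).1 z
    + (J 3 k).1 z * (D 3 F).1 z)
  rw [hz 0 k, hz 1 k, hz 2 k, hz 3 k]
  simp only [D_val]
  ring

theorem dc_diff (hd : DifferentiableAt ℝ (ACS.dc j f) y) (hJ : JEq J j y) (hF : f =ᶠ[𝓝 y] F.1)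
    (X : E4) (k : Fin 4) : fderiv ℝ (ACS.dc j f) y X (bv k) = fderiv ℝ (dc J F k).1 y X := by
  have h1 := dc_eq hJ hF k
  rw [← h1.fderiv_eq]
  have h2 : HasFDerivAt (fun z => ACS.dc j f z (bv k))
      ((ContinuousLinearMap.apply ℝ ℝ (bv k)).comp (fderiv ℝ (ACS.dc j f) y)) y :=
    (ContinuousLinearMap.apply ℝ ℝ (bv k)).hasFDerivAt.comp y hd.hasFDerivAt
  rw [h2.fderiv]
  rfl

theorem ddc_bv (hd : DifferentiableAt ℝ (ACS.dc j f) y) (hJ : JEq J j y) (hF : f =ᶠ[𝓝 y] F.1)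
    (i k : Fin 4) : ACS.ddc j f y (bv i) (bv k) = mv y (om J F) i k := by
  rw [ACS.ddc, dc_diff hd hJ hF, dc_diff hd hJ hF]
  rfl

theorem ddc_expand (j : E4 → E4 →L[ℝ] E4) (f : E4 → ℝ) (y X Y : E4) : ACS.ddc j f y X Y =
    ∑ i, ∑ k, X i * ACS.ddc j f y (bv i) (bv k) * Y k := by
  have h1 : ∀ L : E4 →L[ℝ] E4 →L[ℝ] ℝ, L X Y = ∑ i, ∑ k, X i * L (bv i) (bv k) * Y k := by
    intro L
    conv_lhs => rw [E4_sum X]
    simp only [map_add, map_smul, ContinuousLinearMap.add_apply, ContinuousLinearMap.smul_apply,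
      smul_eq_mul, Fin.sum_univ_four]
    rw [clm_expand (L (bv 0)) Y, clm_expand (L (bv 1)) Y, clm_expand (L (bv 2)) Y, clm_expand (L (bv 3)) Y]
    ring
  have h2 : ∀ L : E4 →L[ℝ] E4 →L[ℝ] ℝ, L Y X = ∑ i, ∑ k, X i * L (bv k) (bv i) * Y k := by
    intro L
    conv_lhs => rw [E4_sum Y]
    simp only [map_add, map_smul, ContinuousLinearMap.add_apply, ContinuousLinearMap.smul_apply,
      smul_eq_mul, Fin.sum_univ_four]
    rw [clm_expand (L (bv 0)) X, clm_expand (L (bv 1)) X, clm_expand (L (bv 2)) X, clm_expand (L (bv 3)) X]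
    ring
  rw [ACS.ddc, h1, h2]
  simp only [ACS.ddc, Fin.sum_univ_four]
  ring

theorem ddbar_bv (hd : DifferentiableAt ℝ (ACS.dc j f) y) (hJ : JEq J j y) (hF : f =ᶠ[𝓝 y] F.1)
    (i k : Fin 4) : ACS.ddbar j f y (bv i) (bv k) = 1 / 2 * mv y (H2 J F) i k := by
  have hJy : ∀ a b, (j y (bv b)) a = mv y J a b := fun a b => (hJ.self_of_nhds a b).symm
  rw [ACS.ddbar, ddc_expand j f y (j y (bv i)) (j y (bv k)), H2_val]
  simp only [ddc_bv hd hJ hF, hJy, Matrix.add_apply, Matrix.mul_apply, Matrix.transpose_apply,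
    Fin.sum_univ_four]
  ring

theorem ddbar_expand (j : E4 → E4 →L[ℝ] E4) (f : E4 → ℝ) (y X Y : E4) : ACS.ddbar j f y X Y =
    ∑ i, ∑ k, X i * ACS.ddbar j f y (bv i) (bv k) * Y k := by
  have e : ∀ A B : E4, ∀ a, (j y A) a = (j y (bv 0)) a * A 0 + (j y (bv 1)) a * A 1
      + (j y (bv 2)) a * A 2 + (j y (bv 3)) a * A 3 := fun A B a => clm_expand' (j y) A a
  simp only [ACS.ddbar]
  have h1 : ACS.ddc j f y (j y X) (j y Y) = ∑ i, ∑ k, X i * ACS.ddc j f y (j y (bv i)) (j y (bv k)) * Y k := by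
    rw [ddc_expand]
    have h2 : ∀ i k, ACS.ddc j f y (j y (bv i)) (j y (bv k)) =
        ∑ a, ∑ b, (j y (bv i)) a * ACS.ddc j f y (bv a) (bv b) * (j y (bv k)) b := fun i k =>
      ddc_expand j f y _ _
    simp only [h2, Fin.sum_univ_four, clm_expand' (j y) X, clm_expand' (j y) Y]
    ring
  rw [h1, ddc_expand j f y X Y, ← Finset.sum_add_distrib, Finset.sum_div]
  apply Finset.sum_congr rfl
  intro i _
  rw [← Finset.sum_add_distrib, Finset.sum_div]
  apply Finset.sum_congr rfl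
  intro k _
  ring

theorem levi_eq (hd : DifferentiableAt ℝ (ACS.dc j f) y) (hJ : JEq J j y) (hF : f =ᶠ[𝓝 y] F.1)
    (X : E4) : ACS.levi j f y X = 1 / 2 * qf (mv y J) (mv y (H2 J F)) (fun i => X i) := by
  have hJy : ∀ a b, (j y (bv b)) a = mv y J a b := fun a b => (hJ.self_of_nhds a b).symm
  rw [ACS.levi, ddbar_expand]
  simp only [ddbar_bv hd hJ hF, clm_expand' (j y) X, hJy, qf, dotProduct, Matrix.mulVec,
    Fin.sum_univ_four]
  ring

/-- The standard orthonormal basis. -/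
noncomputable def b4 : OrthonormalBasis (Fin 4) ℝ E4 := EuclideanSpace.basisFun (Fin 4) ℝ

theorem b4_apply (i : Fin 4) : b4 i = bv i := by
  simp [b4, bv]

theorem pf_ddbar (hd : DifferentiableAt ℝ (ACS.dc j f) y) (hJ : JEq J j y) (hF : f =ᶠ[𝓝 y] F.1) :
    ACS.pf b4 (ACS.ddbar j f y) = 1 / 8 * wd (mv y (H2 J F)) (mv y (H2 J F)) := by
  have h : ∀ i k, ACS.ddbar j f y (bv i) (bv k) =
      1 / 2 * mv y (H2 J F) i k := ddbar_bv hd hJ hF
  simp only [ACS.pf, b4_apply, h, wd]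
  ring

end

/-- The matrix of the Hermitian reference form. -/
noncomputable def hm (j : E4 →L[ℝ] E4) : Matrix (Fin 4) (Fin 4) ℝ := fun i k => ACS.herm j (bv i) (bv k)

theorem inner_bv (X : E4) (i : Fin 4) : inner ℝ (bv i) X = X i := by
  rw [bv, EuclideanSpace.inner_single_left]; simp

theorem inner_bv' (X : E4) (i : Fin 4) : inner ℝ X (bv i) = X i := by
  rw [real_inner_comm, inner_bv]

theorem herm_expand (j : E4 →L[ℝ] E4) (X Y : E4) : ACS.herm j X Y =
    (fun i => X i) ⬝ᵥ (hm j *ᵥ (fun i => Y i)) := by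
  have h1 : ∀ (A : E4) (L : E4 →ₗ[ℝ] ℝ), L A = A 0 * L (bv 0) + A 1 * L (bv 1) + A 2 * L (bv 2) + A 3 * L (bv 3) := by
    intro A L
    conv_lhs => rw [E4_sum A]
    simp only [map_add, map_smul, smul_eq_mul]
  have h2 : ∀ A B : E4, ACS.herm j A B = A 0 * ACS.herm j (bv 0) B + A 1 * ACS.herm j (bv 1) B
      + A 2 * ACS.herm j (bv 2) B + A 3 * ACS.herm j (bv 3) B := by
    intro A B
    simp only [ACS.herm]
    conv_lhs => rw [E4_sum A]
    simp only [map_add, map_smul, inner_add_left, inner_smul_left, RCLike.conj_to_real]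
    ring
  have h3 : ∀ A B : E4, ACS.herm j A B = ACS.herm j A (bv 0) * B 0 + ACS.herm j A (bv 1) * B 1
      + ACS.herm j A (bv 2) * B 2 + ACS.herm j A (bv 3) * B 3 := by
    intro A B
    simp only [ACS.herm]
    conv_lhs => rw [E4_sum B]
    simp only [map_add, map_smul, inner_add_right, inner_smul_right]
    ring
  rw [h2]
  simp only [dotProduct, Matrix.mulVec, Fin.sum_univ_four, hm]
  rw [h3 (bv 0) Y, h3 (bv 1) Y, h3 (bv 2) Y, h3 (bv 3) Y]

theorem hm_props {m : Matrix (Fin 4) (Fin 4) ℝ} {j : E4 →L[ℝ] E4}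
    (hm1 : ∀ a b, m a b = (j (bv b)) a) (hm2 : m * m = -1) : Asy (hm j) ∧ Inv m (hm j) ∧ SPos m (hm j) := by
  have hjj : ∀ X : E4, j (j X) = -X := by
    intro X
    ext i
    have h1 : ∀ (Y : E4) i, (j Y) i = (m *ᵥ (fun k => Y k)) i := by
      intro Y i
      rw [clm_expand' j Y i, Matrix.mulVec, dotProduct, Fin.sum_univ_four]
      simp only [hm1]
    rw [h1]
    have h2 : (fun k => (j X) k) = m *ᵥ (fun k => X k) := by
      funext k; exact h1 X k
    rw [h2, Matrix.mulVec_mulVec, hm2]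
    simp [Matrix.neg_mulVec]
  have hasy : ∀ X Y, ACS.herm j X Y = -ACS.herm j Y X := by
    intro X Y
    simp only [ACS.herm]
    rw [real_inner_comm Y (j X), real_inner_comm (j Y) X]; ring
  have hinv : ∀ X Y, ACS.herm j (j X) (j Y) = ACS.herm j X Y := by
    intro X Y
    simp only [ACS.herm, hjj, inner_neg_left, inner_neg_right]; ring
  refine ⟨fun i k => hasy _ _, ?_, ?_⟩
  · unfold Inv
    ext i k
    have h1 := hinv (bv i) (bv k)
    rw [herm_expand j (j (bv i)) (j (bv k))] at h1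
    change _ = ACS.herm j (bv i) (bv k)
    rw [← h1]
    simp only [Matrix.mul_apply, Matrix.transpose_apply, dotProduct, Matrix.mulVec, Fin.sum_univ_four, hm1]
    ring
  · intro X hX
    set X' : E4 := WithLp.toLp 2 X with hX'
    have hX0 : X' ≠ 0 := by
      intro h
      apply hX
      have := congrArg (WithLp.ofLp) h
      simpa [hX'] using this
    have h1 : qf m (hm j) X = ACS.herm j X' (j X') := by
      rw [herm_expand]
      unfold qf
      have h2 : (fun i => (j X') i) = m *ᵥ X := by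
        funext i
        rw [clm_expand' j X' i, Matrix.mulVec, dotProduct, Fin.sum_univ_four]
        simp only [hm1, hX']
      rw [h2]
    rw [h1, ACS.herm, hjj, inner_neg_right, sub_neg_eq_add, real_inner_self_eq_norm_sq, real_inner_self_eq_norm_sq]
    have : 0 < ‖X'‖ := norm_pos_iff.mpr hX0
    positivity

theorem sign_pf {m : Matrix (Fin 4) (Fin 4) ℝ} {j : E4 →L[ℝ] E4} {σ : ℝ}
    (hm1 : ∀ a b, m a b = (j (bv b)) a) (hm2 : m * m = -1) (ho : Ori σ m) :
    (SignType.sign (ACS.pf b4 (ACS.herm j)) : ℝ) = σ := by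
  obtain ⟨h1, h2, h3⟩ := hm_props hm1 hm2
  have hne : hm j ≠ 0 := by
    intro h
    have h4 := h3 (fun _ => 1) (by intro h; have := congrFun h 0; simp at this)
    rw [h] at h4
    simp [qf] at h4
  have h4 := ho.spos _ _ h1 h2 h3 h1 h2 (fun X => by
    by_cases hX : X = 0
    · subst hX; simp [qf]
    · exact (h3 X hX).le) hne
  have h5 : wd (hm j) (hm j) = 2 * ACS.pf b4 (ACS.herm j) := by
    simp only [wd, hm, ACS.pf, b4_apply]; ring
  rw [h5] at h4
  have h6 : σ = 1 ∨ σ = -1 := by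
    have := ho.sq
    have h7 : (σ - 1) * (σ + 1) = 0 := by linarith
    rcases mul_eq_zero.mp h7 with h | h
    · left; linarith
    · right; linarith
  rcases h6 with h | h
  · subst h
    rw [sign_pos (by linarith)]; simp
  · subst h
    rw [sign_neg (by linarith)]; simp

theorem maDens_eq {J : Matrix (Fin 4) (Fin 4) SA} {j : E4 → E4 →L[ℝ] E4} {F : SA} {f : E4 → ℝ}
    {y : E4} {σ : ℝ} (hd : DifferentiableAt ℝ (ACS.dc j f) y) (hJ : JEq J j y)
    (hF : f =ᶠ[𝓝 y] F.1) (hsq : mv y J * mv y J = -1) (ho : Ori σ (mv y J)) :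
    ACS.maDens b4 j f y = 1 / 16 * (mix J σ F F).1 y := by
  have hJy : ∀ a b, mv y J a b = (j y (bv b)) a := fun a b => hJ.self_of_nhds a b
  rw [ACS.maDens, sign_pf hJy hsq ho, pf_ddbar hd hJ hF, mix_val]
  ring

end Pool.Agent.Y264
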