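import Pool.Agent.Y264.Man1

/-! Passage to a chart. -/

namespace Pool.Agent.Y264
open Matrix MeasureTheory Set Filter Topology
open scoped ContDiff Manifold

section chart
variable {E : Type*} [NormedAddCommGroup E] [InnerProductSpace ℝ E]
  {M : Type*} [TopologicalSpace M] [ChartedSpace E M] [IsManifold 𝓘(ℝ, E) ∞ M]

theorem coordJ_sq (𝒥 : ACS.AlmostComplex E M) (p : M) {y : E} (hy : y ∈ (chartAt E p).target)
    (X : E) : ACS.coordJ 𝒥.J p y (ACS.coordJ 𝒥.J p y X) = -X := by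
  have h1 := (mdifferentiable_chart (I := 𝓘(ℝ, E)) p).comp_symm_deriv hy
  have h2 := (mdifferentiable_chart (I := 𝓘(ℝ, E)) p).symm_comp_deriv ((chartAt E p).map_target hy)
  rw [(chartAt E p).right_inv hy] at h2
  have h3 : ∀ Y, mfderiv 𝓘(ℝ, E) 𝓘(ℝ, E) (chartAt E p).symm y
      (mfderiv 𝓘(ℝ, E) 𝓘(ℝ, E) (chartAt E p) ((chartAt E p).symm y) Y) = Y := fun Y =>
    congrArg (fun L => L Y) h2
  have h4 : ∀ Y, mfderiv 𝓘(ℝ, E) 𝓘(ℝ, E) (chartAt E p) ((chartAt E p).symm y)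
      (mfderiv 𝓘(ℝ, E) 𝓘(ℝ, E) (chartAt E p).symm y Y) = Y := fun Y =>
    congrArg (fun L => L Y) h1
  change mfderiv 𝓘(ℝ, E) 𝓘(ℝ, E) (chartAt E p) ((chartAt E p).symm y)
    (𝒥.J _ (mfderiv 𝓘(ℝ, E) 𝓘(ℝ, E) (chartAt E p).symm y
    (mfderiv 𝓘(ℝ, E) 𝓘(ℝ, E) (chartAt E p) ((chartAt E p).symm y)
    (𝒥.J _ (mfderiv 𝓘(ℝ, E) 𝓘(ℝ, E) (chartAt E p).symm y X))))) = -X
  rw [h3, 𝒥.sq, map_neg]
  exact congrArg Neg.neg (h4 X)

theorem chart_smooth {f : M → ℝ} {U : Set M} (hf : ContMDiffOn 𝓘(ℝ, E) 𝓘(ℝ, ℝ) ∞ f U) (p : M) :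
    ContDiffOn ℝ ∞ (f ∘ (chartAt E p).symm) ((chartAt E p).target ∩ (chartAt E p).symm ⁻¹' U) := by
  rw [← contMDiffOn_iff_contDiffOn]
  exact hf.comp ((contMDiffOn_chart_symm (I := 𝓘(ℝ, E)) (n := ∞) (x := p)).mono Set.inter_subset_left)
    (fun y hy => hy.2)

end chart

/-- Extension by a cut-off. -/
noncomputable def extS (χ : SA) (h : E4 → ℝ) {O : Set E4} (hO : IsOpen O) (hs : tsupport χ.1 ⊆ O)
    (hh : ContDiffOn ℝ ∞ h O) : SA :=
  ⟨fun y => χ.1 y * h y, by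
    change ContDiff ℝ ∞ (fun y => χ.1 y * h y)
    rw [contDiff_iff_contDiffAt]
    intro y
    by_cases hy : y ∈ O
    · exact (SA.cd χ).contDiffAt.mul (hh.contDiffAt (hO.mem_nhds hy))
    · have h1 : y ∉ tsupport χ.1 := fun h => hy (hs h)
      have h2 : χ.1 =ᶠ[𝓝 y] 0 := notMem_tsupport_iff_eventuallyEq.mp h1
      have h3 : (fun y => χ.1 y * h y) =ᶠ[𝓝 y] fun _ => (0 : ℝ) := by
        filter_upwards [h2] with z hz
        rw [hz]; simp
      exact contDiffAt_const.congr_of_eventuallyEq h3⟩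

theorem extS_eq {χ : SA} {h : E4 → ℝ} {O : Set E4} {hO : IsOpen O} {hs : tsupport χ.1 ⊆ O}
    {hh : ContDiffOn ℝ ∞ h O} {y : E4} (hy : ∀ᶠ z in 𝓝 y, χ.1 z = 1) :
    h =ᶠ[𝓝 y] (extS χ h hO hs hh).1 := by
  filter_upwards [hy] with z hz
  change h z = χ.1 z * h z
  rw [hz, one_mul]

/-- Differentiability of the twisted differential. -/
theorem dc_differentiable {E : Type*} [NormedAddCommGroup E] [InnerProductSpace ℝ E]
    {j : E → E →L[ℝ] E} {f : E → ℝ} {O : Set E} (hO : IsOpen O)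
    (hj : ContDiffOn ℝ ∞ j O) (hf : ContDiffOn ℝ ∞ f O) {y : E} (hy : y ∈ O) :
    DifferentiableAt ℝ (ACS.dc j f) y := by
  have h1 : DifferentiableAt ℝ (fderiv ℝ f) y := by
    have h2 : ContDiffAt ℝ ∞ f y := hf.contDiffAt (hO.mem_nhds hy)
    have h3 : ContDiffAt ℝ ∞ (fderiv ℝ f) y := h2.fderiv_right (m := ∞) (by simp)
    exact h3.differentiableAt (by simp)
  have h2 : DifferentiableAt ℝ j y := (hj.contDiffAt (hO.mem_nhds hy)).differentiableAt (by simp)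
  exact (h1.clm_comp h2).neg

/-- The orientation sign is constant. -/
theorem exists_sigma {J : Matrix (Fin 4) (Fin 4) SA} {S : Set E4} {ρ : SA} (hS : IsPreconnected S)
    (hsq : ∀ x ∈ S, mv x J * mv x J = -1) (hsp : ∀ x ∈ S, SPos (mv x J) (mv x (H2 J ρ))) :
    ∃ σ, ∀ x ∈ S, Ori σ (mv x J) := by
  rcases S.eq_empty_or_nonempty with he | ⟨x0, hx0⟩
  · exact ⟨0, fun x hx => by simp [he] at hx⟩
  set q : E4 → ℝ := fun x => wd (mv x (H2 J ρ)) (mv x (H2 J ρ)) with hq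
  have hqc : Continuous q := by
    have : q = (wd (H2 J ρ) (H2 J ρ)).1 := by
      funext x; rw [wd_val]
    rw [this]; exact SA.cont _
  have hori : ∀ x ∈ S, ∃ σ, Ori σ (mv x J) ∧ 0 < σ * q x := by
    intro x hx
    obtain ⟨σ, hσ⟩ := exists_ori (mv x J) (hsq x hx)
    refine ⟨σ, hσ, ?_⟩
    have hne : mv x (H2 J ρ) ≠ 0 := by
      intro h
      have h4 := hsp x hx (fun _ => 1) (by intro h; have := congrFun h 0; simp at this)
      rw [h] at h4
      simp [qf] at h4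
    exact hσ.spos _ _ (asy_H2 J x ρ) (inv_H2 (hsq x hx) ρ) (hsp x hx) (asy_H2 J x ρ)
      (inv_H2 (hsq x hx) ρ) (fun X => by
        by_cases hX : X = 0
        · subst hX; simp [qf]
        · exact (hsp x hx X hX).le) hne
  have hsign : ∀ {σ : ℝ}, σ * σ = 1 → σ = 1 ∨ σ = -1 := by
    intro σ h
    have h7 : (σ - 1) * (σ + 1) = 0 := by linarith
    rcases mul_eq_zero.mp h7 with h | h
    · left; linarith
    · right; linarith
  have hne : ∀ x ∈ S, q x ≠ 0 := by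
    intro x hx h
    obtain ⟨σ, _, h2⟩ := hori x hx
    rw [h, mul_zero] at h2
    exact lt_irrefl _ h2
  obtain ⟨σ0, ho0, hp0⟩ := hori x0 hx0
  refine ⟨σ0, fun x hx => ?_⟩
  obtain ⟨σ, ho, hp⟩ := hori x hx
  -- signs agree by connectedness
  have hsame : 0 < q x0 * q x := by
    by_contra hcon
    push Not at hcon
    have himg : IsPreconnected (q '' S) := hS.image q hqc.continuousOn
    have hoc := himg.ordConnected
    have h0 : (0 : ℝ) ∈ q '' S := by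
      rcases le_total (q x0) 0 with h | h
      · have h' : 0 ≤ q x := by
          by_contra hc; push Not at hc
          have := mul_pos_of_neg_of_neg (lt_of_le_of_ne h (hne x0 hx0)) hc
          linarith
        exact hoc.out ⟨x0, hx0, rfl⟩ ⟨x, hx, rfl⟩ ⟨h, h'⟩
      · have h' : q x ≤ 0 := by
          by_contra hc; push Not at hc
          have := mul_pos (lt_of_le_of_ne h (hne x0 hx0).symm) hc
          linarith
        exact hoc.out ⟨x, hx, rfl⟩ ⟨x0, hx0, rfl⟩ ⟨h', h⟩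
    obtain ⟨z, hz, hz0⟩ := h0
    exact hne z hz hz0
  have hss : σ0 = σ := by
    rcases hsign ho0.sq with h1 | h1 <;> rcases hsign ho.sq with h2 | h2 <;> subst h1 <;> subst h2
    · rfl
    · nlinarith
    · nlinarith
    · rfl
  rw [hss]; exact ho

theorem ofReal_It_le {S : Set E4} {ζ q : SA} (hS : IsCompact S) (hζ : Cut S ζ) {V : Type*} [NormedAddCommGroup V]
    {h : E4 → V} {c : ℝ} (hc : 0 ≤ c) (hq : ∀ y ∈ S, 0 ≤ q.1 y ∧ q.1 y ≤ c * ‖h y‖ ^ 2) :
    ENNReal.ofReal (It (ζ * q)) ≤ ENNReal.ofReal c * (eLpNorm h 2 (volume.restrict S)) ^ 2 := by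
  have h1 : (eLpNorm h 2 (volume.restrict S)) ^ 2 = ∫⁻ y in S, ‖h y‖ₑ ^ 2 := by
    rw [eLpNorm_eq_lintegral_rpow_enorm_toReal (by norm_num) (by norm_num)]
    simp only [ENNReal.toReal_ofNat]
    rw [← ENNReal.rpow_natCast, ← ENNReal.rpow_mul]
    norm_num
  have h2 : It (ζ * q) = ∫ y in S, (ζ * q).1 y := by
    unfold It
    rw [setIntegral_eq_integral_of_forall_compl_eq_zero]
    intro x hx
    exact (hζ.sup.mul_right q).val hx
  have hnn : ∀ y ∈ S, 0 ≤ (ζ * q).1 y := fun y hy => mul_nonneg (hζ.nn y) (hq y hy).1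
  rw [h2, ofReal_integral_eq_lintegral_ofReal (hζ.sup.mul_right q).cs.integrable.integrableOn
    ((ae_restrict_mem hS.measurableSet).mono fun y hy => hnn y hy), h1,
    ← lintegral_const_mul' _ _ ENNReal.ofReal_ne_top]
  apply setLIntegral_mono_ae' hS.measurableSet
  apply Eventually.of_forall
  intro y hy
  have h3 : (ζ * q).1 y ≤ c * ‖h y‖ ^ 2 := by
    have h4 := hq y hy
    calc ζ.1 y * q.1 y ≤ 1 * q.1 y := mul_le_mul_of_nonneg_right (hζ.le y) h4.1
      _ = q.1 y := one_mul _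
      _ ≤ _ := h4.2
  refine (ENNReal.ofReal_le_ofReal h3).trans ?_
  rw [ENNReal.ofReal_mul hc, ENNReal.ofReal_pow (norm_nonneg _), ofReal_norm]

end Pool.Agent.Y264
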