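import Pool.Agent.Y264.Man2

/-! The Monge-Ampere limits in a chart. -/

namespace Pool.Agent.Y264
open Matrix MeasureTheory Set Filter Topology
open scoped ContDiff Manifold

theorem eLp_sq {V : Type*} [NormedAddCommGroup V] (h : E4 → V) (μ : Measure E4) :
    (eLpNorm h 2 μ) ^ 2 = ∫⁻ y, ‖h y‖ₑ ^ 2 ∂μ := by
  rw [eLpNorm_eq_lintegral_rpow_enorm_toReal (by norm_num) (by norm_num)]
  simp only [ENNReal.toReal_ofNat]
  rw [← ENNReal.rpow_natCast, ← ENNReal.rpow_mul]
  norm_num

theorem eLp_rt {V : Type*} [NormedAddCommGroup V] (h : E4 → V) (μ : Measure E4) :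
    eLpNorm h 2 μ = (∫⁻ y, ‖h y‖ₑ ^ 2 ∂μ) ^ (1 / 2 : ℝ) := by
  rw [← eLp_sq, ← ENNReal.rpow_natCast, ← ENNReal.rpow_mul]
  norm_num

theorem eLp_tendsto {S : Set E4} (hS : IsCompact S) {a : ℕ → SA} {U : E4 → ℝ} {C0 : ℝ}
    (hb : ∀ k, ∀ y ∈ S, |(a k).1 y - U y| ≤ C0)
    (hU : ∀ y ∈ S, Tendsto (fun k => (a k).1 y) atTop (𝓝 (U y))) :
    Tendsto (fun k => eLpNorm (fun y => (a k).1 y - U y) 2 (volume.restrict S)) atTop (𝓝 0) := by
  have hUm : AEStronglyMeasurable U (volume.restrict S) :=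
    aestronglyMeasurable_of_tendsto_ae atTop (fun k => (SA.cont (a k)).aestronglyMeasurable)
      ((ae_restrict_mem hS.measurableSet).mono fun y hy => hU y hy)
  have h1 : Tendsto (fun k => ∫⁻ y in S, ‖(a k).1 y - U y‖ₑ ^ 2) atTop (𝓝 (∫⁻ y in S, 0)) := by
    apply tendsto_lintegral_of_dominated_convergence' (fun _ => ENNReal.ofReal (C0 ^ 2))
    · intro k
      exact (((SA.cont (a k)).aestronglyMeasurable.sub hUm).enorm).pow_const 2
    · intro k
      filter_upwards [ae_restrict_mem hS.measurableSet] with y hy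
      have h2 := hb k y hy
      rw [← ofReal_norm, ← ENNReal.ofReal_pow (norm_nonneg _)]
      apply ENNReal.ofReal_le_ofReal
      rw [Real.norm_eq_abs]
      exact pow_le_pow_left₀ (abs_nonneg _) h2 2
    · rw [lintegral_const]
      apply ENNReal.mul_ne_top ENNReal.ofReal_ne_top
      rw [Measure.restrict_apply MeasurableSet.univ, univ_inter]
      exact hS.measure_ne_top
    · filter_upwards [ae_restrict_mem hS.measurableSet] with y hy
      have h2 : Tendsto (fun k => (a k).1 y - U y) atTop (𝓝 0) := by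
        have := (hU y hy).sub_const (U y)
        rwa [sub_self] at this
      have h3 := ENNReal.Tendsto.pow (n := 2) (h2.enorm)
      simpa using h3
  simp only [lintegral_zero] at h1
  have h2 := (ENNReal.continuous_rpow_const (y := (1 / 2 : ℝ))).tendsto 0
  have h3 := h2.comp h1
  rw [ENNReal.zero_rpow_of_pos (by norm_num)] at h3
  exact h3.congr fun k => (eLp_rt _ _).symm

theorem small_of_ofReal {x η : ℝ} (hη : 0 < η) {y : ENNReal} (h : ENNReal.ofReal x ≤ y)
    (hy : y < ENNReal.ofReal η) : x ≤ η := by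
  have h1 := h.trans_lt hy
  rw [ENNReal.ofReal_lt_ofReal_iff hη] at h1
  exact h1.le

theorem abs_clm_bv (L : E4 →L[ℝ] ℝ) (i : Fin 4) : |L (bv i)| ≤ ‖L‖ := by
  have h := L.le_opNorm (bv i)
  have h1 : ‖(bv i : E4)‖ = 1 := by simp [bv]
  rw [h1, mul_one] at h
  exact h

variable {J : Matrix (Fin 4) (Fin 4) SA} {S : Set E4} {σ : ℝ} {ρ : SA} (G : Geo J σ S ρ)
include G

theorem ma_side {C0 : ℝ} (hC0 : 0 ≤ C0) {a : ℕ → SA} (A : Seq J S C0 a) {U : E4 → ℝ}
    (hU : ∀ y ∈ S, Tendsto (fun k => (a k).1 y) atTop (𝓝 (U y))) {j : E4 → E4 →L[ℝ] E4}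
    (hJ : ∀ y ∈ S, JEq J j y) {h : ℕ → E4 → ℝ} {F : ℕ → SA}
    (hF : ∀ k, ∀ y ∈ S, h k =ᶠ[𝓝 y] (F k).1) (hd : ∀ k, ∀ y ∈ S, DifferentiableAt ℝ (ACS.dc j (h k)) y)
    (c : ℝ) (hL2 : Tendsto (fun k => eLpNorm (fun y => h k y - (U y - c)) 2 (volume.restrict S)) atTop (𝓝 0))
    (hgrad : Tendsto (fun kl : ℕ × ℕ => eLpNorm (fun y => fderiv ℝ (h kl.1) y - fderiv ℝ (h kl.2) y) 2
      (volume.restrict S)) atTop (𝓝 0)) {Φ : SA} (hΦc : CS Φ) (hΦ : tsupport Φ.1 ⊆ interior S) {m : ℝ}
    (hm : Tendsto (fun k => ∫ y, Φ.1 y * ACS.maDens b4 j (h k) y) atTop (𝓝 m)) :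
    Tendsto (fun k => It (Φ * mix J σ (a k) (a k))) atTop (𝓝 (16 * m)) := by
  apply ma_limit G hC0 A (f := fun k => F k + cst c) _ _ hΦc hΦ
  · -- limits of the approximants
    have e : ∀ k, It (Φ * mix J σ (F k + cst c) (F k + cst c)) = 16 * ∫ y, Φ.1 y * ACS.maDens b4 j (h k) y := by
      intro k
      rw [← integral_const_mul]
      unfold It
      congr 1
      funext y
      rw [SA.mul_val, mix_add_left, mix_cst_left, add_zero, mix_comm, mix_add_left, mix_cst_left, add_zero]
      by_cases hy : y ∈ S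
      · rw [maDens_eq (hd k y hy) (hJ y hy) (hF k y hy) (G.sq y hy) (G.ori y hy)]
        ring
      · have : Φ.1 y = 0 := by
          apply val_zero
          intro hc
          exact hy (interior_subset (hΦ hc))
        rw [this]; ring
    simp only [e]
    exact hm.const_mul 16
  · -- gradients
    intro ζ hζ η hη
    have h1 : Tendsto (fun kl : ℕ × ℕ => ENNReal.ofReal 4 * (eLpNorm (fun y => fderiv ℝ (h kl.1) y
        - fderiv ℝ (h kl.2) y) 2 (volume.restrict S)) ^ 2) atTop (𝓝 0) := by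
      have h2 : Tendsto (fun kl : ℕ × ℕ => (eLpNorm (fun y => fderiv ℝ (h kl.1) y
        - fderiv ℝ (h kl.2) y) 2 (volume.restrict S)) ^ 2) atTop (𝓝 (0 ^ 2)) :=
        ENNReal.Tendsto.pow hgrad
      have h3 := ENNReal.Tendsto.const_mul (a := ENNReal.ofReal 4) h2 (Or.inr ENNReal.ofReal_ne_top)
      simpa using h3
    have h2 := h1.eventually_lt_const (show (0 : ENNReal) < ENNReal.ofReal η by simpa using hη)
    obtain ⟨⟨N1, N2⟩, hN⟩ := eventually_atTop.mp h2
    refine ⟨max N1 N2, fun k hk l hl => ?_⟩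
    have h3 := hN (k, l) ⟨(le_max_left _ _).trans hk, (le_max_right _ _).trans hl⟩
    have h4 : F k + cst c - (F l + cst c) = F k - F l := by abel
    simp only [h4]
    refine small_of_ofReal hη (ofReal_It_le G.cpt hζ (q := g2 (F k - F l)) (h := fun y => fderiv ℝ (h k) y
      - fderiv ℝ (h l) y) (c := 4) (by norm_num) ?_) h3
    intro y hy
    refine ⟨g2_nonneg _ _, ?_⟩
    have e1 : ∀ i, (D i (F k - F l)).1 y = (fderiv ℝ (h k) y - fderiv ℝ (h l) y) (bv i) := by
      intro i
      rw [D_sub, SA.sub_val, D_val, D_val, (hF k y hy).fderiv_eq, (hF l y hy).fderiv_eq]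
      rfl
    have e2 : ∀ i, (D i (F k - F l)).1 y * (D i (F k - F l)).1 y ≤ ‖fderiv ℝ (h k) y - fderiv ℝ (h l) y‖ ^ 2 := by
      intro i
      rw [e1, ← sq, ← sq_abs]
      exact pow_le_pow_left₀ (abs_nonneg _) (abs_clm_bv _ i) 2
    simp only [g2, SA.add_val, SA.mul_val]
    linarith [e2 0, e2 1, e2 2, e2 3]
  · -- functions
    intro ζ hζ
    have hb : ∀ k, ∀ y ∈ S, |(a k).1 y - U y| ≤ C0 := by
      intro k y hy
      have h1 := (A.cls k).2 y hy
      have h2 := A.lim hU hy
      rw [abs_le]; constructor <;> linarith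
    have h1 := eLp_tendsto G.cpt hb hU
    have hUm : AEStronglyMeasurable U (volume.restrict S) :=
      aestronglyMeasurable_of_tendsto_ae atTop (fun k => (SA.cont (a k)).aestronglyMeasurable)
        ((ae_restrict_mem G.cpt.measurableSet).mono fun y hy => hU y hy)
    have h2 : Tendsto (fun k => eLpNorm (fun y => (a k).1 y - (F k + cst c).1 y) 2 (volume.restrict S)) atTop (𝓝 0) := by
      have h3 := h1.add hL2
      rw [add_zero] at h3
      apply tendsto_of_tendsto_of_tendsto_of_le_of_le tendsto_const_nhds h3 (fun k => bot_le)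
      intro k
      have e1 : eLpNorm (fun y => (a k).1 y - (F k + cst c).1 y) 2 (volume.restrict S) =
          eLpNorm ((fun y => (a k).1 y - U y) - (fun y => (F k + cst c).1 y - U y)) 2 (volume.restrict S) := by
        congr 1; funext y; simp only [Pi.sub_apply]; ring
      have e2 : eLpNorm (fun y => (F k + cst c).1 y - U y) 2 (volume.restrict S) =
          eLpNorm (fun y => h k y - (U y - c)) 2 (volume.restrict S) := by
        apply eLpNorm_congr_ae
        filter_upwards [ae_restrict_mem G.cpt.measurableSet] with y hy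
        rw [SA.add_val, cst_val, ← (hF k y hy).self_of_nhds]; ring
      change eLpNorm (fun y => (a k).1 y - (F k + cst c).1 y) 2 (volume.restrict S) ≤
        eLpNorm (fun y => (a k).1 y - U y) 2 (volume.restrict S) +
          eLpNorm (fun y => h k y - (U y - c)) 2 (volume.restrict S)
      rw [e1, ← e2]
      exact eLpNorm_sub_le ((SA.cont (a k)).aestronglyMeasurable.sub hUm)
        ((SA.cont (F k + cst c)).aestronglyMeasurable.sub hUm) (by norm_num)
    have h3 : Tendsto (fun k => ENNReal.ofReal 1 * (eLpNorm (fun y => (a k).1 y - (F k + cst c).1 y) 2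
        (volume.restrict S)) ^ 2) atTop (𝓝 0) := by
      have h4 : Tendsto (fun k => (eLpNorm (fun y => (a k).1 y - (F k + cst c).1 y) 2
        (volume.restrict S)) ^ 2) atTop (𝓝 (0 ^ 2)) := ENNReal.Tendsto.pow h2
      have h5 := ENNReal.Tendsto.const_mul (a := ENNReal.ofReal 1) h4 (Or.inr ENNReal.ofReal_ne_top)
      simpa using h5
    rw [Metric.tendsto_atTop]
    intro η hη
    have h4 := h3.eventually_lt_const (show (0 : ENNReal) < ENNReal.ofReal (η / 2) by simpa using half_pos hη)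
    obtain ⟨N, hN⟩ := eventually_atTop.mp h4
    refine ⟨N, fun k hk => ?_⟩
    have h5 : 0 ≤ It (ζ * ((a k - (F k + cst c)) * (a k - (F k + cst c)))) :=
      It_nonneg fun x => mul_nonneg (hζ.nn x) (mul_self_nonneg _)
    have h6 : It (ζ * ((a k - (F k + cst c)) * (a k - (F k + cst c)))) ≤ η / 2 := by
      refine small_of_ofReal (half_pos hη) (ofReal_It_le G.cpt hζ (h := fun y => (a k).1 y - (F k + cst c).1 y)
        (c := 1) (by norm_num) ?_) (hN k hk)
      intro y hy
      refine ⟨mul_self_nonneg _, ?_⟩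
      rw [one_mul, Real.norm_eq_abs, sq_abs, sq]
      exact le_rfl
    rw [Real.dist_eq, sub_zero, abs_of_nonneg h5]
    linarith

end Pool.Agent.Y264
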