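import Pool.Agent.Y264.Tr

/-! The local theorem in a chart of an almost complex surface. -/

namespace Pool.Agent.Y264
open Matrix MeasureTheory Set Filter Topology
open scoped ContDiff Manifold

theorem sq_of {m : Matrix (Fin 4) (Fin 4) ℝ} {j : E4 →L[ℝ] E4} (hm : ∀ a b, m a b = (j (bv b)) a)
    (hj : ∀ X, j (j X) = -X) : m * m = -1 := by
  ext i k
  have h1 := congrArg (fun Y : E4 => Y i) (hj (bv k))
  simp only [PiLp.neg_apply] at h1
  rw [clm_expand' j (j (bv k)) i, bv_apply] at h1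
  rw [Matrix.mul_apply, Fin.sum_univ_four, Matrix.neg_apply, Matrix.one_apply, ← h1]
  simp only [hm]

theorem psh_of_levi {J : Matrix (Fin 4) (Fin 4) SA} {S : Set E4} {j : E4 → E4 →L[ℝ] E4} {F : SA}
    {f : E4 → ℝ} (hd : ∀ y ∈ S, DifferentiableAt ℝ (ACS.dc j f) y) (hJ : ∀ y ∈ S, JEq J j y)
    (hF : ∀ y ∈ S, f =ᶠ[𝓝 y] F.1) (hl : ∀ y ∈ S, ∀ X, 0 ≤ ACS.levi j f y X) : Psh J S F := by
  intro y hy X
  have h1 := hl y hy (WithLp.toLp 2 X)
  rw [levi_eq (hd y hy) (hJ y hy) (hF y hy)] at h1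
  have h2 : (fun i => (WithLp.toLp 2 X : E4) i) = X := rfl
  rw [h2] at h1
  linarith

theorem spos_of_levi {J : Matrix (Fin 4) (Fin 4) SA} {S : Set E4} {j : E4 → E4 →L[ℝ] E4} {F : SA}
    {f : E4 → ℝ} (hd : ∀ y ∈ S, DifferentiableAt ℝ (ACS.dc j f) y) (hJ : ∀ y ∈ S, JEq J j y)
    (hF : ∀ y ∈ S, f =ᶠ[𝓝 y] F.1) (hl : ∀ y ∈ S, ∀ X, X ≠ 0 → 0 < ACS.levi j f y X) :
    ∀ y ∈ S, SPos (mv y J) (mv y (H2 J F)) := by
  intro y hy X hX
  have hX' : (WithLp.toLp 2 X : E4) ≠ 0 := by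
    intro h
    apply hX
    have := congrArg (WithLp.ofLp) h
    simpa using this
  have h1 := hl y hy (WithLp.toLp 2 X) hX'
  rw [levi_eq (hd y hy) (hJ y hy) (hF y hy)] at h1
  have h2 : (fun i => (WithLp.toLp 2 X : E4) i) = X := rfl
  rw [h2] at h1
  linarith

variable {E : Type*} [NormedAddCommGroup E] [InnerProductSpace ℝ E]
  {M : Type*} [TopologicalSpace M] [ChartedSpace E M] [MeasurableSpace M] [BorelSpace M]

theorem chart_measure {Ω : Set M} {μ ν : Measure M} (hfin : ∀ K ⊆ Ω, IsCompact K → μ K < ⊤)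
    (hle : ∀ B, MeasurableSet B → B ⊆ Ω → ν B ≤ μ B) (p : M) {U : Set M} (hU : IsOpen U)
    (hUΩ : U ⊆ Ω) (hUs : U ⊆ (chartAt E p).source) {φ : E → ℝ} (hφ : Continuous φ)
    (h0 : ∀ x, 0 ≤ φ x) (hc : HasCompactSupport φ) (hs : tsupport φ ⊆ chartAt E p '' U) :
    ∫ z in (chartAt E p).source, φ (chartAt E p z) ∂ν ≤
      ∫ z in (chartAt E p).source, φ (chartAt E p z) ∂μ := by
  set e := chartAt E p with he
  set T : Set M := {z | z ∈ U ∧ φ (e z) ≠ 0} with hT
  have hTo : IsOpen T := by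
    have h1 : ContinuousOn (fun z => φ (e z)) U := hφ.comp_continuousOn (e.continuousOn.mono hUs)
    have h2 : T = U ∩ (fun z => φ (e z)) ⁻¹' {0}ᶜ := by
      ext z; simp [hT]
    rw [h2]
    exact h1.isOpen_inter_preimage hU isOpen_compl_singleton
  have hTU : T ⊆ U := fun z hz => hz.1
  -- compact set containing `T`
  have hsub : T ⊆ e.symm '' tsupport φ := by
    intro z hz
    exact ⟨e z, subset_tsupport _ hz.2, e.left_inv (hUs hz.1)⟩
  have hcomp : IsCompact (e.symm '' tsupport φ) := by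
    apply hc.isCompact.image_of_continuousOn
    apply e.continuousOn_symm.mono
    intro y hy
    obtain ⟨z, hz, rfl⟩ := hs hy
    exact e.map_source (hUs hz)
  have hcΩ : e.symm '' tsupport φ ⊆ Ω := by
    rintro _ ⟨y, hy, rfl⟩
    obtain ⟨z, hz, rfl⟩ := hs hy
    rw [e.left_inv (hUs hz)]
    exact hUΩ hz
  have hTfin : μ T < ⊤ := (measure_mono hsub).trans_lt (hfin _ hcΩ hcomp)
  have hzero : ∀ z ∈ e.source \ T, φ (e z) = 0 := by
    intro z hz
    by_contra hcon
    apply hz.2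
    refine ⟨?_, hcon⟩
    obtain ⟨w, hw, hwz⟩ := hs (subset_tsupport _ hcon)
    have : w = z := e.injOn (hUs hw) hz.1 hwz
    rw [← this]; exact hw
  have hint : ∀ m : Measure M, ∫ z in e.source, φ (e z) ∂m = ∫ z in T, φ (e z) ∂m := fun m =>
    setIntegral_eq_of_subset_of_forall_sdiff_eq_zero e.open_source.measurableSet (hTU.trans hUs) hzero
  rw [hint, hint]
  have hres : ν.restrict T ≤ μ.restrict T := by
    rw [Measure.le_iff]
    intro B hB
    rw [Measure.restrict_apply hB, Measure.restrict_apply hB]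
    exact hle _ (hB.inter hTo.measurableSet) (inter_subset_right.trans (hTU.trans hUΩ))
  apply integral_mono_measure hres (Eventually.of_forall fun z => h0 _)
  -- integrability
  obtain ⟨B, hB⟩ := hφ.bounded_above_of_compact_support hc
  have hcont : ContinuousOn (fun z => φ (e z)) T :=
    hφ.comp_continuousOn (e.continuousOn.mono (hTU.trans hUs))
  have : IsFiniteMeasure (μ.restrict T) := ⟨by rwa [Measure.restrict_apply MeasurableSet.univ, univ_inter]⟩
  apply Integrable.of_bound (hcont.aestronglyMeasurable hTo.measurableSet) B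
  exact Eventually.of_forall fun z => hB _

end Pool.Agent.Y264
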