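import Pool.Agent.Y264.Man4

/-! The local theorem on an almost complex surface. -/

namespace Pool.Agent.Y264
open Matrix MeasureTheory Set Filter Topology
open scoped ContDiff Manifold

theorem jT_smooth {E : Type*} [NormedAddCommGroup E] [InnerProductSpace ℝ E] (L : E ≃ₗᵢ[ℝ] E4)
    {j : E → E →L[ℝ] E} {V : Set E} (hj : ContDiffOn ℝ ∞ j V) :
    ContDiffOn ℝ ∞ (jT L j) (L.symm ⁻¹' V) := by
  have h1 : ContDiffOn ℝ ∞ (fun y => j (L.symm y)) (L.symm ⁻¹' V) :=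
    hj.comp L.symm.contDiff.contDiffOn (fun y hy => hy)
  exact contDiffOn_const.clm_comp (h1.clm_comp contDiffOn_const)

variable {E : Type*} [NormedAddCommGroup E] [InnerProductSpace ℝ E] [FiniteDimensional ℝ E]
  [MeasurableSpace E] [BorelSpace E] (β : OrthonormalBasis (Fin 4) ℝ E)
  {M : Type*} [TopologicalSpace M] [ChartedSpace E M] [IsManifold 𝓘(ℝ, E) ∞ M]
  [MeasurableSpace M] [BorelSpace M]

theorem chart_thm (𝒥 : ACS.AlmostComplex E M) {Ω : Set M} {ρ : M → ℝ}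
    (hρ : ACS.SmoothStrictlyPsh 𝒥 Ω ρ) {u v : M → ℝ} (hu : ACS.IsPsh 𝒥 Ω u) (hv : ACS.IsPsh 𝒥 Ω v)
    {C : ℝ} (hub : ∀ x ∈ Ω, |u x| ≤ C) (hvb : ∀ x ∈ Ω, |v x| ≤ C) {μ ν : Measure M}
    (hμ : ACS.IsMongeAmpere 𝒥 β Ω u μ) (hν : ACS.IsMongeAmpere 𝒥 β Ω v ν)
    (hle : ∀ B, MeasurableSet B → B ⊆ Ω → ν B ≤ μ B) {ε : ℝ} (hε : 0 < ε)
    (hε1 : 2 * ε * (2 * (2 * C + 1) + 1) ≤ 1) {m : ℝ}
    (hm : ∀ x ∈ Ω, u x + ε * (ρ x + (u x + v x + 2 * C + 1) * (u x + v x + 2 * C + 1)) - v x ≤ m)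
    {p : M} (hp : p ∈ Ω) : ∃ N : Set M, IsOpen N ∧ p ∈ N ∧ ∃ δ > 0, ∀ x ∈ N,
      u x + ε * (ρ x + (u x + v x + 2 * C + 1) * (u x + v x + 2 * C + 1)) - v x ≤ m - δ := by
  have hC : 0 ≤ C := (abs_nonneg _).trans (hub p hp)
  obtain ⟨U1, hU1o, hpU1, hU1Ω, f, hf, hfd, hfl⟩ := hu p hp
  obtain ⟨U2, hU2o, hpU2, hU2Ω, g, hg, hgd, hgl⟩ := hv p hp
  obtain ⟨U3, hU3o, hpU3, hU3Ω, hU3s, F, hF⟩ := hμ.limit p hp
  obtain ⟨U4, hU4o, hpU4, hU4Ω, hU4s, H, hH⟩ := hν.limit p hp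
  set e := chartAt E p with he
  set L : E ≃ₗᵢ[ℝ] E4 := β.repr with hL
  set U : Set M := (U1 ∩ U2) ∩ (U3 ∩ U4) with hUdef
  have hUo : IsOpen U := (hU1o.inter hU2o).inter (hU3o.inter hU4o)
  have hpU : p ∈ U := ⟨⟨hpU1, hpU2⟩, hpU3, hpU4⟩
  have hUU1 : U ⊆ U1 := fun z hz => hz.1.1
  have hUU2 : U ⊆ U2 := fun z hz => hz.1.2
  have hUU3 : U ⊆ U3 := fun z hz => hz.2.1
  have hUU4 : U ⊆ U4 := fun z hz => hz.2.2
  have hUΩ : U ⊆ Ω := hUU1.trans hU1Ω
  have hps : p ∈ e.source := mem_chart_source _ p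
  set OE : Set E := e.target ∩ e.symm ⁻¹' U with hOEdef
  have hOE : IsOpen OE := e.isOpen_inter_preimage_symm hUo
  set O : Set E4 := L.symm ⁻¹' OE with hOdef
  have hO : IsOpen O := hOE.preimage L.symm.continuous
  set y0 : E4 := L (e p) with hy0
  have hy0O : y0 ∈ O := by
    change L.symm (L (e p)) ∈ OE
    rw [L.symm_apply_apply]
    exact ⟨e.map_source hps, by change e.symm (e p) ∈ U; rw [e.left_inv hps]; exact hpU⟩
  obtain ⟨r, hr0, hr⟩ := Metric.nhds_basis_closedBall.mem_iff.mp (hO.mem_nhds hy0O)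
  set R := r / 2 with hR
  have hR0 : 0 < R := by positivity
  have hSO : Metric.closedBall y0 R ⊆ O := (Metric.closedBall_subset_closedBall (by linarith)).trans hr
  set S := Metric.closedBall y0 R with hS
  have hSc : IsCompact S := isCompact_closedBall y0 R
  obtain ⟨χ, hχ, hχ1⟩ := exists_cut (isCompact_closedBall y0 r) (isCompact_closedBall y0 R)
    (by
      refine Subset.trans ?_ Metric.ball_subset_interior_closedBall
      exact Metric.closedBall_subset_ball (by linarith))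
  have hχO : tsupport χ.1 ⊆ O := (hχ.sub.trans interior_subset).trans hr
  have hχS : ∀ y ∈ S, ∀ᶠ z in 𝓝 y, χ.1 z = 1 := fun y hy => hχ1.filter_mono (nhds_le_nhdsSet hy)
  have hsmE : ∀ {h : M → ℝ}, ContMDiffOn 𝓘(ℝ, E) 𝓘(ℝ, ℝ) ∞ h U → ContDiffOn ℝ ∞ (h ∘ e.symm) OE :=
    fun hh => chart_smooth hh p
  have hsmO : ∀ {h : M → ℝ}, ContMDiffOn 𝓘(ℝ, E) 𝓘(ℝ, ℝ) ∞ h U →
      ContDiffOn ℝ ∞ ((h ∘ e.symm) ∘ L.symm) O :=
    fun hh => (hsmE hh).comp L.symm.contDiff.contDiffOn (fun y hy => hy)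
  -- endomorphism field
  set jE : E → E →L[ℝ] E := ACS.coordJ 𝒥.J p with hjE
  have hjEsm : ContDiffOn ℝ ∞ jE OE := (𝒥.smooth p).mono inter_subset_left
  set j : E4 → E4 →L[ℝ] E4 := jT L jE with hj
  have hjsm : ContDiffOn ℝ ∞ j O := jT_smooth L hjEsm
  have hdE : ∀ {h : M → ℝ}, ContMDiffOn 𝓘(ℝ, E) 𝓘(ℝ, ℝ) ∞ h U → ∀ y ∈ O,
      DifferentiableAt ℝ (ACS.dc jE (h ∘ e.symm)) (L.symm y) := fun hh y hy =>
    dc_differentiable hOE hjEsm (hsmE hh) hy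
  have hd4 : ∀ {h : M → ℝ}, ContMDiffOn 𝓘(ℝ, E) 𝓘(ℝ, ℝ) ∞ h U → ∀ y ∈ O,
      DifferentiableAt ℝ (ACS.dc j ((h ∘ e.symm) ∘ L.symm)) y := fun hh y hy =>
    dc_differentiable hO hjsm (hsmO hh) hy
  have hlev : ∀ {h : M → ℝ}, ContMDiffOn 𝓘(ℝ, E) 𝓘(ℝ, ℝ) ∞ h U → ∀ y ∈ O, ∀ X,
      ACS.levi j ((h ∘ e.symm) ∘ L.symm) y X = ACS.levi jE (h ∘ e.symm) (L.symm y) (L.symm X) :=
    fun hh y hy X => levi_T L (hdE hh y hy) X
  have hjik : ∀ i k, ContDiffOn ℝ ∞ (fun y => (j y (bv k)) i) O := by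
    intro i k
    have h1 : ContDiffOn ℝ ∞ (fun y => j y (bv k)) O := hjsm.clm_apply contDiffOn_const
    exact (EuclideanSpace.proj (𝕜 := ℝ) i).contDiff.comp_contDiffOn h1
  let J : Matrix (Fin 4) (Fin 4) SA := fun i k => extS χ (fun y => (j y (bv k)) i) hO hχO (hjik i k)
  have hJ : ∀ y ∈ S, JEq J j y := by
    intro y hy
    have h1 := hχS y hy
    filter_upwards [h1] with z hz i k
    change χ.1 z * _ = _
    rw [hz, one_mul]
  have hjj : ∀ y ∈ S, ∀ X, j y (j y X) = -X := by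
    intro y hy X
    rw [hj, jT_apply, jT_apply, L.symm_apply_apply, coordJ_sq 𝒥 p (hSO hy).1, map_neg,
      L.apply_symm_apply]
  have hsq : ∀ y ∈ S, mv y J * mv y J = -1 := fun y hy =>
    sq_of (j := j y) (fun a b => (hJ y hy).self_of_nhds a b) (hjj y hy)
  -- the reference function
  have hρU : ContMDiffOn 𝓘(ℝ, E) 𝓘(ℝ, ℝ) ∞ ρ U := hρ.smooth.mono hUΩ
  let ρ' : SA := extS χ ((ρ ∘ e.symm) ∘ L.symm) hO hχO (hsmO hρU)
  have hρ' : ∀ y ∈ S, ((ρ ∘ e.symm) ∘ L.symm) =ᶠ[𝓝 y] ρ'.1 := fun y hy => extS_eq (hχS y hy)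
  have hsp := spos_of_levi (S := S) (fun y hy => hd4 hρU y (hSO hy)) hJ hρ'
    (fun y hy X hX => by
      rw [hlev hρU y (hSO hy)]
      refine hρ.levi_pos p (L.symm y) (hSO hy).1 (hUΩ (hSO hy).2) _ ?_
      intro h
      exact hX (by rwa [map_eq_zero_iff _ L.symm.injective] at h))
  obtain ⟨σ, hσ⟩ := exists_sigma (convex_closedBall y0 R).isPreconnected hsq hsp
  have G : Geo J σ S ρ' := ⟨isCompact_closedBall y0 R, hsq, hσ, hsp⟩
  -- the decreasing sequences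
  have hseq : ∀ {w : M → ℝ} {W1 : Set M} {h : ℕ → M → ℝ}, (U ⊆ W1) → (∀ k, ACS.SmoothPsh 𝒥 W1 (h k)) →
      (∀ z ∈ W1, Antitone fun k => h k z) → (∀ z ∈ W1, Tendsto (fun k => h k z) atTop (𝓝 (w z))) →
      (∀ x ∈ Ω, |w x| ≤ C) → ∃ a : ℕ → SA, Seq J S (2 * C + 1) a ∧
        ∀ y ∈ S, Tendsto (fun k => (a k).1 y) atTop (𝓝 (w (e.symm (L.symm y)) + C)) := by
    intro w W1 h hUW hh hd hl hb
    let q : ℕ → SA := fun k => extS χ ((h k ∘ e.symm) ∘ L.symm) hO hχO (hsmO ((hh k).smooth.mono hUW))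
    have hq : ∀ k, ∀ y ∈ S, ((h k ∘ e.symm) ∘ L.symm) =ᶠ[𝓝 y] (q k).1 := fun k y hy => extS_eq (hχS y hy)
    have hqv : ∀ k, ∀ y ∈ S, (q k).1 y = h k (e.symm (L.symm y)) := fun k y hy =>
      ((hq k y hy).self_of_nhds).symm
    have hqd : ∀ l k, l ≤ k → ∀ y ∈ S, (q k).1 y ≤ (q l).1 y := by
      intro l k hlk y hy
      rw [hqv k y hy, hqv l y hy]
      exact hd _ (hUW (hSO hy).2) hlk
    have hql : ∀ y ∈ S, Tendsto (fun k => (q k).1 y) atTop (𝓝 (w (e.symm (L.symm y)))) := by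
      intro y hy
      refine (hl _ (hUW (hSO hy).2)).congr fun k => (hqv k y hy).symm
    have hqp : ∀ k, Psh J S (q k) := fun k =>
      psh_of_levi (fun y hy => hd4 ((hh k).smooth.mono hUW) y (hSO hy)) hJ
        (hq k) (fun y hy X => by
          rw [hlev ((hh k).smooth.mono hUW) y (hSO hy)]
          exact (hh k).levi_nonneg p (L.symm y) (hSO hy).1 (hUW (hSO hy).2) _)
    obtain ⟨k0, hk0⟩ := dini (isCompact_closedBall y0 R) (fun k => SA.cont (q k)) hqd hql (s := C + 1) (by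
      intro y hy
      have := (abs_le.mp (hb _ (hUΩ (hSO hy).2))).2
      linarith)
    refine ⟨fun k => q (k + k0) + cst C, ⟨fun k => ⟨(hqp (k + k0)).cst_add C, ?_⟩, ?_⟩, ?_⟩
    · intro y hy
      have h1 := hk0 (k + k0) (Nat.le_add_left _ _) y hy
      have h2 : w (e.symm (L.symm y)) ≤ (q (k + k0)).1 y :=
        le_of_tendsto (hql y hy) (eventually_atTop.mpr ⟨k + k0, fun l hl => hqd _ _ hl y hy⟩)
      have h3 := (abs_le.mp (hb _ (hUΩ (hSO hy).2))).1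
      rw [SA.add_val, cst_val]
      constructor <;> linarith
    · intro l k hlk y hy
      rw [SA.add_val, SA.add_val, cst_val]
      have := hqd (l + k0) (k + k0) (by omega) y hy
      linarith
    · intro y hy
      exact ((hql y hy).comp (tendsto_add_atTop_nat k0)).add_const C
  obtain ⟨a, ha, hal⟩ := hseq hUU1 hf hfd hfl hub
  obtain ⟨b, hb, hbl⟩ := hseq hUU2 hg hgd hgl hvb
  have hC0 : 0 ≤ 2 * C + 1 := by linarith
  -- image of `U` in the chart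
  have himg : ∀ {W1 : Set M}, U ⊆ W1 → OE ⊆ e '' W1 := by
    intro W1 hUW y hy
    exact ⟨e.symm y, hUW hy.2, e.right_inv hy.1⟩
  have hSOE : L.symm '' S ⊆ OE := by
    rintro _ ⟨y, hy, rfl⟩
    exact hSO hy
  have hSEc : IsCompact (L.symm '' S) := hSc.image L.symm.continuous
  -- transported test functions
  have hts : ∀ {Φ : SA}, tsupport Φ.1 ⊆ S → tsupport (Φ.1 ∘ L) ⊆ L.symm '' S := by
    intro Φ hΦ
    apply closure_minimal _ hSEc.isClosed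
    intro y hy
    refine ⟨L y, hΦ (subset_tsupport _ hy), L.symm_apply_apply y⟩
  have htc : ∀ {Φ : SA}, CS Φ → HasCompactSupport (Φ.1 ∘ L) := by
    intro Φ hΦ
    exact HasCompactSupport.comp_homeomorph hΦ L.toHomeomorph
  have hsm : ∀ {Φ : SA}, ContDiff ℝ ∞ (Φ.1 ∘ L) := fun {Φ} => (SA.cd Φ).comp L.contDiff
  -- one side of the Monge-Ampere limits
  have hside : ∀ {w : M → ℝ} {W1 : Set M} {h : ℕ → M → ℝ} {c : ℕ → SA} {m' : Measure M}, (U ⊆ W1) →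
      ACS.MALimit 𝒥 β p W1 h w m' →
      Seq J S (2 * C + 1) c → (∀ y ∈ S, Tendsto (fun k => (c k).1 y) atTop (𝓝 (w (e.symm (L.symm y)) + C))) →
      ∀ Φ : SA, CS Φ → tsupport Φ.1 ⊆ interior S →
        Tendsto (fun k => It (Φ * mix J σ (c k) (c k))) atTop
          (𝓝 (16 * ∫ z in e.source, (Φ.1 ∘ L) (e z) ∂m')) := by
    intro w W1 h c m' hUW hh hc hcl Φ hΦc hΦs
    have hSC := hh.sobolev (L.symm '' S) (hSOE.trans (himg hUW)) hSEc
    have hhU : ∀ k, ContMDiffOn 𝓘(ℝ, E) 𝓘(ℝ, ℝ) ∞ (h k) U := fun k => (hh.smooth k).mono hUW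
    let q : ℕ → SA := fun k => extS χ ((h k ∘ e.symm) ∘ L.symm) hO hχO (hsmO (hhU k))
    have hq : ∀ k, ∀ y ∈ S, ((h k ∘ e.symm) ∘ L.symm) =ᶠ[𝓝 y] (q k).1 := fun k y hy => extS_eq (hχS y hy)
    refine ma_side G hC0 hc (U := fun y => w (e.symm (L.symm y)) + C) hcl hJ
      (h := fun k => (h k ∘ e.symm) ∘ L.symm) (F := q) hq
      (fun k y hy => hd4 (hhU k) y (hSO hy)) C ?_ ?_ hΦc hΦs ?_
    · refine hSC.1.congr fun k => ?_
      refine (eLp_T L (fun y => ?_) hSc).symm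
      simp only [Function.comp_apply]
      congr 1
      ring
    · refine hSC.2.congr fun kl => ?_
      refine (eLp_T L (fun y => ?_) hSc).symm
      rw [fderiv_T, fderiv_T, ← ContinuousLinearMap.sub_comp, norm_comp_T]
    · refine (hh.weak (Φ.1 ∘ L) hsm (htc hΦc)
        ((hts (hΦs.trans interior_subset)).trans (hSOE.trans (himg hUW)))).congr fun k => ?_
      rw [← integral_T L]
      congr 1
      funext y
      simp only [Function.comp_apply, L.apply_symm_apply]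
      by_cases hy : Φ.1 y = 0
      · rw [hy, zero_mul, zero_mul]
      · have hyS : y ∈ S := interior_subset (hΦs (subset_tsupport _ hy))
        rw [← maDens_T β (hdE (hhU k) y (hSO hyS))]
  have hMA : MAle J σ S a b := by
    intro Φ h0 hΦc hΦs
    have hΦU : tsupport (Φ.1 ∘ L) ⊆ e '' U :=
      (hts (hΦs.trans interior_subset)).trans (hSOE.trans (himg Subset.rfl))
    refine ⟨_, _, ?_, hside hUU3 hF ha hal Φ hΦc hΦs, hside hUU4 hH hb hbl Φ hΦc hΦs⟩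
    have := chart_measure hμ.finite hle p hUo hUΩ (hUU3.trans hU3s) (φ := Φ.1 ∘ L)
      ((SA.cont Φ).comp L.continuous) (fun x => h0 _) (htc hΦc) hΦU
    linarith
  -- apply the local theorem
  obtain ⟨δ, hδ, hfin⟩ := local_thm hR0 G hC0 ha hb hal hbl hMA hε hε1 (M := m) (by
    intro y hy
    have h1 := hm _ (hUΩ (hSO hy).2)
    rw [← (hρ' y hy).self_of_nhds]
    simp only [Function.comp_apply]
    have e1 : u (e.symm (L.symm y)) + C + (v (e.symm (L.symm y)) + C) + 1 =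
      u (e.symm (L.symm y)) + v (e.symm (L.symm y)) + 2 * C + 1 := by ring
    rw [e1]
    linarith)
  refine ⟨e.source ∩ e ⁻¹' (L ⁻¹' Metric.ball y0 (R / 2)),
    e.isOpen_inter_preimage (Metric.isOpen_ball.preimage L.continuous),
    ⟨hps, Metric.mem_ball_self (by positivity)⟩, δ, hδ, ?_⟩
  intro x hx
  have hxs : x ∈ e.source := hx.1
  have hy : L (e x) ∈ Metric.closedBall y0 (R / 2) := Metric.ball_subset_closedBall hx.2
  have hyS : L (e x) ∈ S := Metric.closedBall_subset_closedBall (by linarith) hy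
  have h1 := hfin (L (e x)) hy
  rw [← (hρ' (L (e x)) hyS).self_of_nhds] at h1
  simp only [Function.comp_apply, L.symm_apply_apply, e.left_inv hxs] at h1
  have e1 : u x + C + (v x + C) + 1 = u x + v x + 2 * C + 1 := by ring
  rw [e1] at h1
  linarith

end Pool.Agent.Y264
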