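import Pool.Agent.Y264.Loc

/-! The formal adjoint of the Laplacian attached to the reference function. -/

namespace Pool.Agent.Y264
open Matrix MeasureTheory Set Filter Topology
open scoped ContDiff

/-- Components of the first order operator. -/
noncomputable def Xc (J : Matrix (Fin 4) (Fin 4) SA) (σ : ℝ) (ρ : SA) (i : Fin 4) : SA :=
  (-(2 * σ)) • tri (st J (fun k => if k = i then 1 else 0)) (H2 J ρ)

theorem Xr_eq (J : Matrix (Fin 4) (Fin 4) SA) (σ : ℝ) (ρ a : SA) : Xr J σ ρ a =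
    Xc J σ ρ 0 * D 0 a + Xc J σ ρ 1 * D 1 a + Xc J σ ρ 2 * D 2 a + Xc J σ ρ 3 * D 3 a := by
  simp only [Xr, Xc, dc, tri, st, gr, smul_SA]
  generalize H2 J ρ = H
  have h01 : ((0:Fin 4) = 1) = False := by simp
  have h02 : ((0:Fin 4) = 2) = False := by simp
  have h03 : ((0:Fin 4) = 3) = False := by simp
  have h10 : ((1:Fin 4) = 0) = False := by simp
  have h12 : ((1:Fin 4) = 2) = False := by decide
  have h13 : ((1:Fin 4) = 3) = False := by decide
  have h20 : ((2:Fin 4) = 0) = False := by decide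
  have h21 : ((2:Fin 4) = 1) = False := by decide
  have h23 : ((2:Fin 4) = 3) = False := by decide
  have h30 : ((3:Fin 4) = 0) = False := by decide
  have h31 : ((3:Fin 4) = 1) = False := by decide
  have h32 : ((3:Fin 4) = 2) = False := by decide
  simp only [h01, h02, h03, h10, h12, h13, h20, h21, h23, h30, h31, h32, if_true, if_false]
  ring

/-- The divergence of the first order operator. -/
noncomputable def dv (J : Matrix (Fin 4) (Fin 4) SA) (σ : ℝ) (ρ : SA) : SA :=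
  D 0 (Xc J σ ρ 0) + D 1 (Xc J σ ρ 1) + D 2 (Xc J σ ρ 2) + D 3 (Xc J σ ρ 3)

theorem It_Xr (J : Matrix (Fin 4) (Fin 4) SA) (σ : ℝ) (ρ : SA) {f : SA} (hf : CS f) :
    It (Xr J σ ρ f) = -It (f * dv J σ ρ) := by
  have e : Xr J σ ρ f = (D 0 (f * Xc J σ ρ 0) + D 1 (f * Xc J σ ρ 1) + D 2 (f * Xc J σ ρ 2)
      + D 3 (f * Xc J σ ρ 3)) - f * dv J σ ρ := by
    rw [Xr_eq, dv]; simp only [D_mul]; ring
  have h : ∀ i, CS (D i (f * Xc J σ ρ i)) := fun i => (hf.mul_right _).D i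
  rw [e, It_sub ((((h 0).add (h 1)).add (h 2)).add (h 3)) (hf.mul_right _),
    It_add (((h 0).add (h 1)).add (h 2)) (h 3), It_add ((h 0).add (h 1)) (h 2),
    It_add (h 0) (h 1), It_D _ (hf.mul_right _), It_D _ (hf.mul_right _), It_D _ (hf.mul_right _),
    It_D _ (hf.mul_right _)]
  ring

/-- The formal adjoint. -/
noncomputable def Lst (J : Matrix (Fin 4) (Fin 4) SA) (σ : ℝ) (ρ Φ : SA) : SA :=
  mix J σ Φ ρ + (2 : ℝ) • Xr J σ ρ Φ + Φ * dv J σ ρ

theorem Sup.Xr {J : Matrix (Fin 4) (Fin 4) SA} {σ : ℝ} {S : Set E4} {ρ Φ : SA} (h : Sup S Φ) :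
    Sup S (Xr J σ ρ Φ) := by
  rw [Xr_eq]
  exact ((((h.D 0).mul_left _).add ((h.D 1).mul_left _)).add ((h.D 2).mul_left _)).add
    ((h.D 3).mul_left _)

theorem Sup.mix_l {J : Matrix (Fin 4) (Fin 4) SA} {σ : ℝ} {S : Set E4} {Φ : SA} (h : Sup S Φ) (b : SA) :
    Sup S (mix J σ Φ b) := (sup_wd_left (sup_H2' h)).smul σ
where
  sup_H2' {J : Matrix (Fin 4) (Fin 4) SA} {S : Set E4} {Φ : SA} (h : Sup S Φ) (i j : Fin 4) :
      Sup S (H2 J Φ i j) := by
    have hdc : ∀ j, Sup S (dc J Φ j) := fun j => by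
      simp only [dc, st]
      exact (((((h.D 0).mul_left _).add ((h.D 1).mul_left _)).add ((h.D 2).mul_left _)).add
        ((h.D 3).mul_left _)).neg
    have hom : ∀ i j, Sup S (om J Φ i j) := fun i j => ((hdc j).D i).sub' ((hdc i).D j)
    refine (hom i j).add ?_
    rw [Matrix.mul_apply]
    refine sup_sum fun k => ?_
    refine Sup.mul_right ?_ _
    rw [Matrix.mul_apply]
    refine sup_sum fun l => ?_
    exact (hom l k).mul_left _
  sup_sum {S : Set E4} {f : Fin 4 → SA} (h : ∀ k, Sup S (f k)) : Sup S (∑ k, f k) := by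
    rw [Fin.sum_univ_four]
    exact (((h 0).add (h 1)).add (h 2)).add (h 3)

variable {J : Matrix (Fin 4) (Fin 4) SA} {σ : ℝ} {S : Set E4} {ρ : SA} (G : Geo J σ S ρ)
include G

theorem It_adj {Φ : SA} (hΦ : Sup S Φ) (w : SA) :
    It (Φ * mix J σ w ρ) = It (w * Lst J σ ρ Φ) := by
  have h1 := It_YY G Φ w (Or.inl ⟨hΦ.cs, hΦ.sub⟩)
  have h2 := It_YY G w Φ (Or.inr ⟨hΦ.cs, hΦ.sub⟩)
  have h3 : It (Gam J σ ρ Φ w) = It (Gam J σ ρ w Φ) := by
    have : (Gam J σ ρ Φ w).1 = (Gam J σ ρ w Φ).1 := by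
      funext x
      by_cases hx : x ∈ S
      · exact Gam_symm G hx ρ Φ w
      · have hx' : x ∉ tsupport Φ.1 := fun h => hx (hΦ.sub h)
        have e1 : vv x (gr Φ) = 0 := by ext i; exact D_val_zero i hx'
        have e2 : st (mv x J) (0 : Fin 4 → ℝ) = 0 := by ext j; simp [st]
        have e3 : ∀ q : Fin 4 → ℝ, wg (0 : Fin 4 → ℝ) q = 0 := by intro q; ext i j; simp [wg]
        have e4 : ∀ q : Fin 4 → ℝ, wg q (0 : Fin 4 → ℝ) = 0 := by intro q; ext i j; simp [wg]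
        rw [Gam_val, Gam_val, e1, e2, e3, e4]
    unfold It; rw [this]
  have h4 := It_Xr J σ ρ (hΦ.cs.mul_right w)
  rw [Xr_mul] at h4
  have c1 : CS (Φ * mix J σ w ρ) := hΦ.cs.mul_right _
  have c2 : CS (Gam J σ ρ Φ w) := (hΦ.Gam_l ρ w).cs
  have c3 : CS (Φ * Xr J σ ρ w) := hΦ.cs.mul_right _
  have c4 : CS (w * mix J σ Φ ρ) := (hΦ.mix_l ρ).cs.mul_left _
  have c6 : CS (w * Xr J σ ρ Φ) := hΦ.Xr.cs.mul_left _
  have c5 : CS (Gam J σ ρ w Φ) := by
    have e : Gam J σ ρ w Φ = YY J σ ρ w Φ - w * mix J σ Φ ρ - w * Xr J σ ρ Φ := by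
      rw [YY]; ring
    have e2 : Sup S (Gam J σ ρ w Φ) := by
      have hd : ∀ j, Sup S (dc J Φ j) := fun j => by
        simp only [dc, st]
        exact (((((hΦ.D 0).mul_left _).add ((hΦ.D 1).mul_left _)).add ((hΦ.D 2).mul_left _)).add
          ((hΦ.D 3).mul_left _)).neg
      refine (sup_wd_left fun i j => ?_).smul _
      exact ((hd j).mul_left _).sub' ((hd i).mul_left _)
    exact e2.cs
  rw [YY, It_add (c1.add c2) c3, It_add c1 c2] at h1
  rw [YY, It_add (c4.add c5) c6, It_add c4 c5] at h2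
  rw [It_add c3 c6] at h4
  have e : w * Lst J σ ρ Φ = w * mix J σ Φ ρ + (2 : ℝ) • (w * Xr J σ ρ Φ) + Φ * w * dv J σ ρ := by
    rw [Lst, smul_SA, smul_SA]; ring
  rw [e, It_add (c4.add (c6.smul _)) ((hΦ.cs.mul_right _).mul_right _), It_add c4 (c6.smul _), It_smul]
  linarith

end Pool.Agent.Y264
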