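import Pool.Agent.Y264.Par1

/-! A quadratic polynomial adapted to the principal part. -/

namespace Pool.Agent.Y264
open Matrix MeasureTheory Set Filter Topology
open scoped ContDiff

/-- Centred coordinate functions. -/
noncomputable def yv (z : E4) (i : Fin 4) : SA := ⟨fun x => x i - z i, by
  change ContDiff ℝ ∞ (fun x : E4 => x i - z i)
  exact (contDiff_piLp_apply (p := 2) (i := i)).sub contDiff_const⟩

theorem yv_val (z : E4) (i : Fin 4) (x : E4) : (yv z i).1 x = x i - z i := rfl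

theorem D_yv (z : E4) (i j : Fin 4) : D j (yv z i) = if j = i then 1 else 0 := by
  apply SA.ext'; intro x
  have h : HasFDerivAt (fun y : E4 => y i - z i) (EuclideanSpace.proj i : E4 →L[ℝ] ℝ) x :=
    (EuclideanSpace.proj (𝕜 := ℝ) i).hasFDerivAt.sub_const (z i)
  rw [D_val]
  change fderiv ℝ (fun y : E4 => y i - z i) x (bv j) = _
  rw [h.fderiv]
  by_cases hij : j = i
  · subst hij; simp [bv, SA.one_val]
  · rw [if_neg hij]
    have : i ≠ j := fun h => hij h.symm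
    simp [bv, this, SA.zero_val]

/-- Linear functions. -/
noncomputable def lin (z : E4) (p : Fin 4 → ℝ) : SA :=
  p 0 • yv z 0 + p 1 • yv z 1 + p 2 • yv z 2 + p 3 • yv z 3

theorem lin_val (z : E4) (p : Fin 4 → ℝ) (x : E4) : (lin z p).1 x =
    p 0 * (x 0 - z 0) + p 1 * (x 1 - z 1) + p 2 * (x 2 - z 2) + p 3 * (x 3 - z 3) := rfl

theorem gr_lin (z : E4) (p : Fin 4 → ℝ) (x : E4) : vv x (gr (lin z p)) = p := by
  have h01 : ((0:Fin 4) = 1) = False := by simp
  have h02 : ((0:Fin 4) = 2) = False := by simp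
  have h03 : ((0:Fin 4) = 3) = False := by simp
  have h10 : ((1:Fin 4) = 0) = False := by simp
  have h12 : ((1:Fin 4) = 2) = False := by decide
  have h13 : ((1:Fin 4) = 3) = False := by decide
  have h20 : ((2:Fin 4) = 0) = False := by decide
  have h21 : ((2:Fin 4) = 1) = False := by decide
  have h23 : ((2:Fin 4) = 3) = False := by decide
  have h30 : ((3:Fin 4) = 0) = False := by decide
  have h31 : ((3:Fin 4) = 1) = False := by decide
  have h32 : ((3:Fin 4) = 2) = False := by decide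
  ext j
  change (D j (lin z p)).1 x = p j
  simp only [lin, D_add, D_smul, D_yv, SA.add_val, SA.smul_val]
  fin_cases j <;> simp only [Fin.zero_eta, Fin.mk_one, Fin.reduceFinMk, h01, h02, h03, h10, h12, h13, h20, h21, h23, h30, h31, h32, if_true, if_false, SA.one_val, SA.zero_val] <;> ring

open scoped MatrixOrder ComplexOrder Matrix.Norms.L2Operator in
theorem exists_normal {A : Matrix (Fin 4) (Fin 4) ℝ} (hA : A.PosDef) :
    ∃ P Q : Matrix (Fin 4) (Fin 4) ℝ, P * A * Pᵀ = 1 ∧ Q * P = 1 := by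
  obtain ⟨B, hB⟩ := CStarAlgebra.nonneg_iff_eq_star_mul_self.mp hA.posSemidef.nonneg
  have hB' : A = Bᵀ * B := by
    rw [hB, Matrix.star_eq_conjTranspose, Matrix.conjTranspose_eq_transpose_of_trivial]
  have hd : IsUnit B.det := by
    have h1 : A.det ≠ 0 := hA.det_pos.ne'
    rw [hB', Matrix.det_mul] at h1
    exact isUnit_iff_ne_zero.mpr (right_ne_zero_of_mul h1)
  refine ⟨(B⁻¹)ᵀ, Bᵀ, ?_, ?_⟩
  · rw [hB', Matrix.transpose_transpose]
    have h1 : (B⁻¹)ᵀ * Bᵀ = 1 := by rw [← Matrix.transpose_mul, Matrix.mul_nonsing_inv B hd, Matrix.transpose_one]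
    calc (B⁻¹)ᵀ * (Bᵀ * B) * B⁻¹ = ((B⁻¹)ᵀ * Bᵀ) * (B * B⁻¹) := by simp only [Matrix.mul_assoc]
      _ = 1 := by rw [h1, Matrix.mul_nonsing_inv B hd, Matrix.one_mul]
  · rw [← Matrix.transpose_mul, Matrix.nonsing_inv_mul B hd, Matrix.transpose_one]

theorem lip_bound (z : E4) (R : ℝ) (f : SA) : ∃ C, 0 ≤ C ∧ ∀ x ∈ Metric.closedBall z R,
    |f.1 x - f.1 z| ≤ C * ‖x - z‖ := by
  obtain ⟨C, hC⟩ := (isCompact_closedBall z R).exists_bound_of_continuousOn
    (f := fderiv ℝ f.1) ((SA.cd f).continuous_fderiv (by simp)).continuousOn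
  refine ⟨|C|, abs_nonneg _, fun x hx => ?_⟩
  have hz : z ∈ Metric.closedBall z R := by
    rw [Metric.mem_closedBall, dist_self]
    exact dist_nonneg.trans (Metric.mem_closedBall.mp hx)
  exact Convex.norm_image_sub_le_of_norm_fderiv_le (𝕜 := ℝ) (s := Metric.closedBall z R)
    (fun y _ => SA.diffAt f y) (fun y hy => (hC y hy).trans (le_abs_self C))
    (convex_closedBall z R) hz hx

theorem norm_sq_E4 (y : E4) : ‖y‖ ^ 2 = y 0 ^ 2 + y 1 ^ 2 + y 2 ^ 2 + y 3 ^ 2 := by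
  rw [EuclideanSpace.norm_sq_eq, Fin.sum_univ_four]
  simp

theorem Xr_add (J : Matrix (Fin 4) (Fin 4) SA) (σ : ℝ) (ρ a b : SA) :
    Xr J σ ρ (a + b) = Xr J σ ρ a + Xr J σ ρ b := by
  rw [Xr_eq, Xr_eq, Xr_eq]; simp only [D_add]; ring

variable {J : Matrix (Fin 4) (Fin 4) SA} {σ : ℝ} {ρ : SA} {z : E4} {R : ℝ}
  (G : Geo J σ (Metric.closedBall z R) ρ)
include G

theorem exists_quad (hR : 0 < R) : ∃ t : SA, ∃ C, 0 < C ∧ (∀ x, ‖x - z‖ ^ 2 ≤ C * t.1 x) ∧
    (∀ x, t.1 x ≤ C * ‖x - z‖ ^ 2) ∧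
    (∀ x ∈ Metric.closedBall z R, |(mix J σ t ρ).1 x - 8| ≤ C * ‖x - z‖) ∧
    (∀ x ∈ Metric.closedBall z R, |(Gam J σ ρ t t).1 x - 4 * t.1 x| ≤ C * ‖x - z‖ ^ 3) ∧
    (∀ x ∈ Metric.closedBall z R, |(Xr J σ ρ t).1 x| ≤ C * ‖x - z‖) ∧
    (∀ f : SA, (Gam J σ ρ f t).1 z = 0) := by
  have hz : z ∈ Metric.closedBall z R := Metric.mem_closedBall_self hR.le
  set j := mv z J with hj
  set H := mv z (H2 J ρ) with hH
  -- the principal matrix
  let A : Matrix (Fin 4) (Fin 4) ℝ := fun i k =>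
    2 * σ * wd (wg (fun m => if m = i then 1 else 0) (st j (fun m => if m = k then 1 else 0))) H
  have h01 : ((0:Fin 4) = 1) = False := by simp
  have h02 : ((0:Fin 4) = 2) = False := by simp
  have h03 : ((0:Fin 4) = 3) = False := by simp
  have h10 : ((1:Fin 4) = 0) = False := by simp
  have h12 : ((1:Fin 4) = 2) = False := by decide
  have h13 : ((1:Fin 4) = 3) = False := by decide
  have h20 : ((2:Fin 4) = 0) = False := by decide
  have h21 : ((2:Fin 4) = 1) = False := by decide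
  have h23 : ((2:Fin 4) = 3) = False := by decide
  have h30 : ((3:Fin 4) = 0) = False := by decide
  have h31 : ((3:Fin 4) = 1) = False := by decide
  have h32 : ((3:Fin 4) = 2) = False := by decide
  have hA : ∀ p q : Fin 4 → ℝ, p ⬝ᵥ (A *ᵥ q) = 2 * σ * wd (wg p (st j q)) H := by
    intro p q
    simp only [dotProduct, Matrix.mulVec, Fin.sum_univ_four, A, wd, wg, st,
      h01, h02, h03, h10, h12, h13, h20, h21, h23, h30, h31, h32, if_true, if_false]
    ring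
  have hAG : ∀ p q : Fin 4 → ℝ, p ⬝ᵥ (A *ᵥ q) = (Gam J σ ρ (lin z p) (lin z q)).1 z := by
    intro p q
    rw [hA, Gam_val, gr_lin, gr_lin]
  obtain ⟨c, hc, hlow⟩ := exists_Gam_lower G
  have hsym : Aᵀ = A := by
    ext i k
    have h1 : ∀ i k, A i k = (fun m => if m = i then (1:ℝ) else 0) ⬝ᵥ (A *ᵥ (fun m => if m = k then 1 else 0)) := by
      intro i k
      simp [dotProduct, Matrix.mulVec]
    rw [Matrix.transpose_apply, h1 k i, h1 i k, hAG, hAG, Gam_symm G hz]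
  have hpd : A.PosDef := by
    apply Matrix.PosDef.of_dotProduct_mulVec_pos
    · rw [Matrix.IsHermitian, Matrix.conjTranspose_eq_transpose_of_trivial, hsym]
    · intro p hp
      rw [star_trivial, hAG]
      have h1 := hlow z hz (lin z p)
      have h2 : (g2 (lin z p)).1 z = p ⬝ᵥ p := by rw [g2_val, gr_lin]
      have h3 : 0 < p ⬝ᵥ p := by
        rcases (dot_self_nonneg p).lt_or_eq with h | h
        · exact h
        · exact absurd (dotProduct_self_eq_zero.mp h.symm) hp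
      rw [h2] at h1
      exact lt_of_lt_of_le (by positivity) h1
  obtain ⟨P, Q, hP, hQ⟩ := exists_normal hpd
  let ℓ : Fin 4 → SA := fun k => lin z (P k)
  have hℓz : ∀ k, (ℓ k).1 z = 0 := fun k => by simp [ℓ, lin_val]
  have hΓz : ∀ k m, (Gam J σ ρ (ℓ k) (ℓ m)).1 z = if k = m then 1 else 0 := by
    intro k m
    rw [← hAG]
    have h1 : P k ⬝ᵥ (A *ᵥ P m) = (P * A * Pᵀ) k m := by
      rw [Matrix.mul_assoc, Matrix.mul_apply, dotProduct]
      apply Finset.sum_congr rfl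
      intro i _
      rw [Matrix.mul_apply, Matrix.mulVec, dotProduct]
      rfl
    rw [h1, hP, Matrix.one_apply]
  set t : SA := ℓ 0 * ℓ 0 + ℓ 1 * ℓ 1 + ℓ 2 * ℓ 2 + ℓ 3 * ℓ 3 with ht
  have htv : ∀ x, t.1 x = (ℓ 0).1 x * (ℓ 0).1 x + (ℓ 1).1 x * (ℓ 1).1 x + (ℓ 2).1 x * (ℓ 2).1 x
      + (ℓ 3).1 x * (ℓ 3).1 x := fun x => rfl
  -- bounds on the linear functions
  have hB : ∃ B, 0 < B ∧ ∀ x k, |(ℓ k).1 x| ≤ B * ‖x - z‖ := by
    refine ⟨1 + ∑ k, ∑ i, |P k i|, by positivity, ?_⟩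
    intro x k
    have h1 : ∀ i : Fin 4, |x i - z i| ≤ ‖x - z‖ := by
      intro i
      have := EuclideanSpace.norm_eq (x - z)
      have h2 : |x i - z i| ^ 2 ≤ ‖x - z‖ ^ 2 := by
        rw [norm_sq_E4]
        simp only [PiLp.sub_apply]
        rw [sq_abs]
        fin_cases i <;> simp only [Fin.zero_eta, Fin.mk_one, Fin.reduceFinMk] <;>
          nlinarith [sq_nonneg (x 0 - z 0), sq_nonneg (x 1 - z 1), sq_nonneg (x 2 - z 2), sq_nonneg (x 3 - z 3)]
      exact le_of_sq_le_sq h2 (norm_nonneg _)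
    have h2 : |(ℓ k).1 x| ≤ ∑ i, |P k i| * |x i - z i| := by
      have : (ℓ k).1 x = ∑ i, P k i * (x i - z i) := by
        simp only [ℓ, lin_val, Fin.sum_univ_four]
      rw [this]
      refine (Finset.abs_sum_le_sum_abs _ _).trans (le_of_eq ?_)
      simp only [abs_mul]
    have h3 : ∑ i, |P k i| * |x i - z i| ≤ (∑ i, |P k i|) * ‖x - z‖ := by
      rw [Finset.sum_mul]
      exact Finset.sum_le_sum fun i _ => mul_le_mul_of_nonneg_left (h1 i) (abs_nonneg _)
    have h4 : ∑ i, |P k i| ≤ 1 + ∑ k, ∑ i, |P k i| := by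
      have := Finset.single_le_sum (f := fun k => ∑ i, |P k i|) (fun i _ => by positivity) (Finset.mem_univ k)
      linarith
    exact h2.trans (h3.trans (mul_le_mul_of_nonneg_right h4 (norm_nonneg _)))
  obtain ⟨B, hB0, hB⟩ := hB
  -- the inverse bound
  have hQb : ∃ C, 0 < C ∧ ∀ x, ‖x - z‖ ^ 2 ≤ C * t.1 x := by
    refine ⟨1 + ∑ i, ∑ k, Q i k ^ 2, by positivity, ?_⟩
    intro x
    have h1 : ∀ i, x i - z i = ∑ k, Q i k * (ℓ k).1 x := by
      intro i
      have h2 : ∀ k, (ℓ k).1 x = (P *ᵥ (fun m => x m - z m)) k := by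
        intro k
        simp only [ℓ, lin_val, Matrix.mulVec, dotProduct, Fin.sum_univ_four]
      have h3 : (Q *ᵥ (P *ᵥ (fun m => x m - z m))) i = x i - z i := by
        rw [Matrix.mulVec_mulVec, hQ, Matrix.one_mulVec]
      rw [← h3, Matrix.mulVec, dotProduct]
      simp only [h2]
    have h4 : ∀ i, (x i - z i) ^ 2 ≤ (∑ k, Q i k ^ 2) * t.1 x := by
      intro i
      rw [h1 i]
      have h5 := Finset.sum_mul_sq_le_sq_mul_sq Finset.univ (Q i) (fun k => (ℓ k).1 x)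
      refine h5.trans (le_of_eq ?_)
      congr 1
      rw [htv, Fin.sum_univ_four]; ring
    have ht0 : 0 ≤ t.1 x := by
      rw [htv]
      have := mul_self_nonneg ((ℓ 0).1 x)
      have := mul_self_nonneg ((ℓ 1).1 x)
      have := mul_self_nonneg ((ℓ 2).1 x)
      have := mul_self_nonneg ((ℓ 3).1 x)
      linarith
    rw [norm_sq_E4]
    simp only [PiLp.sub_apply]
    have e : (∑ i, ∑ k, Q i k ^ 2) = (∑ k, Q 0 k ^ 2) + (∑ k, Q 1 k ^ 2) + (∑ k, Q 2 k ^ 2)
        + (∑ k, Q 3 k ^ 2) := Fin.sum_univ_four _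
    rw [e]
    linarith [h4 0, h4 1, h4 2, h4 3]
  obtain ⟨C1, hC10, hC1⟩ := hQb
  -- Laplacian at the centre
  have hmix0 : (mix J σ t ρ).1 z = 8 := by
    rw [ht]
    simp only [mix_add_left, SA.add_val, mix_mul G hz, hℓz, hΓz, if_true]
    ring
  obtain ⟨C2, hC20, hC2⟩ := lip_bound z R (mix J σ t ρ)
  have hXr0 : (Xr J σ ρ t).1 z = 0 := by
    rw [ht]
    simp only [Xr_add, Xr_mul, SA.add_val, SA.mul_val, hℓz]
    ring
  obtain ⟨C3, hC30, hC3⟩ := lip_bound z R (Xr J σ ρ t)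
  -- the cubic estimate
  have hΓb : ∃ C, 0 ≤ C ∧ ∀ k m, ∀ x ∈ Metric.closedBall z R,
      |(Gam J σ ρ (ℓ k) (ℓ m)).1 x - (if k = m then 1 else 0)| ≤ C * ‖x - z‖ := by
    choose C hC using fun k m => lip_bound z R (Gam J σ ρ (ℓ k) (ℓ m))
    refine ⟨∑ k, ∑ m, C k m, Finset.sum_nonneg fun k _ => Finset.sum_nonneg fun m _ => (hC k m).1, ?_⟩
    intro k m x hx
    have h1 := (hC k m).2 x hx
    rw [hΓz] at h1
    refine h1.trans (mul_le_mul_of_nonneg_right ?_ (norm_nonneg _))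
    have h2 : C k m ≤ ∑ m, C k m := Finset.single_le_sum (f := fun m => C k m)
      (fun m _ => (hC k m).1) (Finset.mem_univ m)
    have h3 : ∑ m, C k m ≤ ∑ k, ∑ m, C k m := Finset.single_le_sum (f := fun k => ∑ m, C k m)
      (fun k _ => Finset.sum_nonneg fun m _ => (hC k m).1) (Finset.mem_univ k)
    exact h2.trans h3
  obtain ⟨C4, hC40, hC4⟩ := hΓb
  have hΓt : ∀ x, (Gam J σ ρ t t).1 x = ∑ k, ∑ m, 4 * ((ℓ k).1 x * (ℓ m).1 x * (Gam J σ ρ (ℓ k) (ℓ m)).1 x) := by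
    intro x
    rw [ht]
    simp only [Gam_add_l, Gam_add_r, Gam_mul_l, Gam_mul_r, SA.add_val, SA.mul_val, Fin.sum_univ_four]
    ring
  have hΓ3 : ∀ x ∈ Metric.closedBall z R, |(Gam J σ ρ t t).1 x - 4 * t.1 x| ≤
      64 * (B ^ 2 * C4) * ‖x - z‖ ^ 3 := by
    intro x hx
    have e : (Gam J σ ρ t t).1 x - 4 * t.1 x = ∑ k, ∑ m, 4 * ((ℓ k).1 x * (ℓ m).1 x *
        ((Gam J σ ρ (ℓ k) (ℓ m)).1 x - (if k = m then 1 else 0))) := by
      rw [hΓt, htv]
      simp only [Fin.sum_univ_four, h01, h02, h03, h10, h12, h13, h20, h21, h23, h30, h31, h32, if_true, if_false]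
      ring
    rw [e]
    have hb : ∀ k m, |4 * ((ℓ k).1 x * (ℓ m).1 x *
        ((Gam J σ ρ (ℓ k) (ℓ m)).1 x - (if k = m then 1 else 0)))| ≤ 4 * (B ^ 2 * C4) * ‖x - z‖ ^ 3 := by
      intro k m
      rw [abs_mul, abs_mul, abs_mul]
      have h1 := hB x k
      have h2 := hB x m
      have h3 := hC4 k m x hx
      have h4 : |(4:ℝ)| = 4 := by norm_num
      rw [h4]
      calc 4 * (|(ℓ k).1 x| * |(ℓ m).1 x| * |(Gam J σ ρ (ℓ k) (ℓ m)).1 x - (if k = m then 1 else 0)|)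
          ≤ 4 * ((B * ‖x - z‖) * (B * ‖x - z‖) * (C4 * ‖x - z‖)) := by
            apply mul_le_mul_of_nonneg_left _ (by norm_num)
            apply mul_le_mul _ h3 (abs_nonneg _) (by positivity)
            exact mul_le_mul h1 h2 (abs_nonneg _) (by positivity)
        _ = _ := by ring
    refine (Finset.abs_sum_le_sum_abs _ _).trans ?_
    have : ∀ k : Fin 4, |∑ m, 4 * ((ℓ k).1 x * (ℓ m).1 x *
        ((Gam J σ ρ (ℓ k) (ℓ m)).1 x - (if k = m then 1 else 0)))| ≤ 4 * (4 * (B ^ 2 * C4) * ‖x - z‖ ^ 3) := by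
      intro k
      refine (Finset.abs_sum_le_sum_abs _ _).trans ?_
      refine (Finset.sum_le_sum fun m _ => hb k m).trans (le_of_eq ?_)
      simp
    refine (Finset.sum_le_sum fun k _ => this k).trans (le_of_eq ?_)
    simp; ring
  -- upper bound
  have htu : ∀ x, t.1 x ≤ 4 * B ^ 2 * ‖x - z‖ ^ 2 := by
    intro x
    have h : ∀ k, (ℓ k).1 x * (ℓ k).1 x ≤ B ^ 2 * ‖x - z‖ ^ 2 := by
      intro k
      have h1 := hB x k
      have h2 : (ℓ k).1 x * (ℓ k).1 x = |(ℓ k).1 x| ^ 2 := by rw [sq_abs]; ring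
      rw [h2, ← mul_pow]
      exact pow_le_pow_left₀ (abs_nonneg _) h1 2
    rw [htv]
    linarith [h 0, h 1, h 2, h 3]
  refine ⟨t, C1 + 4 * B ^ 2 + C2 + C3 + 64 * (B ^ 2 * C4), by positivity, ?_, ?_, ?_, ?_, ?_, ?_⟩
  · intro x
    have h0 : 0 ≤ t.1 x := by
      have := hC1 x
      by_contra hcon
      push Not at hcon
      nlinarith [sq_nonneg ‖x - z‖]
    refine (hC1 x).trans (mul_le_mul_of_nonneg_right ?_ h0)
    have : 0 ≤ B ^ 2 * C4 := by positivity
    nlinarith [sq_nonneg B]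
  · intro x
    refine (htu x).trans (mul_le_mul_of_nonneg_right ?_ (sq_nonneg _))
    have : 0 ≤ B ^ 2 * C4 := by positivity
    linarith
  · intro x hx
    have h1 := hC2 x hx
    rw [hmix0] at h1
    refine h1.trans (mul_le_mul_of_nonneg_right ?_ (norm_nonneg _))
    have : 0 ≤ B ^ 2 * C4 := by positivity
    nlinarith [sq_nonneg B]
  · intro x hx
    refine (hΓ3 x hx).trans (mul_le_mul_of_nonneg_right ?_ (by positivity))
    nlinarith [sq_nonneg B]
  · intro x hx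
    have h1 := hC3 x hx
    rw [hXr0, sub_zero] at h1
    refine h1.trans (mul_le_mul_of_nonneg_right ?_ (norm_nonneg _))
    have : 0 ≤ B ^ 2 * C4 := by positivity
    nlinarith [sq_nonneg B]
  · intro f
    rw [ht]
    simp only [Gam_add_r, Gam_mul_r, SA.add_val, SA.mul_val, hℓz]
    ring

end Pool.Agent.Y264
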