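import Pool.Agent.Y264.Par2

/-! The parametrix and the mean value estimate for subsolutions. -/

namespace Pool.Agent.Y264
open Matrix MeasureTheory Set Filter Topology
open scoped ContDiff

/-- The kernel `1 / (t + τ)`. -/
noncomputable def Fk (t : SA) (ht : ∀ x, 0 ≤ t.1 x) (τ : ℝ) (hτ : 0 < τ) : SA :=
  ⟨fun x => (t.1 x + τ)⁻¹, by
    change ContDiff ℝ ∞ (fun x => (t.1 x + τ)⁻¹)
    apply ContDiff.inv ((SA.cd t).add contDiff_const)
    intro x; have := ht x; positivity⟩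

section
variable {t : SA} {ht : ∀ x, 0 ≤ t.1 x} {τ : ℝ} {hτ : 0 < τ}

theorem Fk_val (x : E4) : (Fk t ht τ hτ).1 x = (t.1 x + τ)⁻¹ := rfl

theorem Fk_mul : Fk t ht τ hτ * (t + cst τ) = cst 1 := by
  apply SA.ext'; intro x
  rw [SA.mul_val, Fk_val, SA.add_val, cst_val, cst_val]
  have : 0 < t.1 x + τ := by have := ht x; linarith
  exact inv_mul_cancel₀ this.ne'

theorem gr_cst (s : ℝ) : gr (cst s) = 0 := by
  funext i; exact D_cst i s

theorem Gam_cst_l (J : Matrix (Fin 4) (Fin 4) SA) (σ : ℝ) (b a : SA) (s : ℝ) :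
    Gam J σ b (cst s) a = 0 := by
  have h : wg (0 : Fin 4 → SA) (dc J a) = 0 := by
    ext i j; simp [wg]
  rw [Gam, gr_cst, h]
  simp [wd]

theorem Xr_cst (J : Matrix (Fin 4) (Fin 4) SA) (σ : ℝ) (ρ : SA) (s : ℝ) : Xr J σ ρ (cst s) = 0 := by
  rw [Xr_eq]; simp only [D_cst]; ring

theorem Gam_Fk (J : Matrix (Fin 4) (Fin 4) SA) (σ : ℝ) (b a : SA) : Gam J σ b (Fk t ht τ hτ) a =
    -(Fk t ht τ hτ * Fk t ht τ hτ * Gam J σ b t a) := by
  have h1 := Gam_mul_l J σ b (Fk t ht τ hτ) (t + cst τ) a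
  rw [Fk_mul, Gam_cst_l, Gam_add_l, Gam_cst_l, add_zero] at h1
  have h2 : Fk t ht τ hτ * (t + cst τ) * Gam J σ b (Fk t ht τ hτ) a = Gam J σ b (Fk t ht τ hτ) a := by
    rw [Fk_mul]; apply SA.ext'; intro x; rw [SA.mul_val, cst_val, one_mul]
  rw [← h2]
  linear_combination (-(Fk t ht τ hτ)) * h1

theorem Xr_Fk (J : Matrix (Fin 4) (Fin 4) SA) (σ : ℝ) (ρ : SA) : Xr J σ ρ (Fk t ht τ hτ) =
    -(Fk t ht τ hτ * Fk t ht τ hτ * Xr J σ ρ t) := by
  have h1 := Xr_mul J σ ρ (Fk t ht τ hτ) (t + cst τ)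
  rw [Fk_mul, Xr_cst, Xr_add, Xr_cst, add_zero] at h1
  have h2 : Fk t ht τ hτ * (t + cst τ) * Xr J σ ρ (Fk t ht τ hτ) = Xr J σ ρ (Fk t ht τ hτ) := by
    rw [Fk_mul]; apply SA.ext'; intro x; rw [SA.mul_val, cst_val, one_mul]
  rw [← h2]
  linear_combination (-(Fk t ht τ hτ)) * h1

end

theorem k_ptwise {f T t τ r R ζ m g mz gz xt xz d C C1 C2 C3 C4 : ℝ} (hr : 0 < r) (hrR : r ≤ R)
    (hf : f * T = 1) (hT : T = t + τ) (hf0 : 0 < f) (hτ : 0 < τ) (hζ0 : 0 ≤ ζ) (hζ1 : ζ ≤ 1)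
    (hC : 0 < C) (hC1 : 0 ≤ C1) (hC2 : 0 ≤ C2) (hC3 : 0 ≤ C3) (hC4 : 0 ≤ C4) (h1 : r ^ 2 ≤ C * t)
    (hm : |m - 8| ≤ C * r) (hg : |g - 4 * t| ≤ C * r ^ 3) (hmz : |mz| ≤ C1) (hgz : |gz| ≤ C2 * r)
    (hxt : |xt| ≤ C * r) (hxz : |xz| ≤ C3) (hd : |d| ≤ C4) :
    ζ * (-(f * f) * m + 2 * (f * f * f) * g) + f * mz + 2 * (-(f * f) * gz)
      + 2 * (ζ * (-(f * f * xt)) + f * xz) + ζ * f * d + 8 * τ * (ζ * (f * f * f)) ≤
      (C * C ^ 2 + 2 * C * C ^ 3 + C1 * C * R + 2 * C2 * C ^ 2 + 2 * C * C ^ 2 + 2 * C3 * C * R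
        + C4 * C * R) * (r ^ 3)⁻¹ := by
  have hT0 : 0 < T := by
    by_contra hcon
    push Not at hcon
    nlinarith
  have a1 : f * r ^ 2 ≤ C := by
    have : r ^ 2 ≤ C * T := by rw [hT]; nlinarith
    calc f * r ^ 2 ≤ f * (C * T) := mul_le_mul_of_nonneg_left this hf0.le
      _ = C * (f * T) := by ring
      _ = C := by rw [hf, mul_one]
  have hr3 : 0 < r ^ 3 := by positivity
  have b1 : f * f * r ≤ C ^ 2 * (r ^ 3)⁻¹ := by
    rw [← div_eq_mul_inv, le_div_iff₀ hr3]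
    calc f * f * r * r ^ 3 = (f * r ^ 2) ^ 2 := by ring
      _ ≤ C ^ 2 := pow_le_pow_left₀ (by positivity) a1 2
  have b2 : f * f * f * r ^ 3 ≤ C ^ 3 * (r ^ 3)⁻¹ := by
    rw [← div_eq_mul_inv, le_div_iff₀ hr3]
    calc f * f * f * r ^ 3 * r ^ 3 = (f * r ^ 2) ^ 3 := by ring
      _ ≤ C ^ 3 := pow_le_pow_left₀ (by positivity) a1 3
  have b3 : f ≤ C * R * (r ^ 3)⁻¹ := by
    rw [← div_eq_mul_inv, le_div_iff₀ hr3]
    calc f * r ^ 3 = (f * r ^ 2) * r := by ring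
      _ ≤ C * R := mul_le_mul a1 hrR hr.le hC.le
  -- main part
  have c1 : -(f * f) * m + 2 * (f * f * f) * g + 8 * τ * (f * f * f) ≤ C * (f * f * r) + 2 * C * (f * f * f * r ^ 3) := by
    have e1 : f * f * f * (t + τ) = f * f := by
      rw [← hT]; calc f * f * f * T = f * f * (f * T) := by ring
        _ = f * f := by rw [hf, mul_one]
    have e2 := mul_le_mul_of_nonneg_left (abs_le.mp hm).1 (show 0 ≤ f * f by positivity)
    have e3 := mul_le_mul_of_nonneg_left (abs_le.mp hg).2 (show 0 ≤ f * f * f by positivity)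
    nlinarith
  have c2 : ζ * (-(f * f) * m + 2 * (f * f * f) * g) + 8 * τ * (ζ * (f * f * f)) ≤
      C * (f * f * r) + 2 * C * (f * f * f * r ^ 3) := by
    have e0 : 0 ≤ C * (f * f * r) + 2 * C * (f * f * f * r ^ 3) := by positivity
    calc ζ * (-(f * f) * m + 2 * (f * f * f) * g) + 8 * τ * (ζ * (f * f * f))
        = ζ * (-(f * f) * m + 2 * (f * f * f) * g + 8 * τ * (f * f * f)) := by ring
      _ ≤ ζ * (C * (f * f * r) + 2 * C * (f * f * f * r ^ 3)) := mul_le_mul_of_nonneg_left c1 hζ0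
      _ ≤ 1 * (C * (f * f * r) + 2 * C * (f * f * f * r ^ 3)) := mul_le_mul_of_nonneg_right hζ1 e0
      _ = _ := one_mul _
  have c3 : f * mz ≤ C1 * f := by
    have := mul_le_mul_of_nonneg_left ((le_abs_self _).trans hmz) hf0.le
    linarith
  have c4 : -(f * f) * gz ≤ C2 * (f * f * r) := by
    have := mul_le_mul_of_nonneg_left (((neg_le_abs _)).trans hgz) (show 0 ≤ f * f by positivity)
    linarith
  have c5 : ζ * (-(f * f * xt)) ≤ C * (f * f * r) := by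
    have e1 := mul_le_mul_of_nonneg_left (((neg_le_abs _)).trans hxt) (show 0 ≤ f * f by positivity)
    calc ζ * (-(f * f * xt)) = ζ * (f * f * -xt) := by ring
      _ ≤ ζ * (f * f * (C * r)) := mul_le_mul_of_nonneg_left e1 hζ0
      _ ≤ 1 * (f * f * (C * r)) := mul_le_mul_of_nonneg_right hζ1 (by positivity)
      _ = _ := by ring
  have c6 : f * xz ≤ C3 * f := by
    have := mul_le_mul_of_nonneg_left ((le_abs_self _).trans hxz) hf0.le
    linarith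
  have c7 : ζ * f * d ≤ C4 * f := by
    have e1 := mul_le_mul_of_nonneg_left ((le_abs_self _).trans hd) hf0.le
    calc ζ * f * d = ζ * (f * d) := by ring
      _ ≤ ζ * (f * C4) := mul_le_mul_of_nonneg_left e1 hζ0
      _ ≤ 1 * (f * C4) := mul_le_mul_of_nonneg_right hζ1 (by positivity)
      _ = _ := by ring
  have d1 := mul_le_mul_of_nonneg_left b1 hC.le
  have d2 := mul_le_mul_of_nonneg_left b2 (show 0 ≤ 2 * C by positivity)
  have d3 := mul_le_mul_of_nonneg_left b3 hC1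
  have d4 := mul_le_mul_of_nonneg_left b1 (show 0 ≤ 2 * C2 by positivity)
  have d5 := mul_le_mul_of_nonneg_left b1 (show 0 ≤ 2 * C by positivity)
  have d6 := mul_le_mul_of_nonneg_left b3 (show 0 ≤ 2 * C3 by positivity)
  have d7 := mul_le_mul_of_nonneg_left b3 hC4
  linarith

/-- The comparison kernel. -/
noncomputable def kn (z x : E4) : ℝ := (‖x - z‖ ^ 3)⁻¹

theorem kn_nonneg (z x : E4) : 0 ≤ kn z x := by unfold kn; positivity

theorem kn_integrable (z : E4) (R : ℝ) : IntegrableOn (kn z) (Metric.closedBall z R) := by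
  have hd : Module.finrank ℝ E4 = 4 := by simp
  have h1 : IntegrableOn (fun x : E4 => (‖x‖ ^ 3)⁻¹) (Metric.ball 0 (R + 1)) := by
    apply integrableOn_ball_of_norm_le_rpow (C := 1) (α := 3) (by rw [hd]; norm_num) (by rw [hd]; norm_num)
    · apply Eventually.of_forall
      intro x
      rw [Real.norm_eq_abs, abs_of_nonneg (by positivity), one_mul, Real.rpow_neg (norm_nonneg _)]
      apply le_of_eq
      congr 1
      exact (Real.rpow_natCast _ 3).symm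
    · exact (continuous_norm.pow 3).measurable.inv.aestronglyMeasurable
  have h2 : IntegrableOn (fun x : E4 => (‖x‖ ^ 3)⁻¹) ((fun x => x - z) '' (Metric.closedBall z R)) := by
    apply h1.mono_set
    rintro _ ⟨x, hx, rfl⟩
    rw [Metric.mem_closedBall, dist_eq_norm] at hx
    rw [mem_ball_zero_iff]
    linarith
  have h3 := (measurePreserving_sub_right (volume : Measure E4) z).integrableOn_image
    (MeasurableEquiv.subRight z).measurableEmbedding (f := fun x : E4 => (‖x‖ ^ 3)⁻¹)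
    (s := Metric.closedBall z R)
  exact h3.mp h2

variable {J : Matrix (Fin 4) (Fin 4) SA} {σ : ℝ} {ρ : SA} {z : E4} {R : ℝ}
  (G : Geo J σ (Metric.closedBall z R) ρ)
include G

theorem exists_par (hR : 0 < R) : ∃ t : SA, ∃ ht : ∀ x, 0 ≤ t.1 x, ∃ ζ : SA, ∃ C K : ℝ,
    0 < C ∧ 0 ≤ K ∧ Cut (Metric.closedBall z R) ζ ∧ (∀ x ∈ Metric.closedBall z (R / 2), ζ.1 x = 1) ∧
    (∀ x, t.1 x ≤ C * ‖x - z‖ ^ 2) ∧
    ∀ (τ : ℝ) (hτ : 0 < τ), ∀ x ∈ Metric.closedBall z R, x ≠ z →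
      (Lst J σ ρ (ζ * Fk t ht τ hτ)).1 x + 8 * τ * (ζ.1 x * ((Fk t ht τ hτ).1 x * (Fk t ht τ hτ).1 x
        * (Fk t ht τ hτ).1 x)) ≤ K * kn z x := by
  obtain ⟨t, C, hC, hlow, hup, hm, hg, hX, hGz⟩ := exists_quad G hR
  have ht : ∀ x, 0 ≤ t.1 x := by
    intro x
    have := hlow x
    by_contra hcon
    push Not at hcon
    nlinarith [sq_nonneg ‖x - z‖]
  have hsub : Metric.closedBall z (R / 2) ⊆ interior (Metric.closedBall z R) := by
    refine Subset.trans ?_ Metric.ball_subset_interior_closedBall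
    exact Metric.closedBall_subset_ball (by linarith)
  obtain ⟨ζ, hζ, hζ1⟩ := exists_cut (isCompact_closedBall z R) (isCompact_closedBall z (R / 2)) hsub
  obtain ⟨C1, hC1, h1⟩ := Cut.bound G.cpt (mix J σ ζ ρ)
  obtain ⟨C2, hC2, h2⟩ := lip_bound z R (Gam J σ ρ ζ t)
  obtain ⟨C3, hC3, h3⟩ := Cut.bound G.cpt (Xr J σ ρ ζ)
  obtain ⟨C4, hC4, h4⟩ := Cut.bound G.cpt (dv J σ ρ)
  refine ⟨t, ht, ζ, C, C * C ^ 2 + 2 * C * C ^ 3 + C1 * C * R + 2 * C2 * C ^ 2 + 2 * C * C ^ 2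
    + 2 * C3 * C * R + C4 * C * R, hC, ?_, hζ, fun x hx => hζ1.self_of_nhdsSet x hx, hup, ?_⟩
  rotate_left
  · intro τ hτ x hx hxz
    have hr : 0 < ‖x - z‖ := norm_pos_iff.mpr (sub_ne_zero.mpr hxz)
    have hrR : ‖x - z‖ ≤ R := by rw [← dist_eq_norm]; exact hx
    have hT : 0 < t.1 x + τ := by have := ht x; linarith
    have hfT : (Fk t ht τ hτ).1 x * (t.1 x + τ) = 1 := by
      rw [Fk_val]; exact inv_mul_cancel₀ hT.ne'
    have hf0 : 0 < (Fk t ht τ hτ).1 x := by rw [Fk_val]; positivity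
    have hgz : |(Gam J σ ρ ζ t).1 x| ≤ C2 * ‖x - z‖ := by
      have := h2 x hx
      rw [hGz, sub_zero] at this
      exact this
    have key := k_ptwise hr hrR hfT rfl hf0 hτ (hζ.nn x) (hζ.le x) hC hC1 hC2 hC3 hC4 (hlow x)
      (hm x hx) (hg x hx) (h1 x hx) hgz (hX x hx) (h3 x hx) (h4 x hx)
    unfold kn
    refine le_trans (le_of_eq ?_) key
    have hmixF : (mix J σ (Fk t ht τ hτ) ρ).1 x = -((Fk t ht τ hτ).1 x * (Fk t ht τ hτ).1 x) * (mix J σ t ρ).1 x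
        + 2 * ((Fk t ht τ hτ).1 x * (Fk t ht τ hτ).1 x * (Fk t ht τ hτ).1 x) * (Gam J σ ρ t t).1 x := by
      have e1 := mix_mul G hx (Fk t ht τ hτ) (t + cst τ) ρ
      rw [Fk_mul, mix_cst_left, mix_add_left, mix_cst_left, add_zero, Gam_Fk, Gam_add_r] at e1
      have e2 : (Gam J σ ρ t (cst τ)).1 x = 0 := by
        rw [Gam_symm G hx, Gam_cst_l]; rfl
      simp only [SA.zero_val, SA.add_val, SA.neg_val, SA.mul_val, cst_val, e2] at e1
      have e3 : (mix J σ (Fk t ht τ hτ) ρ).1 x =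
          (Fk t ht τ hτ).1 x * (t.1 x + τ) * (mix J σ (Fk t ht τ hτ) ρ).1 x := by
        rw [hfT, one_mul]
      rw [e3]
      linear_combination (-(Fk t ht τ hτ).1 x) * e1
    have hGF : (Gam J σ ρ ζ (Fk t ht τ hτ)).1 x = -((Fk t ht τ hτ).1 x * (Fk t ht τ hτ).1 x) * (Gam J σ ρ ζ t).1 x := by
      rw [Gam_symm G hx, Gam_Fk, Gam_symm G hx ρ ζ t]
      simp only [SA.neg_val, SA.mul_val]; ring
    rw [Lst, SA.add_val, SA.add_val, mix_mul G hx, hmixF, hGF, SA.smul_val, Xr_mul, Xr_Fk]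
    simp only [SA.add_val, SA.mul_val, SA.neg_val]
  · positivity

end Pool.Agent.Y264
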