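import Pool.Agent.Y264.Par3

/-! The mean value estimate. -/

namespace Pool.Agent.Y264
open Matrix MeasureTheory Set Filter Topology
open scoped ContDiff

variable {J : Matrix (Fin 4) (Fin 4) SA} {σ : ℝ} {ρ : SA} {z : E4} {R : ℝ}
  (G : Geo J σ (Metric.closedBall z R) ρ)
include G

theorem sub_bound (hR : 0 < R) : ∃ C, 0 ≤ C ∧ ∀ w : SA, (∀ x ∈ Metric.closedBall z R, 0 ≤ w.1 x) →
    (∀ x ∈ Metric.closedBall z R, 0 ≤ (mix J σ w ρ).1 x) →
    w.1 z ≤ C * ∫ x in Metric.closedBall z R, w.1 x * kn z x := by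
  obtain ⟨t, ht, ζ, C, K, hC, hK, hζ, hζ1, hup, hpt⟩ := exists_par G hR
  set v := (volume : Measure E4).real (Metric.closedBall 0 1) with hv
  have hv0 : 0 < v := by
    rw [hv, measureReal_def]
    apply ENNReal.toReal_pos
    · exact (Metric.measure_closedBall_pos volume _ one_pos).ne'
    · exact (isCompact_closedBall _ _).measure_ne_top
  refine ⟨K * (C + 1) ^ 3 / (8 * v), by positivity, ?_⟩
  intro w hw0 hwL
  set S := Metric.closedBall z R with hS
  set I := ∫ x in S, w.1 x * kn z x with hI
  have hI0 : 0 ≤ I := setIntegral_nonneg Metric.isClosed_closedBall.measurableSet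
    fun x hx => mul_nonneg (hw0 x hx) (kn_nonneg z x)
  have hSm : MeasurableSet S := Metric.isClosed_closedBall.measurableSet
  -- integrability of the kernel times w
  have hkI : IntegrableOn (fun x => w.1 x * kn z x) S := by
    have h1 := (kn_integrable z R)
    obtain ⟨B, hB0, hB⟩ := Cut.bound G.cpt w
    apply Integrable.bdd_mul (c := B) h1 (SA.cont w).aestronglyMeasurable.restrict
    filter_upwards [ae_restrict_mem hSm] with x hx
    exact hB x hx
  have hs := hζ.sup
  -- main inequality for each parameter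
  have hmain : ∀ (τ : ℝ) (hτ : 0 < τ), 8 * τ * It (ζ * (Fk t ht τ hτ * Fk t ht τ hτ * Fk t ht τ hτ) * w) ≤ K * I := by
    intro τ hτ
    set F := Fk t ht τ hτ with hF
    have hΦ : Sup S (ζ * F) := hs.mul_right _
    have h1 : 0 ≤ It ((ζ * F) * mix J σ w ρ) := by
      apply It_nonneg_on (hΦ.mul_right _)
      intro x hx
      refine mul_nonneg (mul_nonneg (hζ.nn x) ?_) (hwL x hx)
      rw [hF, Fk_val]
      have := ht x
      positivity
    rw [It_adj G hΦ] at h1
    have hL : Sup S (Lst J σ ρ (ζ * F)) := ((hΦ.mix_l ρ).add (hΦ.Xr.smul _)).add (hΦ.mul_right _)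
    set h : SA := w * (Lst J σ ρ (ζ * F) + (8 * τ) • (ζ * (F * F * F))) with hh
    have hhs : Sup S h := (hL.add ((hs.mul_right _).smul _)).mul_left _
    have h2 : It h = It (w * Lst J σ ρ (ζ * F)) + 8 * τ * It (ζ * (F * F * F) * w) := by
      have e : h = w * Lst J σ ρ (ζ * F) + (8 * τ) • (ζ * (F * F * F) * w) := by
        rw [hh, smul_SA, smul_SA]; ring
      rw [e, It_add (hL.mul_left _).cs (((hs.mul_right _).mul_right _).smul _).cs, It_smul]
    have h3 : It h = ∫ x in S, h.1 x := by
      unfold It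
      rw [setIntegral_eq_integral_of_forall_compl_eq_zero]
      intro x hx
      exact hhs.val hx
    have h4 : ∫ x in S, h.1 x ≤ ∫ x in S, K * (w.1 x * kn z x) := by
      apply setIntegral_mono_on_ae hhs.cs.integrable.integrableOn (hkI.const_mul K) hSm
      have hne : ∀ᵐ x : E4, x ≠ z := by
        rw [ae_iff]
        simp
      filter_upwards [hne] with x hxz hx
      have h5 := hpt τ hτ x hx hxz
      have h6 := mul_le_mul_of_nonneg_left h5 (hw0 x hx)
      have e : h.1 x = w.1 x * ((Lst J σ ρ (ζ * F)).1 x + 8 * τ * (ζ.1 x * (F.1 x * F.1 x * F.1 x))) := rfl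
      rw [e]
      linarith
    rw [integral_const_mul] at h4
    linarith
  -- lower bound
  have hfin : ∀ η > 0, w.1 z - η ≤ K * (C + 1) ^ 3 / (8 * v) * I := by
    intro η hη
    rcases le_or_gt (w.1 z - η) 0 with hneg | hpos
    · exact hneg.trans (by positivity)
    -- choose the radius
    have hcont : ∀ᶠ x in 𝓝 z, w.1 z - η < w.1 x :=
      (SA.cont w).continuousAt.eventually_const_lt (by linarith)
    obtain ⟨r, hr0, hr⟩ := Metric.eventually_nhds_iff_ball.mp hcont
    set s := min (r / 2) (R / 2) with hs'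
    have hs0 : 0 < s := by positivity
    have hsr : s < r := by
      have := min_le_left (r / 2) (R / 2)
      linarith
    have hsR : s ≤ R / 2 := min_le_right _ _
    set τ := s ^ 2 with hτe
    have hτ : 0 < τ := by positivity
    have h1 := hmain τ hτ
    set F := Fk t ht τ hτ with hF
    -- lower bound for the integral
    have h2 : (((C + 1) * τ)⁻¹) ^ 3 * (w.1 z - η) * (s ^ 4 * v) ≤ It (ζ * (F * F * F) * w) := by
      have hnn : ∀ x, 0 ≤ (ζ * (F * F * F) * w).1 x := by
        intro x
        by_cases hx : x ∈ S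
        · refine mul_nonneg (mul_nonneg (hζ.nn x) ?_) (hw0 x hx)
          have h0 : 0 ≤ F.1 x := by
            rw [hF, Fk_val]
            have := ht x
            positivity
          exact mul_nonneg (mul_nonneg h0 h0) h0
        · change 0 ≤ ζ.1 x * (F * F * F).1 x * w.1 x
          rw [hs.val hx]; simp
      have hint : Integrable (ζ * (F * F * F) * w).1 := ((hs.mul_right _).mul_right _).cs.integrable
      have h3 : ∫ x in Metric.closedBall z s, (ζ * (F * F * F) * w).1 x ≤ It (ζ * (F * F * F) * w) :=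
        setIntegral_le_integral hint (Eventually.of_forall hnn)
      have h4 : ∫ x in Metric.closedBall z s, (((C + 1) * τ)⁻¹) ^ 3 * (w.1 z - η) ≤
          ∫ x in Metric.closedBall z s, (ζ * (F * F * F) * w).1 x := by
        apply setIntegral_mono_on _ hint.integrableOn Metric.isClosed_closedBall.measurableSet
        · intro x hx
          have hxs : ‖x - z‖ ≤ s := by rw [← dist_eq_norm]; exact hx
          have e1 : ζ.1 x = 1 := hζ1 x (Metric.closedBall_subset_closedBall hsR hx)
          have e2 : t.1 x + τ ≤ (C + 1) * τ := by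
            have := hup x
            have h5 : ‖x - z‖ ^ 2 ≤ s ^ 2 := pow_le_pow_left₀ (norm_nonneg _) hxs 2
            nlinarith
          have e3 : ((C + 1) * τ)⁻¹ ≤ F.1 x := by
            rw [hF, Fk_val]
            apply inv_anti₀ _ e2
            have := ht x
            positivity
          have e4 : w.1 z - η ≤ w.1 x := (hr x (Metric.mem_ball.mpr ((Metric.mem_closedBall.mp hx).trans_lt hsr))).le
          change _ ≤ ζ.1 x * (F.1 x * F.1 x * F.1 x) * w.1 x
          rw [e1, one_mul]
          have e5 : ((C + 1) * τ)⁻¹ ^ 3 ≤ F.1 x * F.1 x * F.1 x := by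
            calc ((C + 1) * τ)⁻¹ ^ 3 ≤ F.1 x ^ 3 := pow_le_pow_left₀ (by positivity) e3 3
              _ = _ := by ring
          exact mul_le_mul e5 e4 hpos.le ((by positivity : (0:ℝ) ≤ ((C + 1) * τ)⁻¹ ^ 3).trans e5)
        · exact integrableOn_const (isCompact_closedBall _ _).measure_ne_top
      rw [setIntegral_const, Measure.addHaar_real_closedBall' _ _ hs0.le] at h4
      have hd : Module.finrank ℝ E4 = 4 := by simp
      rw [hd, smul_eq_mul] at h4
      linarith
    have h5 : 8 * τ * ((((C + 1) * τ)⁻¹) ^ 3 * (w.1 z - η) * (s ^ 4 * v)) ≤ K * I :=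
      (mul_le_mul_of_nonneg_left h2 (by positivity)).trans h1
    have h6 : 8 * τ * ((((C + 1) * τ)⁻¹) ^ 3 * (w.1 z - η) * (s ^ 4 * v)) =
        8 * v / (C + 1) ^ 3 * (w.1 z - η) := by
      have : s ^ 4 = τ ^ 2 := by rw [hτe]; ring
      rw [this]
      field_simp
    rw [h6] at h5
    have h7 : w.1 z - η = (C + 1) ^ 3 / (8 * v) * (8 * v / (C + 1) ^ 3 * (w.1 z - η)) := by
      field_simp
    rw [h7]
    calc (C + 1) ^ 3 / (8 * v) * (8 * v / (C + 1) ^ 3 * (w.1 z - η)) ≤ (C + 1) ^ 3 / (8 * v) * (K * I) :=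
          mul_le_mul_of_nonneg_left h5 (by positivity)
      _ = _ := by ring
  exact le_of_forall_pos_le_add fun η hη => by linarith [hfin η hη]

end Pool.Agent.Y264
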