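import Mathlib

/-! Levy exponents on abelian groups: inequalities. -/

set_option autoImplicit false

namespace Pool.Agent.Y264.Rid
open Complex ComplexConjugate Filter Topology
open scoped ComplexOrder

/-- A normalised conditionally positive definite function on an abelian group. -/
structure IsLev {Γ : Type*} [AddCommGroup Γ] (ψ : Γ → ℂ) : Prop where
  zero : ψ 0 = 0
  neg : ∀ g, ψ (-g) = conj (ψ g)
  psd : ∀ (m : ℕ) (g : Fin m → Γ),
    (Matrix.of fun j k => ψ (g j - g k) - ψ (g j) - ψ (-(g k))).PosSemidef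

variable {Γ : Type*} [AddCommGroup Γ] {ψ : Γ → ℂ}

theorem IsLev.vec (h : IsLev ψ) {m : ℕ} (g : Fin m → Γ) :
    ∃ (d : ℕ) (v : Fin m → EuclideanSpace ℂ (Fin d)),
      ∀ j k, inner ℂ (v j) (v k) = ψ (g j - g k) - ψ (g j) - ψ (-(g k)) := by
  obtain ⟨d, w, hw⟩ := Matrix.posSemidef_iff_eq_sum_vecMulVec.mp (h.psd m g)
  refine ⟨d, fun j => WithLp.toLp 2 fun i => conj (w i j), fun j k => ?_⟩
  have h1 := congrFun (congrFun hw j) k
  rw [Matrix.of_apply] at h1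
  rw [h1, Matrix.sum_apply, PiLp.inner_apply]
  apply Finset.sum_congr rfl
  intro i _
  simp [Matrix.vecMulVec_apply, mul_comm]

/-- The norm of the cocycle. -/
noncomputable def nb (ψ : Γ → ℂ) (g : Γ) : ℝ := √(-2 * (ψ g).re)

/-- The norm of the defect of additivity. -/
noncomputable def nd (ψ : Γ → ℂ) (g h : Γ) : ℝ :=
  √(2 * (ψ (g + h) + ψ (g - h) - 2 * ψ g - 2 * ψ h).re)

/-- The logarithmic correlation. -/
def co (ψ : Γ → ℂ) (g h : Γ) : ℂ := ψ (g + h) - ψ g - ψ h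

theorem nb_nonneg (g : Γ) : 0 ≤ nb ψ g := Real.sqrt_nonneg _
theorem nd_nonneg (g h : Γ) : 0 ≤ nd ψ g h := Real.sqrt_nonneg _

theorem co_comm (g h : Γ) : co ψ g h = co ψ h g := by
  unfold co
  rw [add_comm]; ring

theorem nb_neg (hL : IsLev ψ) (g : Γ) : nb ψ (-g) = nb ψ g := by
  unfold nb
  rw [hL.neg, conj_re]

theorem nd_comm (hL : IsLev ψ) (g h : Γ) : nd ψ g h = nd ψ h g := by
  unfold nd
  have h1 : ψ (h - g) = conj (ψ (g - h)) := by rw [← hL.neg, neg_sub]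
  rw [h1, add_comm g h]
  congr 1
  simp
  ring

theorem nd_neg_right (hL : IsLev ψ) (g h : Γ) : nd ψ g (-h) = nd ψ g h := by
  unfold nd
  rw [hL.neg h, sub_neg_eq_add, ← sub_eq_add_neg]
  congr 1
  simp
  ring

theorem nd_neg_left (hL : IsLev ψ) (g h : Γ) : nd ψ (-g) h = nd ψ g h := by
  rw [nd_comm hL, nd_neg_right hL, nd_comm hL]

/-- vectors for the triple. -/
theorem triple (hL : IsLev ψ) (g h : Γ) :
    ∃ (d : ℕ) (x y z : EuclideanSpace ℂ (Fin d)),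
      inner ℂ x x = -2 * ((ψ g).re : ℂ) ∧ inner ℂ y y = -2 * ((ψ h).re : ℂ) ∧
      inner ℂ z z = -2 * ((ψ (g + h)).re : ℂ) ∧
      inner ℂ x y = ψ (g - h) - ψ g - conj (ψ h) ∧
      inner ℂ y x = conj (ψ (g - h)) - ψ h - conj (ψ g) ∧
      inner ℂ x z = conj (ψ h) - ψ g - conj (ψ (g + h)) ∧
      inner ℂ z x = ψ h - ψ (g + h) - conj (ψ g) ∧
      inner ℂ y z = conj (ψ g) - ψ h - conj (ψ (g + h)) ∧
      inner ℂ z y = ψ g - ψ (g + h) - conj (ψ h) := by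
  obtain ⟨d, v, hv⟩ := hL.vec ![g, h, g + h]
  have hn : ∀ w : Γ, ψ 0 - ψ w - ψ (-w) = -2 * ((ψ w).re : ℂ) := by
    intro w
    rw [hL.zero, hL.neg]
    apply Complex.ext <;> simp
    ring
  refine ⟨d, v 0, v 1, v 2, ?_, ?_, ?_, ?_, ?_, ?_, ?_, ?_, ?_⟩
  · rw [hv]; simpa using hn g
  · rw [hv]; simpa using hn h
  · rw [hv]
    have := hn (g + h)
    simpa using this
  · rw [hv]; simp [hL.neg]
  · rw [hv]
    have e1 : h - g = -(g - h) := by abel
    have e2 : ψ (h - g) = conj (ψ (g - h)) := by rw [e1, hL.neg]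
    simp only [Matrix.cons_val_zero, Matrix.cons_val_one, e2, hL.neg]
  · rw [hv]
    have e1 : g - (g + h) = -h := by abel
    have e2 : ψ (-h + -g) = conj (ψ (g + h)) := by rw [← hL.neg]; congr 1; abel
    simp [hL.neg, e2]
  · rw [hv]
    have e1 : g + h - g = h := by abel
    simp [hL.neg]
  · rw [hv]
    have e1 : h - (g + h) = -g := by abel
    have e2 : ψ (-h + -g) = conj (ψ (g + h)) := by rw [← hL.neg]; congr 1; abel
    simp [hL.neg, e1, e2]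
  · rw [hv]
    simp [hL.neg]

theorem re_nonpos (hL : IsLev ψ) (g : Γ) : (ψ g).re ≤ 0 := by
  obtain ⟨d, x, y, z, hxx, -⟩ := triple hL g 0
  have h1 : ‖x‖ ^ 2 = -2 * (ψ g).re := by
    rw [@norm_sq_eq_re_inner ℂ, hxx]
    simp
  nlinarith [sq_nonneg ‖x‖]

theorem nb_sq (hL : IsLev ψ) (g : Γ) : nb ψ g ^ 2 = -2 * (ψ g).re := by
  rw [nb, Real.sq_sqrt]
  linarith [re_nonpos hL g]

theorem nb_eq_norm (hL : IsLev ψ) {d : ℕ} {x : EuclideanSpace ℂ (Fin d)} {g : Γ}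
    (hx : inner ℂ x x = -2 * ((ψ g).re : ℂ)) : ‖x‖ = nb ψ g := by
  have h1 : ‖x‖ ^ 2 = -2 * (ψ g).re := by
    rw [@norm_sq_eq_re_inner ℂ, hx]
    simp
  rw [nb, ← h1, Real.sqrt_sq (norm_nonneg _)]

theorem nd_eq_norm {d : ℕ} {x : EuclideanSpace ℂ (Fin d)} {g h : Γ}
    (hx : (inner ℂ x x : ℂ) = 2 * ((ψ (g + h) + ψ (g - h) - 2 * ψ g - 2 * ψ h).re : ℂ)) :
    ‖x‖ = nd ψ g h := by
  have h1 : ‖x‖ ^ 2 = 2 * (ψ (g + h) + ψ (g - h) - 2 * ψ g - 2 * ψ h).re := by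
    rw [@norm_sq_eq_re_inner ℂ, hx, ← Complex.ofReal_ofNat, ← Complex.ofReal_mul]
    exact Complex.ofReal_re _
  rw [nd, ← h1, Real.sqrt_sq (norm_nonneg _)]

/-- The defect vector. -/
theorem defect (hL : IsLev ψ) (g h : Γ) {d : ℕ} {x y z : EuclideanSpace ℂ (Fin d)}
    (hxx : inner ℂ x x = -2 * ((ψ g).re : ℂ)) (hyy : inner ℂ y y = -2 * ((ψ h).re : ℂ))
    (hzz : inner ℂ z z = -2 * ((ψ (g + h)).re : ℂ))
    (hxy : inner ℂ x y = ψ (g - h) - ψ g - conj (ψ h))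
    (hyx : inner ℂ y x = conj (ψ (g - h)) - ψ h - conj (ψ g))
    (hxz : inner ℂ x z = conj (ψ h) - ψ g - conj (ψ (g + h)))
    (hzx : inner ℂ z x = ψ h - ψ (g + h) - conj (ψ g))
    (hyz : inner ℂ y z = conj (ψ g) - ψ h - conj (ψ (g + h)))
    (hzy : inner ℂ z y = ψ g - ψ (g + h) - conj (ψ h)) : ‖x + y - z‖ = nd ψ g h := by
  apply nd_eq_norm
  simp only [inner_sub_left, inner_sub_right, inner_add_left, inner_add_right, hxx, hyy, hzz, hxy,
    hyx, hxz, hzx, hyz, hzy]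
  apply Complex.ext <;> simp <;> ring

theorem nd_sq (hL : IsLev ψ) (g h : Γ) :
    nd ψ g h ^ 2 = 2 * (ψ (g + h) + ψ (g - h) - 2 * ψ g - 2 * ψ h).re := by
  obtain ⟨d, x, y, z, hxx, hyy, hzz, hxy, hyx, hxz, hzx, hyz, hzy⟩ := triple hL g h
  have h1 := defect hL g h hxx hyy hzz hxy hyx hxz hzx hyz hzy
  rw [nd, Real.sq_sqrt]
  by_contra hcon
  have h2 : nd ψ g h = 0 := Real.sqrt_eq_zero_of_nonpos (le_of_not_ge hcon)
  rw [h2, norm_eq_zero] at h1
  apply hcon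
  have h3 : (inner ℂ (x + y - z) (x + y - z) : ℂ) =
      2 * ((ψ (g + h) + ψ (g - h) - 2 * ψ g - 2 * ψ h).re : ℂ) := by
    simp only [inner_sub_left, inner_sub_right, inner_add_left, inner_add_right, hxx, hyy, hzz, hxy,
      hyx, hxz, hzx, hyz, hzy]
    apply Complex.ext <;> simp <;> ring
  rw [h1, inner_zero_left] at h3
  have h4 : (0 : ℝ) = 2 * (ψ (g + h) + ψ (g - h) - 2 * ψ g - 2 * ψ h).re := by
    exact_mod_cast h3
  exact h4.le

theorem im_co (hL : IsLev ψ) (g h : Γ) :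
    2 * |(co ψ g h).im| ≤ nd ψ g h * (nb ψ g + nb ψ h) := by
  obtain ⟨d, x, y, z, hxx, hyy, hzz, hxy, hyx, hxz, hzx, hyz, hzy⟩ := triple hL g h
  have h1 := defect hL g h hxx hyy hzz hxy hyx hxz hzx hyz hzy
  have h2 := nb_eq_norm hL hxx
  have h3 := nb_eq_norm hL hyy
  have e1 : (inner ℂ (x + y - z) y : ℂ) - inner ℂ x (x + y - z) =
      ((2 * (co ψ g h).im : ℝ) : ℂ) * I := by
    simp only [inner_sub_left, inner_sub_right, inner_add_left, inner_add_right, hxx, hyy, hzz, hxy,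
      hyx, hxz, hzx, hyz, hzy, co]
    apply Complex.ext <;> simp <;> ring
  have e2 : ‖(inner ℂ (x + y - z) y : ℂ) - inner ℂ x (x + y - z)‖ ≤
      nd ψ g h * nb ψ h + nb ψ g * nd ψ g h := by
    refine (norm_sub_le _ _).trans (add_le_add ?_ ?_)
    · rw [← h1, ← h3]; exact norm_inner_le_norm _ _
    · rw [← h1, ← h2]; exact norm_inner_le_norm _ _
  rw [e1, norm_mul, Complex.norm_I, mul_one, Complex.norm_real, Real.norm_eq_abs, abs_mul,
    abs_of_pos (by norm_num : (0:ℝ) < 2)] at e2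
  linarith

theorem nd_le (hL : IsLev ψ) (g h : Γ) : nd ψ g h ≤ 2 * nb ψ g := by
  obtain ⟨d, x, y, z, hxx, hyy, hzz, hxy, hyx, hxz, hzx, hyz, hzy⟩ := triple hL g h
  have h1 := defect hL g h hxx hyy hzz hxy hyx hxz hzx hyz hzy
  have h2 := nb_eq_norm hL hxx
  have h3 : ‖z - y‖ = nb ψ g := by
    have : (inner ℂ (z - y) (z - y) : ℂ) = -2 * ((ψ g).re : ℂ) := by
      simp only [inner_sub_left, inner_sub_right, hyy, hzz, hyz, hzy]
      apply Complex.ext <;> simp <;> ring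
    exact nb_eq_norm hL this
  calc nd ψ g h = ‖x - (z - y)‖ := by rw [← h1]; congr 1; abel
    _ ≤ ‖x‖ + ‖z - y‖ := norm_sub_le _ _
    _ = 2 * nb ψ g := by rw [h2, h3]; ring

theorem nb_add (hL : IsLev ψ) (g h : Γ) : nb ψ (g + h) ≤ nb ψ g + nb ψ h := by
  obtain ⟨d, x, y, z, hxx, hyy, hzz, hxy, hyx, hxz, hzx, hyz, hzy⟩ := triple hL g h
  have h2 := nb_eq_norm hL hyy
  have h4 := nb_eq_norm hL hzz
  have h3 : ‖z - y‖ = nb ψ g := by
    have : (inner ℂ (z - y) (z - y) : ℂ) = -2 * ((ψ g).re : ℂ) := by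
      simp only [inner_sub_left, inner_sub_right, hyy, hzz, hyz, hzy]
      apply Complex.ext <;> simp <;> ring
    exact nb_eq_norm hL this
  calc nb ψ (g + h) = ‖(z - y) + y‖ := by rw [← h4]; congr 1; abel
    _ ≤ ‖z - y‖ + ‖y‖ := norm_add_le _ _
    _ = _ := by rw [h2, h3]

theorem co_add (hL : IsLev ψ) (g₁ g₂ h : Γ) :
    ‖co ψ (g₁ + g₂) h - co ψ g₁ h - co ψ g₂ h‖ ≤ nd ψ g₁ h * nb ψ g₂ := by
  obtain ⟨d, v, hv⟩ := hL.vec ![g₂, -g₁, -h, -g₁ - h]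
  have h0 : (inner ℂ (v 0) (v 0) : ℂ) = -2 * ((ψ g₂).re : ℂ) := by
    rw [hv]
    simp only [Matrix.cons_val_zero, sub_self, hL.zero, hL.neg]
    apply Complex.ext <;> simp
    ring
  have hb := nb_eq_norm hL h0
  have hd : ‖v 1 + v 2 - v 3‖ = nd ψ g₁ h := by
    rw [← nd_neg_left hL, ← nd_neg_right hL]
    apply nd_eq_norm
    simp only [inner_sub_left, inner_sub_right, inner_add_left, inner_add_right, hv]
    have e1 : -g₁ - -h = -(g₁ - h) := by abel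
    have e2 : -h - -g₁ = g₁ - h := by abel
    have e3 : -g₁ - (-g₁ - h) = h := by abel
    have e4 : -g₁ - h - -g₁ = -h := by abel
    have e5 : -h - (-g₁ - h) = g₁ := by abel
    have e6 : -g₁ - h - -h = -g₁ := by abel
    have e7 : -(-g₁ - h) = g₁ + h := by abel
    have e8 : -g₁ - h = -(g₁ + h) := by abel
    have e9 : -g₁ + -h = -(g₁ + h) := by abel
    simp only [Matrix.cons_val_zero, Matrix.cons_val_one, Matrix.cons_val, e1, e2, e3, e4, e5, e6,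
      e7, e8, e9, sub_self, hL.zero, neg_neg, hL.neg]
    apply Complex.ext <;> simp [hL.neg] <;> ring
  have e1 : (inner ℂ (v 0) (v 1 + v 2 - v 3) : ℂ) =
      -(co ψ (g₁ + g₂) h - co ψ g₁ h - co ψ g₂ h) := by
    simp only [inner_sub_right, inner_add_right, hv, co]
    have e1 : g₂ - -g₁ = g₁ + g₂ := by abel
    have e2 : g₂ - -h = g₂ + h := by abel
    have e3 : g₂ - (-g₁ - h) = g₁ + g₂ + h := by abel
    have e7 : -(-g₁ - h) = g₁ + h := by abel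
    simp only [Matrix.cons_val_zero, Matrix.cons_val_one, Matrix.cons_val, e1, e2, e3, e7, neg_neg]
    ring
  have e2 := norm_inner_le_norm (𝕜 := ℂ) (v 0) (v 1 + v 2 - v 3)
  rw [e1, norm_neg, hb, hd] at e2
  linarith [mul_comm (nb ψ g₂) (nd ψ g₁ h)]

theorem nd_add (hL : IsLev ψ) (g₁ g₂ h : Γ) :
    nd ψ (g₁ + g₂) h ≤ nd ψ g₁ h + nd ψ g₂ h := by
  obtain ⟨d, v, hv⟩ := hL.vec ![g₁ + g₂, h, g₁ + g₂ + h, g₁, g₁ + h]
  have hz : ∀ w : Γ, -(g₁ + w) = -(g₁ + w) := fun _ => rfl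
  have e1 : g₁ + g₂ - h = (g₁ + g₂ - h) := rfl
  have f1 : h - (g₁ + g₂) = -(g₁ + g₂ - h) := by abel
  have f2 : g₁ + g₂ - (g₁ + g₂ + h) = -h := by abel
  have f3 : g₁ + g₂ + h - (g₁ + g₂) = h := by abel
  have f4 : h - (g₁ + g₂ + h) = -(g₁ + g₂) := by abel
  have f5 : g₁ + g₂ + h - h = g₁ + g₂ := by abel
  have f6 : g₁ + g₂ - g₁ = g₂ := by abel
  have f7 : g₁ - (g₁ + g₂) = -g₂ := by abel
  have f8 : g₁ + g₂ - (g₁ + h) = g₂ - h := by abel
  have f9 : g₁ + h - (g₁ + g₂) = -(g₂ - h) := by abel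
  have f10 : h - g₁ = -(g₁ - h) := by abel
  have f11 : h - (g₁ + h) = -g₁ := by abel
  have f12 : g₁ + h - h = g₁ := by abel
  have f13 : g₁ + g₂ + h - g₁ = g₂ + h := by abel
  have f14 : g₁ - (g₁ + g₂ + h) = -(g₂ + h) := by abel
  have f15 : g₁ + g₂ + h - (g₁ + h) = g₂ := by abel
  have f16 : g₁ + h - (g₁ + g₂ + h) = -g₂ := by abel
  have f17 : g₁ - (g₁ + h) = -h := by abel
  have f18 : g₁ + h - g₁ = h := by abel
  have h1 : ‖v 0 + v 1 - v 2‖ = nd ψ (g₁ + g₂) h := by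
    apply nd_eq_norm
    simp only [inner_sub_left, inner_sub_right, inner_add_left, inner_add_right, hv,
      Matrix.cons_val_zero, Matrix.cons_val_one, Matrix.cons_val, f1, f2, f3, f4, f5, f6, f7, f8,
      f9, f10, f11, f12, f13, f14, f15, f16, f17, f18, sub_self, hL.zero, hL.neg]
    apply Complex.ext <;> simp <;> ring
  have h2 : ‖v 3 + v 1 - v 4‖ = nd ψ g₁ h := by
    apply nd_eq_norm
    simp only [inner_sub_left, inner_sub_right, inner_add_left, inner_add_right, hv,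
      Matrix.cons_val_zero, Matrix.cons_val_one, Matrix.cons_val, f1, f2, f3, f4, f5, f6, f7, f8,
      f9, f10, f11, f12, f13, f14, f15, f16, f17, f18, sub_self, hL.zero, hL.neg]
    apply Complex.ext <;> simp <;> ring
  have h3 : ‖v 0 - v 3 - v 2 + v 4‖ = nd ψ g₂ h := by
    apply nd_eq_norm
    simp only [inner_sub_left, inner_sub_right, inner_add_left, inner_add_right, hv,
      Matrix.cons_val_zero, Matrix.cons_val_one, Matrix.cons_val, f1, f2, f3, f4, f5, f6, f7, f8,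
      f9, f10, f11, f12, f13, f14, f15, f16, f17, f18, sub_self, hL.zero, hL.neg]
    apply Complex.ext <;> simp <;> ring
  calc nd ψ (g₁ + g₂) h = ‖(v 3 + v 1 - v 4) + (v 0 - v 3 - v 2 + v 4)‖ := by
        rw [← h1]; congr 1; abel
    _ ≤ ‖v 3 + v 1 - v 4‖ + ‖v 0 - v 3 - v 2 + v 4‖ := norm_add_le _ _
    _ = _ := by rw [h2, h3]

end Pool.Agent.Y264.Rid
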