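import Pool.Agent.Y264.Rid1

/-! Levy exponents: from roots, pointwise inequalities, multiples and sums. -/

set_option autoImplicit false

namespace Pool.Agent.Y264.Rid
open Complex ComplexConjugate Filter Topology
open scoped ComplexOrder

variable {Γ : Type*} [AddCommGroup Γ] {ψ : Γ → ℂ}

theorem eq_zero_of_roots {w : ℂ} (h : ∀ n : ℕ, 1 ≤ n → cexp (w / n) = 1) : w = 0 := by
  obtain ⟨N, hN⟩ := exists_nat_gt ‖w‖
  have hN0 : 0 < (N : ℝ) := lt_of_le_of_lt (norm_nonneg _) hN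
  have hN1 : 1 ≤ N := by exact_mod_cast hN0
  obtain ⟨k, hk⟩ := Complex.exp_eq_one_iff.mp (h N hN1)
  have h1 : ‖w / N‖ < 1 := by
    rw [norm_div, Complex.norm_natCast, div_lt_one hN0]
    exact hN
  have h2 : k = 0 := by
    by_contra hk0
    have h3 : (1 : ℝ) ≤ |(k : ℝ)| := by exact_mod_cast Int.one_le_abs hk0
    rw [hk, norm_mul, norm_mul, norm_mul, Complex.norm_I, Complex.norm_intCast, Complex.norm_real,
      Real.norm_eq_abs, abs_of_pos Real.pi_pos, Complex.norm_ofNat] at h1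
    nlinarith [Real.pi_gt_three]
  rw [h2] at hk
  have h4 : (N : ℂ) ≠ 0 := by exact_mod_cast hN0.ne'
  simpa [h4] using hk

theorem tendsto_root (w : ℂ) : Tendsto (fun n : ℕ => (n : ℂ) * (cexp (w / n) - 1)) atTop (𝓝 w) := by
  rw [tendsto_iff_norm_sub_tendsto_zero]
  have h1 : Tendsto (fun n : ℕ => ‖w‖ ^ 2 / (n : ℝ)) atTop (𝓝 0) :=
    tendsto_const_div_atTop_nhds_zero_nat _
  refine squeeze_zero' (Eventually.of_forall fun _ => norm_nonneg _) ?_ h1
  filter_upwards [eventually_gt_atTop ⌈‖w‖⌉₊] with n hn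
  have hn0 : (0 : ℝ) < n := by
    have : 0 < n := lt_of_le_of_lt (Nat.zero_le _) hn
    exact_mod_cast this
  have hnc : (n : ℂ) ≠ 0 := by exact_mod_cast hn0.ne'
  have hwn : ‖w / n‖ ≤ 1 := by
    rw [norm_div, Complex.norm_natCast, div_le_one hn0]
    exact (Nat.le_ceil _).trans (by exact_mod_cast hn.le)
  have e1 : (n : ℂ) * (cexp (w / n) - 1) - w = n * (cexp (w / n) - 1 - w / n) := by
    field_simp
  rw [e1, norm_mul, Complex.norm_natCast]
  calc (n : ℝ) * ‖cexp (w / n) - 1 - w / n‖ ≤ n * ‖w / n‖ ^ 2 :=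
        mul_le_mul_of_nonneg_left (Complex.norm_exp_sub_one_sub_id_le hwn) hn0.le
    _ = _ := by rw [norm_div, Complex.norm_natCast]; field_simp

theorem isLev_of_roots (h0 : cexp (ψ 0) = 1)
    (h : ∀ n : ℕ, 1 ≤ n → ∀ (m : ℕ) (g : Fin m → Γ),
      (Matrix.of fun j k => cexp (ψ (g j - g k) / n)).PosSemidef) : IsLev ψ := by
  have hzero : ψ 0 = 0 := by
    apply eq_zero_of_roots
    intro n hn
    have h1 := (h n hn 1 ![0]).diag_nonneg (i := 0)
    simp only [Matrix.of_apply, sub_self] at h1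
    have hnr : (n : ℝ) ≠ 0 := by
      have : n ≠ 0 := by omega
      exact_mod_cast this
    have h2 : ‖cexp (ψ 0 / n)‖ = 1 := by
      rw [Complex.norm_exp]
      have h3 : (ψ 0).re = 0 := by
        have := congrArg norm h0
        rw [Complex.norm_exp, norm_one] at this
        simpa using this
      rw [Complex.div_natCast_re, h3]
      simp
    rw [Complex.nonneg_iff] at h1
    have h4 : cexp (ψ 0 / n) = ((cexp (ψ 0 / n)).re : ℂ) := by
      apply Complex.ext
      · simp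
      · rw [Complex.ofReal_im]; exact h1.2.symm
    rw [h4, Complex.norm_real, Real.norm_eq_abs, abs_of_nonneg h1.1] at h2
    rw [h4, h2]; simp
  have hneg : ∀ g, ψ (-g) = conj (ψ g) := by
    intro g
    rw [← sub_eq_zero]
    apply eq_zero_of_roots
    intro n hn
    have h1 := (h n hn 2 ![g, 0]).isHermitian
    have h2 := h1.apply 0 1
    simp only [Matrix.of_apply, Matrix.cons_val_zero, Matrix.cons_val_one, sub_zero,
      zero_sub] at h2
    -- star (exp (ψ (-g) / n)) = exp (ψ g / n)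
    have h3 : cexp (ψ (-g) / n) = cexp (conj (ψ g) / n) := by
      have h4 := congrArg star h2
      rw [star_star] at h4
      rw [h4]
      change conj (cexp (ψ g / n)) = _
      rw [← Complex.exp_conj, map_div₀, Complex.conj_natCast]
    rw [sub_div, Complex.exp_sub, h3, div_self (Complex.exp_ne_zero _)]
  refine ⟨hzero, hneg, fun m g => ?_⟩
  apply Matrix.PosSemidef.of_dotProduct_mulVec_nonneg
  · ext j k
    simp only [Matrix.conjTranspose_apply, Matrix.of_apply]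
    change conj _ = _
    rw [map_sub, map_sub, ← hneg, ← hneg, ← hneg, neg_neg, neg_sub]
    ring
  · intro x
    set s : ℂ := ∑ k, x k with hs
    have hpos : ∀ n : ℕ, 1 ≤ n → 0 ≤ ∑ j, ∑ k, conj (x j) * x k *
        ((n : ℂ) * (cexp (ψ (g j - g k) / n) - 1) - (n : ℂ) * (cexp (ψ (g j) / n) - 1) -
          (n : ℂ) * (cexp (ψ (-(g k)) / n) - 1)) := by
      intro n hn
      have h1 := (h n hn (m + 1) (Fin.cons 0 g)).dotProduct_mulVec_nonneg (Fin.cons (-s) x)
      have h2 : (0 : ℂ) ≤ (n : ℂ) := by exact_mod_cast Nat.zero_le n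
      refine (mul_nonneg h2 h1).trans_eq ?_
      simp only [dotProduct, Matrix.mulVec, Fin.sum_univ_succ, Fin.cons_zero, Fin.cons_succ,
        Matrix.of_apply, Pi.star_apply, sub_self, sub_zero, zero_sub, hzero, zero_div,
        Complex.exp_zero, Complex.star_def, map_neg]
      have e1 : conj s = ∑ k, conj (x k) := by rw [hs, map_sum]
      have e2 : ∀ j : Fin m, conj (x j) * (cexp (ψ (g j) / n) * -s +
          ∑ k, cexp (ψ (g j - g k) / n) * x k) =
          ∑ k, conj (x j) * x k * (cexp (ψ (g j - g k) / n) - cexp (ψ (g j) / n)) := by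
        intro j
        rw [hs, mul_neg, Finset.mul_sum, ← Finset.sum_neg_distrib, ← Finset.sum_add_distrib,
          Finset.mul_sum]
        apply Finset.sum_congr rfl
        intro k _
        ring
      have e3 : -conj s * (1 * -s + ∑ k, cexp (ψ (-(g k)) / n) * x k) =
          ∑ j, ∑ k, conj (x j) * x k * (1 - cexp (ψ (-(g k)) / n)) := by
        rw [e1, hs, one_mul, ← Finset.sum_neg_distrib, ← Finset.sum_neg_distrib,
          ← Finset.sum_add_distrib, Finset.sum_mul]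
        apply Finset.sum_congr rfl
        intro j _
        rw [Finset.mul_sum]
        apply Finset.sum_congr rfl
        intro k _
        ring
      rw [e3, Finset.sum_congr rfl fun j _ => e2 j, ← Finset.sum_add_distrib, Finset.mul_sum]
      apply Finset.sum_congr rfl
      intro j _
      rw [← Finset.sum_add_distrib, Finset.mul_sum]
      apply Finset.sum_congr rfl
      intro k _
      ring
    have hlim : Tendsto (fun n : ℕ => ∑ j, ∑ k, conj (x j) * x k *
        ((n : ℂ) * (cexp (ψ (g j - g k) / n) - 1) - (n : ℂ) * (cexp (ψ (g j) / n) - 1) -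
          (n : ℂ) * (cexp (ψ (-(g k)) / n) - 1))) atTop
        (𝓝 (∑ j, ∑ k, conj (x j) * x k * (ψ (g j - g k) - ψ (g j) - ψ (-(g k))))) := by
      apply tendsto_finsetSum
      intro j _
      apply tendsto_finsetSum
      intro k _
      exact (((tendsto_root _).sub (tendsto_root _)).sub (tendsto_root _)).const_mul _
    have h3 : (0 : ℂ) ≤ ∑ j, ∑ k, conj (x j) * x k * (ψ (g j - g k) - ψ (g j) - ψ (-(g k))) :=
      ge_of_tendsto hlim (by filter_upwards [eventually_ge_atTop 1] with n hn using hpos n hn)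
    refine h3.trans_eq ?_
    simp only [dotProduct, Matrix.mulVec, Matrix.of_apply, Pi.star_apply, Complex.star_def]
    apply Finset.sum_congr rfl
    intro j _
    rw [Finset.mul_sum]
    apply Finset.sum_congr rfl
    intro k _
    ring

theorem exp_add_exp_neg (D : ℝ) : 2 + D ^ 2 / 2 ≤ Real.exp D + Real.exp (-D) := by
  rcases le_total 0 D with h | h
  · have h1 := Real.quadratic_le_exp_of_nonneg h
    have h2 := Real.add_one_le_exp (-D)
    linarith
  · have h1 := Real.quadratic_le_exp_of_nonneg (x := -D) (by linarith)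
    have h2 := Real.add_one_le_exp D
    nlinarith

theorem real_ineq {R₁ R₂ I₁ I₂ W : ℝ} (hR : R₁ + R₂ = 2 * W) (hW0 : 0 ≤ W) (hW : W ≤ 1 / 8)
    (h1 : I₁ ^ 2 ≤ W / 2) (h2 : I₂ ^ 2 ≤ W / 2) :
    (R₁ ^ 2 + I₁ ^ 2) + W ≤
      4 * ((Real.exp R₁ * Real.cos I₁ - 1) + (Real.exp R₂ * Real.cos I₂ - 1)) := by
  obtain ⟨D, hD⟩ : ∃ D, D = (R₁ - R₂) / 2 := ⟨_, rfl⟩
  have hR1 : R₁ = W + D := by rw [hD]; linarith
  have hR2 : R₂ = W + -D := by rw [hD]; linarith
  have c1 : 1 - W / 4 ≤ Real.cos I₁ := by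
    have := Real.one_sub_sq_div_two_le_cos (x := I₁)
    linarith
  have c2 : 1 - W / 4 ≤ Real.cos I₂ := by
    have := Real.one_sub_sq_div_two_le_cos (x := I₂)
    linarith
  have e1 := mul_le_mul_of_nonneg_left c1 (Real.exp_pos R₁).le
  have e2 := mul_le_mul_of_nonneg_left c2 (Real.exp_pos R₂).le
  have e3 : (1 + W) * (2 + D ^ 2 / 2) ≤ Real.exp R₁ + Real.exp R₂ := by
    rw [hR1, hR2, Real.exp_add, Real.exp_add, ← mul_add]
    have h3 := Real.add_one_le_exp W
    exact mul_le_mul (by linarith) (exp_add_exp_neg D) (by positivity) (Real.exp_pos _).le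
  have e4 : (1 + W / 2) * (2 + D ^ 2 / 2) ≤ (Real.exp R₁ + Real.exp R₂) * (1 - W / 4) := by
    have h4 : (1 + W) * (1 - W / 4) ≥ 1 + W / 2 := by nlinarith
    have h5 := mul_le_mul_of_nonneg_right e3 (show (0:ℝ) ≤ 1 - W / 4 by linarith)
    have h6 : 0 ≤ 2 + D ^ 2 / 2 := by positivity
    nlinarith [mul_le_mul_of_nonneg_right h4 h6]
  have h7 : W * (2 + D ^ 2 / 2) ≥ 2 * W := by nlinarith [sq_nonneg D, mul_nonneg hW0 (sq_nonneg D)]
  rw [hR1] at e1 ⊢
  rw [hR1] at e4
  nlinarith [sq_nonneg (W - D), sq_nonneg D]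

/-- The main pointwise inequality. -/
theorem ptwise (hL : IsLev ψ) {g h : Γ} (hg : nb ψ g ^ 2 ≤ 1 / 8) (hh : nb ψ h ^ 2 ≤ 1 / 8) :
    ‖co ψ g h‖ ^ 2 + nd ψ g h ^ 2 / 4 ≤
      4 * ((cexp (co ψ g h) - 1).re + (cexp (co ψ g (-h)) - 1).re) := by
  have h1 := im_co hL g h
  have h2 := im_co hL g (-h)
  rw [nd_neg_right hL, nb_neg hL] at h2
  have h3 := nd_le hL g h
  have n1 := nb_nonneg (ψ := ψ) g
  have n2 := nb_nonneg (ψ := ψ) h
  have n3 := nd_nonneg (ψ := ψ) g h
  have hsum : (nb ψ g + nb ψ h) ^ 2 ≤ 1 / 2 := by nlinarith [sq_nonneg (nb ψ g - nb ψ h)]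
  have hW : nd ψ g h ^ 2 / 4 ≤ 1 / 8 := by nlinarith
  have i1 : (co ψ g h).im ^ 2 ≤ nd ψ g h ^ 2 / 4 / 2 := by
    have h4 : (2 * |(co ψ g h).im|) ^ 2 ≤ (nd ψ g h * (nb ψ g + nb ψ h)) ^ 2 :=
      pow_le_pow_left₀ (by positivity) h1 2
    rw [mul_pow, sq_abs, mul_pow] at h4
    nlinarith [mul_le_mul_of_nonneg_left hsum (sq_nonneg (nd ψ g h))]
  have i2 : (co ψ g (-h)).im ^ 2 ≤ nd ψ g h ^ 2 / 4 / 2 := by
    have h4 : (2 * |(co ψ g (-h)).im|) ^ 2 ≤ (nd ψ g h * (nb ψ g + nb ψ h)) ^ 2 :=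
      pow_le_pow_left₀ (by positivity) h2 2
    rw [mul_pow, sq_abs, mul_pow] at h4
    nlinarith [mul_le_mul_of_nonneg_left hsum (sq_nonneg (nd ψ g h))]
  have hR : (co ψ g h).re + (co ψ g (-h)).re = 2 * (nd ψ g h ^ 2 / 4) := by
    rw [nd_sq hL]
    simp only [co, hL.neg h, ← sub_eq_add_neg]
    simp
    ring
  have key := real_ineq hR (by positivity) hW i1 i2
  have e0 : ‖co ψ g h‖ ^ 2 = (co ψ g h).re ^ 2 + (co ψ g h).im ^ 2 := by
    rw [Complex.sq_norm, Complex.normSq_apply]; ring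
  rw [e0, Complex.sub_re, Complex.sub_re, Complex.exp_re, Complex.exp_re, Complex.one_re]
  exact key

theorem nb_nsmul (hL : IsLev ψ) (g : Γ) (n : ℕ) : nb ψ (n • g) ≤ n * nb ψ g := by
  induction n with
  | zero =>
    rw [zero_smul, nb, hL.zero]
    simp
  | succ n ih =>
    rw [succ_nsmul]
    refine (nb_add hL _ _).trans ?_
    push_cast
    linarith

theorem nd_nsmul (hL : IsLev ψ) (g h : Γ) (n : ℕ) : nd ψ (n • g) h ≤ n * nd ψ g h := by
  induction n with
  | zero =>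
    rw [zero_smul]
    have h1 := nd_le hL 0 h
    have h2 : nb ψ 0 = 0 := by rw [nb, hL.zero]; simp
    rw [h2] at h1
    simpa using h1
  | succ n ih =>
    rw [succ_nsmul]
    refine (nd_add hL _ _ _).trans ?_
    push_cast
    linarith

theorem co_zero_left (hL : IsLev ψ) (h : Γ) : co ψ 0 h = 0 := by
  rw [co, zero_add, hL.zero]; ring

theorem co_nsmul (hL : IsLev ψ) (g h : Γ) (n : ℕ) :
    ‖co ψ (n • g) h‖ ≤ n * ‖co ψ g h‖ + n ^ 2 * (nb ψ g * nd ψ g h) := by
  induction n with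
  | zero => rw [zero_smul, co_zero_left hL]; simp
  | succ n ih =>
    rw [succ_nsmul, add_comm (n • g) g]
    have h1 := co_add hL g (n • g) h
    have h2 := nb_nsmul hL g n
    have h3 : ‖co ψ (g + n • g) h‖ ≤ ‖co ψ (g + n • g) h - co ψ g h - co ψ (n • g) h‖ +
        (‖co ψ g h‖ + ‖co ψ (n • g) h‖) := by
      have e : co ψ (g + n • g) h = (co ψ (g + n • g) h - co ψ g h - co ψ (n • g) h) +
        (co ψ g h + co ψ (n • g) h) := by ring
      calc ‖co ψ (g + n • g) h‖ = ‖(co ψ (g + n • g) h - co ψ g h - co ψ (n • g) h) +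
            (co ψ g h + co ψ (n • g) h)‖ := by rw [← e]
        _ ≤ _ := (norm_add_le _ _).trans (add_le_add le_rfl (norm_add_le _ _))
    have n3 := nd_nonneg (ψ := ψ) g h
    have n1 := nb_nonneg (ψ := ψ) g
    have h4 := mul_le_mul_of_nonneg_left h2 n3
    have h5 : 0 ≤ nb ψ g * nd ψ g h := mul_nonneg n1 n3
    have hn : (0 : ℝ) ≤ n := Nat.cast_nonneg n
    push_cast
    nlinarith [mul_nonneg hn h5]

/-- Size of the pair. -/
noncomputable def sz (ψ : Γ → ℂ) (g h : Γ) : ℝ := ‖co ψ g h‖ + nd ψ g h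

theorem sz_nonneg (g h : Γ) : 0 ≤ sz ψ g h := add_nonneg (norm_nonneg _) (nd_nonneg _ _)

theorem sz_comm (hL : IsLev ψ) (g h : Γ) : sz ψ g h = sz ψ h g := by
  rw [sz, sz, co_comm, nd_comm hL]

theorem sz_nsmul (hL : IsLev ψ) (g h : Γ) {n : ℕ} (hn : 1 ≤ n) (hb : nb ψ g ≤ 1) :
    sz ψ (n • g) h ≤ 2 * n ^ 2 * sz ψ g h := by
  have h1 := co_nsmul hL g h n
  have h2 := nd_nsmul hL g h n
  have n3 := nd_nonneg (ψ := ψ) g h
  have n1 := nb_nonneg (ψ := ψ) g
  have n4 := norm_nonneg (co ψ g h)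
  have hn' : (1 : ℝ) ≤ n := by exact_mod_cast hn
  have hn2 : (n : ℝ) ≤ n ^ 2 := by nlinarith
  have h3 : nb ψ g * nd ψ g h ≤ nd ψ g h := by nlinarith
  have h4 : (n : ℝ) ^ 2 * (nb ψ g * nd ψ g h) ≤ n ^ 2 * nd ψ g h :=
    mul_le_mul_of_nonneg_left h3 (by positivity)
  have h5 : (n : ℝ) * ‖co ψ g h‖ ≤ n ^ 2 * ‖co ψ g h‖ := mul_le_mul_of_nonneg_right hn2 n4
  have h6 : (n : ℝ) * nd ψ g h ≤ n ^ 2 * nd ψ g h := mul_le_mul_of_nonneg_right hn2 n3
  have h7 : 0 ≤ (n : ℝ) ^ 2 * ‖co ψ g h‖ := by positivity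
  unfold sz
  nlinarith

theorem sz_nsmul₂ (hL : IsLev ψ) (g h : Γ) {n : ℕ} (hn : 1 ≤ n) (hb : nb ψ g ≤ 1)
    (hb' : nb ψ h ≤ 1) : sz ψ (n • g) (n • h) ≤ 4 * n ^ 4 * sz ψ g h := by
  have h1 := sz_nsmul hL g (n • h) hn hb
  have h2 := sz_nsmul hL h g hn hb'
  rw [sz_comm hL g (n • h)] at h1
  rw [sz_comm hL h g] at h2
  have h3 := mul_le_mul_of_nonneg_left h2 (show (0:ℝ) ≤ 2 * n ^ 2 by positivity)
  calc _ ≤ _ := h1
    _ ≤ _ := h3
    _ = _ := by ring

theorem sum_bound (hL : IsLev ψ) (p : ℕ → Γ) (k : ℕ) :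
    ‖ψ (∑ i ∈ Finset.range k, p i) - ∑ i ∈ Finset.range k, ψ (p i)‖ ≤
      ∑ j ∈ Finset.range k, ∑ i ∈ Finset.range j,
        (‖co ψ (p i) (p j)‖ + nd ψ (p i) (p j) * ∑ l ∈ Finset.range k, nb ψ (p l)) := by
  -- the norm of partial sums
  have hnb : ∀ j, nb ψ (∑ i ∈ Finset.range j, p i) ≤ ∑ i ∈ Finset.range j, nb ψ (p i) := by
    intro j
    induction j with
    | zero => rw [Finset.sum_range_zero, Finset.sum_range_zero, nb, hL.zero]; simp
    | succ j ih =>
      rw [Finset.sum_range_succ, Finset.sum_range_succ]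
      exact (nb_add hL _ _).trans (by linarith)
  have hco : ∀ (h : Γ) (j : ℕ), ‖co ψ (∑ i ∈ Finset.range j, p i) h‖ ≤
      ∑ i ∈ Finset.range j, (‖co ψ (p i) h‖ + nd ψ (p i) h * ∑ l ∈ Finset.range i, nb ψ (p l)) := by
    intro h j
    induction j with
    | zero => rw [Finset.sum_range_zero, Finset.sum_range_zero, co_zero_left hL]; simp
    | succ j ih =>
      rw [Finset.sum_range_succ, Finset.sum_range_succ, add_comm (∑ i ∈ Finset.range j, p i) (p j)]
      set S := ∑ i ∈ Finset.range j, p i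
      have h1 := co_add hL (p j) S h
      have h3 : ‖co ψ (p j + S) h‖ ≤ ‖co ψ (p j + S) h - co ψ (p j) h - co ψ S h‖ +
          (‖co ψ (p j) h‖ + ‖co ψ S h‖) := by
        have e : co ψ (p j + S) h = (co ψ (p j + S) h - co ψ (p j) h - co ψ S h) +
          (co ψ (p j) h + co ψ S h) := by ring
        calc ‖co ψ (p j + S) h‖ = ‖(co ψ (p j + S) h - co ψ (p j) h - co ψ S h) +
              (co ψ (p j) h + co ψ S h)‖ := by rw [← e]
          _ ≤ _ := (norm_add_le _ _).trans (add_le_add le_rfl (norm_add_le _ _))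
      have h4 := mul_le_mul_of_nonneg_left (hnb j) (nd_nonneg (ψ := ψ) (p j) h)
      linarith
  induction k with
  | zero => simp [hL.zero]
  | succ k ih =>
    rw [Finset.sum_range_succ, Finset.sum_range_succ, Finset.sum_range_succ (fun j =>
      ∑ i ∈ Finset.range j, (‖co ψ (p i) (p j)‖ + nd ψ (p i) (p j) *
        ∑ l ∈ Finset.range (k + 1), nb ψ (p l)))]
    have e : ψ (∑ i ∈ Finset.range k, p i + p k) - (∑ i ∈ Finset.range k, ψ (p i) + ψ (p k)) =
      (ψ (∑ i ∈ Finset.range k, p i) - ∑ i ∈ Finset.range k, ψ (p i)) +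
        co ψ (∑ i ∈ Finset.range k, p i) (p k) := by
      rw [co]; ring
    rw [e]
    refine (norm_add_le _ _).trans (add_le_add ?_ ?_)
    · refine ih.trans (Finset.sum_le_sum fun j _ => Finset.sum_le_sum fun i _ => ?_)
      rw [Finset.sum_range_succ (fun l => nb ψ (p l))]
      have := mul_nonneg (nd_nonneg (ψ := ψ) (p i) (p j)) (nb_nonneg (ψ := ψ) (p k))
      linarith
    · refine (hco (p k) k).trans (Finset.sum_le_sum fun i hi => ?_)
      have h1 : ∑ l ∈ Finset.range i, nb ψ (p l) ≤ ∑ l ∈ Finset.range (k + 1), nb ψ (p l) := by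
        apply Finset.sum_le_sum_of_subset_of_nonneg
        · exact Finset.range_mono (by have := Finset.mem_range.mp hi; omega)
        · intro l _ _; exact nb_nonneg _
      have := mul_le_mul_of_nonneg_left h1 (nd_nonneg (ψ := ψ) (p i) (p k))
      linarith

end Pool.Agent.Y264.Rid
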