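import Pool.Agent.Y264.Rok1

/-! Multiple mixing for bounded functions; extension from a total set of functions. -/

set_option autoImplicit false

namespace Pool.Agent.Y264.Rid
open MeasureTheory Filter Topology Set

/-- All gaps `m 0, ..., m (k-1)` tend to infinity. -/
def gapF (k : ℕ) : Filter (ℕ → ℕ) where
  sets := {s | ∃ N : ℕ, ∀ m : ℕ → ℕ, (∀ j < k, N ≤ m j) → m ∈ s}
  univ_sets := ⟨0, fun _ _ => mem_univ _⟩
  sets_of_superset := by
    rintro s t ⟨N, hN⟩ hst
    exact ⟨N, fun m hm => hst (hN m hm)⟩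
  inter_sets := by
    rintro s t ⟨N, hN⟩ ⟨M, hM⟩
    exact ⟨max N M, fun m hm => ⟨hN m fun j hj => (le_max_left _ _).trans (hm j hj),
      hM m fun j hj => (le_max_right _ _).trans (hm j hj)⟩⟩

theorem eventually_gapF {k : ℕ} {p : (ℕ → ℕ) → Prop} :
    (∀ᶠ m in gapF k, p m) ↔ ∃ N : ℕ, ∀ m : ℕ → ℕ, (∀ j < k, N ≤ m j) → p m := Iff.rfl

variable {Z : Type*} [mZ : MeasurableSpace Z]

/-- Convergence of the correlations of the functions `F 0, ..., F k`. -/
def FM (μ : Measure Z) (T : Z → Z) (k : ℕ) (F : ℕ → Z → ℂ) : Prop :=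
  Tendsto (fun m : ℕ → ℕ => ∫ z, ∏ i ∈ Finset.range (k + 1),
    F i (T^[∑ j ∈ Finset.range i, m j] z) ∂μ) (gapF k)
    (𝓝 (∏ i ∈ Finset.range (k + 1), ∫ z, F i z ∂μ))

variable {μ : Measure Z} [IsProbabilityMeasure μ] {T : Z → Z}

theorem ind_prod (A : ℕ → Set Z) (s : Finset ℕ) (n : ℕ → ℕ) (z : Z) :
    ∏ i ∈ s, (A i).indicator (fun _ => (1 : ℂ)) (T^[n i] z) =
      (⋂ i ∈ s, T^[n i] ⁻¹' A i).indicator (fun _ => (1 : ℂ)) z := by
  by_cases h : z ∈ ⋂ i ∈ s, T^[n i] ⁻¹' A i
  · rw [indicator_of_mem h]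
    apply Finset.prod_eq_one
    intro i hi
    rw [mem_iInter₂] at h
    exact indicator_of_mem (show T^[n i] z ∈ A i from h i hi) _
  · rw [indicator_of_notMem h]
    rw [mem_iInter₂] at h
    push Not at h
    obtain ⟨i, hi, hi'⟩ := h
    exact Finset.prod_eq_zero hi (indicator_of_notMem (show T^[n i] z ∉ A i from hi') _)

theorem int_ind {B : Set Z} (hB : MeasurableSet B) :
    ∫ z, B.indicator (fun _ => (1 : ℂ)) z ∂μ = (μ.real B : ℂ) := by
  rw [integral_indicator_const _ hB]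
  simp

theorem fm_iff_good (hT : MeasurePreserving T μ μ) {k : ℕ} {A : ℕ → Set Z}
    (hA : ∀ i, MeasurableSet (A i)) :
    FM μ T k (fun i => (A i).indicator fun _ => 1) ↔ Rok.Good μ T k A := by
  unfold FM Rok.Good
  rw [Metric.tendsto_nhds]
  simp only [eventually_gapF, ind_prod, int_ind (hA _)]
  have e : ∀ m : ℕ → ℕ, ∫ z, (⋂ i ∈ Finset.range (k + 1),
      T^[∑ j ∈ Finset.range i, m j] ⁻¹' A i).indicator (fun _ => (1 : ℂ)) z ∂μ =
      (μ.real (⋂ i ∈ Finset.range (k + 1), T^[∑ j ∈ Finset.range i, m j] ⁻¹' A i) : ℂ) := by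
    intro m
    exact int_ind (Rok.meas_iInter hT hA _ _)
  simp only [e, Complex.dist_eq]
  have e2 : ∀ m : ℕ → ℕ, ‖(μ.real (⋂ i ∈ Finset.range (k + 1),
      T^[∑ j ∈ Finset.range i, m j] ⁻¹' A i) : ℂ) - ∏ i ∈ Finset.range (k + 1), (μ.real (A i) : ℂ)‖ =
      |μ.real (⋂ i ∈ Finset.range (k + 1), T^[∑ j ∈ Finset.range i, m j] ⁻¹' A i)
      - ∏ i ∈ Finset.range (k + 1), μ.real (A i)| := by
    intro m
    rw [← Complex.ofReal_prod, ← Complex.ofReal_sub, Complex.norm_real, Real.norm_eq_abs]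
  simp only [e2, gt_iff_lt]

theorem int_comp {E : Type*} [NormedAddCommGroup E] [NormedSpace ℝ E] {τ : Z → Z}
    (hτ : MeasurePreserving τ μ μ) {g : Z → E} (hg : AEStronglyMeasurable g μ) :
    ∫ z, g (τ z) ∂μ = ∫ z, g z ∂μ := by
  have h := integral_map (μ := μ) hτ.measurable.aemeasurable (f := g) (by rw [hτ.map_eq]; exact hg)
  rw [hτ.map_eq] at h
  exact h.symm

theorem lin_ext {ι : Type*} {l : Filter ι} {P : ι → Z → ℂ} (hP : ∀ i, Measurable (P i))
    (hP1 : ∀ i z, ‖P i z‖ ≤ 1) {τ : ι → Z → Z} (hτ : ∀ i, MeasurePreserving (τ i) μ μ)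
    {c : ℂ} (hc : ‖c‖ ≤ 1) {C : Set (Z → ℂ)}
    (hC : ∀ v ∈ C, Measurable v ∧ Integrable v μ ∧
      Tendsto (fun i => ∫ z, v (τ i z) * P i z ∂μ) l (𝓝 ((∫ z, v z ∂μ) * c)))
    {f : Z → ℂ} (hfm : Measurable f) (hf : Integrable f μ)
    (happ : ∀ ε : ℝ, 0 < ε → ∃ v ∈ Submodule.span ℂ C, ∫ z, ‖f z - v z‖ ∂μ ≤ ε) :
    Tendsto (fun i => ∫ z, f (τ i z) * P i z ∂μ) l (𝓝 ((∫ z, f z ∂μ) * c)) := by
  have hint : ∀ (v : Z → ℂ), Measurable v → Integrable v μ → ∀ i,
      Integrable (fun z => v (τ i z) * P i z) μ := by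
    intro v hvm hv i
    have h1 : Integrable (fun z => v (τ i z)) μ := (hτ i).integrable_comp_of_integrable hv
    exact h1.mul_bdd (c := 1) (hP i).aestronglyMeasurable (ae_of_all _ fun z => hP1 i z)
  have hspan : ∀ v ∈ Submodule.span ℂ C, Measurable v ∧ Integrable v μ ∧
      Tendsto (fun i => ∫ z, v (τ i z) * P i z ∂μ) l (𝓝 ((∫ z, v z ∂μ) * c)) := by
    intro v hv
    induction hv using Submodule.span_induction with
    | mem v hv => exact hC v hv
    | zero =>
      refine ⟨measurable_const, integrable_zero _ _ _, ?_⟩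
      simp only [Pi.zero_apply, zero_mul, integral_zero]
      exact tendsto_const_nhds
    | add v w _ _ hv hw =>
      obtain ⟨hvm, hvi, hvt⟩ := hv
      obtain ⟨hwm, hwi, hwt⟩ := hw
      refine ⟨hvm.add hwm, hvi.add hwi, ?_⟩
      have h1 := hvt.add hwt
      have e1 : (∫ z, (v + w) z ∂μ) * c = (∫ z, v z ∂μ) * c + (∫ z, w z ∂μ) * c := by
        rw [← add_mul, ← integral_add hvi hwi]; rfl
      rw [e1]
      refine h1.congr fun i => ?_
      rw [← integral_add (hint v hvm hvi i) (hint w hwm hwi i)]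
      congr 1
      ext z
      simp only [Pi.add_apply]
      ring
    | smul a v _ hv =>
      obtain ⟨hvm, hvi, hvt⟩ := hv
      refine ⟨hvm.const_smul a, hvi.smul a, ?_⟩
      have h1 := hvt.const_mul a
      have e1 : (∫ z, (a • v) z ∂μ) * c = a * ((∫ z, v z ∂μ) * c) := by
        rw [← mul_assoc, ← integral_const_mul]; rfl
      rw [e1]
      refine h1.congr fun i => ?_
      rw [← integral_const_mul]
      congr 1
      ext z
      simp only [Pi.smul_apply, smul_eq_mul]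
      ring
  rw [Metric.tendsto_nhds]
  intro ε hε
  obtain ⟨v, hv, hvf⟩ := happ (ε / 4) (by positivity)
  obtain ⟨hvm, hvi, hvt⟩ := hspan v hv
  rw [Metric.tendsto_nhds] at hvt
  filter_upwards [hvt (ε / 4) (by positivity)] with i hi
  rw [dist_eq_norm] at hi ⊢
  have hd : Integrable (fun z => ‖f z - v z‖) μ := (hf.sub hvi).norm
  have b1 : ‖(∫ z, f (τ i z) * P i z ∂μ) - ∫ z, v (τ i z) * P i z ∂μ‖ ≤ ε / 4 := by
    rw [← integral_sub (hint f hfm hf i) (hint v hvm hvi i)]
    refine (norm_integral_le_integral_norm _).trans ?_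
    have h1 : Integrable (fun z => ‖f (τ i z) - v (τ i z)‖) μ :=
      (hτ i).integrable_comp_of_integrable hd
    refine (integral_mono (((hint f hfm hf i).sub (hint v hvm hvi i)).norm) h1 fun z => ?_).trans ?_
    · change ‖f (τ i z) * P i z - v (τ i z) * P i z‖ ≤ ‖f (τ i z) - v (τ i z)‖
      rw [← sub_mul, norm_mul]
      exact mul_le_of_le_one_right (norm_nonneg _) (hP1 i z)
    · rw [int_comp (hτ i) (g := fun z => ‖f z - v z‖) hd.aestronglyMeasurable]
      exact hvf
  have b2 : ‖(∫ z, f z ∂μ) * c - (∫ z, v z ∂μ) * c‖ ≤ ε / 4 := by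
    rw [← sub_mul, norm_mul, ← integral_sub hf hvi]
    refine (mul_le_of_le_one_right (norm_nonneg _) hc).trans ?_
    exact (norm_integral_le_integral_norm _).trans hvf
  calc _ = ‖((∫ z, f (τ i z) * P i z ∂μ) - ∫ z, v (τ i z) * P i z ∂μ) +
        ((∫ z, v (τ i z) * P i z ∂μ) - (∫ z, v z ∂μ) * c) -
        ((∫ z, f z ∂μ) * c - (∫ z, v z ∂μ) * c)‖ := by congr 1; ring
    _ ≤ ε / 4 + ε / 4 + ε / 4 := by
        refine (norm_sub_le _ _).trans (add_le_add ((norm_add_le _ _).trans (add_le_add b1 ?_)) b2)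
        exact hi.le
    _ < ε := by linarith

theorem fm_congr {k : ℕ} {F G : ℕ → Z → ℂ} (h : ∀ i < k + 1, F i = G i) :
    FM μ T k F ↔ FM μ T k G := by
  have e1 : ∀ m : ℕ → ℕ, ∫ z, ∏ i ∈ Finset.range (k + 1),
      F i (T^[∑ j ∈ Finset.range i, m j] z) ∂μ = ∫ z, ∏ i ∈ Finset.range (k + 1),
      G i (T^[∑ j ∈ Finset.range i, m j] z) ∂μ := by
    intro m
    congr 1
    ext z
    exact Finset.prod_congr rfl fun i hi => by rw [h i (Finset.mem_range.mp hi)]
  have e2 : ∏ i ∈ Finset.range (k + 1), ∫ z, F i z ∂μ =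
      ∏ i ∈ Finset.range (k + 1), ∫ z, G i z ∂μ :=
    Finset.prod_congr rfl fun i hi => by rw [h i (Finset.mem_range.mp hi)]
  unfold FM
  simp only [e1, e2]

theorem fm_update {k r : ℕ} (hr : r < k + 1) (F : ℕ → Z → ℂ) (v : Z → ℂ) :
    FM μ T k (Function.update F r v) ↔
      Tendsto (fun m : ℕ → ℕ => ∫ z, v (T^[∑ j ∈ Finset.range r, m j] z) *
        ∏ i ∈ (Finset.range (k + 1)).erase r, F i (T^[∑ j ∈ Finset.range i, m j] z) ∂μ) (gapF k)
      (𝓝 ((∫ z, v z ∂μ) * ∏ i ∈ (Finset.range (k + 1)).erase r, ∫ z, F i z ∂μ)) := by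
  have hr' := Finset.mem_range.mpr hr
  have e1 : ∀ (m : ℕ → ℕ) (z : Z), ∏ i ∈ Finset.range (k + 1),
      Function.update F r v i (T^[∑ j ∈ Finset.range i, m j] z) =
      v (T^[∑ j ∈ Finset.range r, m j] z) *
        ∏ i ∈ (Finset.range (k + 1)).erase r, F i (T^[∑ j ∈ Finset.range i, m j] z) := by
    intro m z
    rw [← Finset.mul_prod_erase _ _ hr', Function.update_self]
    congr 1
    apply Finset.prod_congr rfl
    intro i hi
    rw [Function.update_of_ne (Finset.ne_of_mem_erase hi)]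
  have e2 : ∏ i ∈ Finset.range (k + 1), ∫ z, Function.update F r v i z ∂μ =
      (∫ z, v z ∂μ) * ∏ i ∈ (Finset.range (k + 1)).erase r, ∫ z, F i z ∂μ := by
    rw [← Finset.mul_prod_erase _ _ hr', Function.update_self]
    congr 1
    apply Finset.prod_congr rfl
    intro i hi
    rw [Function.update_of_ne (Finset.ne_of_mem_erase hi)]
  unfold FM
  simp only [e1, e2]

/-- Extension of the convergence of correlations from a total set of functions. -/
theorem ext_slots (hT : MeasurePreserving T μ μ) {k : ℕ} {C C' : Set (Z → ℂ)}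
    (hC : ∀ f ∈ C, Measurable f ∧ ∀ z, ‖f z‖ ≤ 1) (hC' : ∀ f ∈ C', Measurable f ∧ ∀ z, ‖f z‖ ≤ 1)
    (happ : ∀ f ∈ C', ∀ ε : ℝ, 0 < ε → ∃ v ∈ Submodule.span ℂ C, ∫ z, ‖f z - v z‖ ∂μ ≤ ε)
    (h : ∀ F : ℕ → Z → ℂ, (∀ i, F i ∈ C) → FM μ T k F) {F : ℕ → Z → ℂ} (hF : ∀ i, F i ∈ C') :
    FM μ T k F := by
  have hint : ∀ f : Z → ℂ, Measurable f → (∀ z, ‖f z‖ ≤ 1) → Integrable f μ := by
    intro f hf hf1
    exact Integrable.of_bound hf.aestronglyMeasurable 1 (ae_of_all _ hf1)
  have key : ∀ r ≤ k + 1, ∀ F : ℕ → Z → ℂ, (∀ i < r, F i ∈ C') →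
      (∀ i, r ≤ i → i < k + 1 → F i ∈ C) → FM μ T k F := by
    intro r
    induction r with
    | zero =>
      intro _ F _ hF
      have h0 : F 0 ∈ C := hF 0 le_rfl (Nat.succ_pos k)
      rw [fm_congr (G := fun i => if i < k + 1 then F i else F 0)
        (fun i hi => by simp only [hi, if_true])]
      apply h
      intro i
      by_cases hi : i < k + 1
      · simp only [hi, if_true]; exact hF i (Nat.zero_le _) hi
      · simp only [hi, if_false]; exact h0
    | succ r ih =>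
      intro hr F hF1 hF2
      have hr1 : r < k + 1 := hr
      have hFr : F r ∈ C' := hF1 r (Nat.lt_succ_self r)
      have hoth : ∀ i ∈ (Finset.range (k + 1)).erase r, Measurable (F i) ∧ ∀ z, ‖F i z‖ ≤ 1 := by
        intro i hi
        have hi1 := Finset.ne_of_mem_erase hi
        have hi2 := Finset.mem_range.mp (Finset.mem_of_mem_erase hi)
        rcases lt_or_gt_of_ne hi1 with h1 | h1
        · exact hC' _ (hF1 i (by omega))
        · exact hC _ (hF2 i (by omega) hi2)
      have e0 : F = Function.update F r (F r) := (Function.update_eq_self r F).symm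
      rw [e0, fm_update hr1]
      refine lin_ext (C := C) ?_ ?_ (fun m => hT.iterate _) ?_ ?_ (hC' _ hFr).1
        (hint _ (hC' _ hFr).1 (hC' _ hFr).2) (happ _ hFr)
      · intro m
        apply Finset.measurable_prod
        intro i hi
        exact (hoth i hi).1.comp (hT.measurable.iterate _)
      · intro m z
        rw [norm_prod]
        exact Finset.prod_le_one (fun i _ => norm_nonneg _) fun i hi => (hoth i hi).2 _
      · rw [norm_prod]
        apply Finset.prod_le_one (fun i _ => norm_nonneg _)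
        intro i hi
        have h1 := norm_integral_le_of_norm_le_const (μ := μ) (ae_of_all _ (hoth i hi).2)
        simpa using h1
      · intro v hv
        refine ⟨(hC v hv).1, hint v (hC v hv).1 (hC v hv).2, ?_⟩
        rw [← fm_update hr1]
        apply ih (by omega)
        · intro i hi
          rw [Function.update_of_ne (by omega)]
          exact hF1 i (by omega)
        · intro i hi1 hi2
          by_cases hir : i = r
          · subst hir; rw [Function.update_self]; exact hv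
          · rw [Function.update_of_ne hir]
            exact hF2 i (by omega) hi2
  exact key (k + 1) le_rfl F (fun i _ => hF i) fun i h1 h2 => absurd h2 (by omega)

theorem approx_seq {Z : Type*} [MeasurableSpace Z] {f : Z → ℂ} (hf : Measurable f)
    (hf1 : ∀ z, ‖f z‖ ≤ 1) : ∃ s : ℕ → Z → ℂ, (∀ n, Measurable (s n)) ∧ (∀ n z, ‖s n z‖ ≤ 1) ∧
      (∀ z, Tendsto (fun n => s n z) atTop (𝓝 (f z))) ∧
      ∀ n, s n ∈ Submodule.span ℂ {g : Z → ℂ | ∃ A : Set Z, MeasurableSet A ∧
        g = A.indicator fun _ => 1} := by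
  have hfs : StronglyMeasurable f := hf.stronglyMeasurable
  refine ⟨fun n => hfs.approxBounded 1 n, fun n => (hfs.approxBounded 1 n).measurable,
    fun n z => hfs.norm_approxBounded_le (c := 1) zero_le_one n z,
    fun z => hfs.tendsto_approxBounded_of_norm_le (hf1 z), fun n => ?_⟩
  suffices hall : ∀ s : SimpleFunc Z ℂ, (⇑s : Z → ℂ) ∈ Submodule.span ℂ {g : Z → ℂ | ∃ A : Set Z,
      MeasurableSet A ∧ g = A.indicator fun _ => 1} from hall _
  intro s
  induction s using SimpleFunc.induction with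
  | const c hs =>
    rename_i A
    have : (⇑(SimpleFunc.piecewise A hs (SimpleFunc.const Z c) (SimpleFunc.const Z 0)) : Z → ℂ) =
        c • (A.indicator fun _ => (1 : ℂ)) := by
      ext z
      by_cases hz : z ∈ A <;> simp [hz]
    rw [this]
    exact Submodule.smul_mem _ _ (Submodule.subset_span ⟨A, hs, rfl⟩)
  | add hd h1 h2 =>
    rw [SimpleFunc.coe_add]
    exact Submodule.add_mem _ h1 h2

/-- Bounded functions are approximated by combinations of indicator functions. -/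
theorem approx_ind {Z : Type*} {B mZ : MeasurableSpace Z} {μ : Measure Z} [IsProbabilityMeasure μ]
    (hB : B ≤ mZ) {f : Z → ℂ} (hf : Measurable[B] f)
    (hf1 : ∀ z, ‖f z‖ ≤ 1) (ε : ℝ) (hε : 0 < ε) :
    ∃ v ∈ Submodule.span ℂ {g : Z → ℂ | ∃ A : Set Z, MeasurableSet[B] A ∧
      g = A.indicator fun _ => 1}, ∫ z, ‖f z - v z‖ ∂μ ≤ ε := by
  obtain ⟨s, hsm, hs1, hst, hss⟩ := @approx_seq Z B f hf hf1
  have hlim : Tendsto (fun n => ∫ z, ‖f z - s n z‖ ∂μ) atTop (𝓝 0) := by
    have h1 : Tendsto (fun n => ∫ z, ‖f z - s n z‖ ∂μ) atTop (𝓝 (∫ z, (0 : ℝ) ∂μ)) := by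
      refine tendsto_integral_of_dominated_convergence (fun _ => 2) ?_ (integrable_const _) ?_ ?_
      · intro n
        have h2 : Measurable fun z => f z - s n z :=
          (hf.mono hB le_rfl).sub ((hsm n).mono hB le_rfl)
        exact h2.norm.aestronglyMeasurable
      · intro n
        refine ae_of_all _ fun z => ?_
        rw [norm_norm]
        exact (norm_sub_le _ _).trans (by linarith [hf1 z, hs1 n z])
      · refine ae_of_all _ fun z => ?_
        have h3 := (tendsto_const_nhds (x := f z)).sub (hst z)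
        rw [sub_self] at h3
        simpa using h3.norm
    simpa using h1
  obtain ⟨n, hn⟩ := ((Metric.tendsto_nhds.mp hlim) ε hε).exists
  rw [Real.dist_eq, sub_zero] at hn
  exact ⟨s n, hss n, (le_abs_self _).trans hn.le⟩

/-- Mixing for bounded functions measurable for a sub-sigma-algebra. -/
theorem fm_of_sets {Z : Type*} {B mZ : MeasurableSpace Z} {μ : Measure Z} [IsProbabilityMeasure μ]
    {T : Z → Z} (hT : MeasurePreserving T μ μ) (hB : B ≤ mZ) {k : ℕ}
    (h : ∀ A : ℕ → Set Z, (∀ i, MeasurableSet[B] (A i)) → Rok.Good μ T k A)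
    {F : ℕ → Z → ℂ} (hF : ∀ i, Measurable[B] (F i)) (hF1 : ∀ i z, ‖F i z‖ ≤ 1) :
    FM μ T k F := by
  refine ext_slots hT (C := {g : Z → ℂ | ∃ A : Set Z, MeasurableSet[B] A ∧
      g = A.indicator fun _ => 1}) (C' := {g : Z → ℂ | Measurable[B] g ∧ ∀ z, ‖g z‖ ≤ 1})
      ?_ ?_ ?_ ?_ fun i => ⟨hF i, hF1 i⟩
  · rintro f ⟨A, hA, rfl⟩
    refine ⟨measurable_const.indicator (hB _ hA), fun z => ?_⟩
    by_cases hz : z ∈ A <;> simp [hz]
  · rintro f ⟨h1, h2⟩
    exact ⟨h1.mono hB le_rfl, h2⟩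
  · rintro f ⟨h1, h2⟩ ε hε
    exact approx_ind hB h1 h2 ε hε
  · intro F hF
    choose A hA hFA using hF
    have : F = fun i => (A i).indicator fun _ => 1 := by ext1 i; exact hFA i
    rw [this, fm_iff_good hT fun i => hB _ (hA i)]
    exact h A hA

/-- Two functions. -/
theorem mix_two (hT : MeasurePreserving T μ μ)
    (h : Rok.MixOrd μ T 1) {f g : Z → ℂ} (hf : Measurable f) (hg : Measurable g)
    (hf1 : ∀ z, ‖f z‖ ≤ 1) (hg1 : ∀ z, ‖g z‖ ≤ 1) :
    Tendsto (fun n : ℕ => ∫ z, f z * g (T^[n] z) ∂μ) atTop (𝓝 ((∫ z, f z ∂μ) * ∫ z, g z ∂μ)) := by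
  have h1 := fm_of_sets hT le_rfl (k := 1) (h := h) (F := fun i => if i = 0 then f else g)
    (fun i => by by_cases hi : i = 0 <;> simp [hi, hf, hg])
    (fun i z => by by_cases hi : i = 0 <;> simp [hi, hf1, hg1])
  unfold FM at h1
  have h2 : Tendsto (fun (n : ℕ) (_ : ℕ) => n) atTop (gapF 1) := by
    rw [tendsto_def]
    rintro s ⟨N, hN⟩
    filter_upwards [eventually_ge_atTop N] with n hn
    exact hN _ fun _ _ => hn
  have h3 := h1.comp h2
  simpa [Finset.prod_range_succ, Function.comp_def] using h3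

end Pool.Agent.Y264.Rid
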