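import Mathlib

/-! Density of the functions `a exp (i h)`. -/

set_option autoImplicit false

namespace Pool.Agent.Y264.Rid
open MeasureTheory Filter Topology Set Complex

theorem meas_mul {Z : Type*} [MeasurableSpace Z] {a b : Z → ℂ} (ha : Measurable a)
    (hb : Measurable b) : Measurable fun z => a z * b z := ha.mul hb

theorem meas_ind {Z : Type*} [MeasurableSpace Z] {B : Set Z} (hB : MeasurableSet B) :
    Measurable (B.indicator fun _ => (1 : ℂ)) := measurable_const.indicator hB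

/-- The functions `a exp (i h)`, `a` measurable for the factor and bounded by one, `h ∈ H`. -/
def expo {Z : Type*} (A : MeasurableSpace Z) (H : Submodule ℝ (Z → ℝ)) : Set (Z → ℂ) :=
  {f | ∃ a : Z → ℂ, Measurable[A] a ∧ (∀ z, ‖a z‖ ≤ 1) ∧ ∃ h ∈ H, f = fun z => a z * cexp (I * h z)}

variable {Z : Type*} {A mZ : MeasurableSpace Z} {μ : Measure Z} [IsProbabilityMeasure μ]
  {H : Submodule ℝ (Z → ℝ)}

/-- The multipliers of the closure of the span. -/
def Wm (A : MeasurableSpace Z) {mZ : MeasurableSpace Z} (μ : Measure Z) (H : Submodule ℝ (Z → ℝ))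
    (f : Z → ℂ) : Prop :=
  Measurable f ∧ (∃ M : ℝ, ∀ z, ‖f z‖ ≤ M) ∧ ∀ v ∈ Submodule.span ℂ (expo A H), ∀ ε : ℝ, 0 < ε →
    ∃ w ∈ Submodule.span ℂ (expo A H), ∫ z, ‖f z * v z - w z‖ ∂μ ≤ ε

theorem norm_exp_I (x : ℝ) : ‖cexp (I * x)‖ = 1 := by
  rw [mul_comm]; exact Complex.norm_exp_ofReal_mul_I x

theorem expo_bdd (hA : A ≤ mZ) (hH : ∀ h ∈ H, Measurable h) :
    ∀ f ∈ expo A H, Measurable f ∧ ∀ z, ‖f z‖ ≤ 1 := by
  rintro f ⟨a, ha, ha1, h, hh, rfl⟩
  refine ⟨?_, fun z => ?_⟩
  · have h1 := hH h hh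
    have h2 : Measurable a := ha.mono hA le_rfl
    fun_prop
  · rw [norm_mul, norm_exp_I, mul_one]
    exact ha1 z

theorem span_bdd (hA : A ≤ mZ) (hH : ∀ h ∈ H, Measurable h) :
    ∀ f ∈ Submodule.span ℂ (expo A H), Measurable f ∧ ∃ M : ℝ, ∀ z, ‖f z‖ ≤ M := by
  intro f hf
  induction hf using Submodule.span_induction with
  | mem f hf => exact ⟨(expo_bdd hA hH f hf).1, 1, (expo_bdd hA hH f hf).2⟩
  | zero => exact ⟨measurable_const, 0, fun z => by simp⟩
  | add f g _ _ hf hg =>
    obtain ⟨hf1, M, hM⟩ := hf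
    obtain ⟨hg1, N, hN⟩ := hg
    exact ⟨hf1.add hg1, M + N, fun z => (norm_add_le _ _).trans (add_le_add (hM z) (hN z))⟩
  | smul c f _ hf =>
    obtain ⟨hf1, M, hM⟩ := hf
    refine ⟨hf1.const_smul c, ‖c‖ * M, fun z => ?_⟩
    rw [Pi.smul_apply, norm_smul]
    exact mul_le_mul_of_nonneg_left (hM z) (norm_nonneg _)

theorem int_bdd {f : Z → ℂ} (hf : Measurable f) {M : ℝ} (hM : ∀ z, ‖f z‖ ≤ M) : Integrable f μ :=
  Integrable.of_bound hf.aestronglyMeasurable M (ae_of_all _ hM)

theorem wm_mul (hA : A ≤ mZ) (hH : ∀ h ∈ H, Measurable h) {f g : Z → ℂ} (hf : Wm A μ H f)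
    (hg : Wm A μ H g) : Wm A μ H (fun z => f z * g z) := by
  obtain ⟨hf1, ⟨M, hM⟩, hf3⟩ := hf
  obtain ⟨hg1, ⟨N, hN⟩, hg3⟩ := hg
  refine ⟨hf1.mul hg1, ⟨M * N, fun z => ?_⟩, fun v hv ε hε => ?_⟩
  · rw [norm_mul]
    exact mul_le_mul (hM z) (hN z) (norm_nonneg _) ((norm_nonneg _).trans (hM z))
  obtain ⟨K, hK0, hK⟩ : ∃ K : ℝ, 0 < K ∧ ∀ z, ‖f z‖ ≤ K :=
    ⟨max M 1, by positivity, fun z => (hM z).trans (le_max_left _ _)⟩
  obtain ⟨w, hw, hw1⟩ := hg3 v hv (ε / (2 * K)) (by positivity)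
  obtain ⟨u, hu, hu1⟩ := hf3 w hw (ε / 2) (by positivity)
  refine ⟨u, hu, ?_⟩
  obtain ⟨hvm, V, hV⟩ := span_bdd hA hH v hv
  obtain ⟨hwm, W, hW⟩ := span_bdd hA hH w hw
  obtain ⟨hum, U, hU⟩ := span_bdd hA hH u hu
  have hvi : Integrable v μ := int_bdd hvm hV
  have hwi : Integrable w μ := int_bdd hwm hW
  have hui : Integrable u μ := int_bdd hum hU
  have i1 : Integrable (fun z => g z * v z - w z) μ :=
    (hvi.bdd_mul (c := N) hg1.aestronglyMeasurable (ae_of_all _ hN)).sub hwi
  have i2 : Integrable (fun z => f z * w z - u z) μ :=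
    (hwi.bdd_mul (c := M) hf1.aestronglyMeasurable (ae_of_all _ hM)).sub hui
  have i3 : Integrable (fun z => f z * g z * v z - u z) μ := by
    refine Integrable.sub ?_ hui
    refine hvi.bdd_mul (c := M * N) (hf1.mul hg1).aestronglyMeasurable (ae_of_all _ fun z => ?_)
    rw [norm_mul]
    exact mul_le_mul (hM z) (hN z) (norm_nonneg _) ((norm_nonneg _).trans (hM z))
  calc ∫ z, ‖f z * g z * v z - u z‖ ∂μ
      ≤ ∫ z, (K * ‖g z * v z - w z‖ + ‖f z * w z - u z‖) ∂μ := by
        refine integral_mono i3.norm ((i1.norm.const_mul K).add i2.norm) fun z => ?_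
        change ‖f z * g z * v z - u z‖ ≤ K * ‖g z * v z - w z‖ + ‖f z * w z - u z‖
        have e : f z * g z * v z - u z = f z * (g z * v z - w z) + (f z * w z - u z) := by ring
        rw [e]
        refine (norm_add_le _ _).trans (add_le_add ?_ le_rfl)
        rw [norm_mul]
        exact mul_le_mul_of_nonneg_right (hK z) (norm_nonneg _)
    _ = K * (∫ z, ‖g z * v z - w z‖ ∂μ) + ∫ z, ‖f z * w z - u z‖ ∂μ := by
        rw [integral_add (i1.norm.const_mul K) i2.norm, integral_const_mul]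
    _ ≤ K * (ε / (2 * K)) + ε / 2 := add_le_add (mul_le_mul_of_nonneg_left hw1 hK0.le) hu1
    _ = ε := by field_simp; ring


theorem wm_add (hA : A ≤ mZ) (hH : ∀ h ∈ H, Measurable h) {f g : Z → ℂ} (hf : Wm A μ H f)
    (hg : Wm A μ H g) : Wm A μ H (fun z => f z + g z) := by
  obtain ⟨hf1, ⟨M, hM⟩, hf3⟩ := hf
  obtain ⟨hg1, ⟨N, hN⟩, hg3⟩ := hg
  refine ⟨hf1.add hg1, ⟨M + N, fun z => (norm_add_le _ _).trans (add_le_add (hM z) (hN z))⟩,
    fun v hv ε hε => ?_⟩
  obtain ⟨w, hw, hw1⟩ := hf3 v hv (ε / 2) (by positivity)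
  obtain ⟨u, hu, hu1⟩ := hg3 v hv (ε / 2) (by positivity)
  refine ⟨w + u, Submodule.add_mem _ hw hu, ?_⟩
  obtain ⟨hvm, V, hV⟩ := span_bdd hA hH v hv
  obtain ⟨hwm, W, hW⟩ := span_bdd hA hH w hw
  obtain ⟨hum, U, hU⟩ := span_bdd hA hH u hu
  have hvi : Integrable v μ := int_bdd hvm hV
  have hwi : Integrable w μ := int_bdd hwm hW
  have hui : Integrable u μ := int_bdd hum hU
  have i1 : Integrable (fun z => f z * v z - w z) μ :=
    (hvi.bdd_mul (c := M) hf1.aestronglyMeasurable (ae_of_all _ hM)).sub hwi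
  have i2 : Integrable (fun z => g z * v z - u z) μ :=
    (hvi.bdd_mul (c := N) hg1.aestronglyMeasurable (ae_of_all _ hN)).sub hui
  have i3 : Integrable (fun z => (f z + g z) * v z - (w + u) z) μ := by
    have : (fun z => (f z + g z) * v z - (w + u) z) =
        fun z => (f z * v z - w z) + (g z * v z - u z) := by
      ext z; simp only [Pi.add_apply]; ring
    rw [this]
    exact i1.add i2
  calc ∫ z, ‖(f z + g z) * v z - (w + u) z‖ ∂μ
      ≤ ∫ z, (‖f z * v z - w z‖ + ‖g z * v z - u z‖) ∂μ := by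
        refine integral_mono i3.norm (i1.norm.add i2.norm) fun z => ?_
        change ‖(f z + g z) * v z - (w + u) z‖ ≤ ‖f z * v z - w z‖ + ‖g z * v z - u z‖
        have e : (f z + g z) * v z - (w + u) z = (f z * v z - w z) + (g z * v z - u z) := by
          simp only [Pi.add_apply]; ring
        rw [e]
        exact norm_add_le _ _
    _ = (∫ z, ‖f z * v z - w z‖ ∂μ) + ∫ z, ‖g z * v z - u z‖ ∂μ := integral_add i1.norm i2.norm
    _ ≤ ε / 2 + ε / 2 := add_le_add hw1 hu1
    _ = ε := by ring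

/-- Functions which multiply the span into itself. -/
theorem wm_mem {f : Z → ℂ} (hf : Measurable f) {M : ℝ} (hM : ∀ z, ‖f z‖ ≤ M)
    (h : ∀ v ∈ expo A H, (fun z => f z * v z) ∈ Submodule.span ℂ (expo A H)) : Wm A μ H f := by
  refine ⟨hf, ⟨M, hM⟩, fun v hv ε hε => ?_⟩
  have hall : (fun z => f z * v z) ∈ Submodule.span ℂ (expo A H) := by
    induction hv using Submodule.span_induction with
    | mem v hv => exact h v hv
    | zero =>
      have : (fun z => f z * (0 : Z → ℂ) z) = 0 := by ext z; simp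
      rw [this]; exact Submodule.zero_mem _
    | add v w _ _ hv hw =>
      have : (fun z => f z * (v + w) z) = (fun z => f z * v z) + fun z => f z * w z := by
        ext z; simp [mul_add]
      rw [this]; exact Submodule.add_mem _ hv hw
    | smul c v _ hv =>
      have : (fun z => f z * (c • v) z) = c • fun z => f z * v z := by
        ext z; simp; ring
      rw [this]; exact Submodule.smul_mem _ _ hv
  refine ⟨_, hall, ?_⟩
  simp [hε.le]

theorem wm_const (c : ℂ) : Wm A μ H (fun _ => c) := by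
  refine wm_mem measurable_const (M := ‖c‖) (fun z => le_rfl) fun v hv => ?_
  have : (fun z => c * v z) = c • v := by ext z; simp
  rw [this]
  exact Submodule.smul_mem _ _ (Submodule.subset_span hv)

theorem wm_meas (hA : A ≤ mZ) {a : Z → ℂ} (ha : Measurable[A] a) (ha1 : ∀ z, ‖a z‖ ≤ 1) :
    Wm A μ H a := by
  refine wm_mem (ha.mono hA le_rfl) ha1 ?_
  rintro v ⟨b, hb, hb1, h, hh, rfl⟩
  refine Submodule.subset_span ⟨fun z => a z * b z, ?_, fun z => ?_, h, hh, ?_⟩
  · exact @meas_mul Z A a b ha hb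
  · rw [norm_mul]
    exact mul_le_one₀ (ha1 z) (norm_nonneg _) (hb1 z)
  · ext z; ring

theorem wm_exp (hH : ∀ h ∈ H, Measurable h) {h : Z → ℝ} (hh : h ∈ H) :
    Wm A μ H (fun z => cexp (I * h z)) := by
  have h1 := hH h hh
  refine wm_mem (M := 1) (by fun_prop) (fun z => (norm_exp_I _).le) ?_
  rintro v ⟨b, hb, hb1, g, hg, rfl⟩
  refine Submodule.subset_span ⟨b, hb, hb1, h + g, H.add_mem hh hg, ?_⟩
  ext z
  simp only [Pi.add_apply, ofReal_add, mul_add, Complex.exp_add]
  ring

theorem wm_smul (hA : A ≤ mZ) (hH : ∀ h ∈ H, Measurable h) {f : Z → ℂ} (hf : Wm A μ H f) (c : ℂ) :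
    Wm A μ H (fun z => c * f z) := wm_mul hA hH (wm_const c) hf

theorem wm_lim (hA : A ≤ mZ) (hH : ∀ h ∈ H, Measurable h) {f : ℕ → Z → ℂ} {g : Z → ℂ}
    (hf : ∀ n, Wm A μ H (f n)) {M : ℝ} (hM : ∀ n z, ‖f n z‖ ≤ M)
    (hg : ∀ z, Tendsto (fun n => f n z) atTop (𝓝 (g z))) : Wm A μ H g := by
  have hgm : Measurable g := measurable_of_tendsto_metrizable (fun n => (hf n).1)
    (tendsto_pi_nhds.mpr hg)
  have hgM : ∀ z, ‖g z‖ ≤ M := fun z =>
    le_of_tendsto (hg z).norm (Eventually.of_forall fun n => hM n z)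
  refine ⟨hgm, ⟨M, hgM⟩, fun v hv ε hε => ?_⟩
  obtain ⟨hvm, V, hV⟩ := span_bdd hA hH v hv
  have hvi : Integrable v μ := int_bdd hvm hV
  have hlim : Tendsto (fun n => ∫ z, ‖g z * v z - f n z * v z‖ ∂μ) atTop (𝓝 0) := by
    have h1 : Tendsto (fun n => ∫ z, ‖g z * v z - f n z * v z‖ ∂μ) atTop
        (𝓝 (∫ z, (0 : ℝ) ∂μ)) := by
      refine tendsto_integral_of_dominated_convergence (fun _ => 2 * M * V) ?_
        (integrable_const _) ?_ ?_
      · intro n
        exact ((hgm.mul hvm).sub ((hf n).1.mul hvm)).norm.aestronglyMeasurable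
      · intro n
        refine ae_of_all _ fun z => ?_
        rw [norm_norm, ← sub_mul, norm_mul]
        have hM0 : 0 ≤ M := (norm_nonneg _).trans (hgM z)
        exact mul_le_mul ((norm_sub_le _ _).trans (by linarith [hgM z, hM n z])) (hV z)
          (norm_nonneg _) (by positivity)
      · refine ae_of_all _ fun z => ?_
        have h3 := (tendsto_const_nhds (x := g z * v z)).sub ((hg z).mul_const (v z))
        rw [sub_self] at h3
        simpa using h3.norm
    simpa using h1
  obtain ⟨n, hn⟩ := ((Metric.tendsto_nhds.mp hlim) (ε / 2) (by positivity)).exists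
  rw [Real.dist_eq, sub_zero] at hn
  obtain ⟨w, hw, hw1⟩ := (hf n).2.2 v hv (ε / 2) (by positivity)
  refine ⟨w, hw, ?_⟩
  obtain ⟨hwm, W, hW⟩ := span_bdd hA hH w hw
  have hwi : Integrable w μ := int_bdd hwm hW
  have i0 : Integrable (fun z => g z * v z) μ :=
    hvi.bdd_mul (c := M) hgm.aestronglyMeasurable (ae_of_all _ hgM)
  have i1 : Integrable (fun z => f n z * v z) μ :=
    hvi.bdd_mul (c := M) (hf n).1.aestronglyMeasurable (ae_of_all _ (hM n))
  calc ∫ z, ‖g z * v z - w z‖ ∂μ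
      ≤ ∫ z, (‖g z * v z - f n z * v z‖ + ‖f n z * v z - w z‖) ∂μ := by
        refine integral_mono (i0.sub hwi).norm ((i0.sub i1).norm.add (i1.sub hwi).norm) fun z => ?_
        change ‖g z * v z - w z‖ ≤ ‖g z * v z - f n z * v z‖ + ‖f n z * v z - w z‖
        exact norm_sub_le_norm_sub_add_norm_sub _ _ _
    _ = (∫ z, ‖g z * v z - f n z * v z‖ ∂μ) + ∫ z, ‖f n z * v z - w z‖ ∂μ :=
        integral_add (i0.sub i1).norm (i1.sub hwi).norm
    _ ≤ ε / 2 + ε / 2 := add_le_add ((le_abs_self _).trans hn.le) hw1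
    _ = ε := by ring

theorem wm_sin (hA : A ≤ mZ) (hH : ∀ h ∈ H, Measurable h) {h : Z → ℝ} (hh : h ∈ H) (c t : ℝ) :
    Wm A μ H (fun z => ((Real.sin ((h z - c) * t) : ℝ) : ℂ)) := by
  have h1 : Wm A μ H (fun z => cexp (I * ((t • h) z : ℝ))) := wm_exp hH (H.smul_mem t hh)
  have h2 : Wm A μ H (fun z => cexp (I * (((-t) • h) z : ℝ))) := wm_exp hH (H.smul_mem (-t) hh)
  have h3 := wm_add hA hH (wm_smul hA hH h1 (-(I / 2) * cexp (-(I * (c * t)))))
    (wm_smul hA hH h2 (I / 2 * cexp (I * (c * t))))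
  convert h3 using 1
  ext z
  rw [Complex.ofReal_sin, Complex.sin]
  have e1 : cexp (-(((h z - c) * t : ℝ) : ℂ) * I) =
      cexp (I * (c * t)) * cexp (I * (((-t) • h) z : ℝ)) := by
    rw [← Complex.exp_add]
    congr 1
    simp only [Pi.smul_apply, smul_eq_mul]
    push_cast
    ring
  have e2 : cexp ((((h z - c) * t : ℝ) : ℂ) * I) =
      cexp (-(I * (c * t))) * cexp (I * ((t • h) z : ℝ)) := by
    rw [← Complex.exp_add]
    congr 1
    simp only [Pi.smul_apply, smul_eq_mul]
    push_cast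
    ring
  rw [e1, e2]
  ring

theorem wm_poly (hA : A ≤ mZ) (hH : ∀ h ∈ H, Measurable h) {s : Z → ℝ}
    (hs : Wm A μ H (fun z => ((s z : ℝ) : ℂ))) (p : Polynomial ℝ) :
    Wm A μ H (fun z => ((p.eval (s z) : ℝ) : ℂ)) := by
  induction p using Polynomial.induction_on' with
  | add p q hp hq =>
    have := wm_add hA hH hp hq
    simpa using this
  | monomial n a =>
    have hpow : Wm A μ H (fun z => ((s z : ℝ) : ℂ) ^ n) := by
      induction n with
      | zero => simpa using wm_const (A := A) (μ := μ) (H := H) 1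
      | succ n ih => simpa [pow_succ] using wm_mul hA hH ih hs
    have := wm_smul hA hH hpow (a : ℂ)
    simpa using this

theorem wm_pos (hA : A ≤ mZ) (hH : ∀ h ∈ H, Measurable h) {s : Z → ℝ}
    (hs : Wm A μ H (fun z => ((s z : ℝ) : ℂ))) (hs1 : ∀ z, |s z| ≤ 1) :
    Wm A μ H ({z | 0 < s z}.indicator fun _ => 1) := by
  have hpoly : ∀ n : ℕ, ∃ p : Polynomial ℝ, ∀ x ∈ Icc (-1 : ℝ) 1,
      |p.eval x - min 1 (n * max x 0)| < 1 / ((n : ℝ) + 1) := by
    intro n
    refine exists_polynomial_near_of_continuousOn (-1) 1 (fun x => min 1 (n * max x 0)) ?_ _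
      (by positivity)
    fun_prop
  choose p hp using hpoly
  have hbd : ∀ (n : ℕ) (x : ℝ), 0 ≤ min 1 (n * max x 0) ∧ min 1 (n * max x 0) ≤ 1 := by
    intro n x
    exact ⟨le_min zero_le_one (by positivity), min_le_left _ _⟩
  have hz : ∀ z, s z ∈ Icc (-1 : ℝ) 1 := fun z => abs_le.mp (hs1 z)
  refine wm_lim hA hH (f := fun n z => (((p n).eval (s z) : ℝ) : ℂ)) (M := 2)
    (fun n => wm_poly hA hH hs (p n)) ?_ ?_
  · intro n z
    rw [Complex.norm_real, Real.norm_eq_abs]
    have h1 := hp n (s z) (hz z)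
    have h2 := hbd n (s z)
    have h3 : 1 / ((n : ℝ) + 1) ≤ 1 := by
      rw [div_le_one (by positivity)]
      linarith [(Nat.cast_nonneg n : (0 : ℝ) ≤ n)]
    rw [abs_lt] at h1
    rw [abs_le]
    constructor <;> linarith [h1.1, h1.2, h2.1, h2.2]
  · intro z
    have h1 : Tendsto (fun n : ℕ => (p n).eval (s z) - min 1 (n * max (s z) 0)) atTop (𝓝 0) := by
      refine squeeze_zero_norm (a := fun n : ℕ => 1 / ((n : ℝ) + 1)) (fun n => (hp n _ (hz z)).le)
        tendsto_one_div_add_atTop_nhds_zero_nat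
    have h2 : Tendsto (fun n : ℕ => min 1 ((n : ℝ) * max (s z) 0)) atTop
        (𝓝 ({z | 0 < s z}.indicator (fun _ => (1 : ℝ)) z)) := by
      by_cases h : 0 < s z
      · rw [indicator_of_mem (show z ∈ {z | 0 < s z} from h)]
        refine tendsto_const_nhds.congr' ?_
        filter_upwards [eventually_ge_atTop ⌈1 / s z⌉₊] with n hn
        rw [max_eq_left h.le, min_eq_left]
        have h4 : 1 / s z ≤ n := (Nat.le_ceil _).trans (by exact_mod_cast hn)
        rw [div_le_iff₀ h] at h4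
        exact h4
      · rw [indicator_of_notMem (show z ∉ {z | 0 < s z} from h)]
        refine tendsto_const_nhds.congr fun n => ?_
        rw [max_eq_right (not_lt.mp h), mul_zero, min_eq_right zero_le_one]
    have h3 := h1.add h2
    have h4 : Tendsto (fun n : ℕ => (p n).eval (s z)) atTop
        (𝓝 ({z | 0 < s z}.indicator (fun _ => (1 : ℝ)) z)) := by
      simpa using h3
    have h5 := (Complex.continuous_ofReal.tendsto _).comp h4
    have e : ((({z | 0 < s z}.indicator (fun _ => (1 : ℝ)) z) : ℝ) : ℂ) =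
        {z | 0 < s z}.indicator (fun _ => (1 : ℂ)) z := by
      by_cases h : 0 < s z
      · rw [indicator_of_mem (show z ∈ {z | 0 < s z} from h),
          indicator_of_mem (show z ∈ {z | 0 < s z} from h)]
        simp
      · rw [indicator_of_notMem (show z ∉ {z | 0 < s z} from h),
          indicator_of_notMem (show z ∉ {z | 0 < s z} from h)]
        simp
    rw [← e]
    exact h5

theorem wm_gt (hA : A ≤ mZ) (hH : ∀ h ∈ H, Measurable h) {h : Z → ℝ} (hh : h ∈ H) (c : ℝ) :
    Wm A μ H ({z | c < h z}.indicator fun _ => 1) := by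
  refine wm_lim hA hH (f := fun n : ℕ =>
    {z | 0 < Real.sin ((h z - c) * (1 / ((n : ℝ) + 1)))}.indicator fun _ => 1) (M := 1)
    (fun n => wm_pos hA hH (wm_sin hA hH hh c _) fun z => Real.abs_sin_le_one _) ?_ ?_
  · intro n z
    refine (norm_indicator_le_norm_self _ _).trans ?_
    simp
  · intro z
    refine tendsto_const_nhds.congr' ?_
    obtain ⟨N, hN⟩ := exists_nat_gt |h z - c|
    filter_upwards [eventually_ge_atTop N] with n hn
    have hn1 : (0 : ℝ) < (n : ℝ) + 1 := by positivity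
    have hx : |(h z - c) * (1 / ((n : ℝ) + 1))| < 1 := by
      rw [abs_mul, abs_of_pos (by positivity : (0:ℝ) < 1 / ((n : ℝ) + 1)), mul_one_div,
        div_lt_one hn1]
      have : (N : ℝ) ≤ n := by exact_mod_cast hn
      linarith
    rw [abs_lt] at hx
    have hpi := Real.pi_gt_three
    by_cases hz : c < h z
    · rw [indicator_of_mem (show z ∈ {z | c < h z} from hz), indicator_of_mem]
      apply Real.sin_pos_of_pos_of_lt_pi
      · exact mul_pos (sub_pos.mpr hz) (by positivity)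
      · linarith
    · rw [indicator_of_notMem (show z ∉ {z | c < h z} from hz), indicator_of_notMem]
      simp only [mem_setOf_eq, not_lt]
      apply Real.sin_nonpos_of_nonpos_of_neg_pi_le
      · exact mul_nonpos_of_nonpos_of_nonneg (by linarith [not_lt.mp hz]) (by positivity)
      · linarith

/-- The sets with indicator functions in the multiplier algebra. -/
theorem wm_sets (hA : A ≤ mZ) (hH : ∀ h ∈ H, Measurable h)
    (hgen : mZ = A ⊔ ⨆ h ∈ H, (borel ℝ).comap h) {B : Set Z} (hB : MeasurableSet[mZ] B) :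
    Wm A μ H (B.indicator fun _ => 1) := by
  have hcompl : ∀ B : Set Z, Wm A μ H (B.indicator fun _ => 1) →
      Wm A μ H (Bᶜ.indicator fun _ => 1) := by
    intro B hB
    have h1 := wm_add hA hH (wm_const 1) (wm_smul hA hH hB (-1))
    convert h1 using 1
    ext z
    by_cases hz : z ∈ B <;> simp [hz]
  have hunion : ∀ B C : Set Z, Wm A μ H (B.indicator fun _ => 1) →
      Wm A μ H (C.indicator fun _ => 1) → Wm A μ H ((B ∪ C).indicator fun _ => 1) := by
    intro B C hB hC
    have h1 := wm_add hA hH (wm_add hA hH hB hC) (wm_smul hA hH (wm_mul hA hH hB hC) (-1))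
    convert h1 using 1
    ext z
    by_cases hz : z ∈ B <;> by_cases hz' : z ∈ C <;> simp [hz, hz']
  let m' : MeasurableSpace Z :=
    { MeasurableSet' := fun B => Wm A μ H (B.indicator fun _ => 1)
      measurableSet_empty := by
        have h1 := wm_const (A := A) (μ := μ) (H := H) 0
        convert h1 using 1
        ext z; simp
      measurableSet_compl := hcompl
      measurableSet_iUnion := by
        intro f hf
        have hfin : ∀ n : ℕ, Wm A μ H ((⋃ i ∈ Finset.range n, f i).indicator fun _ => 1) := by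
          intro n
          induction n with
          | zero =>
            have h1 := wm_const (A := A) (μ := μ) (H := H) 0
            convert h1 using 1
            ext z; simp
          | succ n ih =>
            rw [Finset.range_add_one, Finset.set_biUnion_insert]
            exact hunion _ _ (hf n) ih
        refine wm_lim hA hH (M := 1) hfin ?_ ?_
        · intro n z
          refine (norm_indicator_le_norm_self _ _).trans ?_
          simp
        · intro z
          refine tendsto_const_nhds.congr' ?_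
          by_cases hz : z ∈ ⋃ i, f i
          · obtain ⟨i, hi⟩ := mem_iUnion.mp hz
            filter_upwards [eventually_gt_atTop i] with n hn
            rw [indicator_of_mem hz, indicator_of_mem]
            exact mem_biUnion (Finset.mem_coe.mpr (Finset.mem_range.mpr hn)) hi
          · refine Eventually.of_forall fun n => ?_
            change _ = (⋃ i ∈ Finset.range n, f i).indicator (fun _ => (1 : ℂ)) z
            rw [indicator_of_notMem hz, indicator_of_notMem]
            intro hz'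
            obtain ⟨i, _, hi⟩ := mem_iUnion₂.mp hz'
            exact hz (mem_iUnion.mpr ⟨i, hi⟩) }
  have hle : mZ ≤ m' := by
    conv_lhs => rw [hgen]
    refine sup_le ?_ (iSup₂_le fun h hh => ?_)
    · intro B hB
      refine wm_meas hA (@meas_ind Z A B hB) fun z => ?_
      refine (norm_indicator_le_norm_self _ _).trans ?_
      simp
    · rw [borel_eq_generateFrom_Ioi ℝ, MeasurableSpace.comap_generateFrom]
      apply MeasurableSpace.generateFrom_le
      rintro B ⟨S, ⟨c, rfl⟩, rfl⟩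
      exact wm_gt hA hH hh c
  exact hle B hB

theorem dense_expo (hA : A ≤ mZ) (hH : ∀ h ∈ H, Measurable h)
    (hgen : mZ = A ⊔ ⨆ h ∈ H, (borel ℝ).comap h) {B : Set Z} (hB : MeasurableSet[mZ] B)
    (ε : ℝ) (hε : 0 < ε) : ∃ v ∈ Submodule.span ℂ (expo A H),
      ∫ z, ‖B.indicator (fun _ => (1 : ℂ)) z - v z‖ ∂μ ≤ ε := by
  have h1 : (fun _ => 1 : Z → ℂ) ∈ Submodule.span ℂ (expo A H) := by
    refine Submodule.subset_span ⟨fun _ => 1, measurable_const, fun z => by simp, 0, H.zero_mem, ?_⟩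
    ext z; simp
  obtain ⟨w, hw, hw1⟩ := (wm_sets (μ := μ) hA hH hgen hB).2.2 _ h1 ε hε
  refine ⟨w, hw, ?_⟩
  simpa using hw1

end Pool.Agent.Y264.Rid
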