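import Pool.Agent.Y264.Rid2
import Pool.Agent.Y264.Rid3
import Pool.Agent.Y264.Rid4

/-! Relatively infinitely divisible extensions: conditional expectations. -/

set_option autoImplicit false

namespace Pool.Agent.Y264.Rid
open MeasureTheory Filter Topology Set Complex
open scoped ComplexOrder

/-- Relatively infinitely divisible spaces of functions. -/
structure RelID {Z : Type*} (A : MeasurableSpace Z) {mZ : MeasurableSpace Z} (μ : Measure Z)
    (H : Submodule ℝ (Z → ℝ)) (ψ : (Z → ℝ) → Z → ℂ) : Prop where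
  meas : ∀ h ∈ H, Measurable[A] (ψ h)
  condExp : ∀ h ∈ H, μ[fun z => cexp (I * h z) | A] =ᵐ[μ] fun z => cexp (ψ h z)
  root : ∀ n : ℕ, 1 ≤ n → ∀ (m : ℕ) (h : Fin m → Z → ℝ), (∀ j, h j ∈ H) →
    ∀ᵐ z ∂μ, (Matrix.of fun j k => cexp (ψ (h j - h k) z / n)).PosSemidef

variable {Z : Type*} {A mZ : MeasurableSpace Z} {μ : Measure Z} [IsProbabilityMeasure μ]
  {T : Z → Z} {H : Submodule ℝ (Z → ℝ)} {ψ : (Z → ℝ) → Z → ℂ}

theorem meas_expI {h : Z → ℝ} (hh : Measurable h) : Measurable fun z => cexp (I * h z) := by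
  fun_prop

theorem int_expI {h : Z → ℝ} (hh : Measurable h) : Integrable (fun z => cexp (I * h z)) μ :=
  Integrable.of_bound (meas_expI hh).aestronglyMeasurable 1 (ae_of_all _ fun z => (norm_exp_I _).le)

theorem RelID.measZ (hψ : RelID A μ H ψ) (hA : A ≤ mZ) {h : Z → ℝ} (hh : h ∈ H) :
    Measurable (ψ h) := (hψ.meas h hh).mono hA le_rfl

/-- Pull out. -/
theorem exp_int (hA : A ≤ mZ) (hH : ∀ h ∈ H, Measurable h) (hψ : RelID A μ H ψ) {h : Z → ℝ}
    (hh : h ∈ H) {a : Z → ℂ} (ha : Measurable[A] a) {M : ℝ} (hM : ∀ z, ‖a z‖ ≤ M) :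
    ∫ z, a z * cexp (I * h z) ∂μ = ∫ z, a z * cexp (ψ h z) ∂μ := by
  have h1 := condExp_stronglyMeasurable_bilin_of_bound (μ := μ) (ContinuousLinearMap.mul ℝ ℂ) hA
    (f := a) (g := fun z => cexp (I * h z)) ha.stronglyMeasurable (int_expI (hH h hh)) M
    (ae_of_all _ hM)
  simp only [ContinuousLinearMap.mul_apply'] at h1
  rw [← integral_condExp hA]
  refine integral_congr_ae ?_
  filter_upwards [h1, hψ.condExp h hh] with z h2 h3
  rw [h2, h3]

theorem RelID.lev (hA : A ≤ mZ) (hψ : RelID A μ H ψ) {Γ : Type*} [AddCommGroup Γ] [Countable Γ]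
    (θ : Γ →+ (Z → ℝ)) (hθ : ∀ s, θ s ∈ H) : ∀ᵐ z ∂μ, IsLev fun s => ψ (θ s) z := by
  have h0 : ∀ᵐ z ∂μ, cexp (ψ 0 z) = 1 := by
    have h1 := hψ.condExp 0 H.zero_mem
    have h2 : (fun z : Z => cexp (I * ((0 : Z → ℝ) z : ℝ))) = fun _ => 1 := by
      ext z; simp
    rw [h2, condExp_const hA] at h1
    filter_upwards [h1] with z hz using hz.symm
  have h1 : ∀ᵐ z ∂μ, ∀ (n : ℕ) (m : ℕ) (g : Fin m → Γ), 1 ≤ n →
      (Matrix.of fun j k => cexp (ψ (θ (g j - g k)) z / n)).PosSemidef := by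
    rw [ae_all_iff]; intro n
    rw [ae_all_iff]; intro m
    rw [ae_all_iff]; intro g
    by_cases hn : 1 ≤ n
    · filter_upwards [hψ.root n hn m (fun j => θ (g j)) fun j => hθ _] with z hz _
      simpa only [map_sub] using hz
    · exact ae_of_all _ fun z h => absurd h hn
  filter_upwards [h0, h1] with z hz0 hz1
  exact isLev_of_roots (by simpa using hz0) fun n hn m g => hz1 n m g hn

theorem co_comp {Γ Δ : Type*} [AddCommGroup Γ] [AddCommGroup Δ] (θ : Γ →+ Δ) (f : Δ → ℂ)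
    (s t : Γ) : co (fun s => f (θ s)) s t = co f (θ s) (θ t) := by
  simp only [co, map_add]

theorem nd_comp {Γ Δ : Type*} [AddCommGroup Γ] [AddCommGroup Δ] (θ : Γ →+ Δ) (f : Δ → ℂ)
    (s t : Γ) : nd (fun s => f (θ s)) s t = nd f (θ s) (θ t) := by
  simp only [nd, map_add, map_sub]

theorem nb_comp {Γ Δ : Type*} [AddCommGroup Γ] [AddCommGroup Δ] (θ : Γ →+ Δ) (f : Δ → ℂ)
    (s : Γ) : nb (fun s => f (θ s)) s = nb f (θ s) := rfl

theorem sz_comp {Γ Δ : Type*} [AddCommGroup Γ] [AddCommGroup Δ] (θ : Γ →+ Δ) (f : Δ → ℂ)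
    (s t : Γ) : sz (fun s => f (θ s)) s t = sz f (θ s) (θ t) := by
  simp only [sz, co_comp, nd_comp]

/-- The homomorphism of a pair. -/
def thP (p q : Z → ℝ) : ℤ × ℤ →+ (Z → ℝ) :=
  (zmultiplesHom _ p).coprod (zmultiplesHom _ q)

theorem thP_apply (p q : Z → ℝ) (s : ℤ × ℤ) : thP p q s = s.1 • p + s.2 • q := by
  simp [thP]

theorem thP_mem {p q : Z → ℝ} (hp : p ∈ H) (hq : q ∈ H) (s : ℤ × ℤ) : thP p q s ∈ H := by
  rw [thP_apply]
  exact H.add_mem (zsmul_mem hp _) (zsmul_mem hq _)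

theorem ae_pair (hA : A ≤ mZ) (hψ : RelID A μ H ψ) {p q : Z → ℝ} (hp : p ∈ H) (hq : q ∈ H) :
    ∀ᵐ z ∂μ, (nb (fun h => ψ h z) p ^ 2 ≤ 1 / 8 → nb (fun h => ψ h z) q ^ 2 ≤ 1 / 8 →
      ‖co (fun h => ψ h z) p q‖ ^ 2 + nd (fun h => ψ h z) p q ^ 2 / 4 ≤
        4 * ((cexp (co (fun h => ψ h z) p q) - 1).re +
          (cexp (co (fun h => ψ h z) p (-q)) - 1).re)) ∧
      (∀ n : ℕ, 1 ≤ n → nb (fun h => ψ h z) p ≤ 1 → nb (fun h => ψ h z) q ≤ 1 →
        sz (fun h => ψ h z) (n • p) (n • q) ≤ 4 * n ^ 4 * sz (fun h => ψ h z) p q) ∧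
      nb (fun h => ψ h z) p ^ 2 = -2 * (ψ p z).re ∧ (ψ p z).re ≤ 0 ∧
      (ψ (-p) z).re = (ψ p z).re := by
  filter_upwards [hψ.lev hA (thP p q) (thP_mem hp hq)] with z hz
  have e1 : thP p q (1, 0) = p := by rw [thP_apply]; simp
  have e2 : thP p q (0, 1) = q := by rw [thP_apply]; simp
  have e3 : thP p q (-(0, 1)) = -q := by rw [map_neg, e2]
  have e4 : thP p q (-(1, 0)) = -p := by rw [map_neg, e1]
  refine ⟨fun h1 h2 => ?_, fun n hn h1 h2 => ?_, ?_, ?_, ?_⟩
  · have h3 := ptwise hz (g := (1, 0)) (h := (0, 1))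
      (by rw [nb_comp (thP p q) (fun h => ψ h z), e1]; exact h1)
      (by rw [nb_comp (thP p q) (fun h => ψ h z), e2]; exact h2)
    rw [co_comp (thP p q) (fun h => ψ h z), co_comp (thP p q) (fun h => ψ h z),
      nd_comp (thP p q) (fun h => ψ h z), e1, e2, e3] at h3
    exact h3
  · have h3 := sz_nsmul₂ hz (1, 0) (0, 1) hn
      (by rw [nb_comp (thP p q) (fun h => ψ h z), e1]; exact h1)
      (by rw [nb_comp (thP p q) (fun h => ψ h z), e2]; exact h2)
    rw [sz_comp (thP p q) (fun h => ψ h z), sz_comp (thP p q) (fun h => ψ h z), map_nsmul,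
      map_nsmul, e1, e2] at h3
    exact h3
  · have h3 := nb_sq hz (1, 0)
    rw [nb_comp (thP p q) (fun h => ψ h z), e1] at h3
    exact h3
  · have h3 := re_nonpos hz (1, 0)
    rw [e1] at h3
    exact h3
  · have h3 := hz.neg (1, 0)
    simp only [e4, e1] at h3
    rw [h3]
    simp

/-- The homomorphism of a sequence. -/
noncomputable def thS (p : ℕ → Z → ℝ) : (ℕ →₀ ℤ) →+ (Z → ℝ) :=
  Finsupp.liftAddHom fun i => zmultiplesHom _ (p i)

theorem thS_single (p : ℕ → Z → ℝ) (i : ℕ) : thS p (Finsupp.single i 1) = p i := by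
  simp [thS]

theorem thS_mem {p : ℕ → Z → ℝ} (hp : ∀ i, p i ∈ H) (s : ℕ →₀ ℤ) : thS p s ∈ H := by
  rw [thS, Finsupp.liftAddHom_apply]
  exact Submodule.sum_mem _ fun i _ => zsmul_mem (hp i) _

theorem ae_sum (hA : A ≤ mZ) (hψ : RelID A μ H ψ) {p : ℕ → Z → ℝ} (hp : ∀ i, p i ∈ H) (k : ℕ) :
    ∀ᵐ z ∂μ, ‖ψ (∑ i ∈ Finset.range k, p i) z - ∑ i ∈ Finset.range k, ψ (p i) z‖ ≤
      ∑ j ∈ Finset.range k, ∑ i ∈ Finset.range j,
        (‖co (fun h => ψ h z) (p i) (p j)‖ + nd (fun h => ψ h z) (p i) (p j) *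
          ∑ l ∈ Finset.range k, nb (fun h => ψ h z) (p l)) := by
  filter_upwards [hψ.lev hA (thS p) (thS_mem hp)] with z hz
  have h1 := sum_bound hz (fun i => Finsupp.single i 1) k
  simp only [co_comp (thS p) (fun h => ψ h z), nd_comp (thS p) (fun h => ψ h z), map_sum,
    nb_comp (thS p) (fun h => ψ h z), thS_single] at h1
  exact h1

/-- Covariance. -/
theorem cov (hA : A ≤ mZ) (hH : ∀ h ∈ H, Measurable h) (hψ : RelID A μ H ψ) {τ : Z → Z}
    (hτ : MeasurePreserving τ μ μ) (hτA : A.comap τ = A) {h : Z → ℝ} (hh : h ∈ H)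
    (hh' : h ∘ τ ∈ H) : ∀ᵐ z ∂μ, cexp (ψ (h ∘ τ) z) = cexp (ψ h (τ z)) := by
  have hτm : Measurable[A, A] τ := by
    rw [measurable_iff_comap_le, hτA]
  have hg : Measurable[A] fun z => cexp (ψ h (τ z)) :=
    Complex.measurable_exp.comp ((hψ.meas h hh).comp hτm)
  have hint : Integrable (fun z => cexp (ψ h z)) μ :=
    integrable_condExp.congr (hψ.condExp h hh)
  have hgi : Integrable (fun z => cexp (ψ h (τ z))) μ := hτ.integrable_comp_of_integrable hint
  have key : (fun z => cexp (ψ h (τ z))) =ᵐ[μ] μ[fun z => cexp (I * (h ∘ τ) z) | A] := by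
    refine ae_eq_condExp_of_forall_setIntegral_eq hA (int_expI (hH _ hh'))
      (fun s _ _ => hgi.integrableOn) ?_ hg.aestronglyMeasurable
    intro s hs _
    rw [← hτA] at hs
    obtain ⟨s', hs', rfl⟩ := hs
    have hs'm : MeasurableSet s' := hA _ hs'
    have hsm : MeasurableSet (τ ⁻¹' s') := hτ.measurable hs'm
    rw [← integral_indicator hsm, ← integral_indicator hsm]
    have e1 : ∀ f : Z → ℂ, ((τ ⁻¹' s').indicator fun z => f (τ z)) =
        fun z => s'.indicator f (τ z) := by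
      intro f; ext z; rfl
    have e2 : (fun z => cexp (I * (h ∘ τ) z)) = fun z => (fun y => cexp (I * h y)) (τ z) := rfl
    rw [e1 fun y => cexp (ψ h y), e2, e1 fun y => cexp (I * h y),
      int_comp hτ (g := s'.indicator fun y => cexp (ψ h y))
        (hint.indicator hs'm).aestronglyMeasurable,
      int_comp hτ (g := s'.indicator fun y => cexp (I * h y))
        ((int_expI (hH h hh)).indicator hs'm).aestronglyMeasurable]
    have h3 := exp_int hA hH hψ hh (a := s'.indicator fun _ => 1)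
      (@meas_ind Z A s' hs') (M := 1) (fun z => by
        refine (norm_indicator_le_norm_self _ _).trans ?_; simp)
    have e3 : ∀ f : Z → ℂ, (s'.indicator f) = fun z => s'.indicator (fun _ => (1 : ℂ)) z * f z := by
      intro f; ext z
      by_cases hz : z ∈ s' <;> simp [hz]
    rw [e3 fun y => cexp (ψ h y), e3 fun y => cexp (I * h y)]
    exact h3.symm
  filter_upwards [key, hψ.condExp _ hh'] with z h1 h2
  rw [← h2, ← h1]

/-- Mixing for pairs of bounded functions and moving times. -/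
theorem mix_pair (hT : MeasurePreserving T μ μ) (h : Rok.MixOrd μ T 1) {f g : Z → ℂ}
    (hf : Measurable f) (hg : Measurable g) {M N : ℝ} (hfM : ∀ z, ‖f z‖ ≤ M)
    (hgN : ∀ z, ‖g z‖ ≤ N) {ι : Type*} {l : Filter ι} {a b : ι → ℕ} (hab : ∀ i, a i ≤ b i)
    (hl : Tendsto (fun i => b i - a i) l atTop) :
    Tendsto (fun i => ∫ z, f (T^[a i] z) * g (T^[b i] z) ∂μ) l
      (𝓝 ((∫ z, f z ∂μ) * ∫ z, g z ∂μ)) := by
  obtain ⟨K, hK0, hK⟩ : ∃ K : ℝ, 0 < K ∧ ∀ z, ‖f z‖ ≤ K :=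
    ⟨max M 1, by positivity, fun z => (hfM z).trans (le_max_left _ _)⟩
  obtain ⟨L, hL0, hL⟩ : ∃ K : ℝ, 0 < K ∧ ∀ z, ‖g z‖ ≤ K :=
    ⟨max N 1, by positivity, fun z => (hgN z).trans (le_max_left _ _)⟩
  have hKc : (K : ℂ) ≠ 0 := by exact_mod_cast hK0.ne'
  have hLc : (L : ℂ) ≠ 0 := by exact_mod_cast hL0.ne'
  have h1 := mix_two hT h (f := fun z => f z / K) (g := fun z => g z / L) (hf.div_const _)
    (hg.div_const _) (fun z => by
      rw [norm_div, Complex.norm_real, Real.norm_eq_abs, abs_of_pos hK0, div_le_one hK0]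
      exact hK z) (fun z => by
      rw [norm_div, Complex.norm_real, Real.norm_eq_abs, abs_of_pos hL0, div_le_one hL0]
      exact hL z)
  have h2 := (h1.comp hl).const_mul ((K : ℂ) * L)
  have e1 : (K : ℂ) * L * ((∫ z, f z / K ∂μ) * ∫ z, g z / L ∂μ) =
      (∫ z, f z ∂μ) * ∫ z, g z ∂μ := by
    rw [integral_div, integral_div]
    field_simp
  rw [e1] at h2
  refine h2.congr fun i => ?_
  simp only [Function.comp_apply]
  rw [← integral_const_mul]
  have e2 : ∀ z, f (T^[a i] z) * g (T^[b i] z) =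
      (fun y => f y * g (T^[b i - a i] y)) (T^[a i] z) := by
    intro z
    simp only
    rw [← Function.iterate_add_apply, Nat.sub_add_cancel (hab i)]
  simp only [e2]
  have hm : Measurable fun y => f y * g (T^[b i - a i] y) :=
    hf.mul (hg.comp (hT.measurable.iterate _))
  rw [int_comp (hT.iterate (a i)) hm.aestronglyMeasurable]
  congr 1
  ext z
  field_simp

end Pool.Agent.Y264.Rid
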