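import Pool.Agent.Y264.Rid5

/-! Relatively infinitely divisible extensions: asymptotic independence of pairs. -/

set_option autoImplicit false

namespace Pool.Agent.Y264.Rid
open MeasureTheory Filter Topology Set Complex
open scoped ComplexOrder

variable {Z : Type*} {A mZ : MeasurableSpace Z} {μ : Measure Z} [IsProbabilityMeasure μ]
  {T : Z → Z} {H : Submodule ℝ (Z → ℝ)} {ψ : (Z → ℝ) → Z → ℂ}

theorem comap_iter (hTA : A.comap T = A) (n : ℕ) : A.comap T^[n] = A := by
  induction n with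
  | zero => exact MeasurableSpace.comap_id
  | succ n ih =>
    rw [Function.iterate_succ, ← MeasurableSpace.comap_comp, ih, hTA]

theorem mem_iter (hHT : ∀ h ∈ H, h ∘ T ∈ H) {h : Z → ℝ} (hh : h ∈ H) (n : ℕ) : h ∘ T^[n] ∈ H := by
  induction n with
  | zero => exact hh
  | succ n ih =>
    rw [Function.iterate_succ]
    exact hHT _ ih

theorem meas_iter (hTA : A.comap T = A) (n : ℕ) : Measurable[A, A] T^[n] := by
  rw [measurable_iff_comap_le, comap_iter hTA]

/-- The set where the exponent of `h` is small. -/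
def Gs (ψ : (Z → ℝ) → Z → ℂ) (h : Z → ℝ) : Set Z :=
  {z | -2 * (ψ h z).re ≤ 1 / 8 ∧ -2 * (ψ (-h) z).re ≤ 1 / 8}

theorem Gs_neg (h : Z → ℝ) : Gs ψ (-h) = Gs ψ h := by
  ext z
  simp only [Gs, mem_setOf_eq, neg_neg]
  exact and_comm

theorem meas_re_le {Z : Type*} [MeasurableSpace Z] {f g : Z → ℂ} (hf : Measurable f)
    (hg : Measurable g) :
    MeasurableSet {z | -2 * (f z).re ≤ 1 / 8 ∧ -2 * (g z).re ≤ 1 / 8} := by
  refine MeasurableSet.inter ?_ ?_
  · exact measurableSet_le ((Complex.measurable_re.comp hf).const_mul (-2)) measurable_const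
  · exact measurableSet_le ((Complex.measurable_re.comp hg).const_mul (-2)) measurable_const

theorem Gs_meas (hψ : RelID A μ H ψ) {h : Z → ℝ} (hh : h ∈ H) : MeasurableSet[A] (Gs ψ h) :=
  @meas_re_le Z A _ _ (hψ.meas h hh) (hψ.meas _ (H.neg_mem hh))

/-- The bounded inverse of the conditional characteristic function. -/
noncomputable def al (ψ : (Z → ℝ) → Z → ℂ) (h : Z → ℝ) : Z → ℂ :=
  (Gs ψ h).indicator fun z => cexp (-(ψ h z))

/-- The indicator function. -/
noncomputable def on (ψ : (Z → ℝ) → Z → ℂ) (h : Z → ℝ) : Z → ℂ :=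
  (Gs ψ h).indicator fun _ => 1

theorem meas_ind' {Z : Type*} [MeasurableSpace Z] {B : Set Z} (hB : MeasurableSet B) {f : Z → ℂ}
    (hf : Measurable f) : Measurable (B.indicator fun z => cexp (-(f z))) := by
  apply Measurable.indicator _ hB
  fun_prop

theorem al_meas (hψ : RelID A μ H ψ) {h : Z → ℝ} (hh : h ∈ H) : Measurable[A] (al ψ h) :=
  @meas_ind' Z A _ (Gs_meas hψ hh) _ (hψ.meas h hh)

theorem on_meas (hψ : RelID A μ H ψ) {h : Z → ℝ} (hh : h ∈ H) : Measurable[A] (on ψ h) :=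
  @meas_ind Z A _ (Gs_meas hψ hh)

theorem al_bound (h : Z → ℝ) (z : Z) : ‖al ψ h z‖ ≤ 2 := by
  unfold al
  by_cases hz : z ∈ Gs ψ h
  · rw [indicator_of_mem hz, Complex.norm_exp, Complex.neg_re]
    have h1 := hz.1
    have h2 : Real.exp (-(ψ h z).re) ≤ Real.exp (1 / 16) := Real.exp_le_exp.mpr (by linarith)
    have h3 : Real.exp (1 / 16) ≤ 2 := by
      have := Real.exp_bound_div_one_sub_of_interval (x := 1 / 16) (by norm_num) (by norm_num)
      linarith
    linarith
  · rw [indicator_of_notMem hz]; simp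

theorem on_bound (h : Z → ℝ) (z : Z) : ‖on ψ h z‖ ≤ 1 := by
  refine (norm_indicator_le_norm_self _ _).trans ?_
  simp

/-- The exceptional set. -/
def Es (ψ : (Z → ℝ) → Z → ℂ) (T : Z → Z) (g h : Z → ℝ) (a b : ℕ) : Set Z :=
  T^[a] ⁻¹' Gs ψ g ∩ T^[b] ⁻¹' Gs ψ h

/-- The correlation function. -/
noncomputable def Kf (ψ : (Z → ℝ) → Z → ℂ) (T : Z → Z) (g h : Z → ℝ) (a b : ℕ) (z : Z) : ℂ :=
  al ψ g (T^[a] z) * al ψ h (T^[b] z) * cexp (ψ (g ∘ T^[a] + h ∘ T^[b]) z) -
    on ψ g (T^[a] z) * on ψ h (T^[b] z)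

theorem exp_re_le (hA : A ≤ mZ) (hψ : RelID A μ H ψ) {p : Z → ℝ} (hp : p ∈ H) :
    ∀ᵐ z ∂μ, nb (fun h => ψ h z) p ^ 2 = -2 * (ψ p z).re ∧ (ψ p z).re ≤ 0 ∧
      (ψ (-p) z).re = (ψ p z).re ∧ ‖cexp (ψ p z)‖ ≤ 1 := by
  filter_upwards [ae_pair hA hψ hp hp] with z hz
  refine ⟨hz.2.2.1, hz.2.2.2.1, hz.2.2.2.2, ?_⟩
  rw [Complex.norm_exp]
  exact Real.exp_le_one_iff.mpr hz.2.2.2.1

theorem mul3_meas {Z : Type*} [MeasurableSpace Z] {f g : Z → ℂ} {τ τ' : Z → Z}
    (hf : Measurable f) (hg : Measurable g) (hτ : Measurable τ) (hτ' : Measurable τ') :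
    Measurable fun z => f (τ z) * g (τ' z) := (hf.comp hτ).mul (hg.comp hτ')

section
variable (hA : A ≤ mZ) (hH : ∀ h ∈ H, Measurable h) (hψ : RelID A μ H ψ)
  (hT : MeasurePreserving T μ μ) (hTA : A.comap T = A) (hHT : ∀ h ∈ H, h ∘ T ∈ H)

include hA hψ hTA hHT in
theorem Kf_int {g h : Z → ℝ} (hg : g ∈ H) (hh : h ∈ H) (a b : ℕ) :
    Integrable (Kf ψ T g h a b) μ := by
  have hp := mem_iter hHT hg a
  have hq := mem_iter hHT hh b
  have h1 : Measurable[A] fun z => al ψ g (T^[a] z) * al ψ h (T^[b] z) :=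
    @mul3_meas Z A _ _ _ _ (al_meas hψ hg) (al_meas hψ hh) (meas_iter hTA a) (meas_iter hTA b)
  have h2 : Measurable[A] fun z => on ψ g (T^[a] z) * on ψ h (T^[b] z) :=
    @mul3_meas Z A _ _ _ _ (on_meas hψ hg) (on_meas hψ hh) (meas_iter hTA a) (meas_iter hTA b)
  have h3 : Measurable fun z => cexp (ψ (g ∘ T^[a] + h ∘ T^[b]) z) :=
    Complex.measurable_exp.comp (hψ.measZ hA (H.add_mem hp hq))
  refine Integrable.sub ?_ ?_
  · refine Integrable.of_bound ((h1.mono hA le_rfl).mul h3).aestronglyMeasurable 4 ?_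
    filter_upwards [exp_re_le hA hψ (H.add_mem hp hq)] with z hz
    rw [norm_mul, norm_mul]
    have b1 := al_bound (ψ := ψ) g (T^[a] z)
    have b2 := al_bound (ψ := ψ) h (T^[b] z)
    have b3 := hz.2.2.2
    calc _ ≤ 2 * 2 * (1 : ℝ) := mul_le_mul (mul_le_mul b1 b2 (norm_nonneg _) (by norm_num)) b3
          (norm_nonneg _) (by norm_num)
      _ = 4 := by norm_num
  · refine Integrable.of_bound (h2.mono hA le_rfl).aestronglyMeasurable 1 (ae_of_all _ fun z => ?_)
    rw [norm_mul]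
    exact mul_le_one₀ (on_bound _ _) (norm_nonneg _) (on_bound _ _)

include hA hH hψ hT hTA hHT in
theorem Kf_eq {g h : Z → ℝ} (hg : g ∈ H) (hh : h ∈ H) (a b : ℕ) :
    ∀ᵐ z ∂μ, Kf ψ T g h a b z = (Es ψ T g h a b).indicator (fun z =>
      cexp (co (fun h => ψ h z) (g ∘ T^[a]) (h ∘ T^[b])) - 1) z := by
  have hp := mem_iter hHT hg a
  have hq := mem_iter hHT hh b
  filter_upwards [cov hA hH hψ (hT.iterate a) (comap_iter hTA a) hg hp,
    cov hA hH hψ (hT.iterate b) (comap_iter hTA b) hh hq] with z h1 h2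
  unfold Kf
  by_cases hz1 : T^[a] z ∈ Gs ψ g
  · by_cases hz2 : T^[b] z ∈ Gs ψ h
    · rw [indicator_of_mem (show z ∈ Es ψ T g h a b from ⟨hz1, hz2⟩)]
      unfold al on
      rw [indicator_of_mem hz1, indicator_of_mem hz2, indicator_of_mem hz1, indicator_of_mem hz2,
        Complex.exp_neg, Complex.exp_neg, ← h1, ← h2, ← Complex.exp_neg, ← Complex.exp_neg,
        ← Complex.exp_add, ← Complex.exp_add, co]
      congr 2
      · ring
      · norm_num
    · rw [indicator_of_notMem (show z ∉ Es ψ T g h a b from fun h => hz2 h.2)]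
      unfold al on
      rw [indicator_of_notMem hz2, indicator_of_notMem hz2]
      ring
  · rw [indicator_of_notMem (show z ∉ Es ψ T g h a b from fun h => hz1 h.1)]
    unfold al on
    rw [indicator_of_notMem hz1, indicator_of_notMem hz1]
    ring

include hA hH hψ hT hTA hHT in
theorem Kf_tendsto (hmix : Rok.MixOrd μ T 1) {g h : Z → ℝ} (hg : g ∈ H) (hh : h ∈ H) {ι : Type*}
    {l : Filter ι} {a b : ι → ℕ} (hab : ∀ i, a i ≤ b i)
    (hl : Tendsto (fun i => b i - a i) l atTop) :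
    Tendsto (fun i => ∫ z, Kf ψ T g h (a i) (b i) z ∂μ) l (𝓝 0) := by
  -- the functions `al exp (i h)`
  have hint1 : ∀ {h : Z → ℝ}, h ∈ H →
      ∫ z, al ψ h z * cexp (I * h z) ∂μ = ∫ z, on ψ h z ∂μ := by
    intro h hh
    rw [exp_int hA hH hψ hh (al_meas hψ hh) (al_bound h)]
    congr 1
    ext z
    unfold al on
    by_cases hz : z ∈ Gs ψ h
    · rw [indicator_of_mem hz, indicator_of_mem hz, ← Complex.exp_add]
      simp
    · rw [indicator_of_notMem hz, indicator_of_notMem hz]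
      simp
  have hm1 : ∀ {h : Z → ℝ}, h ∈ H → Measurable fun z => al ψ h z * cexp (I * h z) :=
    fun hh => ((al_meas hψ hh).mono hA le_rfl).mul (meas_expI (hH _ hh))
  have hb1 : ∀ (h : Z → ℝ) z, ‖al ψ h z * cexp (I * h z)‖ ≤ 2 := by
    intro h z
    rw [norm_mul, norm_exp_I, mul_one]
    exact al_bound h z
  have t1 := mix_pair hT hmix (hm1 hg) (hm1 hh) (hb1 g) (hb1 h) hab hl
  rw [hint1 hg, hint1 hh] at t1
  have t2 := mix_pair hT hmix ((on_meas hψ hg).mono hA le_rfl) ((on_meas hψ hh).mono hA le_rfl)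
    (on_bound g) (on_bound h) hab hl
  have t3 := t1.sub t2
  rw [sub_self] at t3
  refine t3.congr fun i => ?_
  have hp := mem_iter hHT hg (a i)
  have hq := mem_iter hHT hh (b i)
  have h1 : Measurable[A] fun z => al ψ g (T^[a i] z) * al ψ h (T^[b i] z) :=
    @mul3_meas Z A _ _ _ _ (al_meas hψ hg) (al_meas hψ hh) (meas_iter hTA _) (meas_iter hTA _)
  have h2 : Measurable[A] fun z => on ψ g (T^[a i] z) * on ψ h (T^[b i] z) :=
    @mul3_meas Z A _ _ _ _ (on_meas hψ hg) (on_meas hψ hh) (meas_iter hTA _) (meas_iter hTA _)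
  have hb2 : ∀ z, ‖al ψ g (T^[a i] z) * al ψ h (T^[b i] z)‖ ≤ 4 := by
    intro z
    rw [norm_mul]
    have b1 := al_bound (ψ := ψ) g (T^[a i] z)
    have b2 := al_bound (ψ := ψ) h (T^[b i] z)
    calc _ ≤ 2 * (2 : ℝ) := mul_le_mul b1 b2 (norm_nonneg _) (by norm_num)
      _ = 4 := by norm_num
  have i2 : Integrable (fun z => on ψ g (T^[a i] z) * on ψ h (T^[b i] z)) μ := by
    refine Integrable.of_bound (h2.mono hA le_rfl).aestronglyMeasurable 1 (ae_of_all _ fun z => ?_)
    rw [norm_mul]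
    exact mul_le_one₀ (on_bound _ _) (norm_nonneg _) (on_bound _ _)
  have h3 : Measurable fun z => cexp (ψ (g ∘ T^[a i] + h ∘ T^[b i]) z) :=
    Complex.measurable_exp.comp (hψ.measZ hA (H.add_mem hp hq))
  have i1 : Integrable (fun z => al ψ g (T^[a i] z) * al ψ h (T^[b i] z) *
      cexp (ψ (g ∘ T^[a i] + h ∘ T^[b i]) z)) μ := by
    refine Integrable.of_bound ((h1.mono hA le_rfl).mul h3).aestronglyMeasurable 4 ?_
    filter_upwards [exp_re_le hA hψ (H.add_mem hp hq)] with z hz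
    rw [norm_mul]
    calc _ ≤ 4 * (1 : ℝ) := mul_le_mul (hb2 z) hz.2.2.2 (norm_nonneg _) (by norm_num)
      _ = 4 := by norm_num
  unfold Kf
  rw [integral_sub i1 i2, ← exp_int hA hH hψ (H.add_mem hp hq) h1 hb2]
  congr 2
  ext z
  simp only [Pi.add_apply, Function.comp_apply, ofReal_add, mul_add, Complex.exp_add]
  ring

include hA hH hψ in
theorem Gs_small {g : Z → ℝ} (hg : g ∈ H) :
    Tendsto (fun n : ℕ => μ.real (Gs ψ ((1 / ((n : ℝ) + 1)) • g))ᶜ) atTop (𝓝 0) := by
  set κ : ℝ := 1 - Real.exp (-(1 / 16)) with hκ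
  have hκ0 : 0 < κ := by
    rw [hκ, sub_pos, Real.exp_lt_one_iff]; norm_num
  have hlim : Tendsto (fun n : ℕ => ∫ z, ‖1 - cexp (I * ((1 / ((n : ℝ) + 1)) • g) z)‖ ∂μ) atTop
      (𝓝 0) := by
    have h1 : Tendsto (fun n : ℕ => ∫ z, ‖1 - cexp (I * ((1 / ((n : ℝ) + 1)) • g) z)‖ ∂μ) atTop
        (𝓝 (∫ z, (0 : ℝ) ∂μ)) := by
      refine tendsto_integral_of_dominated_convergence (fun _ => 2) ?_ (integrable_const _) ?_ ?_
      · intro n
        have := meas_expI (hH _ (H.smul_mem (1 / ((n : ℝ) + 1)) hg))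
        exact (measurable_const.sub this).norm.aestronglyMeasurable
      · intro n
        refine ae_of_all _ fun z => ?_
        rw [norm_norm]
        refine (norm_sub_le _ _).trans ?_
        rw [norm_exp_I, norm_one]; norm_num
      · refine ae_of_all _ fun z => ?_
        have h2 : Tendsto (fun n : ℕ => ((1 / ((n : ℝ) + 1)) • g) z) atTop (𝓝 0) := by
          have := tendsto_one_div_add_atTop_nhds_zero_nat.mul_const (g z)
          simpa using this
        have h3 : Tendsto (fun n : ℕ => cexp (I * (((1 / ((n : ℝ) + 1)) • g) z : ℝ))) atTop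
            (𝓝 (cexp (I * ((0 : ℝ) : ℂ)))) := by
          have hc : Continuous fun x : ℝ => cexp (I * (x : ℂ)) := by fun_prop
          exact (hc.tendsto 0).comp h2
        have h4 := (tendsto_const_nhds (x := (1 : ℂ))).sub h3
        have h5 := h4.norm
        simpa using h5
    simpa using h1
  have hle : ∀ n : ℕ, μ.real (Gs ψ ((1 / ((n : ℝ) + 1)) • g))ᶜ ≤
      κ⁻¹ * ∫ z, ‖1 - cexp (I * ((1 / ((n : ℝ) + 1)) • g) z)‖ ∂μ := by
    intro n
    set p := (1 / ((n : ℝ) + 1)) • g with hpdef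
    have hp : p ∈ H := H.smul_mem _ hg
    have hGm : MeasurableSet (Gs ψ p)ᶜ := (hA _ (Gs_meas hψ hp)).compl
    rw [inv_mul_eq_div, le_div_iff₀ hκ0]
    have ie : Integrable (fun z => cexp (ψ p z)) μ := integrable_condExp.congr (hψ.condExp p hp)
    have i1 : Integrable (fun z => 1 - cexp (ψ p z)) μ := (integrable_const _).sub ie
    have i2 : Integrable (fun z => 1 - cexp (I * p z)) μ :=
      (integrable_const _).sub (int_expI (hH p hp))
    have e0 : ∫ z, cexp (I * p z) ∂μ = ∫ z, cexp (ψ p z) ∂μ := by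
      have := exp_int hA hH hψ hp (a := fun _ => 1) measurable_const (M := 1)
        (fun z => by simp)
      simpa using this
    calc μ.real (Gs ψ p)ᶜ * κ = ∫ z, (Gs ψ p)ᶜ.indicator (fun _ => κ) z ∂μ := by
          rw [integral_indicator_const _ hGm, smul_eq_mul]
      _ ≤ ∫ z, (1 - cexp (ψ p z)).re ∂μ := by
          refine integral_mono_ae ((integrable_const κ).indicator hGm) i1.re ?_
          filter_upwards [exp_re_le hA hψ hp] with z hz
          change (Gs ψ p)ᶜ.indicator (fun _ => κ) z ≤ (1 - cexp (ψ p z)).re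
          have h1 : (cexp (ψ p z)).re ≤ Real.exp (ψ p z).re := by
            rw [← Complex.norm_exp]; exact Complex.re_le_norm _
          have h2 : Real.exp (ψ p z).re ≤ 1 := Real.exp_le_one_iff.mpr hz.2.1
          rw [Complex.sub_re, Complex.one_re]
          by_cases hzG : z ∈ (Gs ψ p)ᶜ
          · rw [indicator_of_mem hzG]
            have h3 : (ψ p z).re ≤ -(1 / 16) := by
              by_contra hcon
              push Not at hcon
              apply hzG
              refine ⟨by linarith, ?_⟩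
              rw [hz.2.2.1]; linarith
            have h4 := Real.exp_le_exp.mpr h3
            linarith
          · rw [indicator_of_notMem hzG]; linarith
      _ = (∫ z, (1 - cexp (ψ p z)) ∂μ).re := by
          have := integral_re i1
          simpa using this
      _ = (∫ z, (1 - cexp (I * p z)) ∂μ).re := by
          rw [integral_sub (integrable_const _) ie,
            integral_sub (integrable_const _) (int_expI (hH p hp)), e0]
      _ ≤ ‖∫ z, (1 - cexp (I * p z)) ∂μ‖ := Complex.re_le_norm _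
      _ ≤ ∫ z, ‖1 - cexp (I * p z)‖ ∂μ := norm_integral_le_integral_norm _
  have h5 := hlim.const_mul κ⁻¹
  rw [mul_zero] at h5
  exact squeeze_zero (fun n => measureReal_nonneg) hle h5

end

end Pool.Agent.Y264.Rid
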