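import Pool.Agent.Y264.Rid6

/-! Relatively infinitely divisible extensions: multiple mixing. -/

set_option autoImplicit false

namespace Pool.Agent.Y264.Rid
open MeasureTheory Filter Topology Set Complex
open scoped ComplexOrder

variable {Z : Type*} {A mZ : MeasurableSpace Z} {μ : Measure Z} [IsProbabilityMeasure μ]
  {T : Z → Z} {H : Submodule ℝ (Z → ℝ)} {ψ : (Z → ℝ) → Z → ℂ}

theorem sz_meas (hA : A ≤ mZ) (hψ : RelID A μ H ψ) {p q : Z → ℝ} (hp : p ∈ H) (hq : q ∈ H) :
    Measurable fun z => sz (fun h => ψ h z) p q := by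
  have m1 := hψ.measZ hA hp
  have m2 := hψ.measZ hA hq
  have m3 := hψ.measZ hA (H.add_mem hp hq)
  have m4 := hψ.measZ hA (H.sub_mem hp hq)
  unfold sz co nd
  refine Measurable.add ?_ ?_
  · exact ((m3.sub m1).sub m2).norm
  · apply Measurable.sqrt
    apply Measurable.const_mul
    exact Complex.measurable_re.comp (((m3.add m4).sub (m1.const_mul 2)).sub (m2.const_mul 2))

theorem int_min_sz (hA : A ≤ mZ) (hψ : RelID A μ H ψ) {p q : Z → ℝ} (hp : p ∈ H) (hq : q ∈ H) :
    Integrable (fun z => min 1 (sz (fun h => ψ h z) p q)) μ := by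
  refine Integrable.of_bound (measurable_const.min (sz_meas hA hψ hp hq)).aestronglyMeasurable 1
    (ae_of_all _ fun z => ?_)
  rw [Real.norm_eq_abs, abs_le]
  have h1 := sz_nonneg (ψ := fun h => ψ h z) p q
  exact ⟨le_min (by norm_num) (by linarith), min_le_left _ _⟩

theorem lin_bound {t δ : ℝ} (ht : 0 ≤ t) (hδ : 0 < δ) : t ≤ δ + t ^ 2 / δ := by
  by_cases h : t ≤ δ
  · have : 0 ≤ t ^ 2 / δ := by positivity
    linarith
  · push Not at h
    have : t ≤ t ^ 2 / δ := by
      rw [le_div_iff₀ hδ]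
      nlinarith
    linarith

section
variable (hA : A ≤ mZ) (hH : ∀ h ∈ H, Measurable h) (hψ : RelID A μ H ψ)
  (hT : MeasurePreserving T μ μ) (hTA : A.comap T = A) (hHT : ∀ h ∈ H, h ∘ T ∈ H)

include hA hH hψ hT hTA hHT in
theorem nb_shift {g : Z → ℝ} (hg : g ∈ H) (a : ℕ) :
    ∀ᵐ z ∂μ, nb (fun h => ψ h z) (g ∘ T^[a]) = √(-2 * (ψ g (T^[a] z)).re) := by
  have hp := mem_iter hHT hg a
  filter_upwards [cov hA hH hψ (hT.iterate a) (comap_iter hTA a) hg hp] with z h1
  have h2 := congrArg norm h1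
  rw [Complex.norm_exp, Complex.norm_exp, Real.exp_eq_exp] at h2
  rw [nb, h2]

include hA hH hψ hT hTA hHT in
theorem sz_tendsto (hmix : Rok.MixOrd μ T 1) {g h : Z → ℝ} (hg : g ∈ H) (hh : h ∈ H) {ι : Type*}
    {l : Filter ι} {a b : ι → ℕ} (hab : ∀ i, a i ≤ b i)
    (hl : Tendsto (fun i => b i - a i) l atTop) :
    Tendsto (fun i => ∫ z, min 1 (sz (fun h => ψ h z) (g ∘ T^[a i]) (h ∘ T^[b i])) ∂μ) l
      (𝓝 0) := by
  rw [Metric.tendsto_nhds]
  intro ε hε
  have s1 := Gs_small hA hH hψ hg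
  have s2 := Gs_small hA hH hψ hh
  rw [Metric.tendsto_nhds] at s1 s2
  obtain ⟨n, hn1, hn2⟩ := ((s1 (ε / 8) (by positivity)).and (s2 (ε / 8) (by positivity))).exists
  rw [Real.dist_eq, sub_zero, abs_of_nonneg measureReal_nonneg] at hn1 hn2
  set g' := (1 / ((n : ℝ) + 1)) • g with hg'
  set h' := (1 / ((n : ℝ) + 1)) • h with hh'
  have hgm : g' ∈ H := H.smul_mem _ hg
  have hhm : h' ∈ H := H.smul_mem _ hh
  have hN0 : (n : ℝ) + 1 ≠ 0 := by positivity
  have eg : ∀ a : ℕ, g ∘ T^[a] = (n + 1) • (g' ∘ T^[a]) := by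
    intro a; ext z
    simp only [hg', Function.comp_apply, Pi.smul_apply, smul_eq_mul, nsmul_eq_mul, Nat.cast_add,
      Nat.cast_one]
    field_simp
  have eh : ∀ a : ℕ, h ∘ T^[a] = (n + 1) • (h' ∘ T^[a]) := by
    intro a; ext z
    simp only [hh', Function.comp_apply, Pi.smul_apply, smul_eq_mul, nsmul_eq_mul, Nat.cast_add,
      Nat.cast_one]
    field_simp
  obtain ⟨C, hC0, hC⟩ : ∃ C : ℝ, 0 < C ∧ C = 4 * ((n + 1 : ℕ) : ℝ) ^ 4 :=
    ⟨4 * ((n + 1 : ℕ) : ℝ) ^ 4, by positivity, rfl⟩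
  set δ : ℝ := ε / (4 * C) with hδ
  have hδ0 : 0 < δ := by positivity
  -- the two correlation functions
  have t1 := Kf_tendsto hA hH hψ hT hTA hHT hmix hgm hhm hab hl
  have t2 := Kf_tendsto hA hH hψ hT hTA hHT hmix hgm (H.neg_mem hhm) hab hl
  have t3 : Tendsto (fun i => C * (32 / δ) * ((∫ z, Kf ψ T g' h' (a i) (b i) z ∂μ).re +
      (∫ z, Kf ψ T g' (-h') (a i) (b i) z ∂μ).re)) l (𝓝 0) := by
    have u1 := (Complex.continuous_re.tendsto 0).comp t1
    have u2 := (Complex.continuous_re.tendsto 0).comp t2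
    have u3 := (u1.add u2).const_mul (C * (32 / δ))
    simpa using u3
  rw [Metric.tendsto_nhds] at t3
  filter_upwards [t3 (ε / 4) (by positivity)] with i hi
  rw [Real.dist_eq, sub_zero] at hi ⊢
  have hp := mem_iter hHT hg (a i)
  have hq := mem_iter hHT hh (b i)
  have hp' := mem_iter hHT hgm (a i)
  have hq' := mem_iter hHT hhm (b i)
  have k1 := Kf_int (μ := μ) hA hψ hTA hHT hgm hhm (a i) (b i)
  have k2 := Kf_int (μ := μ) hA hψ hTA hHT hgm (H.neg_mem hhm) (a i) (b i)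
  have hEm : MeasurableSet (Es ψ T g' h' (a i) (b i)) :=
    ((hT.measurable.iterate _) (hA _ (Gs_meas hψ hgm))).inter
      ((hT.measurable.iterate _) (hA _ (Gs_meas hψ hhm)))
  have hmain : ∀ᵐ z ∂μ, min 1 (sz (fun h => ψ h z) (g ∘ T^[a i]) (h ∘ T^[b i])) ≤
      (Es ψ T g' h' (a i) (b i))ᶜ.indicator (fun _ => (1 : ℝ)) z + C * (δ + 32 / δ *
        ((Kf ψ T g' h' (a i) (b i) z).re + (Kf ψ T g' (-h') (a i) (b i) z).re)) := by
    filter_upwards [ae_pair hA hψ hp' hq', ae_pair hA hψ hq' hp',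
      Kf_eq hA hH hψ hT hTA hHT hgm hhm (a i) (b i),
      Kf_eq hA hH hψ hT hTA hHT hgm (H.neg_mem hhm) (a i) (b i),
      nb_shift hA hH hψ hT hTA hHT hgm (a i),
      nb_shift hA hH hψ hT hTA hHT hhm (b i)] with z v1 v2 v3 v4 v5 v6
    have hEneg : Es ψ T g' (-h') (a i) (b i) = Es ψ T g' h' (a i) (b i) := by
      unfold Es; rw [Gs_neg]
    rw [hEneg] at v4
    rw [v3, v4]
    by_cases hz : z ∈ Es ψ T g' h' (a i) (b i)
    · rw [indicator_of_notMem (show z ∉ (Es ψ T g' h' (a i) (b i))ᶜ from fun h => h hz),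
        indicator_of_mem hz, indicator_of_mem hz, zero_add]
      have w1 : nb (fun h => ψ h z) (g' ∘ T^[a i]) ^ 2 ≤ 1 / 8 := by
        rw [v5]
        rcases le_total 0 (-2 * (ψ g' (T^[a i] z)).re) with h | h
        · rw [Real.sq_sqrt h]; exact hz.1.1
        · rw [Real.sqrt_eq_zero_of_nonpos h]; norm_num
      have w2 : nb (fun h => ψ h z) (h' ∘ T^[b i]) ^ 2 ≤ 1 / 8 := by
        rw [v6]
        rcases le_total 0 (-2 * (ψ h' (T^[b i] z)).re) with h | h
        · rw [Real.sq_sqrt h]; exact hz.2.1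
        · rw [Real.sqrt_eq_zero_of_nonpos h]; norm_num
      have w3 := v1.1 w1 w2
      have n1 := nb_nonneg (ψ := fun h => ψ h z) (g' ∘ T^[a i])
      have n2 := nb_nonneg (ψ := fun h => ψ h z) (h' ∘ T^[b i])
      have w4 := v1.2.1 (n + 1) (by omega) (by nlinarith) (by nlinarith)
      rw [← eg, ← eh, ← hC] at w4
      have e5 : (-h') ∘ T^[b i] = -(h' ∘ T^[b i]) := by ext z; rfl
      rw [e5]
      set K := (cexp (co (fun h => ψ h z) (g' ∘ T^[a i]) (h' ∘ T^[b i])) - 1).re +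
        (cexp (co (fun h => ψ h z) (g' ∘ T^[a i]) (-(h' ∘ T^[b i]))) - 1).re with hK
      set t := sz (fun h => ψ h z) (g' ∘ T^[a i]) (h' ∘ T^[b i]) with ht
      have ht0 : 0 ≤ t := sz_nonneg _ _
      have w5 : t ^ 2 ≤ 32 * K := by
        have : t ^ 2 ≤ 8 * (‖co (fun h => ψ h z) (g' ∘ T^[a i]) (h' ∘ T^[b i])‖ ^ 2 +
            nd (fun h => ψ h z) (g' ∘ T^[a i]) (h' ∘ T^[b i]) ^ 2 / 4) := by
          rw [ht, sz]
          nlinarith [sq_nonneg (‖co (fun h => ψ h z) (g' ∘ T^[a i]) (h' ∘ T^[b i])‖ -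
            nd (fun h => ψ h z) (g' ∘ T^[a i]) (h' ∘ T^[b i])),
            sq_nonneg (‖co (fun h => ψ h z) (g' ∘ T^[a i]) (h' ∘ T^[b i])‖)]
        linarith
      have w6 := lin_bound ht0 hδ0
      have w7 : t ^ 2 / δ ≤ 32 / δ * K := by
        rw [div_mul_eq_mul_div]
        exact div_le_div_of_nonneg_right w5 hδ0.le
      calc min 1 (sz (fun h => ψ h z) (g ∘ T^[a i]) (h ∘ T^[b i]))
          ≤ sz (fun h => ψ h z) (g ∘ T^[a i]) (h ∘ T^[b i]) := min_le_right _ _
        _ ≤ C * t := w4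
        _ ≤ C * (δ + 32 / δ * K) := mul_le_mul_of_nonneg_left (by linarith) hC0.le
    · rw [indicator_of_mem (show z ∈ (Es ψ T g' h' (a i) (b i))ᶜ from hz),
        indicator_of_notMem hz, indicator_of_notMem hz]
      have : 0 ≤ C * δ := by positivity
      have h1 := min_le_left (1 : ℝ) (sz (fun h => ψ h z) (g ∘ T^[a i]) (h ∘ T^[b i]))
      simp only [Complex.zero_re, add_zero, mul_zero]
      linarith
  have hnn : 0 ≤ ∫ z, min 1 (sz (fun h => ψ h z) (g ∘ T^[a i]) (h ∘ T^[b i])) ∂μ :=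
    integral_nonneg fun z => le_min zero_le_one (sz_nonneg _ _)
  rw [abs_of_nonneg hnn]
  have i1 : Integrable ((Es ψ T g' h' (a i) (b i))ᶜ.indicator (fun _ => (1 : ℝ))) μ :=
    (integrable_const 1).indicator hEm.compl
  have i2 : Integrable (fun z => (Kf ψ T g' h' (a i) (b i) z).re +
      (Kf ψ T g' (-h') (a i) (b i) z).re) μ := k1.re.add k2.re
  have i3 : Integrable (fun z => δ + 32 / δ * ((Kf ψ T g' h' (a i) (b i) z).re +
      (Kf ψ T g' (-h') (a i) (b i) z).re)) μ := (integrable_const δ).add (i2.const_mul _)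
  have hmeas : μ.real (Es ψ T g' h' (a i) (b i))ᶜ ≤ ε / 8 + ε / 8 := by
    have e1 : (Es ψ T g' h' (a i) (b i))ᶜ = T^[a i] ⁻¹' (Gs ψ g')ᶜ ∪ T^[b i] ⁻¹' (Gs ψ h')ᶜ := by
      unfold Es
      rw [compl_inter, preimage_compl, preimage_compl]
    rw [e1]
    refine (measureReal_union_le _ _).trans (add_le_add ?_ ?_)
    · rw [(hT.iterate (a i)).measureReal_preimage
        (hA _ (Gs_meas hψ hgm)).compl.nullMeasurableSet]
      exact hn1.le
    · rw [(hT.iterate (b i)).measureReal_preimage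
        (hA _ (Gs_meas hψ hhm)).compl.nullMeasurableSet]
      exact hn2.le
  have hre : ∀ F : Z → ℂ, Integrable F μ → ∫ z, (F z).re ∂μ = (∫ z, F z ∂μ).re := by
    intro F hF
    have := integral_re hF
    simpa using this
  have k1r : Integrable (fun z => (Kf ψ T g' h' (a i) (b i) z).re) μ := k1.re
  have k2r : Integrable (fun z => (Kf ψ T g' (-h') (a i) (b i) z).re) μ := k2.re
  calc ∫ z, min 1 (sz (fun h => ψ h z) (g ∘ T^[a i]) (h ∘ T^[b i])) ∂μ
      ≤ ∫ z, ((Es ψ T g' h' (a i) (b i))ᶜ.indicator (fun _ => (1 : ℝ)) z + C * (δ + 32 / δ *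
        ((Kf ψ T g' h' (a i) (b i) z).re + (Kf ψ T g' (-h') (a i) (b i) z).re))) ∂μ :=
        integral_mono_ae (int_min_sz hA hψ hp hq) (i1.add (i3.const_mul C)) hmain
    _ = μ.real (Es ψ T g' h' (a i) (b i))ᶜ + (C * δ + C * (32 / δ) *
        ((∫ z, Kf ψ T g' h' (a i) (b i) z ∂μ).re +
          (∫ z, Kf ψ T g' (-h') (a i) (b i) z ∂μ).re)) := by
        rw [integral_add i1 (i3.const_mul C), integral_const_mul,
          integral_add (integrable_const δ) (i2.const_mul _), integral_const_mul,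
          integral_add k1r k2r, hre _ k1, hre _ k2, integral_indicator_const _ hEm.compl]
        simp only [smul_eq_mul, mul_one, integral_const, probReal_univ, one_mul]
        ring
    _ < ε := by
        have h1 := lt_of_le_of_lt (le_abs_self _) hi
        have h2 : C * δ = ε / 4 := by rw [hδ]; field_simp
        linarith

theorem gap_tendsto {k i j : ℕ} (hij : i < j) (hj : j < k + 1) :
    Tendsto (fun m : ℕ → ℕ => (∑ l ∈ Finset.range j, m l) - ∑ l ∈ Finset.range i, m l) (gapF k)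
      atTop := by
  rw [tendsto_atTop]
  intro N
  rw [eventually_gapF]
  refine ⟨N, fun m hm => ?_⟩
  have h1 : ∑ l ∈ Finset.range (i + 1), m l ≤ ∑ l ∈ Finset.range j, m l :=
    Finset.sum_le_sum_of_subset (Finset.range_mono hij)
  rw [Finset.sum_range_succ] at h1
  have h2 := hm i (by omega)
  omega

theorem min_one_sum {ι : Type*} (s : Finset ι) (f : ι → ℝ) (hf : ∀ i ∈ s, 0 ≤ f i) :
    min 1 (∑ i ∈ s, f i) ≤ ∑ i ∈ s, min 1 (f i) := by
  classical
  induction s using Finset.induction_on with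
  | empty => simp
  | insert i s hi ih =>
    rw [Finset.sum_insert hi, Finset.sum_insert hi]
    have h1 := ih fun j hj => hf j (Finset.mem_insert_of_mem hj)
    have h2 := hf i (Finset.mem_insert_self i s)
    have h3 : 0 ≤ ∑ i ∈ s, f i := Finset.sum_nonneg fun j hj => hf j (Finset.mem_insert_of_mem hj)
    have h4 : min 1 (f i + ∑ i ∈ s, f i) ≤ min 1 (f i) + min 1 (∑ i ∈ s, f i) := by
      rcases le_total 1 (f i) with h | h
      · rw [min_eq_left h]
        have : 0 ≤ min 1 (∑ i ∈ s, f i) := le_min zero_le_one h3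
        exact (min_le_left _ _).trans (by linarith)
      · rw [min_eq_right h]
        rcases le_total 1 (∑ i ∈ s, f i) with h' | h'
        · rw [min_eq_left h']; exact (min_le_left _ _).trans (by linarith)
        · rw [min_eq_right h']; exact min_le_right _ _
    linarith

theorem min_one_mul {c t : ℝ} (hc : 1 ≤ c) (ht : 0 ≤ t) : min 1 (c * t) ≤ c * min 1 t := by
  rcases le_total 1 t with h | h
  · rw [min_eq_left h]; exact (min_le_left _ _).trans (by linarith)
  · rw [min_eq_right h]; exact min_le_right _ _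

theorem norm_exp_sub {x y : ℂ} (hx : x.re ≤ 0) (hy : y.re ≤ 0) :
    ‖cexp x - cexp y‖ ≤ 2 * min 1 ‖x - y‖ := by
  have h1 : ‖cexp x - cexp y‖ ≤ 1 * ‖x - y‖ := by
    refine (convex_halfSpace_re_le 0).norm_image_sub_le_of_norm_hasDerivWithin_le
      (f := cexp) (f' := cexp) (fun w _ => (Complex.hasDerivAt_exp w).hasDerivWithinAt)
      (fun w hw => ?_) hy hx
    rw [Complex.norm_exp]
    exact Real.exp_le_one_iff.mpr hw
  have h2 : ‖cexp x - cexp y‖ ≤ 2 := by
    refine (norm_sub_le _ _).trans ?_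
    rw [Complex.norm_exp, Complex.norm_exp]
    have := Real.exp_le_one_iff.mpr hx
    have := Real.exp_le_one_iff.mpr hy
    linarith
  rcases le_total 1 ‖x - y‖ with h | h
  · rw [min_eq_left h]; linarith
  · rw [min_eq_right h]; linarith [norm_nonneg (x - y)]

/-- Measurable functions are almost bounded. -/
theorem tail_small {f : Z → ℝ} (hf : Measurable f) :
    Tendsto (fun n : ℕ => μ.real {z | (n : ℝ) < f z}) atTop (𝓝 0) := by
  have hm : ∀ n : ℕ, MeasurableSet {z | (n : ℝ) < f z} := fun n =>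
    measurableSet_lt measurable_const hf
  have h1 : Tendsto (fun n : ℕ => ∫ z, {z | (n : ℝ) < f z}.indicator (fun _ => (1 : ℝ)) z ∂μ) atTop
      (𝓝 (∫ z, (0 : ℝ) ∂μ)) := by
    refine tendsto_integral_of_dominated_convergence (fun _ => 1) ?_ (integrable_const _) ?_ ?_
    · intro n
      exact (measurable_const.indicator (hm n)).aestronglyMeasurable
    · intro n
      refine ae_of_all _ fun z => (norm_indicator_le_norm_self _ _).trans ?_
      simp
    · refine ae_of_all _ fun z => ?_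
      refine tendsto_const_nhds.congr' ?_
      filter_upwards [eventually_ge_atTop ⌈f z⌉₊] with n hn
      rw [indicator_of_notMem]
      simp only [mem_setOf_eq, not_lt]
      exact (Nat.le_ceil _).trans (by exact_mod_cast hn)
  rw [integral_zero] at h1
  refine h1.congr fun n => ?_
  rw [integral_indicator_const _ (hm n), smul_eq_mul, mul_one]

include hA hH hψ hT hTA hHT in
theorem prod_tendsto (hmix : Rok.MixOrd μ T 1) {h : ℕ → Z → ℝ} (hh : ∀ i, h i ∈ H) (k : ℕ) :
    Tendsto (fun m : ℕ → ℕ => ∫ z,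
      ‖cexp (ψ (∑ i ∈ Finset.range (k + 1), h i ∘ T^[∑ l ∈ Finset.range i, m l]) z) -
        ∏ i ∈ Finset.range (k + 1), cexp (ψ (h i) (T^[∑ l ∈ Finset.range i, m l] z))‖ ∂μ)
      (gapF k) (𝓝 0) := by
  rw [Metric.tendsto_nhds]
  intro ε hε
  set f : ℕ → Z → ℝ := fun l z => √(-2 * (ψ (h l) z).re) with hf
  have hfm : ∀ l, Measurable (f l) := fun l =>
    ((Complex.measurable_re.comp (hψ.measZ hA (hh l))).const_mul (-2)).sqrt
  have t1 : Tendsto (fun n : ℕ => ∑ l ∈ Finset.range (k + 1), μ.real {z | (n : ℝ) < f l z}) atTop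
      (𝓝 0) := by
    have := tendsto_finsetSum (Finset.range (k + 1)) fun l _ => tail_small (μ := μ) (hfm l)
    simpa using this
  rw [Metric.tendsto_nhds] at t1
  obtain ⟨R, hR⟩ := (t1 (ε / 8) (by positivity)).exists
  rw [Real.dist_eq, sub_zero] at hR
  have hR' := lt_of_le_of_lt (le_abs_self _) hR
  set C : ℝ := 1 + (k + 1) * R with hC
  have hR0 : (0 : ℝ) ≤ R := Nat.cast_nonneg R
  have hC1 : 1 ≤ C := by
    have : (0 : ℝ) ≤ (k + 1) * R := by positivity
    linarith
  have t2 : Tendsto (fun m : ℕ → ℕ => ∑ j ∈ Finset.range (k + 1), ∑ i ∈ Finset.range j,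
      C * ∫ z, min 1 (sz (fun h => ψ h z) (h i ∘ T^[∑ l ∈ Finset.range i, m l])
        (h j ∘ T^[∑ l ∈ Finset.range j, m l])) ∂μ) (gapF k) (𝓝 0) := by
    have h0 : (0 : ℝ) = ∑ j ∈ Finset.range (k + 1), ∑ i ∈ Finset.range j, C * 0 := by simp
    rw [h0]
    refine tendsto_finsetSum _ fun j hj => tendsto_finsetSum _ fun i hi => ?_
    have hij := Finset.mem_range.mp hi
    have hj' := Finset.mem_range.mp hj
    refine (sz_tendsto hA hH hψ hT hTA hHT hmix (hh i) (hh j) (fun m => ?_)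
      (gap_tendsto hij hj')).const_mul C
    exact Finset.sum_le_sum_of_subset (Finset.range_mono hij.le)
  rw [Metric.tendsto_nhds] at t2
  filter_upwards [t2 (ε / 8) (by positivity)] with m hm
  rw [Real.dist_eq, sub_zero] at hm ⊢
  have hm' := lt_of_le_of_lt (le_abs_self _) hm
  set t : ℕ → ℕ := fun i => ∑ l ∈ Finset.range i, m l with ht
  have hp : ∀ i, h i ∘ T^[t i] ∈ H := fun i => mem_iter hHT (hh i) _
  have hS : ∑ i ∈ Finset.range (k + 1), h i ∘ T^[t i] ∈ H := Submodule.sum_mem _ fun i _ => hp i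
  have hmain : ∀ᵐ z ∂μ, ‖cexp (ψ (∑ i ∈ Finset.range (k + 1), h i ∘ T^[t i]) z) -
      ∏ i ∈ Finset.range (k + 1), cexp (ψ (h i) (T^[t i] z))‖ ≤
      2 * (∑ j ∈ Finset.range (k + 1), ∑ i ∈ Finset.range j,
        C * min 1 (sz (fun h => ψ h z) (h i ∘ T^[t i]) (h j ∘ T^[t j])) +
        ∑ l ∈ Finset.range (k + 1), {z | (R : ℝ) < f l z}.indicator (fun _ => (1 : ℝ))
          (T^[t l] z)) := by
    have a1 : ∀ᵐ z ∂μ, ∀ i, cexp (ψ (h i ∘ T^[t i]) z) = cexp (ψ (h i) (T^[t i] z)) ∧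
        nb (fun h => ψ h z) (h i ∘ T^[t i]) = √(-2 * (ψ (h i) (T^[t i] z)).re) ∧
        (ψ (h i ∘ T^[t i]) z).re ≤ 0 := by
      rw [ae_all_iff]
      intro i
      filter_upwards [cov hA hH hψ (hT.iterate (t i)) (comap_iter hTA _) (hh i) (hp i),
        nb_shift hA hH hψ hT hTA hHT (hh i) (t i), exp_re_le hA hψ (hp i)] with z z1 z2 z3
      exact ⟨z1, z2, z3.2.1⟩
    filter_upwards [a1, exp_re_le hA hψ hS, ae_sum hA hψ hp (k + 1)] with z z1 z2 z3
    have e1 : ∏ i ∈ Finset.range (k + 1), cexp (ψ (h i) (T^[t i] z)) =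
        cexp (∑ i ∈ Finset.range (k + 1), ψ (h i ∘ T^[t i]) z) := by
      rw [Complex.exp_sum]
      exact Finset.prod_congr rfl fun i _ => ((z1 i).1).symm
    have e2 : (∑ i ∈ Finset.range (k + 1), ψ (h i ∘ T^[t i]) z).re ≤ 0 := by
      rw [Complex.re_sum]
      exact Finset.sum_nonpos fun i _ => (z1 i).2.2
    rw [e1]
    refine (norm_exp_sub z2.2.1 e2).trans (mul_le_mul_of_nonneg_left ?_ zero_le_two)
    by_cases hex : ∃ l ∈ Finset.range (k + 1), (R : ℝ) < f l (T^[t l] z)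
    · obtain ⟨l, hl, hl'⟩ := hex
      have h1 : (1 : ℝ) ≤ ∑ l ∈ Finset.range (k + 1),
          {z | (R : ℝ) < f l z}.indicator (fun _ => (1 : ℝ)) (T^[t l] z) := by
        have h2 := Finset.single_le_sum (f := fun l =>
          {z | (R : ℝ) < f l z}.indicator (fun _ => (1 : ℝ)) (T^[t l] z))
          (fun i _ => indicator_nonneg (fun _ _ => zero_le_one) _) hl
        rwa [indicator_of_mem (show T^[t l] z ∈ {z | (R : ℝ) < f l z} from hl')] at h2
      have h3 : 0 ≤ ∑ j ∈ Finset.range (k + 1), ∑ i ∈ Finset.range j,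
          C * min 1 (sz (fun h => ψ h z) (h i ∘ T^[t i]) (h j ∘ T^[t j])) :=
        Finset.sum_nonneg fun j _ => Finset.sum_nonneg fun i _ =>
          mul_nonneg (by linarith) (le_min zero_le_one (sz_nonneg _ _))
      exact (min_le_left _ _).trans (by linarith)
    · push Not at hex
      have h4 : ∑ l ∈ Finset.range (k + 1), nb (fun h => ψ h z) (h l ∘ T^[t l]) ≤ (k + 1) * R := by
        refine (Finset.sum_le_sum fun l hl => ?_).trans_eq (b := ∑ _l ∈ Finset.range (k + 1),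
          (R : ℝ)) ?_
        · rw [(z1 l).2.1]; exact hex l hl
        · simp
      have h5 : ‖ψ (∑ i ∈ Finset.range (k + 1), h i ∘ T^[t i]) z -
          ∑ i ∈ Finset.range (k + 1), ψ (h i ∘ T^[t i]) z‖ ≤
          ∑ j ∈ Finset.range (k + 1), ∑ i ∈ Finset.range j,
            C * sz (fun h => ψ h z) (h i ∘ T^[t i]) (h j ∘ T^[t j]) := by
        refine z3.trans (Finset.sum_le_sum fun j _ => Finset.sum_le_sum fun i _ => ?_)
        have n1 := nd_nonneg (ψ := fun h => ψ h z) (h i ∘ T^[t i]) (h j ∘ T^[t j])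
        have n2 := norm_nonneg (co (fun h => ψ h z) (h i ∘ T^[t i]) (h j ∘ T^[t j]))
        have n3 := mul_le_mul_of_nonneg_left h4 n1
        have n4 : 0 ≤ (k + 1) * (R : ℝ) := by positivity
        rw [hC, sz]
        nlinarith [mul_nonneg n4 n2]
      have h6 : 0 ≤ ∑ l ∈ Finset.range (k + 1),
          {z | (R : ℝ) < f l z}.indicator (fun _ => (1 : ℝ)) (T^[t l] z) :=
        Finset.sum_nonneg fun i _ => indicator_nonneg (fun _ _ => zero_le_one) _
      have hnn : ∀ i j, 0 ≤ C * sz (fun h => ψ h z) (h i ∘ T^[t i]) (h j ∘ T^[t j]) :=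
        fun i j => mul_nonneg (by linarith) (sz_nonneg _ _)
      calc min 1 ‖ψ (∑ i ∈ Finset.range (k + 1), h i ∘ T^[t i]) z -
            ∑ i ∈ Finset.range (k + 1), ψ (h i ∘ T^[t i]) z‖
          ≤ min 1 (∑ j ∈ Finset.range (k + 1), ∑ i ∈ Finset.range j,
            C * sz (fun h => ψ h z) (h i ∘ T^[t i]) (h j ∘ T^[t j])) := min_le_min le_rfl h5
        _ ≤ ∑ j ∈ Finset.range (k + 1), ∑ i ∈ Finset.range j,
            C * min 1 (sz (fun h => ψ h z) (h i ∘ T^[t i]) (h j ∘ T^[t j])) := by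
            refine (min_one_sum _ _ fun j _ => Finset.sum_nonneg fun i _ => hnn i j).trans
              (Finset.sum_le_sum fun j _ => (min_one_sum _ _ fun i _ => hnn i j).trans
                (Finset.sum_le_sum fun i _ => min_one_mul hC1 (sz_nonneg _ _)))
        _ ≤ _ := by linarith
  rw [abs_of_nonneg (integral_nonneg fun z => norm_nonneg _)]
  have i1 : ∀ i j, Integrable (fun z => C * min 1 (sz (fun h => ψ h z) (h i ∘ T^[t i])
      (h j ∘ T^[t j]))) μ := fun i j => (int_min_sz hA hψ (hp i) (hp j)).const_mul C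
  have hBm : ∀ l, MeasurableSet {z | (R : ℝ) < f l z} := fun l =>
    measurableSet_lt measurable_const (hfm l)
  have i2' : ∀ l, Integrable ({z | (R : ℝ) < f l z}.indicator (fun _ => (1 : ℝ))) μ := fun l =>
    (integrable_const 1).indicator (hBm l)
  have i2 : ∀ l, Integrable (fun z => {z | (R : ℝ) < f l z}.indicator (fun _ => (1 : ℝ))
      (T^[t l] z)) μ := fun l => (hT.iterate (t l)).integrable_comp_of_integrable (i2' l)
  have i3 : Integrable (fun z => ∑ j ∈ Finset.range (k + 1), ∑ i ∈ Finset.range j,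
      C * min 1 (sz (fun h => ψ h z) (h i ∘ T^[t i]) (h j ∘ T^[t j]))) μ :=
    integrable_finset_sum _ fun j _ => integrable_finset_sum _ fun i _ => i1 i j
  have i4 : Integrable (fun z => ∑ l ∈ Finset.range (k + 1),
      {z | (R : ℝ) < f l z}.indicator (fun _ => (1 : ℝ)) (T^[t l] z)) μ :=
    integrable_finset_sum _ fun l _ => i2 l
  have hD : Integrable (fun z => ‖cexp (ψ (∑ i ∈ Finset.range (k + 1), h i ∘ T^[t i]) z) -
      ∏ i ∈ Finset.range (k + 1), cexp (ψ (h i) (T^[t i] z))‖) μ := by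
    refine Integrable.mono' ((i3.add i4).const_mul 2) ?_ ?_
    · have m1 : Measurable fun z => cexp (ψ (∑ i ∈ Finset.range (k + 1), h i ∘ T^[t i]) z) :=
        Complex.measurable_exp.comp (hψ.measZ hA hS)
      have m2 : Measurable fun z => ∏ i ∈ Finset.range (k + 1), cexp (ψ (h i) (T^[t i] z)) :=
        Finset.measurable_prod _ fun i _ =>
          Complex.measurable_exp.comp ((hψ.measZ hA (hh i)).comp (hT.measurable.iterate _))
      exact (m1.sub m2).norm.aestronglyMeasurable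
    · filter_upwards [hmain] with z hz
      rw [norm_norm]
      exact hz
  calc _ ≤ ∫ z, 2 * (∑ j ∈ Finset.range (k + 1), ∑ i ∈ Finset.range j,
        C * min 1 (sz (fun h => ψ h z) (h i ∘ T^[t i]) (h j ∘ T^[t j])) +
        ∑ l ∈ Finset.range (k + 1), {z | (R : ℝ) < f l z}.indicator (fun _ => (1 : ℝ))
          (T^[t l] z)) ∂μ := integral_mono_ae hD ((i3.add i4).const_mul 2) hmain
    _ = 2 * (∑ j ∈ Finset.range (k + 1), ∑ i ∈ Finset.range j,
        C * ∫ z, min 1 (sz (fun h => ψ h z) (h i ∘ T^[t i]) (h j ∘ T^[t j])) ∂μ +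
        ∑ l ∈ Finset.range (k + 1), μ.real {z | (R : ℝ) < f l z}) := by
        rw [integral_const_mul, integral_add i3 i4, integral_finset_sum _ fun j _ =>
          integrable_finset_sum _ fun i _ => i1 i j, integral_finset_sum _ fun l _ => i2 l]
        congr 2
        · refine Finset.sum_congr rfl fun j _ => ?_
          rw [integral_finset_sum _ fun i _ => i1 i j]
          refine Finset.sum_congr rfl fun i _ => ?_
          rw [integral_const_mul]
        · refine Finset.sum_congr rfl fun l _ => ?_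
          rw [int_comp (hT.iterate (t l)) (i2' l).aestronglyMeasurable,
            integral_indicator_const _ (hBm l), smul_eq_mul, mul_one]
    _ < ε := by linarith

theorem meas_ind_le {Z : Type*} [MeasurableSpace Z] {f : Z → ℂ} (hf : Measurable f) :
    Measurable ({z | (f z).re ≤ 0}.indicator fun z => cexp (f z)) := by
  apply Measurable.indicator (Complex.measurable_exp.comp hf)
  exact measurableSet_le (Complex.measurable_re.comp hf) measurable_const

include hA hH hψ hT hTA hHT in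
theorem fm_expo {k : ℕ}
    (hpt : ∀ h : ℕ → Z → ℝ, (∀ i, h i ∈ H) → Tendsto (fun m : ℕ → ℕ => ∫ z,
      ‖cexp (ψ (∑ i ∈ Finset.range (k + 1), h i ∘ T^[∑ l ∈ Finset.range i, m l]) z) -
        ∏ i ∈ Finset.range (k + 1), cexp (ψ (h i) (T^[∑ l ∈ Finset.range i, m l] z))‖ ∂μ)
      (gapF k) (𝓝 0))
    (hk : ∀ B : ℕ → Set Z, (∀ i, MeasurableSet[A] (B i)) → Rok.Good μ T k B)
    {F : ℕ → Z → ℂ} (hF : ∀ i, F i ∈ expo A H) : FM μ T k F := by
  choose a ha ha1 h hh hFe using hF
  set φ : ℕ → Z → ℂ := fun i z => a i z *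
    {z | (ψ (h i) z).re ≤ 0}.indicator (fun z => cexp (ψ (h i) z)) z with hφ
  have hφm : ∀ i, Measurable[A] (φ i) := fun i =>
    @meas_mul Z A _ _ (ha i) (@meas_ind_le Z A _ (hψ.meas _ (hh i)))
  have hφ1 : ∀ i z, ‖φ i z‖ ≤ 1 := by
    intro i z
    rw [hφ, norm_mul]
    refine mul_le_one₀ (ha1 i z) (norm_nonneg _) ?_
    by_cases hz : (ψ (h i) z).re ≤ 0
    · rw [indicator_of_mem (show z ∈ {z | (ψ (h i) z).re ≤ 0} from hz), Complex.norm_exp]
      exact Real.exp_le_one_iff.mpr hz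
    · rw [indicator_of_notMem (show z ∉ {z | (ψ (h i) z).re ≤ 0} from hz)]; simp
  have hφe : ∀ i, ∀ᵐ z ∂μ, φ i z = a i z * cexp (ψ (h i) z) := by
    intro i
    filter_upwards [exp_re_le hA hψ (hh i)] with z hz
    rw [hφ]
    simp only
    rw [indicator_of_mem (show z ∈ {z | (ψ (h i) z).re ≤ 0} from hz.2.1)]
  have h1 : FM μ T k φ := fm_of_sets hT hA hk hφm hφ1
  have h2 : ∀ i, ∫ z, φ i z ∂μ = ∫ z, F i z ∂μ := by
    intro i
    rw [integral_congr_ae (hφe i), ← exp_int hA hH hψ (hh i) (ha i) (ha1 i), hFe i]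
  unfold FM at h1 ⊢
  simp only [h2] at h1
  have h3 := hpt h hh
  have h4 : Tendsto (fun m : ℕ → ℕ => (∫ z, ∏ i ∈ Finset.range (k + 1),
      F i (T^[∑ j ∈ Finset.range i, m j] z) ∂μ) - ∫ z, ∏ i ∈ Finset.range (k + 1),
      φ i (T^[∑ j ∈ Finset.range i, m j] z) ∂μ) (gapF k) (𝓝 0) := by
    refine squeeze_zero_norm (fun m => ?_) h3
    set t : ℕ → ℕ := fun i => ∑ l ∈ Finset.range i, m l with ht
    have hp : ∀ i, h i ∘ T^[t i] ∈ H := fun i => mem_iter hHT (hh i) _
    have hS : ∑ i ∈ Finset.range (k + 1), h i ∘ T^[t i] ∈ H := Submodule.sum_mem _ fun i _ => hp i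
    set P : Z → ℂ := fun z => ∏ i ∈ Finset.range (k + 1), a i (T^[t i] z) with hP
    have hPm : Measurable[A] P := by
      apply @Finset.measurable_prod _ _ _ _ _ _ A
      intro i _
      exact (ha i).comp (meas_iter hTA _)
    have hP1 : ∀ z, ‖P z‖ ≤ 1 := by
      intro z
      rw [hP, norm_prod]
      exact Finset.prod_le_one (fun i _ => norm_nonneg _) fun i _ => ha1 i _
    have e1 : ∫ z, ∏ i ∈ Finset.range (k + 1), F i (T^[t i] z) ∂μ =
        ∫ z, P z * cexp (ψ (∑ i ∈ Finset.range (k + 1), h i ∘ T^[t i]) z) ∂μ := by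
      rw [← exp_int hA hH hψ hS hPm hP1]
      congr 1
      ext z
      have e0 : cexp (I * ((∑ i ∈ Finset.range (k + 1), h i ∘ T^[t i]) z : ℝ)) =
          ∏ i ∈ Finset.range (k + 1), cexp (I * h i (T^[t i] z)) := by
        rw [Finset.sum_apply, Complex.ofReal_sum, Finset.mul_sum, Complex.exp_sum]
        rfl
      rw [e0, hP]
      simp only
      rw [← Finset.prod_mul_distrib]
      refine Finset.prod_congr rfl fun i _ => ?_
      rw [hFe i]
    have e2 : ∫ z, ∏ i ∈ Finset.range (k + 1), φ i (T^[t i] z) ∂μ =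
        ∫ z, P z * ∏ i ∈ Finset.range (k + 1), cexp (ψ (h i) (T^[t i] z)) ∂μ := by
      apply integral_congr_ae
      have a1 : ∀ᵐ z ∂μ, ∀ i, φ i (T^[t i] z) = a i (T^[t i] z) * cexp (ψ (h i) (T^[t i] z)) := by
        rw [ae_all_iff]
        intro i
        exact (hT.iterate (t i)).quasiMeasurePreserving.tendsto_ae.eventually (hφe i)
      filter_upwards [a1] with z hz
      rw [hP]
      simp only
      rw [← Finset.prod_mul_distrib]
      exact Finset.prod_congr rfl fun i _ => hz i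
    have m1 : Measurable fun z => cexp (ψ (∑ i ∈ Finset.range (k + 1), h i ∘ T^[t i]) z) :=
      Complex.measurable_exp.comp (hψ.measZ hA hS)
    have m2 : Measurable fun z => ∏ i ∈ Finset.range (k + 1), cexp (ψ (h i) (T^[t i] z)) :=
      Finset.measurable_prod _ fun i _ =>
        Complex.measurable_exp.comp ((hψ.measZ hA (hh i)).comp (hT.measurable.iterate _))
    have b1 : ∀ᵐ z ∂μ, ‖cexp (ψ (∑ i ∈ Finset.range (k + 1), h i ∘ T^[t i]) z)‖ ≤ 1 := by
      filter_upwards [exp_re_le hA hψ hS] with z hz using hz.2.2.2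
    have b2 : ∀ᵐ z ∂μ, ‖∏ i ∈ Finset.range (k + 1), cexp (ψ (h i) (T^[t i] z))‖ ≤ 1 := by
      have a1 : ∀ᵐ z ∂μ, ∀ i, ‖cexp (ψ (h i) (T^[t i] z))‖ ≤ 1 := by
        rw [ae_all_iff]
        intro i
        have a2 : ∀ᵐ z ∂μ, ‖cexp (ψ (h i) z)‖ ≤ 1 := by
          filter_upwards [exp_re_le hA hψ (hh i)] with z hz using hz.2.2.2
        exact (hT.iterate (t i)).quasiMeasurePreserving.tendsto_ae.eventually a2
      filter_upwards [a1] with z hz
      rw [norm_prod]
      exact Finset.prod_le_one (fun i _ => norm_nonneg _) fun i _ => hz i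
    have n1 : Integrable (fun z => P z * cexp (ψ (∑ i ∈ Finset.range (k + 1), h i ∘ T^[t i]) z))
        μ := by
      refine Integrable.of_bound ((hPm.mono hA le_rfl).mul m1).aestronglyMeasurable 1 ?_
      filter_upwards [b1] with z hz
      rw [norm_mul]
      exact mul_le_one₀ (hP1 z) (norm_nonneg _) hz
    have n2 : Integrable (fun z => P z * ∏ i ∈ Finset.range (k + 1),
        cexp (ψ (h i) (T^[t i] z))) μ := by
      refine Integrable.of_bound ((hPm.mono hA le_rfl).mul m2).aestronglyMeasurable 1 ?_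
      filter_upwards [b2] with z hz
      rw [norm_mul]
      exact mul_le_one₀ (hP1 z) (norm_nonneg _) hz
    have n3 : Integrable (fun z => ‖cexp (ψ (∑ i ∈ Finset.range (k + 1), h i ∘ T^[t i]) z) -
        ∏ i ∈ Finset.range (k + 1), cexp (ψ (h i) (T^[t i] z))‖) μ := by
      refine Integrable.of_bound (m1.sub m2).norm.aestronglyMeasurable 2 ?_
      filter_upwards [b1, b2] with z hz1 hz2
      rw [norm_norm]
      exact (norm_sub_le _ _).trans (by linarith)
    rw [e1, e2, ← integral_sub n1 n2]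
    refine (norm_integral_le_integral_norm _).trans
      (integral_mono_ae (n1.sub n2).norm n3 (ae_of_all _ fun z => ?_))
    change ‖P z * _ - P z * _‖ ≤ ‖_‖
    rw [← mul_sub, norm_mul]
    exact mul_le_of_le_one_left (norm_nonneg _) (hP1 z)
  have h5 := h4.add h1
  simpa using h5

include hA hH hψ hT hTA hHT in
theorem mixOrd_of_hpt (hgen : mZ = A ⊔ ⨆ h ∈ H, (borel ℝ).comap h) {k : ℕ}
    (hpt : ∀ h : ℕ → Z → ℝ, (∀ i, h i ∈ H) → Tendsto (fun m : ℕ → ℕ => ∫ z,
      ‖cexp (ψ (∑ i ∈ Finset.range (k + 1), h i ∘ T^[∑ l ∈ Finset.range i, m l]) z) -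
        ∏ i ∈ Finset.range (k + 1), cexp (ψ (h i) (T^[∑ l ∈ Finset.range i, m l] z))‖ ∂μ)
      (gapF k) (𝓝 0))
    (hk : ∀ B : ℕ → Set Z, (∀ i, MeasurableSet[A] (B i)) → Rok.Good μ T k B) :
    Rok.MixOrd μ T k := by
  intro B hB
  rw [← fm_iff_good hT hB]
  refine ext_slots hT (C := expo A H) (C' := {g : Z → ℂ | ∃ B : Set Z, MeasurableSet[mZ] B ∧
      g = B.indicator fun _ => 1}) (expo_bdd hA hH) ?_ ?_
      (fun F hF => fm_expo hA hH hψ hT hTA hHT hpt hk hF) fun i => ⟨B i, hB i, rfl⟩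
  · rintro f ⟨B, hB, rfl⟩
    refine ⟨measurable_const.indicator hB, fun z => ?_⟩
    by_cases hz : z ∈ B <;> simp [hz]
  · rintro f ⟨B, hB, rfl⟩ ε hε
    exact dense_expo hA hH hgen hB ε hε

include hA hH hψ hT hTA hHT in
/-- Multiple mixing lifts from the factor. -/
theorem mixOrd_of_factor (hgen : mZ = A ⊔ ⨆ h ∈ H, (borel ℝ).comap h)
    (hmix : Rok.MixOrd μ T 1) {k : ℕ}
    (hk : ∀ B : ℕ → Set Z, (∀ i, MeasurableSet[A] (B i)) → Rok.Good μ T k B) :
    Rok.MixOrd μ T k :=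
  mixOrd_of_hpt hA hH hψ hT hTA hHT hgen
    (fun _ hh => prod_tendsto hA hH hψ hT hTA hHT hmix hh k) hk

theorem tendsto_m0 : Tendsto (fun m : ℕ → ℕ => m 0) (gapF 1) atTop := by
  rw [tendsto_atTop]
  intro N
  exact ⟨N, fun m hm => hm 0 zero_lt_one⟩

theorem tendsto_cm : Tendsto (fun (n : ℕ) (_ : ℕ) => n) atTop (gapF 1) := by
  rw [tendsto_def]
  rintro s ⟨N, hN⟩
  filter_upwards [eventually_ge_atTop N] with n hn
  exact hN _ fun _ _ => hn

theorem two_eq (g h : Z → ℝ) (n : ℕ) (z : Z) :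
    ‖cexp (ψ (∑ i ∈ Finset.range (1 + 1), (fun i => if i = 0 then g else h) i ∘
        T^[∑ l ∈ Finset.range i, (fun _ => n) l]) z) -
        ∏ i ∈ Finset.range (1 + 1), cexp (ψ ((fun i => if i = 0 then g else h) i)
          (T^[∑ l ∈ Finset.range i, (fun _ => n) l] z))‖ =
      ‖cexp (ψ (g + h ∘ T^[n]) z) - cexp (ψ g z) * cexp (ψ h (T^[n] z))‖ := by
  simp [Finset.sum_range_succ, Finset.prod_range_succ]

include hA hψ hT hHT in
/-- The integrals in terms of conditional expectations. -/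
theorem cond_eq {g h : Z → ℝ} (hg : g ∈ H) (hh : h ∈ H) (n : ℕ) :
    ∫ z, ‖cexp (ψ (g + h ∘ T^[n]) z) - cexp (ψ g z) * cexp (ψ h (T^[n] z))‖ ∂μ =
      ∫ z, ‖μ[fun z => cexp (I * (g z + h (T^[n] z) : ℝ)) | A] z -
        μ[fun z => cexp (I * g z) | A] z * μ[fun z => cexp (I * h z) | A] (T^[n] z)‖ ∂μ := by
  have hp := mem_iter hHT hh n
  have h1 := hψ.condExp _ (H.add_mem hg hp)
  have h2 := hψ.condExp _ hg
  have h3 := (hT.iterate n).quasiMeasurePreserving.tendsto_ae.eventually (hψ.condExp _ hh)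
  apply integral_congr_ae
  filter_upwards [h1, h2, h3] with z z1 z2 z3
  rw [z2, z3, ← z1]
  rfl

include hA hH hψ hT hTA hHT in
/-- Mixing is the same as mixing of the factor and relative mixing. -/
theorem mix_iff_rel (hgen : mZ = A ⊔ ⨆ h ∈ H, (borel ℝ).comap h) :
    Rok.MixOrd μ T 1 ↔
      (∀ B : ℕ → Set Z, (∀ i, MeasurableSet[A] (B i)) → Rok.Good μ T 1 B) ∧
      ∀ g ∈ H, ∀ h ∈ H, Tendsto (fun n : ℕ => ∫ z,
        ‖μ[fun z => cexp (I * (g z + h (T^[n] z) : ℝ)) | A] z -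
        μ[fun z => cexp (I * g z) | A] z * μ[fun z => cexp (I * h z) | A] (T^[n] z)‖ ∂μ)
        atTop (𝓝 0) := by
  constructor
  · intro hmix
    refine ⟨fun B hB => hmix B fun i => hA _ (hB i), fun g hg h hh => ?_⟩
    have h1 := (prod_tendsto hA hH hψ hT hTA hHT hmix (h := fun i => if i = 0 then g else h)
      (fun i => by by_cases hi : i = 0 <;> simp [hi, hg, hh]) 1).comp tendsto_cm
    refine h1.congr fun n => ?_
    rw [← cond_eq hA hψ hT hHT hg hh n]
    simp only [Function.comp_apply]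
    congr 1
    ext z
    exact two_eq g h n z
  · rintro ⟨h1, h2⟩
    refine mixOrd_of_hpt hA hH hψ hT hTA hHT hgen (fun h hh => ?_) h1
    have h3 := (h2 (h 0) (hh 0) (h 1) (hh 1)).comp tendsto_m0
    refine h3.congr fun m => ?_
    simp only [Function.comp_apply]
    rw [← cond_eq hA hψ hT hHT (hh 0) (hh 1)]
    congr 1
    ext z
    simp [Finset.sum_range_succ, Finset.prod_range_succ]

end

end Pool.Agent.Y264.Rid
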