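import Mathlib

/-! Multiple mixing: extension from a generating semi-ring of sets. -/

set_option autoImplicit false

namespace Pool.Agent.Y264.Rok
open MeasureTheory Set Filter Topology

variable {X : Type*} [MeasurableSpace X]

/-- Convergence of the correlations of order `k + 1` of the sets `A 0, ..., A k`. -/
def Good (μ : Measure X) (T : X → X) (k : ℕ) (A : ℕ → Set X) : Prop :=
  ∀ ε : ℝ, 0 < ε → ∃ N : ℕ, ∀ m : ℕ → ℕ, (∀ j < k, N ≤ m j) →
    |μ.real (⋂ i ∈ Finset.range (k + 1), T^[∑ j ∈ Finset.range i, m j] ⁻¹' A i)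
      - ∏ i ∈ Finset.range (k + 1), μ.real (A i)| < ε

/-- Mixing of multiplicity `k`. -/
def MixOrd (μ : Measure X) (T : X → X) (k : ℕ) : Prop :=
  ∀ A : ℕ → Set X, (∀ i, MeasurableSet (A i)) → Good μ T k A

variable {μ : Measure X} [IsProbabilityMeasure μ] {T : X → X}

theorem meas_iInter (hT : MeasurePreserving T μ μ) {A : ℕ → Set X} (hA : ∀ i, MeasurableSet (A i))
    (s : Finset ℕ) (n : ℕ → ℕ) : MeasurableSet (⋂ i ∈ s, T^[n i] ⁻¹' A i) :=
  Finset.measurableSet_biInter s fun i _ => (hT.measurable.iterate (n i)) (hA i)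

theorem iInter_update {k j : ℕ} (hj : j < k + 1) (n : ℕ → ℕ) (A : ℕ → Set X) (B : Set X) :
    (⋂ i ∈ Finset.range (k + 1), T^[n i] ⁻¹' (Function.update A j B i)) =
      (⋂ i ∈ (Finset.range (k + 1)).erase j, T^[n i] ⁻¹' A i) ∩ T^[n j] ⁻¹' B := by
  ext x
  simp only [mem_iInter, mem_inter_iff, mem_preimage, Finset.mem_range, Finset.mem_erase]
  constructor
  · intro h
    refine ⟨fun i hi => ?_, ?_⟩
    · have := h i hi.2
      rwa [Function.update_of_ne hi.1] at this
    · have := h j hj
      rwa [Function.update_self] at this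
  · rintro ⟨h1, h2⟩ i hi
    by_cases hij : i = j
    · subst hij; rwa [Function.update_self]
    · rw [Function.update_of_ne hij]; exact h1 i ⟨hij, hi⟩

theorem prod_update {k j : ℕ} (hj : j < k + 1) (A : ℕ → Set X) (B : Set X) :
    ∏ i ∈ Finset.range (k + 1), μ.real (Function.update A j B i) =
      (∏ i ∈ (Finset.range (k + 1)).erase j, μ.real (A i)) * μ.real B := by
  rw [← Finset.prod_erase_mul _ _ (Finset.mem_range.mpr hj), Function.update_self]
  congr 1
  apply Finset.prod_congr rfl
  intro i hi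
  rw [Function.update_of_ne (Finset.ne_of_mem_erase hi)]

theorem good_update {k j : ℕ} (hj : j < k + 1) {A : ℕ → Set X} {B : Set X} :
    Good μ T k (Function.update A j B) ↔ ∀ ε : ℝ, 0 < ε → ∃ N : ℕ, ∀ m : ℕ → ℕ, (∀ j < k, N ≤ m j) →
      |μ.real ((⋂ i ∈ (Finset.range (k + 1)).erase j, T^[∑ l ∈ Finset.range i, m l] ⁻¹' A i) ∩
        T^[∑ l ∈ Finset.range j, m l] ⁻¹' B)
      - (∏ i ∈ (Finset.range (k + 1)).erase j, μ.real (A i)) * μ.real B| < ε := by
  unfold Good
  simp only [iInter_update hj (fun i => ∑ l ∈ Finset.range i, _), prod_update hj]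

theorem good_compl (hT : MeasurePreserving T μ μ) {k j : ℕ} (hj : j < k + 1) {A : ℕ → Set X}
    {B : Set X} (hB : MeasurableSet B)
    (h : Good μ T k (Function.update A j B)) (hu : Good μ T k (Function.update A j univ)) :
    Good μ T k (Function.update A j Bᶜ) := by
  rw [good_update hj] at h hu ⊢
  intro ε hε
  obtain ⟨N1, h1⟩ := h (ε / 2) (by positivity)
  obtain ⟨N2, h2⟩ := hu (ε / 2) (by positivity)
  refine ⟨max N1 N2, fun m hm => ?_⟩
  have e1 := h1 m fun j hj => (le_max_left _ _).trans (hm j hj)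
  have e2 := h2 m fun j hj => (le_max_right _ _).trans (hm j hj)
  set R := ⋂ i ∈ (Finset.range (k + 1)).erase j, T^[∑ l ∈ Finset.range i, m l] ⁻¹' A i
  set n := ∑ l ∈ Finset.range j, m l
  have hBm : MeasurableSet (T^[n] ⁻¹' B) := (hT.measurable.iterate n) hB
  have e3 : μ.real (R ∩ T^[n] ⁻¹' Bᶜ) = μ.real (R ∩ T^[n] ⁻¹' univ) - μ.real (R ∩ T^[n] ⁻¹' B) := by
    have e5 := measureReal_inter_add_sdiff (μ := μ) (s := R) hBm (measure_ne_top _ _)
    rw [preimage_univ, inter_univ, preimage_compl, ← sdiff_eq]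
    linarith
  have e4 : μ.real Bᶜ = μ.real (univ : Set X) - μ.real B := by
    rw [measureReal_compl hB]
  rw [e3, e4]
  rw [abs_lt] at e1 e2 ⊢
  constructor <;> nlinarith [e1.1, e1.2, e2.1, e2.2]

theorem good_union (hT : MeasurePreserving T μ μ) {k j : ℕ} (hj : j < k + 1) {A : ℕ → Set X}
    {B : ℕ → Set X} (hB : ∀ l, MeasurableSet (B l)) (hd : Pairwise fun a b => Disjoint (B a) (B b))
    (h : ∀ l, Good μ T k (Function.update A j (B l))) :
    Good μ T k (Function.update A j (⋃ l, B l)) := by
  -- finite unions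
  have hfin : ∀ L : ℕ, Good μ T k (Function.update A j (⋃ l ∈ Finset.range L, B l)) := by
    intro L
    induction L with
    | zero =>
      rw [good_update hj]
      intro ε hε
      refine ⟨0, fun m _ => ?_⟩
      simpa using hε
    | succ L ih =>
      have hL := h L
      rw [good_update hj] at ih hL ⊢
      intro ε hε
      obtain ⟨N1, h1⟩ := ih (ε / 2) (by positivity)
      obtain ⟨N2, h2⟩ := hL (ε / 2) (by positivity)
      refine ⟨max N1 N2, fun m hm => ?_⟩
      have e1 := h1 m fun j hj => (le_max_left _ _).trans (hm j hj)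
      have e2 := h2 m fun j hj => (le_max_right _ _).trans (hm j hj)
      set R := ⋂ i ∈ (Finset.range (k + 1)).erase j, T^[∑ l ∈ Finset.range i, m l] ⁻¹' A i
      set n := ∑ l ∈ Finset.range j, m l
      have hdis : Disjoint (⋃ l ∈ Finset.range L, B l) (B L) := by
        rw [disjoint_iUnion₂_left]
        intro l hl
        exact hd (Finset.mem_range.mp hl).ne
      have hU : (⋃ l ∈ Finset.range (L + 1), B l) = (⋃ l ∈ Finset.range L, B l) ∪ B L := by
        rw [Finset.range_add_one, Finset.set_biUnion_insert, union_comm]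
      have e3 : μ.real (R ∩ T^[n] ⁻¹' (⋃ l ∈ Finset.range (L + 1), B l)) =
          μ.real (R ∩ T^[n] ⁻¹' (⋃ l ∈ Finset.range L, B l)) + μ.real (R ∩ T^[n] ⁻¹' B L) := by
        have hBm : MeasurableSet (T^[n] ⁻¹' B L) := (hT.measurable.iterate n) (hB L)
        have e5 := measureReal_inter_add_sdiff (μ := μ)
          (s := R ∩ T^[n] ⁻¹' (⋃ l ∈ Finset.range (L + 1), B l)) hBm (measure_ne_top _ _)
        have e6 : R ∩ T^[n] ⁻¹' (⋃ l ∈ Finset.range (L + 1), B l) ∩ T^[n] ⁻¹' B L =
            R ∩ T^[n] ⁻¹' B L := by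
          rw [hU, inter_assoc, ← preimage_inter, union_inter_cancel_right]
        have e7 : (R ∩ T^[n] ⁻¹' (⋃ l ∈ Finset.range (L + 1), B l)) \ T^[n] ⁻¹' B L =
            R ∩ T^[n] ⁻¹' (⋃ l ∈ Finset.range L, B l) := by
          rw [hU, inter_sdiff_assoc, ← preimage_sdiff, union_sdiff_cancel_right]
          exact hdis.inter_eq.subset
        rw [e6, e7] at e5
        linarith
      have e4 : μ.real (⋃ l ∈ Finset.range (L + 1), B l) =
          μ.real (⋃ l ∈ Finset.range L, B l) + μ.real (B L) := by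
        rw [hU, measureReal_union hdis (hB L) (measure_ne_top _ _) (measure_ne_top _ _)]
      rw [e3, e4]
      rw [abs_lt] at e1 e2 ⊢
      constructor <;> nlinarith [e1.1, e1.2, e2.1, e2.2]
  -- approximation
  rw [good_update hj]
  intro ε hε
  set U : ℕ → Set X := fun L => ⋃ l ∈ Finset.range L, B l with hU
  have hUm : ∀ L, MeasurableSet (U L) := fun L => Finset.measurableSet_biUnion _ fun l _ => hB l
  have hUsub : ∀ L, U L ⊆ ⋃ l, B l := fun L => iUnion₂_subset fun l _ => subset_iUnion B l
  have hmono : Monotone U := by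
    intro a b hab
    apply biUnion_subset_biUnion_left
    intro l hl
    exact Finset.range_mono hab hl
  have hlim : Tendsto (fun L => μ.real (U L)) atTop (𝓝 (μ.real (⋃ l, B l))) := by
    have h1 : (⋃ L, U L) = ⋃ l, B l := by
      apply Subset.antisymm (iUnion_subset hUsub)
      apply iUnion_subset
      intro l
      refine Subset.trans ?_ (subset_iUnion U (l + 1))
      intro x hx
      simp only [hU, mem_iUnion]
      exact ⟨l, Finset.mem_range.mpr (Nat.lt_succ_self l), hx⟩
    have h2 := tendsto_measure_iUnion_atTop (μ := μ) hmono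
    rw [h1] at h2
    exact (ENNReal.tendsto_toReal (measure_ne_top μ _)).comp h2
  obtain ⟨L, hL⟩ := (Metric.tendsto_atTop.mp hlim (ε / 4) (by positivity))
  have hLL := hL L le_rfl
  rw [Real.dist_eq] at hLL
  have hV : μ.real ((⋃ l, B l) \ U L) < ε / 4 := by
    rw [measureReal_sdiff (hUsub L) (hUm L) (measure_ne_top _ _)]
    rw [abs_lt] at hLL
    linarith [hLL.1]
  have hL' := hfin L
  rw [good_update hj] at hL'
  obtain ⟨N, hN⟩ := hL' (ε / 4) (by positivity)
  refine ⟨N, fun m hm => ?_⟩
  have e1 := hN m hm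
  set R := ⋂ i ∈ (Finset.range (k + 1)).erase j, T^[∑ l ∈ Finset.range i, m l] ⁻¹' A i
  set n := ∑ l ∈ Finset.range j, m l
  set Pr := ∏ i ∈ (Finset.range (k + 1)).erase j, μ.real (A i) with hPr
  have hUm' : MeasurableSet (T^[n] ⁻¹' U L) := (hT.measurable.iterate n) (hUm L)
  have e5 := measureReal_inter_add_sdiff (μ := μ) (s := R ∩ T^[n] ⁻¹' (⋃ l, B l)) hUm'
    (measure_ne_top _ _)
  have e6 : R ∩ T^[n] ⁻¹' (⋃ l, B l) ∩ T^[n] ⁻¹' U L = R ∩ T^[n] ⁻¹' U L := by
    rw [inter_assoc, ← preimage_inter, inter_eq_self_of_subset_right (hUsub L)]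
  have e7 : μ.real ((R ∩ T^[n] ⁻¹' (⋃ l, B l)) \ T^[n] ⁻¹' U L) ≤ μ.real ((⋃ l, B l) \ U L) := by
    have h8 : (R ∩ T^[n] ⁻¹' (⋃ l, B l)) \ T^[n] ⁻¹' U L ⊆ T^[n] ⁻¹' ((⋃ l, B l) \ U L) := by
      intro x hx
      exact ⟨hx.1.2, hx.2⟩
    refine (measureReal_mono h8).trans_eq ?_
    exact (hT.iterate n).measureReal_preimage
      ((MeasurableSet.iUnion hB).diff (hUm L)).nullMeasurableSet
  have e8 : 0 ≤ μ.real ((R ∩ T^[n] ⁻¹' (⋃ l, B l)) \ T^[n] ⁻¹' U L) := measureReal_nonneg
  have hP0 : 0 ≤ Pr := Finset.prod_nonneg fun i _ => measureReal_nonneg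
  have hP1 : Pr ≤ 1 := Finset.prod_le_one (fun i _ => measureReal_nonneg) fun i _ => measureReal_le_one
  rw [e6] at e5
  have e9 : |Pr * (μ.real (⋃ l, B l) - μ.real (U L))| ≤ ε / 4 := by
    rw [abs_mul, abs_of_nonneg hP0, abs_sub_comm]
    calc Pr * _ ≤ 1 * (ε / 4) := mul_le_mul hP1 hLL.le (abs_nonneg _) zero_le_one
      _ = _ := one_mul _
  rw [abs_le] at e9
  rw [abs_lt] at e1 ⊢
  constructor <;> nlinarith [e1.1, e1.2, e9.1, e9.2]

theorem good_congr {k : ℕ} {A B : ℕ → Set X} (h : ∀ i < k + 1, A i = B i) :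
    Good μ T k A ↔ Good μ T k B := by
  have e1 : ∀ m : ℕ → ℕ, (⋂ i ∈ Finset.range (k + 1), T^[∑ j ∈ Finset.range i, m j] ⁻¹' A i) =
      ⋂ i ∈ Finset.range (k + 1), T^[∑ j ∈ Finset.range i, m j] ⁻¹' B i := by
    intro m
    apply iInter₂_congr
    intro i hi
    rw [h i (Finset.mem_range.mp hi)]
  have e2 : ∏ i ∈ Finset.range (k + 1), μ.real (A i) = ∏ i ∈ Finset.range (k + 1), μ.real (B i) := by
    apply Finset.prod_congr rfl
    intro i hi
    rw [h i (Finset.mem_range.mp hi)]
  unfold Good
  simp only [e1, e2]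

/-- It suffices to check the convergence on a generating family of sets stable under
intersections. -/
theorem mixOrd_of_pi (hT : MeasurePreserving T μ μ) {k : ℕ} {P : Set (Set X)}
    (hgen : ‹MeasurableSpace X› = MeasurableSpace.generateFrom P) (hpi : IsPiSystem P)
    (huniv : univ ∈ P) (h : ∀ A : ℕ → Set X, (∀ i, A i ∈ P) → Good μ T k A) : MixOrd μ T k := by
  have hPm : ∀ s ∈ P, MeasurableSet s := fun s hs => by
    rw [hgen]; exact MeasurableSpace.measurableSet_generateFrom hs
  have key : ∀ j ≤ k + 1, ∀ A : ℕ → Set X, (∀ i, MeasurableSet (A i)) → (∀ i, j ≤ i → A i ∈ P) →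
      Good μ T k A := by
    intro j
    induction j with
    | zero =>
      intro _ A _ hP
      exact h A fun i => hP i (Nat.zero_le i)
    | succ j ih =>
      intro hjk A hA hP
      have hj : j < k + 1 := hjk
      have base : ∀ B ∈ P, Good μ T k (Function.update A j B) := by
        intro B hB
        apply ih hj.le
        · intro i
          by_cases hi : i = j
          · subst hi; rw [Function.update_self]; exact hPm B hB
          · rw [Function.update_of_ne hi]; exact hA i
        · intro i hi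
          by_cases hij : i = j
          · subst hij; rw [Function.update_self]; exact hB
          · rw [Function.update_of_ne hij]; exact hP i (by omega)
      have hall : ∀ B, MeasurableSet B → Good μ T k (Function.update A j B) := by
        intro B hB
        induction B, hB using MeasurableSpace.induction_on_inter hgen hpi with
        | empty =>
          have := good_compl hT hj MeasurableSet.univ (base univ huniv) (base univ huniv)
          rwa [compl_univ] at this
        | basic B hB => exact base B hB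
        | compl B hB ihB => exact good_compl hT hj hB ihB (base univ huniv)
        | iUnion B hd hB ihB => exact good_union hT hj hB hd ihB
      have := hall (A j) (hA j)
      rwa [Function.update_eq_self] at this
  intro A hA
  have h1 := key (k + 1) le_rfl (fun i => if i < k + 1 then A i else univ)
    (fun i => by
      change MeasurableSet (if i < k + 1 then A i else univ)
      split_ifs
      · exact hA i
      · exact MeasurableSet.univ)
    (fun i hi => by
      change (if i < k + 1 then A i else univ) ∈ P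
      rw [if_neg (by omega)]; exact huniv)
  refine (good_congr fun i hi => ?_).mp h1
  change (if i < k + 1 then A i else univ) = A i
  rw [if_pos hi]

end Pool.Agent.Y264.Rok
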