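import Pool.Agent.Y264.Rok1

/-! Multiple mixing of generalised `[T, T⁻¹]` transformations. -/

set_option autoImplicit false

namespace Pool.Agent.Y264.Rok
open MeasureTheory Set Filter Topology

variable {X Y G : Type*} [MeasurableSpace X] [MeasurableSpace Y] [Group G] [MulAction G Y]

/-- The skew product. -/
def skew (S : X → X) (φ : X → G) (p : X × Y) : X × Y := (S p.1, φ p.1 • p.2)

/-- The cocycle `φ (S^(n-1) x) ⋯ φ x`. -/
def coc (S : X → X) (φ : X → G) : ℕ → X → G
  | 0, _ => 1
  | n + 1, x => φ (S^[n] x) * coc S φ n x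

/-- Mixing of multiplicity `k` of an action of a discrete group. -/
def GMix (ν : Measure Y) (G : Type*) [Group G] [MulAction G Y] (k : ℕ) : Prop :=
  ∀ A : ℕ → Set Y, (∀ i, MeasurableSet (A i)) → ∀ ε : ℝ, 0 < ε → ∃ F : Finset G, ∀ g : ℕ → G,
    (∀ i j, i < j → j ≤ k → g j * (g i)⁻¹ ∉ F) →
      |ν.real (⋂ i ∈ Finset.range (k + 1), (fun y => g i • y) ⁻¹' A i)
        - ∏ i ∈ Finset.range (k + 1), ν.real (A i)| < ε

variable {S : X → X} {φ : X → G}

theorem skew_iterate (n : ℕ) (p : X × Y) :
    (skew S φ)^[n] p = (S^[n] p.1, coc S φ n p.1 • p.2) := by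
  induction n with
  | zero => simp [coc]
  | succ n ih =>
    rw [Function.iterate_succ_apply', ih, skew, Function.iterate_succ_apply', coc, mul_smul]

theorem coc_add (m n : ℕ) (x : X) : coc S φ (m + n) x = coc S φ n (S^[m] x) * coc S φ m x := by
  induction n with
  | zero => simp [coc]
  | succ n ih =>
    rw [← add_assoc, coc, ih, coc, mul_assoc, ← Function.iterate_add_apply, add_comm n m]

section meas
variable [Countable G] [MeasurableSpace G] [MeasurableSingletonClass G]

theorem coc_meas (hS : Measurable S) (hφ : Measurable φ) (n : ℕ) : Measurable (coc S φ n) := by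
  induction n with
  | zero => exact measurable_const
  | succ n ih =>
    have h1 : Measurable fun x => φ (S^[n] x) := hφ.comp (hS.iterate n)
    have h2 : Measurable fun q : G × G => q.1 * q.2 := measurable_of_countable _
    exact h2.comp (h1.prodMk ih)

theorem smul_meas (hact : ∀ g : G, Measurable fun y : Y => g • y) {g : X → G} (hg : Measurable g) :
    Measurable fun p : X × Y => g p.1 • p.2 := by
  have h1 : Measurable fun q : G × Y => q.1 • q.2 := measurable_from_prod_countable_right hact
  exact h1.comp ((hg.comp measurable_fst).prodMk measurable_snd)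

variable {μ : Measure X} [IsProbabilityMeasure μ] {ν : Measure Y} [IsProbabilityMeasure ν]

theorem skew_mp (hS : MeasurePreserving S μ μ) (hφ : Measurable φ)
    (hact : ∀ g : G, MeasurePreserving (fun y : Y => g • y) ν ν) :
    MeasurePreserving (skew S φ) (μ.prod ν) (μ.prod ν) :=
  hS.skew_product (g := fun x y => φ x • y) (smul_meas (fun g => (hact g).measurable) hφ)
    (Eventually.of_forall fun x => (hact (φ x)).map_eq)

theorem sum_split {m : ℕ → ℕ} {i j : ℕ} (hij : i < j) : ∃ r, m i ≤ r ∧
    ∑ l ∈ Finset.range j, m l = ∑ l ∈ Finset.range i, m l + r := by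
  have h1 : ∑ l ∈ Finset.range (i + 1), m l ≤ ∑ l ∈ Finset.range j, m l :=
    Finset.sum_le_sum_of_subset (Finset.range_mono hij)
  rw [Finset.sum_range_succ] at h1
  exact ⟨∑ l ∈ Finset.range j, m l - ∑ l ∈ Finset.range i, m l, by omega, by omega⟩

theorem suff (hS : MeasurePreserving S μ μ) (hφ : Measurable φ)
    (hact : ∀ g : G, MeasurePreserving (fun y : Y => g • y) ν ν) {k : ℕ} (hSk : MixOrd μ S k)
    (hG : GMix ν G k)
    (hinf : ∀ g : G, Tendsto (fun n => μ.real {x | coc S φ n x = g}) atTop (𝓝 0)) :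
    MixOrd (μ.prod ν) (skew S φ) k := by
  classical
  apply mixOrd_of_pi (skew_mp hS hφ hact) (P := image2 (· ×ˢ ·) {s | MeasurableSet s}
    {t | MeasurableSet t}) generateFrom_prod.symm isPiSystem_prod
    ⟨univ, MeasurableSet.univ, univ, MeasurableSet.univ, univ_prod_univ⟩
  intro A hA
  choose C hC D hD hCD using hA
  intro ε hε
  obtain ⟨F, hF⟩ := hG D hD (ε / 4) (by positivity)
  set δ : ℝ := ε / (4 * ((k + 1) * (k + 1) * F.card + 1)) with hδ
  have hδ0 : 0 < δ := by positivity
  have hN1 : ∃ N1, ∀ n, N1 ≤ n → ∀ f ∈ F, μ.real {x | coc S φ n x = f} < δ := by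
    have h1 : ∀ᶠ n in atTop, ∀ f ∈ F, μ.real {x | coc S φ n x = f} < δ := by
      rw [Filter.eventually_all_finset]
      intro f _
      exact (hinf f).eventually_lt_const hδ0
    obtain ⟨N1, h⟩ := eventually_atTop.mp h1
    exact ⟨N1, h⟩
  obtain ⟨N1, hN1⟩ := hN1
  obtain ⟨N2, hN2⟩ := hSk C hC (ε / 4) (by positivity)
  refine ⟨max N1 N2, fun m hm => ?_⟩
  set t : ℕ → ℕ := fun i => ∑ l ∈ Finset.range i, m l with ht
  have e2 := hN2 m fun j hj => (le_max_right _ _).trans (hm j hj)
  set dd : ℝ := ∏ i ∈ Finset.range (k + 1), ν.real (D i) with hdd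
  set C' : Set X := ⋂ i ∈ Finset.range (k + 1), S^[t i] ⁻¹' C i with hC'
  set E : X → Set Y := fun x => ⋂ i ∈ Finset.range (k + 1), (fun y => coc S φ (t i) x • y) ⁻¹' D i
    with hE
  -- the exceptional set
  set pr : Finset (ℕ × ℕ) := (Finset.range (k + 1) ×ˢ Finset.range (k + 1)).filter
    fun q => q.1 < q.2 with hpr
  set bad : Set X := ⋃ q ∈ pr ×ˢ F, S^[t q.1.1] ⁻¹' {x | coc S φ (t q.1.2 - t q.1.1) x = q.2} with hbad
  have hcm : ∀ n g, MeasurableSet {x | coc S φ n x = g} := fun n g =>
    (coc_meas hS.measurable hφ n) (measurableSet_singleton g)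
  have hbadm : MeasurableSet bad :=
    Finset.measurableSet_biUnion _ fun q _ => (hS.measurable.iterate _) (hcm _ _)
  have hgood : ∀ x, x ∉ bad → |ν.real (E x) - dd| < ε / 4 := by
    intro x hx
    apply hF (fun i => coc S φ (t i) x)
    intro i j hij hjk hmem
    apply hx
    simp only [hbad, mem_iUnion]
    refine ⟨((i, j), _), Finset.mem_product.mpr ⟨?_, hmem⟩, ?_⟩
    · simp only [hpr, Finset.mem_filter, Finset.mem_product, Finset.mem_range]
      omega
    · obtain ⟨r, -, hr⟩ := sum_split (m := m) hij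
      have h1 : t j = t i + r := hr
      change coc S φ (t j - t i) (S^[t i] x) = _
      rw [h1, Nat.add_sub_cancel_left, coc_add, mul_inv_cancel_right]
  have hbadle : μ.real bad ≤ ε / 4 := by
    have h1 : μ.real bad ≤ ∑ q ∈ pr ×ˢ F, μ.real (S^[t q.1.1] ⁻¹' {x | coc S φ (t q.1.2 - t q.1.1) x = q.2}) :=
      measureReal_biUnion_finset_le _ _
    have h2 : ∀ q ∈ pr ×ˢ F, μ.real (S^[t q.1.1] ⁻¹' {x | coc S φ (t q.1.2 - t q.1.1) x = q.2}) ≤ δ := by
      intro q hq
      rw [(hS.iterate _).measureReal_preimage (hcm _ _).nullMeasurableSet]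
      obtain ⟨h3, h4⟩ := Finset.mem_product.mp hq
      simp only [hpr, Finset.mem_filter, Finset.mem_product, Finset.mem_range] at h3
      obtain ⟨r, hr1, hr⟩ := sum_split (m := m) h3.2
      have h5 : t q.1.2 = t q.1.1 + r := hr
      rw [h5, Nat.add_sub_cancel_left]
      refine (hN1 r ?_ _ h4).le
      exact ((le_max_left _ _).trans (hm _ (by omega))).trans hr1
    have h3 := h1.trans (Finset.sum_le_card_nsmul _ _ _ h2)
    have h4 : ((pr ×ˢ F).card : ℝ) ≤ (k + 1) * (k + 1) * F.card := by
      rw [Finset.card_product]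
      push_cast
      apply mul_le_mul_of_nonneg_right _ (Nat.cast_nonneg _)
      have h5 : pr.card ≤ (k + 1) * (k + 1) := by
        refine (Finset.card_filter_le _ _).trans ?_
        rw [Finset.card_product, Finset.card_range]
      exact_mod_cast h5
    rw [nsmul_eq_mul] at h3
    refine h3.trans ((mul_le_mul_of_nonneg_right h4 hδ0.le).trans ?_)
    rw [hδ, mul_div_assoc', div_le_div_iff₀ (by positivity) (by norm_num)]
    have h6 : (0 : ℝ) ≤ (k + 1) * (k + 1) * F.card := by positivity
    nlinarith
  have hC'm : MeasurableSet C' := meas_iInter hS hC _ t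
  -- the sections
  have hsec : ∀ x, Prod.mk x ⁻¹' (⋂ i ∈ Finset.range (k + 1), (skew S φ)^[t i] ⁻¹' A i) =
      if x ∈ C' then E x else ∅ := by
    intro x
    ext y
    simp only [mem_preimage, mem_iInter, skew_iterate, ← hCD, mem_prod]
    split_ifs with hx
    · simp only [hC', mem_iInter, mem_preimage] at hx
      simp only [hE, mem_iInter, mem_preimage]
      exact ⟨fun h i hi => (h i hi).2, fun h i hi => ⟨hx i hi, h i hi⟩⟩
    · simp only [mem_empty_iff_false, iff_false]
      intro h
      apply hx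
      simp only [hC', mem_iInter, mem_preimage]
      exact fun i hi => (h i hi).1
  have hAm : MeasurableSet (⋂ i ∈ Finset.range (k + 1), (skew S φ)^[t i] ⁻¹' A i) :=
    meas_iInter (skew_mp hS hφ hact) (fun i => by rw [← hCD]; exact (hC i).prod (hD i)) _ t
  have hmeas : Measurable fun x => ν (if x ∈ C' then E x else ∅) := by
    have := measurable_measure_prodMk_left (ν := ν) hAm
    simpa only [hsec] using this
  have hint : (μ.prod ν).real (⋂ i ∈ Finset.range (k + 1), (skew S φ)^[t i] ⁻¹' A i) =
      ∫ x, ν.real (if x ∈ C' then E x else ∅) ∂μ := by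
    rw [Measure.real, Measure.prod_apply hAm]
    simp only [hsec]
    rw [← integral_toReal hmeas.aemeasurable (Eventually.of_forall fun x => measure_lt_top _ _)]
    rfl
  have hprod : ∏ i ∈ Finset.range (k + 1), (μ.prod ν).real (A i) =
      (∏ i ∈ Finset.range (k + 1), μ.real (C i)) * dd := by
    rw [hdd, ← Finset.prod_mul_distrib]
    apply Finset.prod_congr rfl
    intro i _
    rw [← hCD, measureReal_prod_prod]
  have hdd0 : 0 ≤ dd := Finset.prod_nonneg fun i _ => measureReal_nonneg
  have hdd1 : dd ≤ 1 := Finset.prod_le_one (fun i _ => measureReal_nonneg) fun i _ => measureReal_le_one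
  -- comparison
  have hi1 : Integrable (fun x => ν.real (if x ∈ C' then E x else ∅)) μ := by
    apply Integrable.of_bound (C := 1) hmeas.ennreal_toReal.aestronglyMeasurable
    exact Eventually.of_forall fun x => by
      change ‖ν.real (if x ∈ C' then E x else ∅)‖ ≤ 1
      rw [Real.norm_eq_abs, abs_of_nonneg measureReal_nonneg]
      exact measureReal_le_one
  have hi2 : Integrable (fun x => C'.indicator (fun _ => dd) x) μ :=
    (integrable_const dd).indicator hC'm
  have hi3 : Integrable (fun x => ε / 4 + bad.indicator (fun _ => (1 : ℝ)) x) μ :=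
    (integrable_const _).add ((integrable_const _).indicator hbadm)
  have h1 : |(∫ x, ν.real (if x ∈ C' then E x else ∅) ∂μ) - ∫ x, C'.indicator (fun _ => dd) x ∂μ| ≤
      ∫ x, (ε / 4 + bad.indicator (fun _ => (1 : ℝ)) x) ∂μ := by
    rw [← integral_sub hi1 hi2]
    refine (abs_integral_le_integral_abs).trans ?_
    apply integral_mono_of_nonneg (Eventually.of_forall fun x => abs_nonneg _) hi3
    apply Eventually.of_forall
    intro x
    change |ν.real (if x ∈ C' then E x else ∅) - C'.indicator (fun _ => dd) x| ≤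
      ε / 4 + bad.indicator (fun _ => (1 : ℝ)) x
    have hb0 : 0 ≤ bad.indicator (fun _ => (1 : ℝ)) x := indicator_nonneg (fun _ _ => zero_le_one) x
    by_cases hx : x ∈ C'
    · rw [if_pos hx, indicator_of_mem hx]
      by_cases hb : x ∈ bad
      · rw [indicator_of_mem hb]
        have h5 : 0 ≤ ν.real (E x) := measureReal_nonneg
        have h6 : ν.real (E x) ≤ 1 := measureReal_le_one
        rw [abs_le]
        constructor <;> linarith
      · linarith [hgood x hb]
    · rw [if_neg hx, indicator_of_notMem hx, measureReal_empty, sub_zero, abs_zero]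
      positivity
  rw [integral_add (integrable_const _) ((integrable_const _).indicator hbadm), integral_const,
    integral_indicator_const _ hbadm, integral_indicator_const _ hC'm] at h1
  simp only [probReal_univ, smul_eq_mul, one_mul, mul_one] at h1
  rw [hint, hprod]
  have h4 : |μ.real C' * dd - (∏ i ∈ Finset.range (k + 1), μ.real (C i)) * dd| ≤ ε / 4 := by
    rw [← sub_mul, abs_mul, abs_of_nonneg hdd0]
    calc _ ≤ ε / 4 * 1 := mul_le_mul e2.le hdd1 hdd0 (by positivity)
      _ = _ := mul_one _
  rw [abs_le] at h1 h4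
  rw [abs_lt]
  constructor <;> linarith [h1.1, h1.2, h4.1, h4.2]

end meas

end Pool.Agent.Y264.Rok
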