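import Pool.Agent.Y264.Rok2

/-! Mixing of generalised `[T, T⁻¹]` transformations: necessary conditions. -/

set_option autoImplicit false

namespace Pool.Agent.Y264.Rok
open MeasureTheory Set Filter Topology

variable {X Y G : Type*} [MeasurableSpace X] [MeasurableSpace Y] [Group G] [MulAction G Y]
  {S : X → X} {φ : X → G} {μ : Measure X} [IsProbabilityMeasure μ] {ν : Measure Y}
  [IsProbabilityMeasure ν]

theorem mixOrd_base {k : ℕ} (h : MixOrd (μ.prod ν) (skew S φ) k) : MixOrd μ S k := by
  intro A hA ε hε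
  obtain ⟨N, hN⟩ := h (fun i => A i ×ˢ univ) (fun i => (hA i).prod MeasurableSet.univ) ε hε
  refine ⟨N, fun m hm => ?_⟩
  have h1 := hN m hm
  have e1 : (⋂ i ∈ Finset.range (k + 1), (skew S φ)^[∑ j ∈ Finset.range i, m j] ⁻¹'
      (A i ×ˢ (univ : Set Y))) =
      (⋂ i ∈ Finset.range (k + 1), S^[∑ j ∈ Finset.range i, m j] ⁻¹' A i) ×ˢ (univ : Set Y) := by
    ext ⟨x, y⟩
    simp only [mem_iInter, mem_preimage, skew_iterate, mem_prod, mem_univ, and_true]
  rw [e1, measureReal_prod_prod] at h1
  simp only [measureReal_prod_prod, probReal_univ, mul_one] at h1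
  exact h1

theorem mixOrd_one {T : X → X} {k : ℕ} (hk : 1 ≤ k) (h : MixOrd μ T k) : MixOrd μ T 1 := by
  intro A hA ε hε
  obtain ⟨N, hN⟩ := h (fun i => if i ≤ 1 then A i else univ) (fun i => by
    change MeasurableSet (if i ≤ 1 then A i else univ)
    split_ifs
    · exact hA i
    · exact MeasurableSet.univ) ε hε
  refine ⟨N, fun m hm => ?_⟩
  have h1 := hN (fun j => if j = 0 then m 0 else N) (fun j _ => by
    change N ≤ if j = 0 then m 0 else N
    split_ifs
    · exact hm 0 zero_lt_one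
    · exact le_rfl)
  have e1 : (⋂ i ∈ Finset.range (k + 1), T^[∑ j ∈ Finset.range i, if j = 0 then m 0 else N] ⁻¹'
      (if i ≤ 1 then A i else univ)) =
      ⋂ i ∈ Finset.range (1 + 1), T^[∑ j ∈ Finset.range i, m j] ⁻¹' A i := by
    ext x
    simp only [mem_iInter, mem_preimage, Finset.mem_range]
    constructor
    · intro h i hi
      have h2 := h i (by omega)
      rw [if_pos (by omega)] at h2
      have h3 : ∑ j ∈ Finset.range i, (if j = 0 then m 0 else N) = ∑ j ∈ Finset.range i, m j := by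
        apply Finset.sum_congr rfl
        intro j hj
        have : j = 0 := by have := Finset.mem_range.mp hj; omega
        rw [if_pos this, this]
      rwa [h3] at h2
    · intro h i hi
      by_cases h1 : i ≤ 1
      · rw [if_pos h1]
        have h2 := h i (by omega)
        have h3 : ∑ j ∈ Finset.range i, (if j = 0 then m 0 else N) = ∑ j ∈ Finset.range i, m j := by
          apply Finset.sum_congr rfl
          intro j hj
          have : j = 0 := by have := Finset.mem_range.mp hj; omega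
          rw [if_pos this, this]
        rwa [h3]
      · rw [if_neg h1]; trivial
  have e2 : ∏ i ∈ Finset.range (k + 1), μ.real (if i ≤ 1 then A i else univ) =
      ∏ i ∈ Finset.range (1 + 1), μ.real (A i) := by
    rw [← Finset.prod_subset (Finset.range_mono (by omega : 1 + 1 ≤ k + 1))]
    · apply Finset.prod_congr rfl
      intro i hi
      rw [if_pos (by have := Finset.mem_range.mp hi; omega)]
    · intro i _ hi
      rw [if_neg (by rw [Finset.mem_range] at hi; omega), probReal_univ]
  rw [e1, e2] at h1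
  exact h1

theorem gmix_one [Infinite G] {k : ℕ} (hk : 1 ≤ k) (h : GMix ν G k) : GMix ν G 1 := by
  classical
  intro A hA ε hε
  obtain ⟨F, hF⟩ := h (fun i => if i ≤ 1 then A i else univ) (fun i => by
    change MeasurableSet (if i ≤ 1 then A i else univ)
    split_ifs
    · exact hA i
    · exact MeasurableSet.univ) ε hε
  refine ⟨F, fun g hg => ?_⟩
  have hfar : ∀ s : Finset G, ∃ y : G, ∀ x ∈ s, y * x⁻¹ ∉ F := by
    intro s
    obtain ⟨y, hy⟩ := Infinite.exists_notMem_finset (Finset.image₂ (· * ·) F s)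
    refine ⟨y, fun x hx hmem => hy ?_⟩
    rw [Finset.mem_image₂]
    exact ⟨y * x⁻¹, hmem, x, hx, by group⟩
  obtain ⟨f, hf1, hf2⟩ := exists_seq_of_forall_finset_exists
    (fun y : G => y * (g 0)⁻¹ ∉ F ∧ y * (g 1)⁻¹ ∉ F) (fun x y => y * x⁻¹ ∉ F) (by
      intro s _
      obtain ⟨y, hy⟩ := hfar (insert (g 0) (insert (g 1) s))
      exact ⟨y, ⟨hy _ (by simp), hy _ (by simp)⟩, fun x hx => hy x (by simp [hx])⟩)
  set g' : ℕ → G := fun i => if i = 0 then g 0 else if i = 1 then g 1 else f (i - 2) with hg'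
  have h1 := hF g' (by
    intro i j hij hjk
    simp only [hg']
    by_cases hj1 : j = 1
    · have hi0 : i = 0 := by omega
      subst hj1; subst hi0
      simpa using hg 0 1 zero_lt_one le_rfl
    · have hj2 : 2 ≤ j := by omega
      rw [if_neg (by omega : ¬ j = 0), if_neg hj1]
      by_cases hi0 : i = 0
      · rw [if_pos hi0]; exact (hf1 _).1
      · rw [if_neg hi0]
        by_cases hi1 : i = 1
        · rw [if_pos hi1]; exact (hf1 _).2
        · rw [if_neg hi1]; exact hf2 _ _ (by omega))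
  have e1 : (⋂ i ∈ Finset.range (k + 1), (fun y => g' i • y) ⁻¹' (if i ≤ 1 then A i else univ)) =
      ⋂ i ∈ Finset.range (1 + 1), (fun y => g i • y) ⁻¹' A i := by
    have hgg : ∀ i, i < 2 → g' i = g i := by
      intro i hi
      interval_cases i <;> simp [hg']
    ext x
    simp only [mem_iInter, mem_preimage, Finset.mem_range]
    constructor
    · intro h i hi
      have h2 := h i (by omega)
      rw [if_pos (by omega), hgg i hi] at h2
      exact h2
    · intro h i hi
      by_cases h1 : i ≤ 1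
      · rw [if_pos h1, hgg i (by omega)]
        exact h i (by omega)
      · rw [if_neg h1]; trivial
  have e2 : ∏ i ∈ Finset.range (k + 1), ν.real (if i ≤ 1 then A i else univ) =
      ∏ i ∈ Finset.range (1 + 1), ν.real (A i) := by
    rw [← Finset.prod_subset (Finset.range_mono (by omega : 1 + 1 ≤ k + 1))]
    · apply Finset.prod_congr rfl
      intro i hi
      rw [if_pos (by have := Finset.mem_range.mp hi; omega)]
    · intro i _ hi
      rw [if_neg (by rw [Finset.mem_range] at hi; omega), probReal_univ]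
  rw [e1, e2] at h1
  exact h1

theorem gmix_pair (h : GMix ν G 1) {A B : Set Y} (hA : MeasurableSet A) (hB : MeasurableSet B)
    {ε : ℝ} (hε : 0 < ε) : ∃ F : Finset G, ∀ g : G, g ∉ F →
      |ν.real (A ∩ (fun y => g • y) ⁻¹' B) - ν.real A * ν.real B| < ε := by
  obtain ⟨F, hF⟩ := h (fun i => if i = 0 then A else B) (fun i => by
    change MeasurableSet (if i = 0 then A else B)
    split_ifs
    · exact hA
    · exact hB) ε hε
  refine ⟨F, fun g hg => ?_⟩
  have h1 := hF (fun i => if i = 0 then 1 else g) (by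
    intro i j hij hj
    have hi : i = 0 := by omega
    have hj : j = 1 := by omega
    subst hi; subst hj
    simpa using hg)
  simpa [Finset.range_add_one, inter_comm, mul_comm] using h1

theorem small_sets [Infinite G] (h : GMix ν G 1) (hact : ∀ g : G, Measurable fun y : Y => g • y)
    (hnt : ∃ B : Set Y, MeasurableSet B ∧ 0 < ν.real B ∧ ν.real B < 1) {ε : ℝ} (hε : 0 < ε) :
    ∃ C : Set Y, MeasurableSet C ∧ 0 < ν.real C ∧ ν.real C < ε := by
  obtain ⟨B, hB, hB0, hB1⟩ := hnt
  set ρ : ℝ := (1 + ν.real B) / 2 with hρ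
  have hρ0 : 0 ≤ ρ := by rw [hρ]; linarith
  have hρ1 : ρ < 1 := by rw [hρ]; linarith
  have key : ∀ n : ℕ, ∃ C : Set Y, MeasurableSet C ∧ 0 < ν.real C ∧ ν.real C ≤ ρ ^ n := by
    intro n
    induction n with
    | zero => exact ⟨univ, MeasurableSet.univ, by simp, by simp⟩
    | succ n ih =>
      obtain ⟨C, hC, hC0, hC1⟩ := ih
      set δ : ℝ := min (ν.real C * ν.real B) (ν.real C * ((1 - ν.real B) / 2)) with hδ
      have hδ0 : 0 < δ := lt_min (mul_pos hC0 hB0) (mul_pos hC0 (by linarith))
      obtain ⟨F, hF⟩ := gmix_pair h hC hB hδ0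
      obtain ⟨g, hg⟩ := Infinite.exists_notMem_finset F
      have h1 := abs_lt.mp (hF g hg)
      refine ⟨C ∩ (fun y => g • y) ⁻¹' B, hC.inter (hact g hB), ?_, ?_⟩
      · have := min_le_left (ν.real C * ν.real B) (ν.real C * ((1 - ν.real B) / 2))
        linarith [h1.1]
      · have h2 := min_le_right (ν.real C * ν.real B) (ν.real C * ((1 - ν.real B) / 2))
        have h3 : ν.real (C ∩ (fun y => g • y) ⁻¹' B) ≤ ν.real C * ρ := by
          rw [hρ]; linarith [h1.2]
        calc _ ≤ ν.real C * ρ := h3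
          _ ≤ ρ ^ n * ρ := mul_le_mul_of_nonneg_right hC1 hρ0
          _ = ρ ^ (n + 1) := (pow_succ _ _).symm
  obtain ⟨n, hn⟩ := exists_pow_lt_of_lt_one hε hρ1
  obtain ⟨C, hC, hC0, hC1⟩ := key n
  exact ⟨C, hC, hC0, hC1.trans_lt hn⟩

theorem nec [Infinite G] [Countable G] [MeasurableSpace G] [MeasurableSingletonClass G]
    (hact : ∀ g : G, MeasurePreserving (fun y : Y => g • y) ν ν) (hG : GMix ν G 1)
    (hnt : ∃ B : Set Y, MeasurableSet B ∧ 0 < ν.real B ∧ ν.real B < 1)
    (h : MixOrd (μ.prod ν) (skew S φ) 1) (g₀ : G) :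
    Tendsto (fun n => μ.real {x | coc S φ n x = g₀}) atTop (𝓝 0) := by
  rw [Metric.tendsto_atTop]
  intro c hc
  obtain ⟨B, hB, hB0, hB1⟩ := small_sets hG (fun g => (hact g).measurable) hnt
    (ε := c / 2) (by positivity)
  set b := ν.real B with hb
  have hDm : MeasurableSet ((fun y : Y => g₀ • y) ⁻¹' B) := (hact g₀).measurable hB
  have hD : ν.real ((fun y : Y => g₀ • y) ⁻¹' B) = b :=
    (hact g₀).measureReal_preimage hB.nullMeasurableSet
  obtain ⟨N, hN⟩ := h (fun i => if i = 0 then univ ×ˢ ((fun y : Y => g₀ • y) ⁻¹' B) else univ ×ˢ B)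
    (fun i => by
      change MeasurableSet (if i = 0 then univ ×ˢ ((fun y : Y => g₀ • y) ⁻¹' B) else univ ×ˢ B)
      split_ifs
      · exact MeasurableSet.univ.prod hDm
      · exact MeasurableSet.univ.prod hB) (b ^ 2 / 2) (by positivity)
  refine ⟨N, fun n hn => ?_⟩
  have h1 := abs_lt.mp (hN (fun _ => n) (fun _ _ => hn))
  have h2 : (⋂ i ∈ Finset.range (1 + 1), (skew S φ)^[∑ j ∈ Finset.range i, n] ⁻¹'
      (if i = 0 then (univ : Set X) ×ˢ ((fun y : Y => g₀ • y) ⁻¹' B) else univ ×ˢ B)) =
      (univ ×ˢ ((fun y : Y => g₀ • y) ⁻¹' B)) ∩ (skew S φ)^[n] ⁻¹' (univ ×ˢ B) := by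
    ext p
    simp only [Finset.range_add_one, Finset.range_zero, mem_iInter, mem_preimage, mem_inter_iff,
      Finset.mem_insert]
    constructor
    · intro h
      refine ⟨by simpa using h 0 (by simp), by simpa using h 1 (by simp)⟩
    · rintro ⟨h1, h2⟩ i hi
      rcases hi with hi | hi | hi
      · subst hi; simpa using h2
      · subst hi; simpa using h1
      · simp at hi
  have h3 : ∏ i ∈ Finset.range (1 + 1), (μ.prod ν).real
      (if i = 0 then (univ : Set X) ×ˢ ((fun y : Y => g₀ • y) ⁻¹' B) else univ ×ˢ B) = b * b := by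
    simp [Finset.prod_range_succ, measureReal_prod_prod, hD, hb]
  rw [h2, h3] at h1
  have h4 : {x | coc S φ n x = g₀} ×ˢ ((fun y : Y => g₀ • y) ⁻¹' B) ⊆
      (univ ×ˢ ((fun y : Y => g₀ • y) ⁻¹' B)) ∩ (skew S φ)^[n] ⁻¹' (univ ×ˢ B) := by
    rintro ⟨x, y⟩ ⟨hx, hy⟩
    refine ⟨⟨trivial, hy⟩, ?_⟩
    rw [mem_preimage, skew_iterate]
    refine ⟨trivial, ?_⟩
    change coc S φ n x • y ∈ B
    rw [show coc S φ n x = g₀ from hx]
    exact hy
  have h5 := measureReal_mono (μ := μ.prod ν) h4 (measure_ne_top _ _)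
  rw [measureReal_prod_prod, hD] at h5
  rw [Real.dist_eq, sub_zero, abs_of_nonneg measureReal_nonneg]
  by_contra hcon
  push Not at hcon
  have h6 : c * b ≤ μ.real {x | coc S φ n x = g₀} * b := mul_le_mul_of_nonneg_right hcon hB0.le
  nlinarith [h1.2]

end Pool.Agent.Y264.Rok
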