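import Pool.Agent.Y264.En2

/-! Double sequences that become small. -/

namespace Pool.Agent.Y264
open Set Filter Topology

/-- `F l j` is at most `ε` for all large `l` and all `j ≥ l`. -/
def Small (F : ℕ → ℕ → ℝ) : Prop := ∀ ε > 0, ∃ L, ∀ l ≥ L, ∀ j ≥ l, F l j ≤ ε

theorem Small.mono {F H : ℕ → ℕ → ℝ} (hH : Small H) (h : ∀ l j, l ≤ j → F l j ≤ H l j) : Small F := by
  intro ε hε
  obtain ⟨L, hL⟩ := hH ε hε
  exact ⟨L, fun l hl j hj => (h l j hj).trans (hL l hl j hj)⟩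

theorem Small.add {F H : ℕ → ℕ → ℝ} (hF : Small F) (hH : Small H) :
    Small (fun l j => F l j + H l j) := by
  intro ε hε
  obtain ⟨L, hL⟩ := hF (ε / 2) (by positivity)
  obtain ⟨L', hL'⟩ := hH (ε / 2) (by positivity)
  refine ⟨max L L', fun l hl j hj => ?_⟩
  have h1 := hL l ((le_max_left _ _).trans hl) j hj
  have h2 := hL' l ((le_max_right _ _).trans hl) j hj
  linarith

theorem Small.smul {F : ℕ → ℕ → ℝ} (hF : Small F) {c : ℝ} (hc : 0 ≤ c) :
    Small (fun l j => c * F l j) := by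
  intro ε hε
  obtain ⟨L, hL⟩ := hF (ε / (c + 1)) (by positivity)
  refine ⟨L, fun l hl j hj => ?_⟩
  have h1 := hL l hl j hj
  calc c * F l j ≤ c * (ε / (c + 1)) := mul_le_mul_of_nonneg_left h1 hc
    _ ≤ (c + 1) * (ε / (c + 1)) := mul_le_mul_of_nonneg_right (by linarith) (by positivity)
    _ = ε := by field_simp

theorem Small.zero : Small (fun _ _ => 0) := fun ε hε => ⟨0, fun _ _ _ _ => hε.le⟩

theorem small_of_delta {F : ℕ → ℕ → ℝ} (h : ∀ δ > 0, ∃ (m : ℕ) (H : ℕ → ℕ → ℝ), Small H ∧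
    ∀ l j, m ≤ l → l ≤ j → F l j ≤ δ + H l j) : Small F := by
  intro ε hε
  obtain ⟨m, H, hH, h1⟩ := h (ε / 2) (by positivity)
  obtain ⟨L, hL⟩ := hH (ε / 2) (by positivity)
  refine ⟨max m L, fun l hl j hj => ?_⟩
  have h2 := h1 l j ((le_max_left _ _).trans hl) hj
  have h3 := hL l ((le_max_right _ _).trans hl) j hj
  linarith

theorem small_of_t {F : ℕ → ℕ → ℝ} {B : ℝ} (hB : 0 ≤ B) (h : ∀ t > 0, ∃ H : ℕ → ℕ → ℝ, Small H ∧
    ∀ l j, l ≤ j → F l j ≤ t * B + H l j) : Small F := by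
  apply small_of_delta
  intro δ hδ
  obtain ⟨H, hH, h1⟩ := h (δ / (B + 1)) (by positivity)
  refine ⟨0, H, hH, fun l j _ hlj => (h1 l j hlj).trans ?_⟩
  have : δ / (B + 1) * B ≤ δ := by
    rw [div_mul_eq_mul_div, div_le_iff₀ (by positivity)]
    nlinarith
  linarith

theorem small_seq {Q : ℕ → ℝ} {H : ℕ → ℕ → ℝ} (hH : Small H) (h : ∀ l j, l ≤ j → Q l ≤ Q j + H l j)
    {B : ℝ} (hB : ∀ l, Q l ≤ B) : Small (fun l j => Q j - Q l) := by
  intro ε hε
  obtain ⟨L, hL⟩ := hH (ε / 2) (by positivity)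
  have hbdd : BddAbove (Set.range fun l => Q (L + l)) := ⟨B, by rintro _ ⟨l, rfl⟩; exact hB _⟩
  obtain ⟨_, ⟨k, rfl⟩, hk⟩ := exists_lt_of_lt_csSup (Set.range_nonempty fun l => Q (L + l))
    (show sSup (Set.range fun l => Q (L + l)) - ε / 2 < sSup (Set.range fun l => Q (L + l)) by
      linarith)
  refine ⟨L + k, fun l hl j hj => ?_⟩
  have h1 : Q j ≤ sSup (Set.range fun l => Q (L + l)) := by
    apply le_csSup hbdd
    exact ⟨j - L, by simp only; congr 1; omega⟩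
  have h2 := h (L + k) l hl
  have h3 := hL (L + k) (Nat.le_add_right _ _) l hl
  simp only at hk
  linarith

end Pool.Agent.Y264
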