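import Pool.Agent.Y264.Alg2

/-! The algebra of smooth functions on `ℝ⁴` with its partial derivatives. -/

namespace Pool.Agent.Y264
open Matrix MeasureTheory Set Filter Topology
open scoped ContDiff

/-- Four dimensional Euclidean space. -/
abbrev E4 := EuclideanSpace ℝ (Fin 4)

/-- The standard basis vectors. -/
noncomputable def bv (i : Fin 4) : E4 := EuclideanSpace.single i 1

/-- The algebra of smooth functions. -/
def SSA : Subalgebra ℝ (E4 → ℝ) where
  carrier := {f | ContDiff ℝ ∞ f}
  mul_mem' := by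
    intro a b ha hb
    exact ContDiff.mul (show ContDiff ℝ ∞ a from ha) (show ContDiff ℝ ∞ b from hb)
  add_mem' := by
    intro a b ha hb
    exact ContDiff.add (show ContDiff ℝ ∞ a from ha) (show ContDiff ℝ ∞ b from hb)
  algebraMap_mem' := by
    intro r
    exact (contDiff_const : ContDiff ℝ ∞ (fun _ : E4 => r))

/-- The type of smooth functions. -/
abbrev SA : Type := SSA

theorem SA.cd (f : SA) : ContDiff ℝ ∞ f.1 := f.2

theorem SA.cont (f : SA) : Continuous f.1 := (SA.cd f).continuous

theorem SA.diff (f : SA) : Differentiable ℝ f.1 := (SA.cd f).differentiable (by simp)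

theorem SA.diffAt (f : SA) (x : E4) : DifferentiableAt ℝ f.1 x := SA.diff f x

/-- Partial derivatives. -/
noncomputable def D (i : Fin 4) (f : SA) : SA :=
  ⟨fun x => fderiv ℝ f.1 x (bv i), by
    have h : ContDiff ℝ ∞ (fderiv ℝ f.1) := (SA.cd f).fderiv_right (m := ∞) (by simp)
    exact h.clm_apply contDiff_const⟩

theorem D_val (i : Fin 4) (f : SA) (x : E4) : (D i f).1 x = fderiv ℝ f.1 x (bv i) := rfl

theorem SA.ext' {f g : SA} (h : ∀ x, f.1 x = g.1 x) : f = g := Subtype.ext (funext h)

theorem D_add (i : Fin 4) (f g : SA) : D i (f + g) = D i f + D i g := by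
  apply SA.ext'; intro x
  have : (f + g : SA).1 = fun y => f.1 y + g.1 y := rfl
  change fderiv ℝ (f + g : SA).1 x (bv i) = fderiv ℝ f.1 x (bv i) + fderiv ℝ g.1 x (bv i)
  rw [this, fderiv_fun_add (SA.diffAt f x) (SA.diffAt g x)]; rfl

theorem D_mul (i : Fin 4) (f g : SA) : D i (f * g) = f * D i g + g * D i f := by
  apply SA.ext'; intro x
  have : (f * g : SA).1 = fun y => f.1 y * g.1 y := rfl
  change fderiv ℝ (f * g : SA).1 x (bv i) = f.1 x * fderiv ℝ g.1 x (bv i) + g.1 x * fderiv ℝ f.1 x (bv i)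
  rw [this, fderiv_fun_mul (SA.diffAt f x) (SA.diffAt g x)]; rfl

theorem D_smul (i : Fin 4) (t : ℝ) (f : SA) : D i (t • f) = t • D i f := by
  apply SA.ext'; intro x
  have : (t • f : SA).1 = fun y => t * f.1 y := rfl
  change fderiv ℝ (t • f : SA).1 x (bv i) = t * fderiv ℝ f.1 x (bv i)
  rw [this, fderiv_const_mul (SA.diffAt f x)]; rfl

theorem D_neg (i : Fin 4) (f : SA) : D i (-f) = - D i f := by
  have h := D_smul i (-1) f
  simpa using h

theorem D_sub (i : Fin 4) (f g : SA) : D i (f - g) = D i f - D i g := by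
  rw [sub_eq_add_neg, D_add, D_neg, sub_eq_add_neg]

theorem D_zero (i : Fin 4) : D i 0 = 0 := by
  have h := D_smul i 0 0
  simpa using h

/-- Constants as smooth functions. -/
def cst (t : ℝ) : SA := algebraMap ℝ SA t

theorem cst_val (t : ℝ) (x : E4) : (cst t).1 x = t := rfl

theorem D_cst (i : Fin 4) (t : ℝ) : D i (cst t) = 0 := by
  apply SA.ext'; intro x
  change fderiv ℝ (fun _ => t) x (bv i) = 0
  simp

theorem D_one (i : Fin 4) : D i 1 = 0 := by
  have h := D_cst i 1
  simpa [cst] using h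

theorem D_comm (i j : Fin 4) (f : SA) : D i (D j f) = D j (D i f) := by
  apply SA.ext'; intro x
  change fderiv ℝ (fun y => fderiv ℝ f.1 y (bv j)) x (bv i) = fderiv ℝ (fun y => fderiv ℝ f.1 y (bv i)) x (bv j)
  have hd : DifferentiableAt ℝ (fderiv ℝ f.1) x :=
    ((SA.cd f).fderiv_right (m := ∞) (by simp)).differentiable (by simp) x
  rw [fderiv_clm_apply hd (differentiableAt_const _), fderiv_clm_apply hd (differentiableAt_const _)]
  simp only [fderiv_fun_const, Pi.zero_apply, ContinuousLinearMap.comp_zero, zero_add,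
    ContinuousLinearMap.flip_apply]
  have hs : IsSymmSndFDerivAt ℝ f.1 x := by
    apply ContDiffAt.isSymmSndFDerivAt (n := ∞) (SA.cd f).contDiffAt
    simp only [minSmoothness_of_isRCLikeNormedField]
    exact WithTop.coe_le_coe.mpr le_top
  exact hs (bv i) (bv j)

/-- Composition with a smooth function of one variable. -/
noncomputable def cmp (F : ℝ → ℝ) (hF : ContDiff ℝ ∞ F) (f : SA) : SA :=
  ⟨fun x => F (f.1 x), hF.comp (SA.cd f)⟩

theorem cmp_val (F : ℝ → ℝ) (hF : ContDiff ℝ ∞ F) (f : SA) (x : E4) :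
    (cmp F hF f).1 x = F (f.1 x) := rfl

theorem contDiff_deriv' {F : ℝ → ℝ} (hF : ContDiff ℝ ∞ F) : ContDiff ℝ ∞ (deriv F) := by
  have := (contDiff_infty_iff_deriv.mp hF).2
  exact this

theorem D_cmp (i : Fin 4) (F : ℝ → ℝ) (hF : ContDiff ℝ ∞ F) (f : SA) :
    D i (cmp F hF f) = cmp (deriv F) (contDiff_deriv' hF) f * D i f := by
  apply SA.ext'; intro x
  change fderiv ℝ (fun y => F (f.1 y)) x (bv i) = deriv F (f.1 x) * fderiv ℝ f.1 x (bv i)
  have h1 : HasDerivAt F (deriv F (f.1 x)) (f.1 x) :=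
    ((hF.differentiable (by simp)) (f.1 x)).hasDerivAt
  have h2 := h1.comp_hasFDerivAt x (SA.diffAt f x).hasFDerivAt
  have h3 : HasFDerivAt (fun y => F (f.1 y)) (deriv F (f.1 x) • fderiv ℝ f.1 x) x := h2
  rw [h3.fderiv]; rfl

theorem SA.add_val (f g : SA) (x : E4) : (f + g : SA).1 x = f.1 x + g.1 x := rfl
theorem SA.mul_val (f g : SA) (x : E4) : (f * g : SA).1 x = f.1 x * g.1 x := rfl
theorem SA.sub_val (f g : SA) (x : E4) : (f - g : SA).1 x = f.1 x - g.1 x := rfl
theorem SA.neg_val (f : SA) (x : E4) : (-f : SA).1 x = - f.1 x := rfl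
theorem SA.smul_val (t : ℝ) (f : SA) (x : E4) : (t • f : SA).1 x = t * f.1 x := rfl
theorem SA.zero_val (x : E4) : (0 : SA).1 x = 0 := rfl
theorem SA.one_val (x : E4) : (1 : SA).1 x = 1 := rfl

/-- Evaluation at a point. -/
def ev (x : E4) : SA →+* ℝ where
  toFun f := f.1 x
  map_one' := rfl
  map_mul' _ _ := rfl
  map_zero' := rfl
  map_add' _ _ := rfl

theorem ev_apply (x : E4) (f : SA) : ev x f = f.1 x := rfl

/-- The integral of a derivative of a compactly supported function vanishes. -/
theorem integral_D (i : Fin 4) (f : SA) (hf : HasCompactSupport f.1) : ∫ x, (D i f).1 x = 0 := by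
  have h := integral_mul_fderiv_eq_neg_fderiv_mul_of_integrable (μ := (volume : Measure E4))
    (f := fun _ : E4 => (1 : ℝ)) (g := f.1) (v := bv i) ?_ ?_ ?_ ?_ ?_
  · simp only [fderiv_fun_const, one_mul] at h
    simpa [D_val] using h
  · simp
  · simp only [one_mul]
    apply Continuous.integrable_of_hasCompactSupport (SA.cont (D i f))
    exact hf.fderiv_apply (𝕜 := ℝ) (bv i)
  · simp only [one_mul]
    exact (SA.cont f).integrable_of_hasCompactSupport hf
  · intro x _; exact differentiableAt_const _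
  · intro x _; exact SA.diffAt f x

/-- Compactly supported smooth functions. -/
def CS (f : SA) : Prop := HasCompactSupport f.1

theorem CS.add {f g : SA} (hf : CS f) (hg : CS g) : CS (f + g) :=
  HasCompactSupport.add (f := f.1) (f' := g.1) hf hg

theorem CS.sub {f g : SA} (hf : CS f) (hg : CS g) : CS (f - g) :=
  HasCompactSupport.sub (f := f.1) (f' := g.1) hf hg

theorem CS.neg {f : SA} (hf : CS f) : CS (-f) :=
  HasCompactSupport.neg (f := f.1) hf

theorem CS.mul_right {f : SA} (hf : CS f) (g : SA) : CS (f * g) :=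
  HasCompactSupport.mul_right (f := f.1) (f' := g.1) hf

theorem CS.mul_left {f : SA} (hf : CS f) (g : SA) : CS (g * f) :=
  HasCompactSupport.mul_left (f := g.1) (f' := f.1) hf

theorem CS.smul {f : SA} (hf : CS f) (t : ℝ) : CS (t • f) := by
  have h : (t • f : SA) = cst t * f := by
    apply SA.ext'; intro x; rfl
  rw [h]; exact hf.mul_left _

theorem CS.D {f : SA} (hf : CS f) (i : Fin 4) : CS (D i f) :=
  HasCompactSupport.fderiv_apply (𝕜 := ℝ) (f := f.1) hf (bv i)

theorem CS.integrable {f : SA} (hf : CS f) : Integrable f.1 :=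
  (SA.cont f).integrable_of_hasCompactSupport hf

/-- The integral of a smooth function. -/
noncomputable def It (f : SA) : ℝ := ∫ x, f.1 x

theorem It_add {f g : SA} (hf : CS f) (hg : CS g) : It (f + g) = It f + It g :=
  integral_add hf.integrable hg.integrable

theorem It_sub {f g : SA} (hf : CS f) (hg : CS g) : It (f - g) = It f - It g :=
  integral_sub hf.integrable hg.integrable

theorem It_smul (t : ℝ) (f : SA) : It (t • f) = t * It f :=
  integral_const_mul t f.1

theorem It_neg (f : SA) : It (-f) = -It f := integral_neg f.1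

theorem It_mono {f g : SA} (hf : CS f) (hg : CS g) (h : ∀ x, f.1 x ≤ g.1 x) : It f ≤ It g :=
  integral_mono hf.integrable hg.integrable h

theorem It_nonneg {f : SA} (h : ∀ x, 0 ≤ f.1 x) : 0 ≤ It f := integral_nonneg h

theorem It_D (i : Fin 4) {f : SA} (hf : CS f) : It (D i f) = 0 := integral_D i f hf

end Pool.Agent.Y264
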