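import Pool.Agent.Y264.Loc2

/-! Continuity of the Monge-Ampere pairing with respect to gradients in `L²`. -/

namespace Pool.Agent.Y264
open Matrix MeasureTheory Set Filter Topology
open scoped ContDiff

/-- Gradient pairing. -/
noncomputable def gb (a b : SA) : SA := D 0 a * D 0 b + D 1 a * D 1 b + D 2 a * D 2 b + D 3 a * D 3 b

theorem g2_eq_gb (a : SA) : g2 a = gb a a := rfl

theorem It_flux' (Φ : SA) (α : Fin 4 → SA) (β : Matrix (Fin 4) (Fin 4) SA)
    (h : ∀ i j, CS (β i j)) :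
    It (Φ * wd (dd α) β + wd (wg (gr Φ) α) β - Φ * tri α β) = 0 := by
  have hc : ∀ i, CS (flux Φ α β i) := by
    intro i
    have h' : ∀ (i j : Fin 4) (g : SA), CS (g * β i j) := fun i j g => (h i j).mul_left g
    have h2 : ∀ f g k : SA, CS f → CS g → CS k → CS (Φ * (f - g + k)) := fun f g k hf hg hk =>
      ((hf.sub hg).add hk).mul_left _
    fin_cases i
    · exact h2 _ _ _ (h' _ _ _) (h' _ _ _) (h' _ _ _)
    · exact (h2 _ _ _ (h' _ _ _) (h' _ _ _) (h' _ _ _)).neg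
    · exact h2 _ _ _ (h' _ _ _) (h' _ _ _) (h' _ _ _)
    · exact (h2 _ _ _ (h' _ _ _) (h' _ _ _) (h' _ _ _)).neg
  have hi : ∀ i j, CS (D j (flux Φ α β i)) := fun i j => (hc i).D j
  rw [stokes_pt, It_add (((hi 0 0).add (hi 1 1)).add (hi 2 2)) (hi 3 3),
    It_add ((hi 0 0).add (hi 1 1)) (hi 2 2), It_add (hi 0 0) (hi 1 1),
    It_D _ (hc 0), It_D _ (hc 1), It_D _ (hc 2), It_D _ (hc 3)]
  simp

theorem wd_comm_SA (P Q : Matrix (Fin 4) (Fin 4) SA) : wd P Q = wd Q P := by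
  simp only [wd]; ring

variable {J : Matrix (Fin 4) (Fin 4) SA} {S : Set E4}

theorem sup_wd_right {P Q : Matrix (Fin 4) (Fin 4) SA} (h : ∀ i j, Sup S (Q i j)) :
    Sup S (wd P Q) := by rw [wd_comm_SA]; exact sup_wd_left h

/-- First form of the weak identity. -/
theorem weak_id {Φ : SA} (hΦ : Sup S Φ) (a b : SA) :
    It (Φ * wd (om J a) (om J b)) = -It (wd (wg (gr a) (dc J b)) (om J Φ))
      - It (wd (wg (gr Φ) (dc J a) - wg (gr a) (dc J Φ)) (om J b)) := by
  have hdc : ∀ j, Sup S (dc J Φ j) := sup_dc hΦ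
  have hom : ∀ i j, Sup S (om J Φ i j) := sup_om hΦ
  have hgr : ∀ j, Sup S (gr Φ j) := fun j => hΦ.D j
  have h1 := It_flux Φ (dc J a) (om J b) (Or.inl hΦ.cs)
  have h2 := It_flux a (dc J Φ) (om J b) (Or.inr fun i => (hdc i).cs)
  have h3 := It_flux' a (dc J b) (om J Φ) (fun i j => (hom i j).cs)
  have t1 : tri (dc J a) (om J b) = 0 := tri_dd _ _
  have t2 : tri (dc J Φ) (om J b) = 0 := tri_dd _ _
  have t3 : tri (dc J b) (om J Φ) = 0 := tri_dd _ _
  rw [t1, mul_zero, sub_zero] at h1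
  rw [t2, mul_zero, sub_zero] at h2
  rw [t3, mul_zero, sub_zero] at h3
  change It (Φ * wd (om J a) (om J b) + wd (wg (gr Φ) (dc J a)) (om J b)) = 0 at h1
  change It (a * wd (om J Φ) (om J b) + wd (wg (gr a) (dc J Φ)) (om J b)) = 0 at h2
  change It (a * wd (om J b) (om J Φ) + wd (wg (gr a) (dc J b)) (om J Φ)) = 0 at h3
  have s1 : Sup S (Φ * wd (om J a) (om J b)) := hΦ.mul_right _
  have s2 : Sup S (wd (wg (gr Φ) (dc J a)) (om J b)) := sup_wd_left (sup_wg_left hgr)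
  have s3 : Sup S (a * wd (om J Φ) (om J b)) := (sup_wd_left hom).mul_left _
  have s4 : Sup S (wd (wg (gr a) (dc J Φ)) (om J b)) := sup_wd_left (sup_wg_right hdc)
  have s5 : Sup S (wd (wg (gr a) (dc J b)) (om J Φ)) := sup_wd_right hom
  rw [It_add s1.cs s2.cs] at h1
  rw [It_add s3.cs s4.cs] at h2
  rw [wd_comm_SA (om J b) (om J Φ), It_add s3.cs s5.cs] at h3
  have e : wd (wg (gr Φ) (dc J a) - wg (gr a) (dc J Φ)) (om J b) =
      wd (wg (gr Φ) (dc J a)) (om J b) - wd (wg (gr a) (dc J Φ)) (om J b) := by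
    simp only [wd, Matrix.sub_apply]; ring
  rw [e, It_sub s2.cs s4.cs]
  linarith

theorem abs_It_le {f g : SA} (hf : Sup S f) (hg : Sup S g) (h : ∀ x ∈ S, |f.1 x| ≤ g.1 x) :
    |It f| ≤ It g := by
  rw [abs_le]
  constructor
  · rw [← It_neg]
    exact It_le_on hg.neg hf fun x hx => (abs_le.mp (h x hx)).1
  · exact It_le_on hf hg fun x hx => (abs_le.mp (h x hx)).2

theorem abs_vv_dc_le {A : ℝ} {x : E4} (hA : ∀ i j, |mv x J i j| ≤ A) (b : SA) (i : Fin 4) :
    |vv x (dc J b) i| ≤ 4 * (A * nn b x) := by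
  rw [dc, st_val]
  exact abs_st_le hA (abs_gr_le b x) i

theorem mul_le_young {p q t : ℝ} (ht : 0 < t) : p * q ≤ t / 2 * q ^ 2 + 1 / (2 * t) * p ^ 2 := r_pq ht

variable {σ : ℝ} {ρ : SA} (G : Geo J σ S ρ)
include G

theorem weak_bound {Φ ζ : SA} (hΦ : Sup S Φ) (hζ : Sup S ζ) (hζ1 : ∀ x ∈ tsupport Φ.1, ζ.1 x = 1)
    (hζ0 : ∀ x, 0 ≤ ζ.1 x) :
    ∃ C, 0 ≤ C ∧ ∀ a b : SA, ∀ t, 0 < t → |It (Φ * mix J σ a b)| ≤
      C * (t / 2 * It (ζ * g2 b) + 1 / (2 * t) * It (ζ * g2 a)) := by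
  obtain ⟨A, hA0, hA⟩ := bound_entries G.cpt J
  obtain ⟨B, hB0, hB⟩ := bound_entries G.cpt (om J Φ)
  obtain ⟨C4, hC4, hq⟩ := exists_qq_bound G
  obtain ⟨CN, hCN, hN⟩ := exists_N2_bound G
  obtain ⟨M0, hM0, hΦb⟩ := Cut.bound G.cpt Φ
  obtain ⟨Mg, hMg0, hMg⟩ := Cut.bound G.cpt (g2 Φ)
  set C : ℝ := 4 * (6 * (2 * (1 * (4 * A)) * B)) + 2 * (6 * (2 * (2 * ((1 + Mg) * (4 * A))) * CN)) + M0 * C4 with hC
  have hC0 : 0 ≤ C := by positivity
  refine ⟨C, hC0, ?_⟩
  intro a b t ht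
  -- rewrite the integral
  have hz : ∀ x, x ∉ tsupport Φ.1 → Φ.1 x = 0 ∧ vv x (gr Φ) = 0 ∧ mv x (om J Φ) = 0 := fun x hx =>
    ⟨val_zero hx, by ext i; exact D_val_zero i hx, mv_om_zero hx⟩
  have hom := weak_id (J := J) hΦ a b
  have e1 : It (Φ * mix J σ a b) = 4 * σ * It (Φ * wd (om J a) (om J b)) - It (Φ * qq J σ a b) := by
    rw [← It_smul, ← It_sub ((hΦ.mul_right _).smul _).cs (hΦ.mul_right _).cs]
    congr 1
    apply SA.ext'
    intro x
    by_cases hx : x ∈ S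
    · simp only [SA.mul_val, SA.sub_val, SA.smul_val, mix_val, qq_val]
      rw [wd_val]
      have hb : mv x (om J b) = (1 / 2 : ℝ) • (mv x (H2 J b) + mv x (N2 J b)) := by
        rw [← om_eq, smul_smul]; norm_num
      have ha : mv x (om J a) = (1 / 2 : ℝ) • (mv x (H2 J a) + mv x (N2 J a)) := by
        rw [← om_eq, smul_smul]; norm_num
      have c1 := wd_inv_ainv (G.sq x hx) (asy_H2 J x a) (asy_N2 J x b) (inv_H2 (G.sq x hx) a)
        (ainv_N2 (G.sq x hx) b)
      have c2 := wd_inv_ainv (G.sq x hx) (asy_H2 J x b) (asy_N2 J x a) (inv_H2 (G.sq x hx) b)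
        (ainv_N2 (G.sq x hx) a)
      rw [wd_comm] at c2
      rw [ha, hb, wd_smul_left, wd_smul_right, wd_add_left, wd_add_right, wd_add_right, c1, c2]
      ring
    · have : Φ.1 x = 0 := hΦ.val hx
      simp only [SA.mul_val, SA.sub_val, SA.smul_val, this]; ring
  -- the antisymmetric part only sees `N2`
  have hgr : ∀ j, Sup S (gr Φ j) := fun j => hΦ.D j
  set Q := wg (gr Φ) (dc J a) - wg (gr a) (dc J Φ) with hQ
  have hQs : ∀ i j, Sup S (Q i j) := fun i j =>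
    (sup_wg_left hgr i j).sub' (sup_wg_right (sup_dc hΦ) i j)
  have e2 : It (wd Q (om J b)) = 1 / 2 * It (wd Q (N2 J b)) := by
    rw [← It_smul]
    congr 1
    apply SA.ext'
    intro x
    rw [SA.smul_val, wd_val, wd_val]
    by_cases hx : x ∈ S
    · have hb : mv x (om J b) = (1 / 2 : ℝ) • (mv x (H2 J b) + mv x (N2 J b)) := by
        rw [← om_eq, smul_smul]; norm_num
      have hQa : AInv (mv x J) (mv x Q) := by
        have e : mv x Q = wg (vv x (gr Φ)) (st (mv x J) (vv x (gr a)))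
            - wg (vv x (gr a)) (st (mv x J) (vv x (gr Φ))) := by
          rw [hQ, mv_sub, wg_val, wg_val, dc, dc, st_val, st_val]
        rw [e]
        exact ainv_ant (G.sq x hx) _ _
      have hQy : Asy (mv x Q) := by
        intro i j
        change (Q i j).1 x = -(Q j i).1 x
        simp only [hQ, Matrix.sub_apply, wg, SA.sub_val, SA.mul_val]
        ring
      have c1 := wd_inv_ainv (G.sq x hx) (asy_H2 J x b) hQy (inv_H2 (G.sq x hx) b) hQa
      rw [wd_comm] at c1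
      rw [hb, wd_smul_right, wd_add_right, c1, zero_add]
    · have : ∀ P, wd (mv x Q) P = 0 := by
        intro P
        have h0 : mv x Q = 0 := by
          ext i j; exact (hQs i j).val hx
        rw [h0]; simp [wd]
      rw [this, this]; ring
  rw [e2] at hom
  have hσ : ∀ x ∈ S, |σ| = 1 := fun x hx => abs_sigma' G hx
  -- target
  set T : SA := C • ((t / 2) • (ζ * g2 b) + (1 / (2 * t)) • (ζ * g2 a)) with hT
  have hTI : It T = C * (t / 2 * It (ζ * g2 b) + 1 / (2 * t) * It (ζ * g2 a)) := by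
    rw [hT, It_smul, It_add ((hζ.mul_right _).smul _).cs ((hζ.mul_right _).smul _).cs, It_smul, It_smul]
  rw [← hTI]
  set F : SA := (-(4 * σ)) • wd (wg (gr a) (dc J b)) (om J Φ) + (-(2 * σ)) • wd Q (N2 J b) - Φ * qq J σ a b with hF
  have hFs1 : Sup S (wd (wg (gr a) (dc J b)) (om J Φ)) := sup_wd_right (sup_om hΦ)
  have hFs2 : Sup S (wd Q (N2 J b)) := sup_wd_left hQs
  have hFs : Sup S F := ((hFs1.smul _).add (hFs2.smul _)).sub' (hΦ.mul_right _)
  have hFI : It (Φ * mix J σ a b) = It F := by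
    rw [e1, hom, hF, It_sub ((hFs1.smul _).add (hFs2.smul _)).cs (hΦ.mul_right _).cs,
      It_add (hFs1.smul _).cs (hFs2.smul _).cs, It_smul, It_smul]
    ring
  rw [hFI]
  apply abs_It_le hFs ((((hζ.mul_right _).smul _).add ((hζ.mul_right _).smul _)).smul _)
  intro x hx
  by_cases hxΦ : x ∈ tsupport Φ.1
  · have hζx := hζ1 x hxΦ
    have hs1 := hσ x hx
    have na := nn_nonneg a x
    have nb := nn_nonneg b x
    have nΦ := nn_nonneg Φ x
    have nΦle : nn Φ x ≤ 1 + Mg := by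
      have h1 : nn Φ x ^ 2 ≤ Mg := by rw [nn_sq]; exact (le_abs_self _).trans (hMg x hx)
      nlinarith [sq_nonneg (nn Φ x - 1)]
    have b1 : |wd (mv x (wg (gr a) (dc J b))) (mv x (om J Φ))| ≤ 6 * (2 * (nn a x * (4 * (A * nn b x))) * B) := by
      apply abs_wd_le _ (hB x hx)
      rw [wg_val]
      exact abs_wg_le (abs_gr_le a x) (abs_vv_dc_le (hA x hx) b)
    have b2 : |wd (mv x Q) (mv x (N2 J b))| ≤ 6 * ((2 * (nn Φ x * (4 * (A * nn a x))) + 2 * (nn a x * (4 * (A * nn Φ x)))) * (CN * nn b x)) := by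
      apply abs_wd_le _ (hN x hx b)
      intro i j
      rw [hQ, mv_sub, wg_val, wg_val]
      refine (abs_sub _ _).trans (add_le_add ?_ ?_)
      · exact abs_wg_le (abs_gr_le Φ x) (abs_vv_dc_le (hA x hx) a) i j
      · exact abs_wg_le (abs_gr_le a x) (abs_vv_dc_le (hA x hx) Φ) i j
    have b3 := hq x hx a b
    have b4 := hΦb x hx
    have hF' : F.1 x = -(4 * σ) * wd (mv x (wg (gr a) (dc J b))) (mv x (om J Φ))
        + -(2 * σ) * wd (mv x Q) (mv x (N2 J b)) - Φ.1 x * (qq J σ a b).1 x := by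
      simp only [hF, SA.sub_val, SA.add_val, SA.smul_val, SA.mul_val]
      rw [wd_val, wd_val]
    have hFle : |F.1 x| ≤ C * (nn a x * nn b x) := by
      rw [hF']
      have c1 : |-(4 * σ) * wd (mv x (wg (gr a) (dc J b))) (mv x (om J Φ))| ≤
          4 * (6 * (2 * (nn a x * (4 * (A * nn b x))) * B)) := by
        rw [abs_mul, abs_neg, abs_mul, hs1, abs_of_pos (show (0:ℝ) < 4 by norm_num), mul_one]
        exact mul_le_mul_of_nonneg_left b1 (by norm_num)
      have c2 : |-(2 * σ) * wd (mv x Q) (mv x (N2 J b))| ≤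
          2 * (6 * ((2 * (nn Φ x * (4 * (A * nn a x))) + 2 * (nn a x * (4 * (A * nn Φ x)))) * (CN * nn b x))) := by
        rw [abs_mul, abs_neg, abs_mul, hs1, abs_of_pos (show (0:ℝ) < 2 by norm_num), mul_one]
        exact mul_le_mul_of_nonneg_left b2 (by norm_num)
      have c3 : |Φ.1 x * (qq J σ a b).1 x| ≤ M0 * (C4 * (nn a x * nn b x)) := by
        rw [abs_mul]
        exact mul_le_mul b4 b3 (abs_nonneg _) hM0
      have c4 : nn Φ x * (A * (CN * (nn a x * nn b x))) ≤ (1 + Mg) * (A * (CN * (nn a x * nn b x))) :=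
        mul_le_mul_of_nonneg_right nΦle (by positivity)
      have c5 := abs_sub (-(4 * σ) * wd (mv x (wg (gr a) (dc J b))) (mv x (om J Φ))
        + -(2 * σ) * wd (mv x Q) (mv x (N2 J b))) (Φ.1 x * (qq J σ a b).1 x)
      have c6 := abs_add_le (-(4 * σ) * wd (mv x (wg (gr a) (dc J b))) (mv x (om J Φ)))
        (-(2 * σ) * wd (mv x Q) (mv x (N2 J b)))
      rw [hC]
      nlinarith
    have hTv : T.1 x = C * (t / 2 * nn b x ^ 2 + 1 / (2 * t) * nn a x ^ 2) := by
      simp only [hT, SA.smul_val, SA.add_val, SA.mul_val, hζx, nn_sq]; ring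
    rw [hTv]
    refine hFle.trans (mul_le_mul_of_nonneg_left ?_ hC0)
    exact mul_le_young ht
  · obtain ⟨z1, z2, z3⟩ := hz x hxΦ
    have hF0 : F.1 x = 0 := by
      have h0 : mv x Q = 0 := by
        have hd : vv x (dc J Φ) = 0 := by
          rw [dc, st_val, z2]; ext j; simp [st]
        rw [hQ, mv_sub, wg_val, wg_val, z2, hd]
        ext i j; simp [wg]
      have e3 : ∀ P, wd (0 : Matrix (Fin 4) (Fin 4) ℝ) P = 0 := by intro P; simp [wd]
      have e4 : ∀ P, wd P (0 : Matrix (Fin 4) (Fin 4) ℝ) = 0 := by intro P; simp [wd]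
      simp only [hF, SA.sub_val, SA.add_val, SA.smul_val, SA.mul_val]
      rw [wd_val, wd_val, z3, h0, z1, e3, e4]; ring
    rw [hF0, abs_zero]
    simp only [SA.smul_val, SA.add_val, SA.mul_val]
    have := hζ0 x
    have := g2_nonneg a x
    have := g2_nonneg b x
    positivity

end Pool.Agent.Y264
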