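import Pool.Agent.Y264.Sob1

/-! Sobolev convergence and Monge-Ampere limits. -/

namespace Pool.Agent.Y264
open Matrix MeasureTheory Set Filter Topology
open scoped ContDiff

theorem gb_le (a b : SA) (x : E4) : (gb a b).1 x ≤ 1 / 2 * (g2 a).1 x + 1 / 2 * (g2 b).1 x := by
  simp only [gb, g2, SA.add_val, SA.mul_val]
  nlinarith [sq_nonneg ((D 0 a).1 x - (D 0 b).1 x), sq_nonneg ((D 1 a).1 x - (D 1 b).1 x),
    sq_nonneg ((D 2 a).1 x - (D 2 b).1 x), sq_nonneg ((D 3 a).1 x - (D 3 b).1 x)]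

theorem gb_sub_right (a b c : SA) : gb a (b - c) = gb a b - gb a c := by
  simp only [gb, D_sub]; ring

/-- Divergence of `ζ ∇ b`. -/
noncomputable def dvg (ζ b : SA) : SA :=
  D 0 (ζ * D 0 b) + D 1 (ζ * D 1 b) + D 2 (ζ * D 2 b) + D 3 (ζ * D 3 b)

variable {S : Set E4}

theorem Sup.dvg {ζ : SA} (h : Sup S ζ) (b : SA) : Sup S (dvg ζ b) :=
  ((((h.mul_right _).D 0).add ((h.mul_right _).D 1)).add ((h.mul_right _).D 2)).add ((h.mul_right _).D 3)

theorem It_gb {ζ : SA} (h : Sup S ζ) (a b : SA) : It (ζ * gb a b) = -It (a * dvg ζ b) := by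
  have e : ζ * gb a b + a * dvg ζ b = D 0 (a * (ζ * D 0 b)) + D 1 (a * (ζ * D 1 b))
      + D 2 (a * (ζ * D 2 b)) + D 3 (a * (ζ * D 3 b)) := by
    simp only [gb, Pool.Agent.Y264.dvg, D_mul]; ring
  have hs : ∀ i, CS (a * (ζ * D i b)) := fun i => ((h.mul_right _).mul_left _).cs
  have hi : ∀ i, CS (D i (a * (ζ * D i b))) := fun i => (hs i).D i
  have h1 : It (ζ * gb a b + a * dvg ζ b) = 0 := by
    rw [e, It_add (((hi 0).add (hi 1)).add (hi 2)) (hi 3), It_add ((hi 0).add (hi 1)) (hi 2),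
      It_add (hi 0) (hi 1), It_D _ (hs 0), It_D _ (hs 1), It_D _ (hs 2), It_D _ (hs 3)]
    ring
  rw [It_add (h.mul_right _).cs ((h.dvg b).mul_left _).cs] at h1
  linarith

/-- Gradient of a sequence converges to zero when it is Cauchy and the functions tend to zero. -/
theorem grad_zero (hS : IsCompact S) {d : ℕ → SA}
    (h1 : ∀ ζ : SA, Cut S ζ → ∀ η > 0, ∃ N, ∀ k ≥ N, ∀ l ≥ N, It (ζ * g2 (d k - d l)) ≤ η)
    (h2 : ∀ ζ : SA, Cut S ζ → Tendsto (fun k => It (ζ * (d k * d k))) atTop (𝓝 0)) {ζ : SA}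
    (hζ : Cut S ζ) : Tendsto (fun k => It (ζ * g2 (d k))) atTop (𝓝 0) := by
  obtain ⟨ζ', hζ', hone⟩ := hζ.next hS
  have hs := hζ.sup
  have hs' := hζ'.sup
  have hnn : ∀ k, 0 ≤ It (ζ * g2 (d k)) := fun k =>
    It_nonneg fun x => mul_nonneg (hζ.nn x) (g2_nonneg _ _)
  -- pairing with a fixed function tends to zero
  have hpair : ∀ l, ∀ η > 0, ∃ N, ∀ k ≥ N, |It (d k * dvg ζ (d l))| ≤ η := by
    intro l η hη
    set h := dvg ζ (d l) with hh
    have hhs : Sup S h := hs.dvg _
    set I := It (ζ' * (h * h)) with hI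
    have hI0 : 0 ≤ I := It_nonneg fun x => mul_nonneg (hζ'.nn x) (mul_self_nonneg _)
    set t := η / (I + 1) with ht
    have ht0 : 0 < t := by positivity
    have hb : ∀ k, |It (d k * h)| ≤ t / 2 * I + 1 / (2 * t) * It (ζ' * (d k * d k)) := by
      intro k
      have e : t / 2 * I + 1 / (2 * t) * It (ζ' * (d k * d k)) =
          It ((t / 2) • (ζ' * (h * h)) + (1 / (2 * t)) • (ζ' * (d k * d k))) := by
        rw [It_add ((hs'.mul_right _).smul _).cs ((hs'.mul_right _).smul _).cs, It_smul, It_smul]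
      rw [e]
      apply abs_It_le (hhs.mul_left _) (((hs'.mul_right _).smul _).add ((hs'.mul_right _).smul _))
      intro x hx
      simp only [SA.add_val, SA.smul_val, SA.mul_val]
      by_cases hxt : x ∈ tsupport ζ.1
      · rw [hone x hxt, one_mul, one_mul, abs_mul]
        have := r_pq (p := |(d k).1 x|) (q := |h.1 x|) ht0
        rw [sq_abs, sq_abs] at this
        nlinarith
      · have hz : h.1 x = 0 := by
          have hD : ∀ i, (D i (ζ * D i (d l))).1 x = 0 := fun i => by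
            apply D_val_zero
            intro hc
            apply hxt
            exact closure_mono (by
              intro y hy hy0
              exact hy (by change ζ.1 y * _ = 0; rw [hy0, zero_mul])) hc
          simp only [hh, Pool.Agent.Y264.dvg, SA.add_val, hD]; ring
        rw [hz]
        simp only [mul_zero, abs_zero, zero_add]
        have := hζ'.nn x
        have := mul_self_nonneg ((d k).1 x)
        positivity
    have hlim := (h2 ζ' hζ').const_mul (1 / (2 * t))
    rw [mul_zero] at hlim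
    have hev := hlim.eventually_lt_const (show (0:ℝ) < η / 2 by positivity)
    obtain ⟨N, hN⟩ := eventually_atTop.mp hev
    refine ⟨N, fun k hk => (hb k).trans ?_⟩
    have h3 := hN k hk
    have h4 : t / 2 * I ≤ η / 2 := by
      rw [ht, div_div, div_mul_eq_mul_div, div_le_iff₀ (by positivity)]
      nlinarith
    linarith
  rw [Metric.tendsto_atTop]
  intro η hη
  obtain ⟨N1, hN1⟩ := h1 ζ hζ (η / 2) (by positivity)
  obtain ⟨N2, hN2⟩ := hpair N1 (η / 8) (by positivity)
  refine ⟨max N1 N2, fun k hk => ?_⟩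
  have hk1 : N1 ≤ k := (le_max_left _ _).trans hk
  have hk2 : N2 ≤ k := (le_max_right _ _).trans hk
  rw [Real.dist_eq, sub_zero, abs_of_nonneg (hnn k)]
  have e1 : It (ζ * g2 (d k)) = It (ζ * gb (d k) (d k - d N1)) + It (ζ * gb (d k) (d N1)) := by
    rw [← It_add (hs.mul_right _).cs (hs.mul_right _).cs, ← mul_add, gb_sub_right, sub_add_cancel]; rfl
  have e2 : It (ζ * gb (d k) (d k - d N1)) ≤ 1 / 2 * It (ζ * g2 (d k)) + 1 / 2 * It (ζ * g2 (d k - d N1)) := by
    rw [← It_smul, ← It_smul, ← It_add ((hs.mul_right _).smul _).cs ((hs.mul_right _).smul _).cs]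
    apply It_le_on (hs.mul_right _) (((hs.mul_right _).smul _).add ((hs.mul_right _).smul _))
    intro x hx
    have := mul_le_mul_of_nonneg_left (gb_le (d k) (d k - d N1) x) (hζ.nn x)
    simp only [SA.add_val, SA.smul_val, SA.mul_val]
    linarith
  have e3 := hN1 k hk1 N1 le_rfl
  have e4 := (neg_abs_le _).trans' (neg_le_neg (hN2 k hk2))
  rw [It_gb hs (d k) (d N1)] at e1
  have e5 := abs_le.mp (hN2 k hk2)
  linarith [e5.1]

variable {J : Matrix (Fin 4) (Fin 4) SA} {σ : ℝ} {ρ : SA} (G : Geo J σ S ρ)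
include G

theorem ma_limit {C0 : ℝ} (hC0 : 0 ≤ C0) {a f : ℕ → SA} (A : Seq J S C0 a)
    (h1 : ∀ ζ : SA, Cut S ζ → ∀ η > 0, ∃ N, ∀ k ≥ N, ∀ l ≥ N, It (ζ * g2 (f k - f l)) ≤ η)
    (h2 : ∀ ζ : SA, Cut S ζ → Tendsto (fun k => It (ζ * ((a k - f k) * (a k - f k)))) atTop (𝓝 0))
    {Φ : SA} (hΦc : CS Φ) (hΦ : tsupport Φ.1 ⊆ interior S) {m : ℝ}
    (hm : Tendsto (fun k => It (Φ * mix J σ (f k) (f k))) atTop (𝓝 m)) :
    Tendsto (fun k => It (Φ * mix J σ (a k) (a k))) atTop (𝓝 m) := by
  have hΦs : Sup S Φ := ⟨hΦc, hΦ.trans interior_subset⟩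
  obtain ⟨ζ, hζ, hζ1⟩ := exists_cut G.cpt hΦc.isCompact hΦ
  have hζ1' : ∀ x ∈ tsupport Φ.1, ζ.1 x = 1 := fun x hx => hζ1.self_of_nhdsSet x hx
  have hs := hζ.sup
  -- gradients of the decreasing sequence are Cauchy
  have hsymm : ∀ (p q : SA), g2 (p - q) = g2 (q - p) := by
    intro p q; rw [← g2_neg, neg_sub]
  have h3 : ∀ ζ : SA, Cut S ζ → ∀ η > 0, ∃ N, ∀ k ≥ N, ∀ l ≥ N, It (ζ * g2 (a k - a l)) ≤ η := by
    intro ζ hζ η hη
    obtain ⟨N, hN⟩ := L1b G A hC0 hζ η hη
    refine ⟨N, fun k hk l hl => ?_⟩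
    rcases le_total k l with h | h
    · exact hN k hk l h
    · rw [hsymm]; exact hN l hl k h
  have h4 : ∀ ζ : SA, Cut S ζ → ∀ η > 0, ∃ N, ∀ k ≥ N, ∀ l ≥ N,
      It (ζ * g2 ((a k - f k) - (a l - f l))) ≤ η := by
    intro ζ hζ η hη
    obtain ⟨N1, hN1⟩ := h1 ζ hζ (η / 4) (by positivity)
    obtain ⟨N2, hN2⟩ := h3 ζ hζ (η / 4) (by positivity)
    refine ⟨max N1 N2, fun k hk l hl => ?_⟩
    have e1 := hN1 k ((le_max_left _ _).trans hk) l ((le_max_left _ _).trans hl)
    have e2 := hN2 k ((le_max_right _ _).trans hk) l ((le_max_right _ _).trans hl)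
    have hs := hζ.sup
    have e3 : It (ζ * g2 ((a k - f k) - (a l - f l))) ≤ 2 * It (ζ * g2 (a k - a l)) + 2 * It (ζ * g2 (f k - f l)) := by
      rw [← It_smul, ← It_smul, ← It_add ((hs.mul_right _).smul _).cs ((hs.mul_right _).smul _).cs]
      apply It_le_on (hs.mul_right _) (((hs.mul_right _).smul _).add ((hs.mul_right _).smul _))
      intro x hx
      have e : (a k - f k) - (a l - f l) = (a k - a l) - (f k - f l) := by abel
      rw [e]
      have := mul_le_mul_of_nonneg_left (g2_sub_le (a k - a l) (f k - f l) x) (hζ.nn x)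
      simp only [SA.add_val, SA.smul_val, SA.mul_val]
      linarith
    linarith
  have h5 := grad_zero G.cpt h4 h2 hζ
  obtain ⟨B, hB0, hB⟩ := B1 G hζ C0
  obtain ⟨C, hC, hwb⟩ := weak_bound G hΦs hs hζ1' hζ.nn
  -- difference tends to zero
  have hdiff : Tendsto (fun k => It (Φ * mix J σ (a k) (a k)) - It (Φ * mix J σ (f k) (f k))) atTop (𝓝 0) := by
    have hid : ∀ k, It (Φ * mix J σ (a k) (a k)) - It (Φ * mix J σ (f k) (f k)) =
        It (Φ * mix J σ (a k - f k) (a k + f k)) := by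
      intro k
      rw [← It_sub (hΦs.mul_right _).cs (hΦs.mul_right _).cs, ← mul_sub]
      congr 2
      rw [mix_add_right, mix_sub_left, mix_sub_left, mix_comm J σ (f k) (a k)]
      abel
    have hbnd : ∀ k t, 0 < t → |It (Φ * mix J σ (a k) (a k)) - It (Φ * mix J σ (f k) (f k))| ≤
        C * (t / 2 * (8 * B + 2 * It (ζ * g2 (a k - f k))) + 1 / (2 * t) * It (ζ * g2 (a k - f k))) := by
      intro k t ht
      rw [hid]
      refine (hwb _ _ t ht).trans (mul_le_mul_of_nonneg_left ?_ hC)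
      apply add_le_add _ le_rfl
      apply mul_le_mul_of_nonneg_left _ (by positivity)
      have e3 : It (ζ * g2 (a k + f k)) ≤ 8 * It (ζ * g2 (a k)) + 2 * It (ζ * g2 (a k - f k)) := by
        rw [← It_smul, ← It_smul, ← It_add ((hs.mul_right _).smul _).cs ((hs.mul_right _).smul _).cs]
        apply It_le_on (hs.mul_right _) (((hs.mul_right _).smul _).add ((hs.mul_right _).smul _))
        intro x hx
        have e : a k + f k = (a k + a k) - (a k - f k) := by abel
        rw [e]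
        have q1 := g2_sub_le (a k + a k) (a k - f k) x
        have q2 := g2_add_le (a k) (a k) x
        have := mul_le_mul_of_nonneg_left (show (g2 (a k + a k - (a k - f k))).1 x ≤
          8 * (g2 (a k)).1 x + 2 * (g2 (a k - f k)).1 x by linarith) (hζ.nn x)
        simp only [SA.add_val, SA.smul_val, SA.mul_val]
        linarith
      have := hB (a k) (A.cls k)
      linarith
    rw [Metric.tendsto_atTop]
    intro η hη
    set t := η / (2 * (C * (8 * B + 2) + 1)) with ht
    have ht0 : 0 < t := by positivity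
    have hp : 0 < min 1 (η * t / (2 * (C + 1))) := by positivity
    have hev := h5.eventually_lt_const hp
    obtain ⟨N, hN⟩ := eventually_atTop.mp hev
    refine ⟨N, fun k hk => ?_⟩
    rw [Real.dist_eq, sub_zero]
    have q0 := hN k hk
    have q1 : It (ζ * g2 (a k - f k)) < 1 := q0.trans_le (min_le_left _ _)
    have q2 : It (ζ * g2 (a k - f k)) < η * t / (2 * (C + 1)) := q0.trans_le (min_le_right _ _)
    have q3 := hbnd k t ht0
    generalize It (ζ * g2 (a k - f k)) = y at *
    have hy : 0 ≤ C * (1 / (2 * t)) := by positivity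
    have q4 : C * (t / 2 * (8 * B + 2 * y)) ≤ C * (t / 2 * (8 * B + 2)) := by
      apply mul_le_mul_of_nonneg_left _ hC
      apply mul_le_mul_of_nonneg_left _ (by positivity)
      linarith
    have q5 : C * (t / 2 * (8 * B + 2)) ≤ η / 4 := by
      have : C * (t / 2 * (8 * B + 2)) = t * (C * (8 * B + 2)) / 2 := by ring
      rw [this, ht, div_mul_eq_mul_div, div_div, div_le_iff₀ (by positivity)]
      nlinarith
    have q6 : C * (1 / (2 * t) * y) ≤ C * (1 / (2 * t)) * (η * t / (2 * (C + 1))) := by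
      rw [← mul_assoc]
      exact mul_le_mul_of_nonneg_left q2.le hy
    have q7 : C * (1 / (2 * t)) * (η * t / (2 * (C + 1))) ≤ η / 4 := by
      have : C * (1 / (2 * t)) * (η * t / (2 * (C + 1))) = (C / (C + 1)) * (η / 4) := by
        field_simp; ring
      rw [this]
      have h9 : C / (C + 1) ≤ 1 := by rw [div_le_one (by positivity)]; linarith
      calc (C / (C + 1)) * (η / 4) ≤ 1 * (η / 4) := mul_le_mul_of_nonneg_right h9 (by positivity)
        _ = _ := one_mul _
    rw [mul_add] at q3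
    linarith
  have := hdiff.add hm
  rw [zero_add] at this
  exact this.congr fun k => by ring

end Pool.Agent.Y264
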