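import Pool.Agent.Y264.Par4

/-! Inequalities almost everywhere between limits of plurisubharmonic functions hold everywhere. -/

namespace Pool.Agent.Y264
open Matrix MeasureTheory Set Filter Topology
open scoped ContDiff

theorem glue_le_one (s : ℝ) : expNegInvGlue s ≤ 1 := by
  rcases le_or_gt s 0 with h | h
  · rw [expNegInvGlue.zero_of_nonpos h]; exact zero_le_one
  · rw [expNegInvGlue, if_neg (not_le.mpr h)]
    rw [Real.exp_le_one_iff]
    have : 0 < s⁻¹ := by positivity
    linarith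

variable {J : Matrix (Fin 4) (Fin 4) SA} {σ : ℝ} {S : Set E4} {ρ : SA}

theorem ae_const {z : E4} {R : ℝ} (hR : 0 < R) (G : Geo J σ (Metric.closedBall z R) ρ) {a : ℕ → SA}
    (ha : ∀ k, Psh J (Metric.closedBall z R) (a k))
    (hda : ∀ l j, l ≤ j → ∀ x ∈ Metric.closedBall z R, (a j).1 x ≤ (a l).1 x) {A : E4 → ℝ}
    (hA : ∀ x ∈ Metric.closedBall z R, Tendsto (fun k => (a k).1 x) atTop (𝓝 (A x)))
    {β : ℝ} (hae : ∀ᵐ x : E4, x ∈ Metric.closedBall z R → A x ≤ β) : A z ≤ β := by
  obtain ⟨C, hC, hsub⟩ := sub_bound G hR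
  obtain ⟨B0, hB00, hB0⟩ := Cut.bound G.cpt (a 0 - cst β)
  set S := Metric.closedBall z R with hS
  have hSm : MeasurableSet S := Metric.isClosed_closedBall.measurableSet
  have hz : z ∈ S := Metric.mem_closedBall_self hR.le
  set c : ℝ := 1 / (2 * (B0 + 1)) with hc
  have hc0 : 0 < c := by positivity
  let f : ℕ → SA := fun k => c • (a k - cst β)
  let w : ℕ → SA := fun k => cmp expNegInvGlue e_smooth (f k)
  have hfle : ∀ k, ∀ x ∈ S, (f k).1 x ≤ 1 / 2 := by
    intro k x hx
    have h1 : (a k).1 x - β ≤ B0 := by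
      have h2 := hda 0 k (Nat.zero_le k) x hx
      have h3 := (le_abs_self _).trans (hB0 x hx)
      rw [SA.sub_val, cst_val] at h3
      linarith
    change c * ((a k).1 x - β) ≤ 1 / 2
    have h4 := mul_le_mul_of_nonneg_left h1 hc0.le
    have h5 : c * B0 ≤ 1 / 2 := by
      rw [hc, one_div, inv_mul_le_iff₀ (by positivity)]
      linarith
    linarith
  have hw0 : ∀ k x, 0 ≤ (w k).1 x := fun k x => expNegInvGlue.nonneg _
  have hwL : ∀ k, ∀ x ∈ S, 0 ≤ (mix J σ (w k) ρ).1 x := by
    intro k x hx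
    change 0 ≤ (mix J σ (cmp expNegInvGlue e_smooth (f k)) ρ).1 x
    rw [mix_cmp G hx]
    have hf : (mix J σ (f k) ρ).1 x = c * (mix J σ (a k) ρ).1 x := by
      change (mix J σ (c • (a k - cst β)) ρ).1 x = _
      rw [mix_smul_left, mix_sub_left, mix_cst_left, sub_zero]; rfl
    have h1 := mix_rho_nonneg G hx (ha k)
    have h2 := Gam_nonneg G hx (psh_rho G) (f k)
    have h3 : 0 ≤ deriv expNegInvGlue ((f k).1 x) := e1_nonneg _
    have h4 : 0 ≤ deriv (deriv expNegInvGlue) ((f k).1 x) := e2_nonneg (hfle k x hx)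
    rw [hf]
    positivity
  have hlimf : ∀ x ∈ S, Tendsto (fun k => (w k).1 x) atTop (𝓝 (expNegInvGlue (c * (A x - β)))) := by
    intro x hx
    exact (e_smooth.continuous.tendsto _).comp (((hA x hx).sub_const β).const_mul c)
  have hint := kn_integrable z R
  have hT : Tendsto (fun k => ∫ x in S, (w k).1 x * kn z x) atTop
      (𝓝 (∫ x in S, expNegInvGlue (c * (A x - β)) * kn z x)) := by
    apply tendsto_integral_of_dominated_convergence (kn z)
    · intro k
      exact (SA.cont (w k)).aestronglyMeasurable.restrict.mul hint.aestronglyMeasurable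
    · exact hint
    · intro k
      apply Eventually.of_forall
      intro x
      rw [norm_mul, Real.norm_eq_abs, Real.norm_eq_abs, abs_of_nonneg (hw0 k x),
        abs_of_nonneg (kn_nonneg z x)]
      have := mul_le_mul_of_nonneg_right (glue_le_one ((f k).1 x)) (kn_nonneg z x)
      rw [one_mul] at this
      exact this
    · filter_upwards [ae_restrict_mem hSm] with x hx
      exact (hlimf x hx).mul_const _
  have hzero : ∫ x in S, expNegInvGlue (c * (A x - β)) * kn z x = 0 := by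
    rw [← integral_zero E4 ℝ (μ := volume.restrict S)]
    apply integral_congr_ae
    filter_upwards [ae_restrict_mem hSm, ae_restrict_of_ae hae] with x hx hx2
    rw [expNegInvGlue.zero_of_nonpos, zero_mul]
    exact mul_nonpos_of_nonneg_of_nonpos hc0.le (by linarith [hx2 hx])
  rw [hzero] at hT
  have h1 : expNegInvGlue (c * (A z - β)) ≤ C * 0 :=
    le_of_tendsto_of_tendsto (hlimf z hz) (hT.const_mul C)
      (Eventually.of_forall fun k => hsub (w k) (fun x _ => hw0 k x) (hwL k))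
  rw [mul_zero] at h1
  by_contra hcon
  push Not at hcon
  have h2 : 0 < expNegInvGlue (c * (A z - β)) :=
    expNegInvGlue.pos_of_pos (mul_pos hc0 (by linarith))
  linarith

theorem ae_to_all (G : Geo J σ S ρ) {a b : ℕ → SA} (ha : ∀ k, Psh J S (a k))
    (hda : ∀ l j, l ≤ j → ∀ x ∈ S, (a j).1 x ≤ (a l).1 x)
    (hdb : ∀ l j, l ≤ j → ∀ x ∈ S, (b j).1 x ≤ (b l).1 x) {A B : E4 → ℝ}
    (hA : ∀ x ∈ S, Tendsto (fun k => (a k).1 x) atTop (𝓝 (A x)))
    (hB : ∀ x ∈ S, Tendsto (fun k => (b k).1 x) atTop (𝓝 (B x)))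
    {O : Set E4} (hO : IsOpen O) (hOS : O ⊆ S) (hae : ∀ᵐ x : E4, x ∈ O → A x ≤ B x) :
    ∀ x ∈ O, A x ≤ B x := by
  intro z hz
  apply le_of_forall_gt_imp_ge_of_dense
  intro β hβ
  -- a member of the second sequence below `β` at the point
  obtain ⟨k, hk⟩ := ((hB z (hOS hz)).eventually_lt_const hβ).exists
  have hnb : ∀ᶠ x in 𝓝 z, (b k).1 x < β := (SA.cont (b k)).continuousAt.eventually_lt_const hk
  have hnO : ∀ᶠ x in 𝓝 z, x ∈ O := hO.mem_nhds hz
  obtain ⟨r, hr0, hr⟩ := Metric.nhds_basis_closedBall.eventually_iff.mp (hnb.and hnO)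
  have hsub : Metric.closedBall z r ⊆ S := fun x hx => hOS (hr hx).2
  have G' : Geo J σ (Metric.closedBall z r) ρ := G.sub (isCompact_closedBall z r) hsub
  apply ae_const hr0 G' (a := a) (fun k x hx => ha k x (hsub hx))
    (fun l j hlj x hx => hda l j hlj x (hsub hx)) (fun x hx => hA x (hsub hx))
  filter_upwards [hae] with x hx hxr
  have h1 := hr hxr
  have h2 : B x ≤ (b k).1 x :=
    le_of_tendsto (hB x (hsub hxr)) (eventually_atTop.mpr ⟨k, fun l hl => hdb k l hl x (hsub hxr)⟩)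
  exact (hx h1.2).trans (h2.trans h1.1.le)

end Pool.Agent.Y264
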