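import Pool.Agent.Y264.Man3

/-! Transfer of the coordinate expressions to the standard Euclidean space. -/

namespace Pool.Agent.Y264
open Matrix MeasureTheory Set Filter Topology
open scoped ContDiff Manifold

section
variable {E : Type*} [NormedAddCommGroup E] [InnerProductSpace ℝ E] (L : E ≃ₗᵢ[ℝ] E4)

/-- The inverse isometry as a continuous linear map. -/
noncomputable def Ls : E4 →L[ℝ] E := (L.symm.toContinuousLinearEquiv : E4 →L[ℝ] E)

/-- The isometry as a continuous linear map. -/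
noncomputable def Lf : E →L[ℝ] E4 := (L.toContinuousLinearEquiv : E →L[ℝ] E4)

theorem Ls_apply (y : E4) : Ls L y = L.symm y := rfl
theorem Lf_apply (y : E) : Lf L y = L y := rfl

/-- Transported endomorphism field. -/
noncomputable def jT (j : E → E →L[ℝ] E) (y : E4) : E4 →L[ℝ] E4 :=
  (Lf L).comp ((j (L.symm y)).comp (Ls L))

theorem jT_apply (j : E → E →L[ℝ] E) (y X : E4) : jT L j y X = L (j (L.symm y) (L.symm X)) := rfl

theorem fderiv_T (g : E → ℝ) (y : E4) : fderiv ℝ (g ∘ L.symm) y = (fderiv ℝ g (L.symm y)).comp (Ls L) :=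
  L.symm.toContinuousLinearEquiv.comp_right_fderiv

theorem dc_T (j : E → E →L[ℝ] E) (g : E → ℝ) (y : E4) :
    ACS.dc (jT L j) (g ∘ L.symm) y = (ACS.dc j g (L.symm y)).comp (Ls L) := by
  ext X
  simp only [ACS.dc, fderiv_T, ContinuousLinearMap.neg_apply, ContinuousLinearMap.comp_apply, jT_apply,
    Ls_apply, LinearIsometryEquiv.symm_apply_apply]

theorem fderiv_dc_T {j : E → E →L[ℝ] E} {g : E → ℝ} {y : E4}
    (hd : DifferentiableAt ℝ (ACS.dc j g) (L.symm y)) (X Y : E4) :
    fderiv ℝ (ACS.dc (jT L j) (g ∘ L.symm)) y X Y = fderiv ℝ (ACS.dc j g) (L.symm y) (L.symm X) (L.symm Y) := by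
  have h1 : ACS.dc (jT L j) (g ∘ L.symm) = fun y => ((ContinuousLinearMap.compL ℝ E4 E ℝ).flip (Ls L)) (ACS.dc j g (L.symm y)) := by
    funext y; rw [dc_T]; rfl
  have h2 : HasFDerivAt (fun y => ACS.dc j g (L.symm y)) ((fderiv ℝ (ACS.dc j g) (L.symm y)).comp (Ls L)) y :=
    hd.hasFDerivAt.comp y (Ls L).hasFDerivAt
  have h3 : HasFDerivAt (fun y => ((ContinuousLinearMap.compL ℝ E4 E ℝ).flip (Ls L)) (ACS.dc j g (L.symm y)))
      (((ContinuousLinearMap.compL ℝ E4 E ℝ).flip (Ls L)).comp ((fderiv ℝ (ACS.dc j g) (L.symm y)).comp (Ls L))) y :=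
    ((ContinuousLinearMap.compL ℝ E4 E ℝ).flip (Ls L)).hasFDerivAt.comp y h2
  rw [h1, h3.fderiv]
  rfl

theorem dc_T_diff {j : E → E →L[ℝ] E} {g : E → ℝ} {y : E4}
    (hd : DifferentiableAt ℝ (ACS.dc j g) (L.symm y)) :
    DifferentiableAt ℝ (ACS.dc (jT L j) (g ∘ L.symm)) y := by
  have h1 : ACS.dc (jT L j) (g ∘ L.symm) = fun y => ((ContinuousLinearMap.compL ℝ E4 E ℝ).flip (Ls L)) (ACS.dc j g (L.symm y)) := by
    funext y; rw [dc_T]; rfl
  rw [h1]
  exact ((ContinuousLinearMap.compL ℝ E4 E ℝ).flip (Ls L)).differentiableAt.comp y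
    (hd.comp y (Ls L).differentiableAt)

theorem ddc_T {j : E → E →L[ℝ] E} {g : E → ℝ} {y : E4}
    (hd : DifferentiableAt ℝ (ACS.dc j g) (L.symm y)) (X Y : E4) :
    ACS.ddc (jT L j) (g ∘ L.symm) y X Y = ACS.ddc j g (L.symm y) (L.symm X) (L.symm Y) := by
  rw [ACS.ddc, ACS.ddc, fderiv_dc_T L hd, fderiv_dc_T L hd]

theorem ddbar_T {j : E → E →L[ℝ] E} {g : E → ℝ} {y : E4}
    (hd : DifferentiableAt ℝ (ACS.dc j g) (L.symm y)) (X Y : E4) :
    ACS.ddbar (jT L j) (g ∘ L.symm) y X Y = ACS.ddbar j g (L.symm y) (L.symm X) (L.symm Y) := by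
  rw [ACS.ddbar, ACS.ddbar, ddc_T L hd, ddc_T L hd]
  simp only [jT_apply, LinearIsometryEquiv.symm_apply_apply]

theorem levi_T {j : E → E →L[ℝ] E} {g : E → ℝ} {y : E4}
    (hd : DifferentiableAt ℝ (ACS.dc j g) (L.symm y)) (X : E4) :
    ACS.levi (jT L j) (g ∘ L.symm) y X = ACS.levi j g (L.symm y) (L.symm X) := by
  rw [ACS.levi, ACS.levi, ddbar_T L hd]
  simp only [jT_apply, LinearIsometryEquiv.symm_apply_apply]

theorem herm_T (j : E → E →L[ℝ] E) (y X Y : E4) :
    ACS.herm (jT L j y) X Y = ACS.herm (j (L.symm y)) (L.symm X) (L.symm Y) := by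
  simp only [ACS.herm, jT_apply]
  congr 1
  · rw [← L.inner_map_map (j (L.symm y) (L.symm X)) (L.symm Y), L.apply_symm_apply]
  · rw [← L.inner_map_map (L.symm X), L.apply_symm_apply]

end

section
variable {E : Type*} [NormedAddCommGroup E] [InnerProductSpace ℝ E] (b : OrthonormalBasis (Fin 4) ℝ E)

theorem repr_symm_b4 (i : Fin 4) : b.repr.symm (b4 i) = b i := by
  rw [b4_apply, bv]
  exact b.repr_symm_single i

theorem maDens_T {j : E → E →L[ℝ] E} {g : E → ℝ} {y : E4}
    (hd : DifferentiableAt ℝ (ACS.dc j g) (b.repr.symm y)) :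
    ACS.maDens b4 (jT b.repr j) (g ∘ b.repr.symm) y = ACS.maDens b j g (b.repr.symm y) := by
  simp only [ACS.maDens, ACS.pf, ddbar_T b.repr hd, herm_T, repr_symm_b4]

end

section
variable {E : Type*} [NormedAddCommGroup E] [InnerProductSpace ℝ E] [FiniteDimensional ℝ E]
  [MeasurableSpace E] [BorelSpace E] (L : E ≃ₗᵢ[ℝ] E4)

theorem eLp_T {V W : Type*} [NormedAddCommGroup V] [NormedAddCommGroup W] {g : E4 → V} {h : E → W}
    (hgh : ∀ y, ‖g y‖ = ‖h (L.symm y)‖) {S : Set E4} (hS : IsCompact S) :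
    eLpNorm g 2 (volume.restrict S) = eLpNorm h 2 (volume.restrict (L.symm '' S)) := by
  have hmp : MeasurePreserving L.symm (volume : Measure E4) (volume : Measure E) := L.symm.measurePreserving
  have hpre : L.symm ⁻¹' (L.symm '' S) = S := preimage_image_eq S L.symm.injective
  have hSm : MeasurableSet (L.symm '' S) := (hS.image L.symm.continuous).measurableSet
  have h1 : MeasurePreserving L.symm (volume.restrict S) (volume.restrict (L.symm '' S)) := by
    have := hmp.restrict_preimage hSm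
    rwa [hpre] at this
  have h2 : MeasurableEmbedding (L.symm : E4 → E) := L.symm.toHomeomorph.measurableEmbedding
  rw [← h1.map_eq, h2.eLpNorm_map_measure]
  apply eLpNorm_congr_norm_ae
  exact Eventually.of_forall hgh

theorem integral_T (F : E → ℝ) : ∫ y, F (L.symm y) = ∫ y, F y :=
  (L.symm.measurePreserving).integral_comp L.symm.toHomeomorph.measurableEmbedding F

theorem norm_comp_T (A : E →L[ℝ] ℝ) : ‖A.comp (Ls L)‖ = ‖A‖ := by
  apply le_antisymm
  · apply ContinuousLinearMap.opNorm_le_bound _ (norm_nonneg _)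
    intro x
    have h := A.le_opNorm (L.symm x)
    rw [L.symm.norm_map] at h
    exact h
  · apply ContinuousLinearMap.opNorm_le_bound _ (norm_nonneg _)
    intro x
    have h := (A.comp (Ls L)).le_opNorm (L x)
    rw [L.norm_map] at h
    simpa [Ls] using h

end

end Pool.Agent.Y264
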